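import Pool.Agent.H875.Cube
set_option autoImplicit false

/-! Realising antipodal metrics on four points. -/

namespace Pool.Agent.H875

theorem exists_coloring {κ : Type*} [Fintype κ] [DecidableEq κ] (n : κ → ℕ) (k : ℕ) (h : ∑ c, n c = k) :
    ∃ f : Fin k → κ, ∀ P : κ → Prop, ∀ [DecidablePred P],
      (Finset.univ.filter fun i => P (f i)).card = ∑ c, if P c then n c else 0 := by
  classical
  have hc : Fintype.card (Σ c : κ, Fin (n c)) = k := by
    rw [Fintype.card_sigma]; simpa using h
  let e : Fin k ≃ (Σ c : κ, Fin (n c)) := (Fintype.equivFinOfCardEq hc).symm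
  refine ⟨fun i => (e i).1, fun P _ => ?_⟩
  have h1 : (Finset.univ.filter fun i => P (e i).1).card =
      (Finset.univ.filter fun s : (Σ c : κ, Fin (n c)) => P s.1).card := by
    apply Finset.card_bij (fun i _ => e i)
    · intro i hi; simpa using hi
    · intro i _ j _ hij; exact e.injective hij
    · intro s hs; exact ⟨e.symm s, by simpa using hs, by simp⟩
  rw [h1]
  rw [Finset.card_filter, Fintype.sum_sigma]
  apply Finset.sum_congr rfl
  intro c _
  by_cases hP : P c
  · simp [hP]
  · simp [hP]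

/-- four points (one of them the origin) -/
theorem realize3 (k α β γ dab dac dbc : ℕ)
    (p1 : Even (α + β + dab)) (p2 : Even (α + γ + dac)) (p3 : Even (β + γ + dbc))
    (a1 : dab ≤ α + β) (a2 : α ≤ β + dab) (a3 : β ≤ α + dab) (a4 : α + β + dab ≤ 2 * k)
    (b1 : dac ≤ α + γ) (b2 : α ≤ γ + dac) (b3 : γ ≤ α + dac) (b4 : α + γ + dac ≤ 2 * k)
    (c1 : dbc ≤ β + γ) (c2 : β ≤ γ + dbc) (c3 : γ ≤ β + dbc) (c4 : β + γ + dbc ≤ 2 * k)
    (t1 : dab ≤ dac + dbc) (t2 : dac ≤ dab + dbc) (t3 : dbc ≤ dab + dac) (t4 : dab + dac + dbc ≤ 2 * k) :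
    ∃ A B C : Fin k → Bool, wt A = α ∧ wt B = β ∧ wt C = γ ∧ hammingDist A B = dab ∧
      hammingDist A C = dac ∧ hammingDist B C = dbc := by
  obtain ⟨q1, hq1⟩ := p1
  obtain ⟨q2, hq2⟩ := p2
  obtain ⟨q3, hq3⟩ := p3
  -- x = |A ∩ B|, y = |A ∩ C|, z = |B ∩ C|
  obtain ⟨x, hx⟩ : ∃ x : ℕ, 2 * x + dab = α + β := ⟨q1 - dab, by omega⟩
  obtain ⟨y, hy⟩ : ∃ y : ℕ, 2 * y + dac = α + γ := ⟨q2 - dac, by omega⟩
  obtain ⟨z, hz⟩ : ∃ z : ℕ, 2 * z + dbc = β + γ := ⟨q3 - dbc, by omega⟩
  obtain ⟨t, h1, h2, h3, h4, h5, h6, h7⟩ : ∃ t : ℕ, x + y ≤ t + α ∧ x + z ≤ t + β ∧ y + z ≤ t + γ ∧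
      t ≤ x ∧ t ≤ y ∧ t ≤ z ∧ t + α + β + γ ≤ k + x + y + z := by
    refine ⟨max (x + y - α) (max (x + z - β) (y + z - γ)), ?_⟩
    omega
  -- region sizes
  obtain ⟨f, hf⟩ := exists_coloring (κ := Bool × Bool × Bool)
    (fun c => match c with
      | (true, true, true) => t
      | (true, true, false) => x - t
      | (true, false, true) => y - t
      | (false, true, true) => z - t
      | (true, false, false) => α + t - x - y
      | (false, true, false) => β + t - x - z
      | (false, false, true) => γ + t - y - z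
      | (false, false, false) => k + x + y + z - α - β - γ - t) k (by
      simp only [Fintype.sum_prod_type, Fintype.sum_bool]
      omega)
  refine ⟨fun i => (f i).1, fun i => (f i).2.1, fun i => (f i).2.2, ?_, ?_, ?_, ?_, ?_, ?_⟩
  · have := hf (fun c => c.1 ≠ false)
    simp only [Fintype.sum_prod_type, Fintype.sum_bool] at this
    unfold wt hammingDist zr
    simp at this ⊢
    rw [this]; omega
  · have := hf (fun c => c.2.1 ≠ false)
    simp only [Fintype.sum_prod_type, Fintype.sum_bool] at this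
    unfold wt hammingDist zr
    simp at this ⊢
    rw [this]; omega
  · have := hf (fun c => c.2.2 ≠ false)
    simp only [Fintype.sum_prod_type, Fintype.sum_bool] at this
    unfold wt hammingDist zr
    simp at this ⊢
    rw [this]; omega
  · have := hf (fun c => c.1 ≠ c.2.1)
    simp only [Fintype.sum_prod_type, Fintype.sum_bool] at this
    unfold hammingDist
    simp at this ⊢
    rw [this]; omega
  · have := hf (fun c => c.1 ≠ c.2.2)
    simp only [Fintype.sum_prod_type, Fintype.sum_bool] at this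
    unfold hammingDist
    simp at this ⊢
    rw [this]; omega
  · have := hf (fun c => c.2.1 ≠ c.2.2)
    simp only [Fintype.sum_prod_type, Fintype.sum_bool] at this
    unfold hammingDist
    simp at this ⊢
    rw [this]; omega

end Pool.Agent.H875
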