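import Pool.Agent.H875.Root
import Pool.Agent.H875.Four
set_option autoImplicit false

/-! Heights, and the case of at most three vertices. -/

open Classical

namespace Pool.Agent.H875
open SgK4

variable {V : Type} {k : ℕ}

/-- heights: prescribed weights compatible with all constraints -/
structure Ht (k : ℕ) (p : V → ℤ) (g : V → ℕ) (W : V → V → ℤ → ℕ → Prop) (S : Finset V) : Prop where
  le : ∀ a ∈ S, g a ≤ k
  par : ∀ a ∈ S, Even ((g a : ℤ) - p a)
  ev : ∀ a ∈ S, ∀ b ∈ S, ∀ x l, W a b x l → Even x → |(g a : ℤ) - g b| ≤ l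
  od : ∀ a ∈ S, ∀ b ∈ S, ∀ x l, W a b x l → Odd x → |(g a : ℤ) + g b - k| ≤ l

theorem Ht.wk {p : V → ℤ} {g : V → ℕ} {W : V → V → ℤ → ℕ → Prop} {S : Finset V} (h : Ht k p g W S) {a b : V} {x : ℤ}
    {l : ℕ} (hw : Wk W S a b x l) :
    (Even x → |(g a : ℤ) - g b| ≤ l) ∧ (Odd x → |(g a : ℤ) + g b - k| ≤ l) := by
  induction hw with
  | nil a ha =>
    refine ⟨fun _ => by simp, fun ho => ?_⟩
    exact absurd ho (by decide)
  | @cons a b c x y l m ha hW t ih =>
    have h1 := h.ev a ha b t.left_mem x l hW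
    have h2 := h.od a ha b t.left_mem x l hW
    rcases Int.even_or_odd x with hx | hx <;> rcases Int.even_or_odd y with hy | hy
    · have e1 := h1 hx
      have e2 := ih.1 hy
      refine ⟨fun _ => ?_, fun ho => absurd (hx.add hy) (Int.not_even_iff_odd.mpr ho)⟩
      rw [abs_le] at *
      push_cast
      constructor <;> linarith [e1.1, e1.2, e2.1, e2.2]
    · have e1 := h1 hx
      have e2 := ih.2 hy
      refine ⟨fun he => absurd he (Int.not_even_iff_odd.mpr (hx.add_odd hy)), fun _ => ?_⟩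
      rw [abs_le] at *
      push_cast
      constructor <;> linarith [e1.1, e1.2, e2.1, e2.2]
    · have e1 := h2 hx
      have e2 := ih.1 hy
      refine ⟨fun he => absurd he (Int.not_even_iff_odd.mpr (hx.add_even hy)), fun _ => ?_⟩
      rw [abs_le] at *
      push_cast
      constructor <;> linarith [e1.1, e1.2, e2.1, e2.2]
    · have e1 := h2 hx
      have e2 := ih.2 hy
      refine ⟨fun _ => ?_, fun ho => absurd (hx.add_odd hy) (Int.not_even_iff_odd.mpr ho)⟩
      rw [abs_le] at *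
      push_cast
      constructor <;> linarith [e1.1, e1.2, e2.1, e2.2]

theorem Ht.mono {p : V → ℤ} {g : V → ℕ} {W W' : V → V → ℤ → ℕ → Prop} {S S' : Finset V} (h : Ht k p g W S)
    (hS : S' ⊆ S) (hW : ∀ a ∈ S', ∀ b ∈ S', ∀ x l, W' a b x l → W a b x l) : Ht k p g W' S' :=
  ⟨fun a ha => h.le a (hS ha), fun a ha => h.par a (hS ha),
    fun a ha b hb x l h' => h.ev a (hS ha) b (hS hb) x l (hW a ha b hb x l h'),
    fun a ha b hb x l h' => h.od a (hS ha) b (hS hb) x l (hW a ha b hb x l h')⟩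

/-- connections through the apex -/
def GE (k : ℕ) (g : V → ℕ) (a b : V) (x : ℤ) (l : ℕ) : Prop :=
  (Even x ∧ (l = g a + g b ∨ l = (k - g a) + (k - g b))) ∨ (Odd x ∧ (l = g a + (k - g b) ∨ l = (k - g a) + g b))

/-- add the connections through the apex -/
def WG (k : ℕ) (g : V → ℕ) (W : V → V → ℤ → ℕ → Prop) (S : Finset V) : V → V → ℤ → ℕ → Prop := fun a b x l =>
  W a b x l ∨ (a ∈ S ∧ b ∈ S ∧ a ≠ b ∧ GE k g a b x l)

theorem wg_wgr {g : V → ℕ} {W : V → V → ℤ → ℕ → Prop} (hW : WGr W) (S : Finset V) : WGr (WG k g W S) := by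
  refine ⟨?_, ?_, ?_⟩
  · rintro a b x l (h | ⟨h1, h2, h3, h4⟩)
    · exact Or.inl (hW.symm _ _ _ _ h)
    · refine Or.inr ⟨h2, h1, h3.symm, ?_⟩
      rcases h4 with ⟨h5, h6⟩ | ⟨h5, h6⟩
      · left; refine ⟨h5.neg, ?_⟩; omega
      · right; refine ⟨h5.neg, ?_⟩; omega
  · rintro a b x l (h | ⟨h1, h2, h3, h4⟩)
    · exact Or.inl (hW.par _ _ _ _ h)
    · refine Or.inr ⟨h1, h2, h3, ?_⟩
      rcases h4 with ⟨h5, h6⟩ | ⟨h5, h6⟩
      · left; exact ⟨h5.add even_two, h6⟩
      · right; exact ⟨h5.add_even even_two, h6⟩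
  · rintro a b x l (h | ⟨h1, h2, h3, h4⟩)
    · exact hW.irr _ _ _ _ h
    · exact h3

theorem wg_par {p : V → ℤ} {g : V → ℕ} {W : V → V → ℤ → ℕ → Prop} {S : Finset V} (hP : Par k p W S)
    (hH : Ht k p g W S) : Par k p (WG k g W S) S := by
  rintro a ha b hb x l (h | ⟨h1, h2, h3, h4⟩)
  · exact hP a ha b hb x l h
  · obtain ⟨r1, hr1⟩ := hH.par a ha
    obtain ⟨r2, hr2⟩ := hH.par b hb
    have l1 := hH.le a ha
    have l2 := hH.le b hb
    have c1 : ((k - g a : ℕ) : ℤ) = k - g a := by omega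
    have c2 : ((k - g b : ℕ) : ℤ) = k - g b := by omega
    rcases h4 with ⟨⟨s, hs⟩, h6 | h6⟩ | ⟨⟨s, hs⟩, h6 | h6⟩
    · exact ⟨r1 + r2 + p a - k * s, by rw [h6, hs]; push_cast; linear_combination hr1 + hr2⟩
    · exact ⟨k - r1 - r2 - p b - k * s, by rw [h6, hs]; push_cast [c1, c2]; linear_combination -hr1 - hr2⟩
    · exact ⟨r1 - r2 + p a - p b - k * s, by rw [h6, hs]; push_cast [c2]; linear_combination hr1 - hr2⟩
    · exact ⟨-r1 + r2 - k * s, by rw [h6, hs]; push_cast [c1]; linear_combination -hr1 + hr2⟩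

theorem wg_ht {p : V → ℤ} {g : V → ℕ} {W : V → V → ℤ → ℕ → Prop} {S : Finset V}
    (hH : Ht k p g W S) : Ht k p g (WG k g W S) S := by
  refine ⟨hH.le, hH.par, ?_, ?_⟩
  · rintro a ha b hb x l (h | ⟨h1, h2, h3, h4⟩) hx
    · exact hH.ev a ha b hb x l h hx
    · have l1 := hH.le a ha
      have l2 := hH.le b hb
      rcases h4 with ⟨_, h6 | h6⟩ | ⟨h5, h6⟩
      · rw [abs_le]; constructor <;> omega
      · rw [abs_le]; constructor <;> omega
      · exact absurd hx (Int.not_even_iff_odd.mpr h5)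
  · rintro a ha b hb x l (h | ⟨h1, h2, h3, h4⟩) hx
    · exact hH.od a ha b hb x l h hx
    · have l1 := hH.le a ha
      have l2 := hH.le b hb
      rcases h4 with ⟨h5, h6⟩ | ⟨_, h6 | h6⟩
      · exact absurd hx (Int.not_odd_iff_even.mpr h5)
      · rw [abs_le]; constructor <;> omega
      · rw [abs_le]; constructor <;> omega

theorem wg_decomp {g : V → ℕ} {W : V → V → ℤ → ℕ → Prop} {S : Finset V} {s t : V} {x : ℤ} {l : ℕ}
    (h : Wk (WG k g W S) S s t x l) :
    Wk W S s t x l ∨ ∃ (u v : V) (x1 x2 x3 : ℤ) (l1 l2 l3 : ℕ), u ∈ S ∧ v ∈ S ∧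
      Wk (WG k g W S) S s u x1 l1 ∧ GE k g u v x2 l2 ∧ Wk (WG k g W S) S v t x3 l3 ∧ x = x1 + x2 + x3 ∧
      l = l1 + l2 + l3 := by
  induction h with
  | nil s hs => left; exact Wk.nil s hs
  | @cons s u' t y y' m m' hs h hw ih =>
    rcases h with h | ⟨h1, h2, h3, h4⟩
    · rcases ih with ih | ⟨u, v, x1, x2, x3, l1, l2, l3, hu, hv, w1, c, w3, ex, el⟩
      · left; exact Wk.cons hs h ih
      · right
        exact ⟨u, v, y + x1, x2, x3, m + l1, l2, l3, hu, hv, Wk.cons hs (Or.inl h) w1, c, w3,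
          by rw [ex]; ring, by rw [el]; ring⟩
    · right
      exact ⟨s, u', 0, y, y', 0, m, m', h1, h2, Wk.nil s hs, h4, hw, by ring, by ring⟩

theorem wg_neg {p : V → ℤ} {g : V → ℕ} {W : V → V → ℤ → ℕ → Prop} {S : Finset V} (hN : Neg W S k)
    (hH : Ht k p g W S) : Neg (WG k g W S) S k := by
  intro s x l hw hx
  rcases wg_decomp hw with h | ⟨u, v, x1, x2, x3, l1, l2, l3, hu, hv, w1, c, w3, ex, el⟩
  · exact hN s x l h hx
  · have hh := (wg_ht hH).wk (w3.trans w1)
    have l1' := hH.le u hu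
    have l2' := hH.le v hv
    have hxx : Odd (x2 + (x3 + x1)) := by
      have : x2 + (x3 + x1) = x := by rw [ex]; ring
      rw [this]; exact hx
    rcases c with ⟨h5, h6⟩ | ⟨h5, h6⟩
    · have ho : Odd (x3 + x1) := by
        rcases Int.even_or_odd (x3 + x1) with h | h
        · exact absurd (h5.add h) (Int.not_even_iff_odd.mpr hxx)
        · exact h
      have h7 := hh.2 ho
      rw [abs_le] at h7
      push_cast at h7
      omega
    · have he : Even (x3 + x1) := by
        rcases Int.even_or_odd (x3 + x1) with h | h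
        · exact h
        · exact absurd (h5.add_odd h) (Int.not_even_iff_odd.mpr hxx)
      have h7 := hh.1 he
      rw [abs_le] at h7
      push_cast at h7
      omega

theorem card_le_three_form {S : Finset V} (h : S.card ≤ 3) (hne : S.Nonempty) : ∃ a b c, S = {a, b, c} := by
  obtain ⟨a, ha⟩ := hne
  have h1 : (S.erase a).card ≤ 2 := by rw [Finset.card_erase_of_mem ha]; omega
  by_cases hne2 : (S.erase a).Nonempty
  · obtain ⟨b, hb⟩ := hne2
    have h2 : ((S.erase a).erase b).card ≤ 1 := by rw [Finset.card_erase_of_mem hb]; omega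
    by_cases hne3 : ((S.erase a).erase b).Nonempty
    · obtain ⟨c, hc⟩ := hne3
      refine ⟨a, b, c, ?_⟩
      have h3 : ((S.erase a).erase b) = {c} := by
        apply Finset.eq_singleton_iff_unique_mem.mpr
        exact ⟨hc, fun y hy => Finset.card_le_one.mp h2 y hy c hc⟩
      rw [← Finset.insert_erase ha, ← Finset.insert_erase hb, h3]
    · rw [Finset.not_nonempty_iff_eq_empty] at hne3
      refine ⟨a, b, b, ?_⟩
      rw [← Finset.insert_erase ha, ← Finset.insert_erase hb, hne3]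
      ext t; simp
  · rw [Finset.not_nonempty_iff_eq_empty] at hne2
    refine ⟨a, a, a, ?_⟩
    rw [← Finset.insert_erase ha, hne2]
    ext t; simp

/-- a complete exact metric below the constraints -/
theorem exact_metric (hk : 0 < k) {p : V → ℤ} {W : V → V → ℤ → ℕ → Prop} {S : Finset V} (hW : WGr W)
    (hP : Par k p W S) (hN : Neg W S k) :
    ∃ D : V → V → ℕ, (∀ s, D s s = 0) ∧ (∀ s ∈ S, ∀ t ∈ S, D s t ≤ k) ∧ (∀ s ∈ S, ∀ t ∈ S, D s t = D t s) ∧
      (∀ s ∈ S, ∀ t ∈ S, Even ((D s t : ℤ) - (p t - p s))) ∧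
      (∀ s ∈ S, ∀ t ∈ S, ∀ u ∈ S, D s u ≤ D s t + D t u) ∧
      (∀ s ∈ S, ∀ t ∈ S, ∀ u ∈ S, D s t + D t u + D s u ≤ 2 * k) ∧
      (∀ s ∈ S, ∀ t ∈ S, ∀ x l, W s t x l → Even x → D s t ≤ l) ∧
      (∀ s ∈ S, ∀ t ∈ S, ∀ x l, W s t x l → Odd x → k ≤ D s t + l) := by
  obtain ⟨W', e1, e2, e3, e4, e5, e6⟩ := fix_list hk (S := S) S.offDiag.toList hW hP hN (by
    intro q hq
    rw [Finset.mem_toList, Finset.mem_offDiag] at hq
    exact hq)
  have hex : ∀ s ∈ S, ∀ t ∈ S, s ≠ t → ∃ d, Ex k W' s t d := by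
    intro s hs t ht hst
    exact e6 (s, t) (by rw [Finset.mem_toList, Finset.mem_offDiag]; exact ⟨hs, ht, hst⟩)
  let D : V → V → ℕ := fun s t => if h : ∃ d, Ex k W' s t d then h.choose else 0
  have hD : ∀ s ∈ S, ∀ t ∈ S, s ≠ t → Ex k W' s t (D s t) := by
    intro s hs t ht hst
    have h := hex s hs t ht hst
    simp only [D, dif_pos h]
    exact h.choose_spec
  have hDs : ∀ s, D s s = 0 := by
    intro s
    have h : ¬ ∃ d, Ex k W' s s d := by
      rintro ⟨d, hd⟩
      exact e3.irr _ _ _ _ (hd.2.1 0 ⟨0, by ring⟩) rfl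
    simp only [D, dif_neg h]
  have hDk : ∀ s ∈ S, ∀ t ∈ S, D s t ≤ k := by
    intro s hs t ht
    by_cases hst : s = t
    · rw [hst, hDs]; exact Nat.zero_le _
    · exact (hD s hs t ht hst).1
  -- walks bound the distances
  have hwe : ∀ s t x l, Wk W' S s t x l → Even x → D s t ≤ l := by
    intro s t x l hw hx
    by_cases hst : s = t
    · rw [hst, hDs]; exact Nat.zero_le _
    · have h1 := (hD s hw.left_mem t hw.right_mem hst).symm e3
      have h2 := e5 s _ _ (hw.trans (Wk.single hw.right_mem hw.left_mem (h1.2.2 1 odd_one))) (hx.add_odd odd_one)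
      have := h1.1
      omega
  have hwo : ∀ s t x l, Wk W' S s t x l → Odd x → k ≤ D s t + l := by
    intro s t x l hw hx
    by_cases hst : s = t
    · subst hst
      have := e5 s _ _ hw hx
      omega
    · have h1 := (hD s hw.left_mem t hw.right_mem hst).symm e3
      have h2 := e5 s _ _ (hw.trans (Wk.single hw.right_mem hw.left_mem (h1.2.1 0 ⟨0, by ring⟩))) (by rwa [add_zero])
      omega
  have hW0 : ∀ s ∈ S, ∀ t ∈ S, Wk W' S s t 0 (D s t) := by
    intro s hs t ht
    by_cases hst : s = t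
    · subst hst; rw [hDs]; exact Wk.nil s hs
    · exact Wk.single hs ht ((hD s hs t ht hst).2.1 0 ⟨0, by ring⟩)
  have hW1 : ∀ s ∈ S, ∀ t ∈ S, s ≠ t → Wk W' S s t 1 (k - D s t) := by
    intro s hs t ht hst
    exact Wk.single hs ht ((hD s hs t ht hst).2.2 1 odd_one)
  have hsym : ∀ s ∈ S, ∀ t ∈ S, D s t ≤ D t s := by
    intro s hs t ht
    have := hwe s t _ _ ((hW0 t ht s hs).symm e3.symm) (by simp)
    exact this
  refine ⟨D, hDs, hDk, fun s hs t ht => le_antisymm (hsym s hs t ht) (hsym t ht s hs), ?_, ?_, ?_, ?_, ?_⟩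
  · intro s hs t ht
    have := e4.wk (hW0 s hs t ht)
    simpa using this
  · intro s hs t ht u hu
    exact hwe s u _ _ ((hW0 s hs t ht).trans (hW0 t ht u hu)) (by simp)
  · intro s hs t ht u hu
    by_cases hst : s = t
    · subst hst
      rw [hDs]
      have := hDk s hs u hu
      omega
    by_cases htu : t = u
    · subst htu
      rw [hDs]
      have := hDk s hs t ht
      omega
    have h1 := hwe s u _ _ ((hW1 s hs t ht hst).trans (hW1 t ht u hu htu)) (by decide)
    have h2 := hDk s hs t ht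
    have h3 := hDk t ht u hu
    omega
  · intro s hs t ht x l h hx
    exact hwe s t x l (Wk.single hs ht (e1 _ _ _ _ h)) hx
  · intro s hs t ht x l h hx
    exact hwo s t x l (Wk.single hs ht (e1 _ _ _ _ h)) hx

/-- at most three vertices with prescribed weights -/
theorem baseM (hk : 0 < k) {p : V → ℤ} {g : V → ℕ} {W : V → V → ℤ → ℕ → Prop} {S : Finset V} (hS : S.card ≤ 3)
    (hW : WGr W) (hP : Par k p W S) (hN : Neg W S k) (hH : Ht k p g W S) :
    ∃ φ : V → Fin k → Bool, (∀ a ∈ S, wt (φ a) = g a) ∧ Fit φ W S := by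
  by_cases hne : S.Nonempty
  swap
  · rw [Finset.not_nonempty_iff_eq_empty] at hne
    subst hne
    exact ⟨fun _ => zr, by simp, by intro a ha; simp at ha⟩
  obtain ⟨D, d1, d2, d3, d4, d5, d6, d7, d8⟩ := exact_metric hk (wg_wgr (k := k) (g := g) hW S)
    (wg_par hP hH) (wg_neg hN hH)
  obtain ⟨a, b, c, hSe⟩ := card_le_three_form hS hne
  have ha : a ∈ S := by rw [hSe]; simp
  have hb : b ∈ S := by rw [hSe]; simp
  have hc : c ∈ S := by rw [hSe]; simp
  -- height conditions
  have g1 : ∀ s ∈ S, ∀ t ∈ S, D s t ≤ g s + g t ∧ D s t + g s + g t ≤ 2 * k ∧ g s ≤ g t + D s t := by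
    intro s hs t ht
    have l1 := hH.le s hs
    have l2 := hH.le t ht
    by_cases hst : s = t
    · subst hst
      rw [d1]
      refine ⟨by omega, by omega, by omega⟩
    · have h1 := d7 s hs t ht 0 (g s + g t) (Or.inr ⟨hs, ht, hst, Or.inl ⟨⟨0, by ring⟩, Or.inl rfl⟩⟩) ⟨0, by ring⟩
      have h2 := d7 s hs t ht 0 ((k - g s) + (k - g t)) (Or.inr ⟨hs, ht, hst, Or.inl ⟨⟨0, by ring⟩, Or.inr rfl⟩⟩)
        ⟨0, by ring⟩
      have h3 := d8 s hs t ht 1 ((k - g s) + g t) (Or.inr ⟨hs, ht, hst, Or.inr ⟨odd_one, Or.inr rfl⟩⟩) odd_one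
      refine ⟨h1, by omega, by omega⟩
  have par : ∀ s ∈ S, ∀ t ∈ S, Even (g s + g t + D s t) := by
    intro s hs t ht
    obtain ⟨r1, hr1⟩ := hH.par s hs
    obtain ⟨r2, hr2⟩ := hH.par t ht
    obtain ⟨r3, hr3⟩ := d4 s hs t ht
    have : Even ((g s + g t + D s t : ℕ) : ℤ) := ⟨r1 + r2 + r3 + p t, by push_cast; linear_combination hr1 + hr2 + hr3⟩
    exact_mod_cast this
  obtain ⟨A, B, C, wA, wB, wC, dAB, dAC, dBC⟩ := realize3 k (g a) (g b) (g c) (D a b) (D a c) (D b c)
    (par a ha b hb) (par a ha c hc) (par b hb c hc)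
    (g1 a ha b hb).1 (g1 a ha b hb).2.2 (by have := (g1 b hb a ha).2.2; rw [d3 b hb a ha] at this; exact this)
    (by have := (g1 a ha b hb).2.1; omega)
    (g1 a ha c hc).1 (g1 a ha c hc).2.2 (by have := (g1 c hc a ha).2.2; rw [d3 c hc a ha] at this; exact this)
    (by have := (g1 a ha c hc).2.1; omega)
    (g1 b hb c hc).1 (g1 b hb c hc).2.2 (by have := (g1 c hc b hb).2.2; rw [d3 c hc b hb] at this; exact this)
    (by have := (g1 b hb c hc).2.1; omega)
    (by have := d5 a ha c hc b hb; rw [d3 c hc b hb] at this; exact this)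
    (d5 a ha b hb c hc)
    (by have := d5 b hb a ha c hc; rw [d3 b hb a ha] at this; exact this)
    (by have := d6 a ha b hb c hc; omega)
  let φ : V → Fin k → Bool := fun t => if t = a then A else if t = b then B else C
  have hφa : φ a = A := by simp [φ]
  have hφb : φ b = B := by
    by_cases h : b = a
    · have h1 : D a b = 0 := by rw [h]; exact d1 a
      rw [h1] at dAB
      have h2 : A = B := hammingDist_eq_zero.mp dAB
      simp [φ, h, h2]
    · simp [φ, h]
  have hφc : φ c = C := by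
    by_cases h : c = a
    · have h1 : D a c = 0 := by rw [h]; exact d1 a
      rw [h1] at dAC
      have h2 : A = C := hammingDist_eq_zero.mp dAC
      simp [φ, h, h2]
    · by_cases h' : c = b
      · have h1 : D b c = 0 := by rw [h']; exact d1 b
        rw [h1] at dBC
        have h2 : B = C := hammingDist_eq_zero.mp dBC
        have h3 := hφb
        rw [← h', h2] at h3
        exact h3
      · simp [φ, h, h']
  have hdist : ∀ s ∈ S, ∀ t ∈ S, hammingDist (φ s) (φ t) = D s t := by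
    intro s hs t ht
    rw [hSe] at hs ht
    simp only [Finset.mem_insert, Finset.mem_singleton] at hs ht
    rcases hs with rfl | rfl | rfl <;> rcases ht with rfl | rfl | rfl
    · rw [hammingDist_self, d1]
    · rw [hφa, hφb, dAB]
    · rw [hφa, hφc, dAC]
    · rw [hφa, hφb, hammingDist_comm, dAB, d3 _ ha _ hb]
    · rw [hammingDist_self, d1]
    · rw [hφb, hφc, dBC]
    · rw [hφa, hφc, hammingDist_comm, dAC, d3 _ ha _ hc]
    · rw [hφb, hφc, hammingDist_comm, dBC, d3 _ hb _ hc]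
    · rw [hammingDist_self, d1]
  refine ⟨φ, ?_, ?_⟩
  · intro s hs
    rw [hSe] at hs
    simp only [Finset.mem_insert, Finset.mem_singleton] at hs
    rcases hs with rfl | rfl | rfl
    · rw [hφa, wA]
    · rw [hφb, wB]
    · rw [hφc, wC]
  · intro s hs t ht x l h
    rcases Int.even_or_odd x with hx | hx
    · rw [sd_even hx, hdist s hs t ht]
      exact d7 s hs t ht x l (Or.inl h) hx
    · have h1 := sd_odd hx (φ s) (φ t)
      rw [hdist s hs t ht] at h1
      have h2 := d8 s hs t ht x l (Or.inl h) hx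
      omega

end Pool.Agent.H875
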