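import Mathlib
set_option autoImplicit false

/-!
Definitions used in the statement: signed graphs, cycles, homomorphisms, signed projective cubes, the signed
minor (K4, E(K4)), and the class of signed graphs of the theorem.
-/

namespace Pool.Agent.H875

/-- A signed graph with vertex set `V` and edge set `E` (parallel edges allowed): `ends e` is the pair of ends of
the edge `e`, and `neg` is the set of negative edges. -/
structure SG (V E : Type) where
  ends : E → Sym2 V
  neg : Set E

namespace SG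

variable {V E V' E' : Type}

/-- no loops -/
def Loopless (G : SG V E) : Prop := ∀ e, ¬ (G.ends e).IsDiag

/-- `v 0, e 0, v 1, e 1, ..., e (n-1), v n = v 0` is a cycle of length `n` -/
structure IsCycle (G : SG V E) (n : ℕ) (v : ℕ → V) (e : ℕ → E) : Prop where
  two_le : 2 ≤ n
  closed : v n = v 0
  inc : ∀ i < n, G.ends (e i) = s(v i, v (i + 1))
  inj_v : ∀ i < n, ∀ j < n, v i = v j → i = j
  inj_e : ∀ i < n, ∀ j < n, e i = e j → i = j

/-- the number of negative edges among `e 0, ..., e (n-1)` is even -/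
def Balanced (G : SG V E) (n : ℕ) (e : ℕ → E) : Prop := Even {i | i < n ∧ e i ∈ G.neg}.ncard

/-- every balanced cycle has even length and all unbalanced cycles have the same parity -/
def Consistent (G : SG V E) : Prop :=
  (∀ n v e, G.IsCycle n v e → G.Balanced n e → Even n) ∧
  (∀ n v e n' v' e', G.IsCycle n v e → ¬ G.Balanced n e → G.IsCycle n' v' e' → ¬ G.Balanced n' e' →
    (Even n ↔ Even n'))

/-- `k` is the minimum length of an unbalanced cycle -/
def UnbalancedGirth (G : SG V E) (k : ℕ) : Prop :=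
  IsLeast {n | ∃ v e, G.IsCycle n v e ∧ ¬ G.Balanced n e} k

/-- the edge cut of `X` -/
def cut (G : SG V E) (X : Set V) : Set E := {e | ∃ a b, G.ends e = s(a, b) ∧ a ∈ X ∧ b ∉ X}

/-- `G` admits a homomorphism to `H`: after switching `G` at `X` and `H` at `Y` there is a graph homomorphism, `f`
on vertices and `g` on edges, preserving the signs of the edges -/
def Hom (G : SG V E) (H : SG V' E') : Prop :=
  ∃ (X : Set V) (Y : Set V') (f : V → V') (g : E → E'),
    (∀ e, H.ends (g e) = (G.ends e).map f) ∧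
    ∀ e, e ∈ symmDiff G.neg (G.cut X) ↔ g e ∈ symmDiff H.neg (H.cut Y)

/-- signed adjacency: there is an edge between `a` and `b`, positive if `x = 0`, negative if `x = 1` -/
def adj (G : SG V E) : V → V → ZMod 2 → Prop := fun a b x =>
  ∃ e, G.ends e = s(a, b) ∧ (e ∈ G.neg ↔ x = 1)

end SG

/-- the generators of the projective cube: unit vectors and the all-one vector -/
def gen (d : ℕ) : Option (Fin d) → Fin d → ZMod 2
  | some i => Pi.single i 1
  | none => fun _ => 1

/-- the signed projective cube of dimension `d`: the edges coming from the all-one vector are negative, all other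
edges are positive -/
def SPC (d : ℕ) : SG (Fin d → ZMod 2)
    {q : Option (Fin d) × Sym2 (Fin d → ZMod 2) // ∃ x, q.2 = s(x, x + gen d q.1)} where
  ends q := q.1.2
  neg := {q | q.1.1 = none}

variable {V : Type}

/-- The signed adjacency `R` has a (K4, E(K4)) signed minor inside `S`: for some switching `p` there are four
disjoint nonempty sets, each connected by positive edges, any two of them joined by a negative edge. -/
def HasOddK4 (R : V → V → ZMod 2 → Prop) (S : Set V) : Prop :=
  ∃ (p : V → ZMod 2) (B : Fin 4 → Set V), (∀ i, (B i).Nonempty ∧ B i ⊆ S) ∧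
    (∀ i j, i ≠ j → Disjoint (B i) (B j)) ∧
    (∀ i, ∀ a ∈ B i, ∀ b ∈ B i,
      Relation.ReflTransGen (fun c d => c ∈ B i ∧ d ∈ B i ∧ R c d (p c + p d)) a b) ∧
    ∀ i j, i ≠ j → ∃ a ∈ B i, ∃ b ∈ B j, R a b (p a + p b + 1)

/-- there is a walk inside `S` from `a` to `b` with `n` edges and with sign `x` (the sum of the signs of its edges) -/
inductive Walk (R : V → V → ZMod 2 → Prop) (S : Set V) : V → V → ZMod 2 → ℕ → Prop
  | nil (a : V) (ha : a ∈ S) : Walk R S a a 0 0
  | cons {a b c : V} {x y : ZMod 2} {n : ℕ} (ha : a ∈ S) (h : R a b x) (t : Walk R S b c y n) :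
      Walk R S a c (x + y) (n + 1)

/-- add an edge of sign `x` between two vertices of `T` whenever a walk inside `S` of sign `x` joins them -/
def AddWalks (R : V → V → ZMod 2 → Prop) (S T : Set V) : V → V → ZMod 2 → Prop := fun a b x =>
  R a b x ∨ (a ∈ T ∧ b ∈ T ∧ a ≠ b ∧ ∃ n, Walk R S a b x n)

/-- add edges of both signs between any two vertices of `T` -/
def AddAll (R : V → V → ZMod 2 → Prop) (T : Set V) : V → V → ZMod 2 → Prop := fun a b x =>
  R a b x ∨ (a ∈ T ∧ b ∈ T ∧ a ≠ b)

/-- every edge inside `S₁ ∪ S₂` is inside `S₁` or inside `S₂` -/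
def Separates (R : V → V → ZMod 2 → Prop) (S₁ S₂ : Set V) : Prop :=
  ∀ a ∈ S₁ ∪ S₂, ∀ b ∈ S₁ ∪ S₂, ∀ x, R a b x → (a ∈ S₁ ∧ b ∈ S₁) ∨ (a ∈ S₂ ∧ b ∈ S₂)

/-- The class of pairs (signed adjacency, vertex set) built from (1) those in which deleting one vertex destroys all
(K4, E(K4)) signed minors and (2) those with five vertices and without (K5, E(K5)) signed minor, by (3) sums of order
at most three. -/
inductive Cls : (V → V → ZMod 2 → Prop) → Set V → Prop
  | apex (R : V → V → ZMod 2 → Prop) (S : Set V) (v : V) (h : ¬ HasOddK4 R (S \ {v})) : Cls R S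
  | five (R : V → V → ZMod 2 → Prop) (S : Set V) (h5 : S.ncard = 5)
      (h : ¬ ∃ p : V → ZMod 2, ∀ a ∈ S, ∀ b ∈ S, a ≠ b → R a b (p a + p b + 1)) : Cls R S
  | sum (R : V → V → ZMod 2 → Prop) (S₁ S₂ : Set V) (hT : (S₁ ∩ S₂).ncard ≤ 3) (hsep : Separates R S₁ S₂)
      (h1 : Cls (AddWalks R S₂ (S₁ ∩ S₂)) S₁) (h2 : Cls (AddAll R (S₁ ∩ S₂)) S₂) : Cls R (S₁ ∪ S₂)

/-- Vertex sets obtained from those in `Cls` by gluing along rigid sets: sets in which any two vertices lie on a
common unbalanced closed walk with `k` edges (for instance the vertex set of an unbalanced cycle of length `k`). -/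
inductive Glued (R : V → V → ZMod 2 → Prop) (k : ℕ) : Set V → Prop
  | base (S : Set V) (h : Cls R S) : Glued R k S
  | glue (S₁ S₂ : Set V) (hne : (S₁ ∩ S₂).Nonempty)
      (hr : ∀ a ∈ S₁ ∩ S₂, ∀ b ∈ S₁ ∩ S₂, ∃ x m n,
        Walk R (S₁ ∩ S₂) a b x m ∧ Walk R (S₁ ∩ S₂) b a (x + 1) n ∧ m + n = k)
      (hsep : Separates R S₁ S₂) (h1 : Glued R k S₁) (h2 : Glued R k S₂) : Glued R k (S₁ ∪ S₂)

end Pool.Agent.H875
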