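import Pool.Agent.H875.Five4
import Pool.Agent.H875.Defs
set_option autoImplicit false

/-! From the class of the statement to good supports. -/

open Classical

namespace Pool.Agent.H875
open SgK4

variable {V : Type}

def toE (R : V → V → ZMod 2 → Prop) : V → V → ℤ → Prop := fun a b x => R a b (x : ZMod 2)

theorem zmod2_add_self (x : ZMod 2) : x + x = 0 := by
  revert x; decide

theorem cast_eq_of_even {x y : ℤ} (h : Even (y - x)) : ((y : ℤ) : ZMod 2) = (x : ZMod 2) := by
  obtain ⟨r, hr⟩ := h
  have : y = x + (r + r) := by linarith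
  rw [this]; push_cast
  rw [zmod2_add_self, add_zero]

theorem hasOddK4_of (R : V → V → ZMod 2 → Prop) (S : Finset V) (h : OddK4 (toE R) S) : HasOddK4 R (S : Set V) := by
  obtain ⟨B, p, h1, h2, h3, h4⟩ := h
  refine ⟨fun a => ((p a : ℤ) : ZMod 2), fun i => (B i : Set V), fun i => ⟨?_, ?_⟩, ?_, ?_, ?_⟩
  · exact (h3 i).1
  · exact Finset.coe_subset.mpr (h1 i)
  · intro i j hij
    exact Finset.disjoint_coe.mpr (h2 i j hij)
  · intro i a ha b hb
    by_contra hcon
    set r : V → V → Prop := fun c d => c ∈ (B i : Set V) ∧ d ∈ (B i : Set V) ∧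
      R c d (((p c : ℤ) : ZMod 2) + ((p d : ℤ) : ZMod 2)) with hr
    set J := (B i).filter fun c => Relation.ReflTransGen r a c with hJ
    have haJ : a ∈ J := Finset.mem_filter.mpr ⟨ha, Relation.ReflTransGen.refl⟩
    have hbJ : b ∉ J := fun h => hcon (Finset.mem_filter.mp h).2
    obtain ⟨c, hc, d, hd, hdJ, hcd⟩ := (h3 i).2 J (Finset.filter_subset _ _) ⟨a, haJ⟩ (fun h => hbJ (h ▸ hb))
    apply hdJ
    rw [hJ, Finset.mem_filter] at hc ⊢
    refine ⟨hd, hc.2.tail ⟨hc.1, hd, ?_⟩⟩
    unfold Fl toE at hcd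
    have e : ((p d - p c : ℤ) : ZMod 2) = (p c : ZMod 2) + (p d : ZMod 2) := by
      push_cast
      have := zmod2_add_self ((p c : ℤ) : ZMod 2)
      linear_combination -this
    rwa [e] at hcd
  · intro i j hij
    obtain ⟨a, ha, b, hb, hab⟩ := h4 i j hij
    refine ⟨a, ha, b, hb, ?_⟩
    unfold toE at hab
    have e : ((p b - p a + 1 : ℤ) : ZMod 2) = (p a : ZMod 2) + (p b : ZMod 2) + 1 := by
      push_cast
      have := zmod2_add_self ((p a : ℤ) : ZMod 2)
      linear_combination -this
    rwa [e] at hab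

theorem Good.anti {E E' : V → V → ℤ → Prop} {S : Finset V} (h : Good E' S)
    (hE : ∀ a ∈ S, ∀ b ∈ S, ∀ x, E a b x → E' a b x) : Good E S :=
  fun k hk p W hW hWE hP hN => h k hk p W hW (fun a ha b hb x l hw => hE a ha b hb x (hWE a ha b hb x l hw)) hP hN

theorem walk_of_ew {R : V → V → ZMod 2 → Prop} {S : Finset V} {a b : V} {x : ℤ} (h : EW (toE R) S a b x) :
    ∃ n, Walk R (S : Set V) a b (x : ZMod 2) n := by
  induction h with
  | nil a ha => exact ⟨0, by simpa using Walk.nil a (R := R) (S := (S : Set V)) ha⟩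
  | @cons a b c x y ha h t ih =>
    obtain ⟨n, hn⟩ := ih
    push_cast
    exact ⟨n + 1, Walk.cons ha h hn⟩

theorem cls_good [Fintype V] {R : V → V → ZMod 2 → Prop} {S : Set V} (h : Cls R S) : Good (toE R) S.toFinset := by
  induction h with
  | apex R S v h =>
    apply good_apex _ _ v
    intro hK
    apply h
    have := hasOddK4_of R _ hK
    rwa [Finset.coe_erase, Set.coe_toFinset] at this
  | five R S h5' h =>
    apply good5
    · rw [← Set.ncard_eq_toFinset_card']; exact h5'
    · rintro ⟨q, hq⟩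
      apply h
      refine ⟨fun a => ((q a : ℤ) : ZMod 2), fun a ha b hb hab => ?_⟩
      have h1 := hq a (Set.mem_toFinset.mpr ha) b (Set.mem_toFinset.mpr hb) hab
      unfold toE at h1
      have e : ((q b - q a + 1 : ℤ) : ZMod 2) = (q a : ZMod 2) + (q b : ZMod 2) + 1 := by
        push_cast
        have := zmod2_add_self ((q a : ℤ) : ZMod 2)
        linear_combination -this
      rwa [e] at h1
  | sum R S₁ S₂ hT hsep h1 h2 ih1 ih2 =>
    rw [Set.toFinset_union]
    have hI : S₁.toFinset ∩ S₂.toFinset = (S₁ ∩ S₂).toFinset := by rw [Set.toFinset_inter]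
    apply good_sum _ _ S₁.toFinset S₂.toFinset rfl
    · rw [hI, ← Set.ncard_eq_toFinset_card']
      exact hT
    · intro a ha b hb x hab
      rw [← Set.toFinset_union, Set.mem_toFinset] at ha hb
      have := hsep a ha b hb _ hab
      simpa using this
    · apply ih1.anti
      rintro a ha b hb x (h | ⟨h3, h4, h5, y, hy, hw⟩)
      · exact Or.inl h
      · right
        rw [hI, Set.mem_toFinset] at h3 h4
        refine ⟨h3, h4, h5, ?_⟩
        obtain ⟨n, h6⟩ := walk_of_ew hw
        rw [Set.coe_toFinset, cast_eq_of_even hy] at h6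
        exact ⟨n, h6⟩
    · apply ih2.anti
      rintro a ha b hb x (h | ⟨h3, h4, h5⟩)
      · exact Or.inl h
      · right
        rw [hI, Set.mem_toFinset] at h3 h4
        exact ⟨h3, h4, h5⟩

end Pool.Agent.H875
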