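import Mathlib
set_option autoImplicit false

/-!
Vertices of the hypercube are functions `Fin k → Bool`; `fl x u` is `u` or its complement, according to the
parity of `x`; `sd x u v` is the distance of `u` to `fl x v`.
-/

namespace Pool.Agent.H875

variable {k : ℕ}

/-- `u` if `x` is even, the complement of `u` if `x` is odd -/
def fl (x : ℤ) (u : Fin k → Bool) : Fin k → Bool := if Even x then u else fun i => !(u i)

/-- the signed distance -/
def sd (x : ℤ) (u v : Fin k → Bool) : ℕ := hammingDist u (fl x v)

/-- the origin -/
def zr : Fin k → Bool := fun _ => false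

/-- weight -/
def wt (u : Fin k → Bool) : ℕ := hammingDist u zr

theorem fl_even {x : ℤ} (hx : Even x) (u : Fin k → Bool) : fl x u = u := if_pos hx

theorem fl_odd {x : ℤ} (hx : Odd x) (u : Fin k → Bool) : fl x u = fun i => !(u i) :=
  if_neg (Int.not_even_iff_odd.mpr hx)

theorem fl_add (x y : ℤ) (u : Fin k → Bool) : fl (x + y) u = fl x (fl y u) := by
  rcases Int.even_or_odd x with hx | hx <;> rcases Int.even_or_odd y with hy | hy
  · rw [fl_even (hx.add hy), fl_even hx, fl_even hy]
  · rw [fl_odd (hx.add_odd hy), fl_even hx, fl_odd hy]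
  · rw [fl_odd (hx.add_even hy), fl_odd hx, fl_even hy]
  · rw [fl_even (hx.add_odd hy), fl_odd hx, fl_odd hy]; funext i; simp

theorem fl_congr {x y : ℤ} (h : Even (y - x)) (u : Fin k → Bool) : fl y u = fl x u := by
  have : y = x + (y - x) := by ring
  rw [this, fl_add, fl_even h]

theorem hd_fl (x : ℤ) (u v : Fin k → Bool) : hammingDist (fl x u) (fl x v) = hammingDist u v := by
  rcases Int.even_or_odd x with hx | hx
  · rw [fl_even hx, fl_even hx]
  · rw [fl_odd hx, fl_odd hx]
    unfold hammingDist
    congr 1
    ext i
    simp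

theorem sd_trans (x y : ℤ) (u v w : Fin k → Bool) : sd (x + y) u w ≤ sd x u v + sd y v w := by
  unfold sd
  rw [fl_add]
  calc hammingDist u (fl x (fl y w)) ≤ hammingDist u (fl x v) + hammingDist (fl x v) (fl x (fl y w)) :=
        hammingDist_triangle _ _ _
    _ = _ := by rw [hd_fl]

theorem sd_congr {x y : ℤ} (h : Even (y - x)) (u v : Fin k → Bool) : sd y u v = sd x u v := by
  unfold sd; rw [fl_congr h]

theorem sd_symm (x : ℤ) (u v : Fin k → Bool) : sd (-x) v u = sd x u v := by
  unfold sd
  have h : fl (-x) u = fl x u := fl_congr ⟨-x, by ring⟩ u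
  rw [h, hammingDist_comm]
  calc hammingDist (fl x u) v = hammingDist (fl x (fl x u)) (fl x v) := (hd_fl x _ _).symm
    _ = _ := by rw [← fl_add, fl_even (x := x + x) ⟨x, rfl⟩]

theorem sd_comm (x : ℤ) (u v : Fin k → Bool) : sd x v u = sd x u v := by
  rw [← sd_symm x u v]
  exact sd_congr ⟨x, by ring⟩ _ _

theorem sd_self_even {x : ℤ} (hx : Even x) (u : Fin k → Bool) : sd x u u = 0 := by
  unfold sd; rw [fl_even hx]; exact hammingDist_self u

theorem hd_add_compl (u v : Fin k → Bool) : hammingDist u v + hammingDist u (fun i => !(v i)) = k := by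
  unfold hammingDist
  have h := Finset.card_filter_add_card_filter_not (s := (Finset.univ : Finset (Fin k))) (fun i => u i ≠ v i)
  rw [Finset.card_univ, Fintype.card_fin] at h
  have h2 : (Finset.univ.filter fun i => ¬ (u i ≠ v i)) = Finset.univ.filter fun i => u i ≠ !(v i) := by
    ext i
    simp only [Finset.mem_filter, Finset.mem_univ, true_and]
    cases u i <;> cases v i <;> simp
  rw [h2] at h
  exact h

theorem sd_add (x : ℤ) (u v : Fin k → Bool) : sd x u v + sd (x + 1) u v = k := by
  rcases Int.even_or_odd x with hx | hx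
  · unfold sd
    rw [fl_even hx, fl_odd (hx.add_odd odd_one)]
    exact hd_add_compl u v
  · unfold sd
    rw [fl_odd hx, fl_even (hx.add_odd odd_one), add_comm]
    exact hd_add_compl u v

theorem sd_self_odd {x : ℤ} (hx : Odd x) (u : Fin k → Bool) : sd x u u = k := by
  have h := sd_add (x + 1) u u
  rw [sd_self_even (hx.add_odd odd_one)] at h
  have h2 : sd (x + 1 + 1) u u = sd x u u := sd_congr ⟨1, by ring⟩ u u
  omega

theorem sd_zero (u v : Fin k → Bool) : sd 0 u v = hammingDist u v := by
  unfold sd; rw [fl_even (x := 0) ⟨0, by ring⟩]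

theorem sd_even {x : ℤ} (hx : Even x) (u v : Fin k → Bool) : sd x u v = hammingDist u v := by
  unfold sd; rw [fl_even hx]

theorem sd_odd {x : ℤ} (hx : Odd x) (u v : Fin k → Bool) : sd x u v + hammingDist u v = k := by
  have h := sd_add x u v
  rw [sd_even (x := x + 1) (hx.add_odd odd_one)] at h
  exact h

theorem sd_le (x : ℤ) (u v : Fin k → Bool) : sd x u v ≤ k := by
  have := sd_add x u v; omega

/-- parity of the Hamming distance -/
theorem hd_parity (u v : Fin k → Bool) : Even ((hammingDist u v : ℤ) - wt u - wt v) := by
  have key : hammingDist u v + 2 * (Finset.univ.filter fun i => u i = true ∧ v i = true).card = wt u + wt v := by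
    unfold wt hammingDist zr
    have e1 : (Finset.univ.filter fun i => u i ≠ false) = Finset.univ.filter fun i => u i = true := by
      ext i; simp
    have e2 : (Finset.univ.filter fun i => v i ≠ false) = Finset.univ.filter fun i => v i = true := by
      ext i; simp
    rw [e1, e2]
    have h1 : ((Finset.univ.filter fun i => u i = true) ∩ (Finset.univ.filter fun i => v i = true)) =
        Finset.univ.filter fun i => u i = true ∧ v i = true := by
      ext i; simp
    have h2 : ((Finset.univ.filter fun i => u i = true) ∪ (Finset.univ.filter fun i => v i = true)) =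
        (Finset.univ.filter fun i => u i ≠ v i) ∪ (Finset.univ.filter fun i => u i = true ∧ v i = true) := by
      ext i
      simp only [Finset.mem_union, Finset.mem_filter, Finset.mem_univ, true_and]
      cases u i <;> cases v i <;> simp
    have h3 : Disjoint (Finset.univ.filter fun i => u i ≠ v i)
        (Finset.univ.filter fun i => u i = true ∧ v i = true) := by
      rw [Finset.disjoint_left]
      intro i
      simp only [Finset.mem_filter, Finset.mem_univ, true_and]
      cases u i <;> cases v i <;> simp
    have h4 := Finset.card_union_add_card_inter (Finset.univ.filter fun i => u i = true)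
      (Finset.univ.filter fun i => v i = true)
    rw [h2, h1, Finset.card_union_of_disjoint h3] at h4
    omega
  refine ⟨-((Finset.univ.filter fun i => u i = true ∧ v i = true).card : ℤ), ?_⟩
  have : ((hammingDist u v : ℤ) + 2 * ((Finset.univ.filter fun i => u i = true ∧ v i = true).card : ℤ)) =
      (wt u : ℤ) + (wt v : ℤ) := by exact_mod_cast key
  linarith

/-- parity of the signed distance -/
theorem sd_parity (x : ℤ) (u v : Fin k → Bool) : Even ((sd x u v : ℤ) - (wt v - wt u) - k * x) := by
  obtain ⟨m, hm⟩ := hd_parity u v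
  rcases Int.even_or_odd x with hx | hx
  · rw [sd_even hx]
    obtain ⟨r, hr⟩ := hx
    refine ⟨m + wt u - k * r, ?_⟩
    rw [hr]; linear_combination hm
  · have h := sd_odd hx u v
    have h' : ((sd x u v : ℤ)) = k - hammingDist u v := by
      have : ((sd x u v : ℤ)) + hammingDist u v = k := by exact_mod_cast h
      linarith
    obtain ⟨r, hr⟩ := hx
    refine ⟨-m - wt v - k * r, ?_⟩
    rw [h', hr]; linear_combination -hm

theorem wt_le (u : Fin k → Bool) : wt u ≤ k := by
  have := sd_le 0 u (zr (k := k))
  rw [sd_zero] at this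
  exact this

/-- compatibility of weights with distances -/
theorem wt_even {x : ℤ} (hx : Even x) (u v : Fin k → Bool) : |(wt u : ℤ) - wt v| ≤ sd x u v := by
  rw [sd_even hx]
  have h1 : wt u ≤ hammingDist u v + wt v := hammingDist_triangle u v zr
  have h2 : wt v ≤ hammingDist v u + wt u := hammingDist_triangle v u zr
  rw [hammingDist_comm v u] at h2
  rw [abs_le]
  constructor <;> omega

theorem wt_odd {x : ℤ} (hx : Odd x) (u v : Fin k → Bool) : |(wt u : ℤ) + wt v - k| ≤ sd x u v := by
  have h := sd_odd hx u v
  have h1 : hammingDist u v ≤ wt u + wt v := by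
    have := hammingDist_triangle u zr v
    rw [hammingDist_comm zr v] at this
    exact this
  have h2 := hd_add_compl u v
  have h3 : hammingDist u v ≤ (k - wt u) + (k - wt v) := by
    have e1 := hd_add_compl u zr
    have e2 := hd_add_compl v zr
    have e3 := hammingDist_triangle u (fun i => !((zr : Fin k → Bool) i)) v
    rw [hammingDist_comm (fun i => !((zr : Fin k → Bool) i)) v] at e3
    unfold wt
    omega
  have h4 := wt_le u
  have h5 := wt_le v
  rw [abs_le]
  constructor <;> omega

/-- an isometry of the signed cube -/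
def Isom (α : (Fin k → Bool) → (Fin k → Bool)) : Prop := ∀ x u v, sd x (α u) (α v) = sd x u v

theorem isom_of_hd {α : (Fin k → Bool) → (Fin k → Bool)} (h : ∀ u v, hammingDist (α u) (α v) = hammingDist u v) :
    Isom α := by
  intro x u v
  rcases Int.even_or_odd x with hx | hx
  · rw [sd_even hx, sd_even hx, h]
  · have h1 := sd_odd hx (α u) (α v)
    have h2 := sd_odd hx u v
    rw [h] at h1
    omega

theorem exists_perm {ι : Type*} [Fintype ι] [DecidableEq ι] {κ : Type*} [DecidableEq κ] (f g : ι → κ)
    (h : ∀ c, (Finset.univ.filter fun i => f i = c).card = (Finset.univ.filter fun i => g i = c).card) :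
    ∃ σ : Equiv.Perm ι, ∀ i, g (σ i) = f i := by
  have e : ∀ c, Nonempty ({i // f i = c} ≃ {i // g i = c}) := by
    intro c
    refine ⟨Fintype.equivOfCardEq ?_⟩
    rw [Fintype.card_subtype, Fintype.card_subtype]
    exact h c
  refine ⟨Equiv.ofFiberEquiv fun c => (e c).some, fun i => ?_⟩
  exact Equiv.ofFiberEquiv_map _ i

theorem card_filter_pair (u v : Fin k → Bool) (c : Bool × Bool) :
    ∃ (n11 : ℕ), n11 = (Finset.univ.filter fun i => u i = true ∧ v i = true).card ∧
      2 * n11 + hammingDist u v = wt u + wt v ∧
      ((Finset.univ.filter fun i => (u i, v i) = (true, true)).card = n11) ∧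
      ((Finset.univ.filter fun i => (u i, v i) = (true, false)).card + n11 = wt u) ∧
      ((Finset.univ.filter fun i => (u i, v i) = (false, true)).card + n11 = wt v) ∧
      ((Finset.univ.filter fun i => (u i, v i) = (false, false)).card + hammingDist u v + n11 = k) := by
  refine ⟨_, rfl, ?_, ?_, ?_, ?_, ?_⟩
  · have := hd_parity u v
    unfold wt hammingDist zr
    have e1 : (Finset.univ.filter fun i => u i ≠ false) =
        (Finset.univ.filter fun i => u i = true ∧ v i = true) ∪ (Finset.univ.filter fun i => u i = true ∧ v i = false) := by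
      ext i; simp only [Finset.mem_union, Finset.mem_filter, Finset.mem_univ, true_and]
      cases u i <;> cases v i <;> simp
    have e2 : (Finset.univ.filter fun i => v i ≠ false) =
        (Finset.univ.filter fun i => u i = true ∧ v i = true) ∪ (Finset.univ.filter fun i => u i = false ∧ v i = true) := by
      ext i; simp only [Finset.mem_union, Finset.mem_filter, Finset.mem_univ, true_and]
      cases u i <;> cases v i <;> simp
    have e3 : (Finset.univ.filter fun i => u i ≠ v i) =
        (Finset.univ.filter fun i => u i = true ∧ v i = false) ∪ (Finset.univ.filter fun i => u i = false ∧ v i = true) := by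
      ext i; simp only [Finset.mem_union, Finset.mem_filter, Finset.mem_univ, true_and]
      cases u i <;> cases v i <;> simp
    rw [e1, e2, e3, Finset.card_union_of_disjoint, Finset.card_union_of_disjoint, Finset.card_union_of_disjoint]
    · omega
    all_goals
      rw [Finset.disjoint_left]; intro i
      simp only [Finset.mem_filter, Finset.mem_univ, true_and]
      cases u i <;> cases v i <;> simp
  · congr 1; ext i; simp
  · rw [← Finset.card_union_of_disjoint]
    · unfold wt hammingDist zr
      congr 1; ext i; simp only [Finset.mem_union, Finset.mem_filter, Finset.mem_univ, true_and, Prod.mk.injEq]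
      cases u i <;> cases v i <;> simp
    · rw [Finset.disjoint_left]; intro i
      simp only [Finset.mem_filter, Finset.mem_univ, true_and, Prod.mk.injEq]
      cases u i <;> cases v i <;> simp
  · rw [← Finset.card_union_of_disjoint]
    · unfold wt hammingDist zr
      congr 1; ext i; simp only [Finset.mem_union, Finset.mem_filter, Finset.mem_univ, true_and, Prod.mk.injEq]
      cases u i <;> cases v i <;> simp
    · rw [Finset.disjoint_left]; intro i
      simp only [Finset.mem_filter, Finset.mem_univ, true_and, Prod.mk.injEq]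
      cases u i <;> cases v i <;> simp
  · unfold hammingDist
    rw [← Finset.card_union_of_disjoint, ← Finset.card_union_of_disjoint]
    · have : (((Finset.univ.filter fun i => (u i, v i) = (false, false)) ∪ (Finset.univ.filter fun i => u i ≠ v i)) ∪
        (Finset.univ.filter fun i => u i = true ∧ v i = true)) = Finset.univ := by
        ext i; simp only [Finset.mem_union, Finset.mem_filter, Finset.mem_univ, true_and, Prod.mk.injEq, iff_true]
        cases u i <;> cases v i <;> simp
      rw [this, Finset.card_univ, Fintype.card_fin]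
    · rw [Finset.disjoint_left]; intro i
      simp only [Finset.mem_union, Finset.mem_filter, Finset.mem_univ, true_and, Prod.mk.injEq]
      cases u i <;> cases v i <;> simp
    · rw [Finset.disjoint_left]; intro i
      simp only [Finset.mem_filter, Finset.mem_univ, true_and, Prod.mk.injEq]
      cases u i <;> cases v i <;> simp

/-- alignment, with a common origin -/
theorem align2 (u1 u2 v1 v2 : Fin k → Bool) (h1 : wt u1 = wt v1) (h2 : wt u2 = wt v2)
    (h12 : hammingDist u1 u2 = hammingDist v1 v2) :
    ∃ σ : Equiv.Perm (Fin k), (∀ i, v1 (σ i) = u1 i) ∧ (∀ i, v2 (σ i) = u2 i) := by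
  obtain ⟨σ, hσ⟩ := exists_perm (fun i => (u1 i, u2 i)) (fun i => (v1 i, v2 i)) (by
    intro c
    obtain ⟨n, -, a1, a2, a3, a4, a5⟩ := card_filter_pair u1 u2 c
    obtain ⟨m, -, b1, b2, b3, b4, b5⟩ := card_filter_pair v1 v2 c
    have hnm : n = m := by omega
    rcases c with ⟨c1, c2⟩
    cases c1 <;> cases c2
    · omega
    · omega
    · omega
    · omega)
  refine ⟨σ, fun i => ?_, fun i => ?_⟩
  · exact congrArg Prod.fst (hσ i)
  · exact congrArg Prod.snd (hσ i)

theorem hd_perm (σ : Equiv.Perm (Fin k)) (u v : Fin k → Bool) :
    hammingDist (fun i => u (σ i)) (fun i => v (σ i)) = hammingDist u v := by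
  unfold hammingDist
  apply Finset.card_bij (fun i _ => σ i)
  · intro i hi; simpa using hi
  · intro i _ j _ h; exact σ.injective h
  · intro j hj
    exact ⟨σ.symm j, by simpa using hj, by simp⟩

theorem hd_xor (w u v : Fin k → Bool) :
    hammingDist (fun i => xor (w i) (u i)) (fun i => xor (w i) (v i)) = hammingDist u v := by
  unfold hammingDist
  congr 1; ext i
  simp

/-- alignment of triples -/
theorem align3 (u1 u2 u3 v1 v2 v3 : Fin k → Bool) (h12 : hammingDist u1 u2 = hammingDist v1 v2)
    (h13 : hammingDist u1 u3 = hammingDist v1 v3) (h23 : hammingDist u2 u3 = hammingDist v2 v3) :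
    ∃ α : (Fin k → Bool) → (Fin k → Bool), Isom α ∧ α v1 = u1 ∧ α v2 = u2 ∧ α v3 = u3 := by
  have hw : ∀ a b : Fin k → Bool, wt (fun i => xor (b i) (a i)) = hammingDist a b := by
    intro a b
    have := hd_xor b a b
    rw [← this]
    unfold wt
    congr 1
    funext i; simp [zr]
  obtain ⟨σ, hσ1, hσ2⟩ := align2 (fun i => xor (u3 i) (u1 i)) (fun i => xor (u3 i) (u2 i))
    (fun i => xor (v3 i) (v1 i)) (fun i => xor (v3 i) (v2 i)) (by rw [hw, hw, h13]) (by rw [hw, hw, h23])
    (by rw [hd_xor, hd_xor, h12])
  refine ⟨fun w i => xor (u3 i) (xor (v3 (σ i)) (w (σ i))), ?_, ?_, ?_, ?_⟩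
  · apply isom_of_hd
    intro u v
    rw [hd_xor u3 (fun i => xor (v3 (σ i)) (u (σ i))) (fun i => xor (v3 (σ i)) (v (σ i)))]
    rw [hd_perm σ (fun i => xor (v3 i) (u i)) (fun i => xor (v3 i) (v i)), hd_xor]
  · funext i
    have := hσ1 i
    simp only at this ⊢
    rw [this]; simp
  · funext i
    have := hσ2 i
    simp only at this ⊢
    rw [this]; simp
  · funext i
    simp

end Pool.Agent.H875
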