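import Pool.Agent.H875.Conv
set_option autoImplicit false

/-! Closed walks of a consistent signed graph. -/

open Classical

namespace Pool.Agent.H875
open SgK4

variable {V E : Type}

/-- the sign as an integer -/
noncomputable def sg (G : SG V E) (e : E) : ℤ := if e ∈ G.neg then 1 else 0

/-- sign and length of closed walks -/
def PP (k : ℕ) (x : ℤ) (l : ℕ) : Prop := Even ((l : ℤ) - k * x) ∧ (Odd x → k ≤ l)

theorem PP.add {k : ℕ} {x y : ℤ} {l m : ℕ} (h1 : PP k x l) (h2 : PP k y m) : PP k (x + y) (l + m) := by
  obtain ⟨⟨r1, hr1⟩, h1⟩ := h1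
  obtain ⟨⟨r2, hr2⟩, h2⟩ := h2
  refine ⟨⟨r1 + r2, by push_cast; linear_combination hr1 + hr2⟩, fun hx => ?_⟩
  rcases Int.even_or_odd x with hx' | hx'
  · have : Odd y := by
      rcases Int.even_or_odd y with h | h
      · exact absurd (hx'.add h) (Int.not_even_iff_odd.mpr hx)
      · exact h
    have := h2 this
    omega
  · have := h1 hx'
    omega

theorem sum_sg (G : SG V E) (n : ℕ) (e : ℕ → E) :
    ∑ i ∈ Finset.range n, sg G (e i) = ({i | i < n ∧ e i ∈ G.neg}.ncard : ℤ) := by
  have h : {i | i < n ∧ e i ∈ G.neg} = ((Finset.range n).filter fun i => e i ∈ G.neg : Finset ℕ) := by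
    ext i; simp
  rw [h, Set.ncard_coe_finset, Finset.card_filter]
  unfold sg
  push_cast
  rfl

theorem cyc_PP {G : SG V E} {k : ℕ} (hc : G.Consistent) (hk : G.UnbalancedGirth k) {n : ℕ} {v : ℕ → V} {e : ℕ → E}
    (h : G.IsCycle n v e) : PP k (∑ i ∈ Finset.range n, sg G (e i)) n := by
  rw [sum_sg]
  by_cases hb : G.Balanced n e
  · have h1 := hc.1 n v e h hb
    unfold SG.Balanced at hb
    obtain ⟨r, hr⟩ := hb
    obtain ⟨s, hs⟩ := h1
    have hr' : ({i | i < n ∧ e i ∈ G.neg}.ncard : ℤ) = r + r := by rw [hr]; push_cast; ring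
    have hs' : (n : ℤ) = s + s := by rw [hs]; push_cast; ring
    refine ⟨⟨s - k * r, by rw [hr', hs']; ring⟩, fun hx => ?_⟩
    exfalso
    rw [hr] at hx
    obtain ⟨t, ht⟩ := hx
    push_cast at ht
    omega
  · obtain ⟨⟨v', e', h', hb'⟩, hmin⟩ := hk
    have h1 := hc.2 n v e k v' e' h hb h' hb'
    have h2 : k ≤ n := hmin ⟨v, e, h, hb⟩
    unfold SG.Balanced at hb
    rw [Nat.not_even_iff_odd] at hb
    obtain ⟨r, hr⟩ := hb
    refine ⟨?_, fun _ => h2⟩
    have hr' : ({i | i < n ∧ e i ∈ G.neg}.ncard : ℤ) = 2 * r + 1 := by rw [hr]; push_cast; ring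
    rw [hr']
    rcases Nat.even_or_odd n with hn | hn
    · obtain ⟨a, ha⟩ := hn
      obtain ⟨b, hb⟩ := h1.mp ⟨a, ha⟩
      have ha' : (n : ℤ) = a + a := by rw [ha]; push_cast; ring
      have hb' : (k : ℤ) = b + b := by rw [hb]; push_cast; ring
      exact ⟨a - b * (2 * r + 1), by rw [ha', hb']; ring⟩
    · have hk' : Odd k := by
        rw [← Nat.not_even_iff_odd] at hn ⊢
        exact fun h => hn (h1.mpr h)
      obtain ⟨a, ha⟩ := hn
      obtain ⟨b, hb⟩ := hk'
      have ha' : (n : ℤ) = 2 * a + 1 := by rw [ha]; push_cast; ring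
      have hb' : (k : ℤ) = 2 * b + 1 := by rw [hb]; push_cast; ring
      exact ⟨a - b * (2 * r + 1) - r, by rw [ha', hb']; ring⟩

theorem closed_PP {G : SG V E} (hl : G.Loopless) {k : ℕ} (hc : G.Consistent) (hk : G.UnbalancedGirth k) :
    ∀ (n : ℕ) (v : ℕ → V) (e : ℕ → E), (∀ i < n, G.ends (e i) = s(v i, v (i + 1))) → v n = v 0 →
      PP k (∑ i ∈ Finset.range n, sg G (e i)) n := by
  intro n
  induction n using Nat.strong_induction_on with
  | _ n ih =>
    intro v e hinc hcl
    by_cases hex : ∃ i j, i < j ∧ j ≤ n ∧ j < i + n ∧ v i = v j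
    · obtain ⟨i, j, hij, hjn, hjin, hv⟩ := hex
      obtain ⟨m, rfl⟩ : ∃ m, j = i + m := ⟨j - i, by omega⟩
      obtain ⟨r, rfl⟩ : ∃ r, n = i + m + r := ⟨n - (i + m), by omega⟩
      have hm : 0 < m := by omega
      have hmn : m < i + m + r := by omega
      have hrn : i + r < i + m + r := by omega
      have h1 := ih m hmn (fun t => v (i + t)) (fun t => e (i + t)) (fun t ht => by
        have := hinc (i + t) (by omega)
        simpa [add_assoc] using this) (by simpa using hv.symm)
      have h2 := ih (i + r) hrn (fun t => if t ≤ i then v t else v (t + m)) (fun t => if t < i then e t else e (t + m))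
        (fun t ht => by
          rcases lt_trichotomy t i with h | h | h
          · simp only [if_pos h, if_pos (le_of_lt h), if_pos (show t + 1 ≤ i by omega)]
            exact hinc t (by omega)
          · subst h
            simp only [if_pos le_rfl, if_neg (lt_irrefl t), if_neg (show ¬ t + 1 ≤ t by omega)]
            have := hinc (t + m) (by omega)
            rw [this, hv]
            congr 2
            ring_nf
          · simp only [if_neg (show ¬ t < i by omega), if_neg (show ¬ t ≤ i by omega),
              if_neg (show ¬ t + 1 ≤ i by omega)]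
            have := hinc (t + m) (by omega)
            rw [this]
            congr 2
            ring_nf)
        (by
          simp only [if_pos (Nat.zero_le i)]
          by_cases hr : i + r ≤ i
          · have hr0 : r = 0 := by omega
            subst hr0
            simp only [add_zero] at hcl ⊢
            rw [if_pos le_rfl, hv]
            exact hcl
          · simp only [if_neg hr]
            rw [← hcl]
            congr 1
            ring)
      have h3 := h1.add h2
      have e1 : ∑ t ∈ Finset.range (i + m + r), sg G (e t) = (∑ t ∈ Finset.range m, sg G (e (i + t))) +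
          ∑ t ∈ Finset.range (i + r), sg G (if t < i then e t else e (t + m)) := by
        rw [Finset.sum_range_add, Finset.sum_range_add, Finset.sum_range_add _ i r]
        have e2 : ∑ t ∈ Finset.range i, sg G (if t < i then e t else e (t + m)) = ∑ t ∈ Finset.range i, sg G (e t) := by
          apply Finset.sum_congr rfl
          intro t ht
          rw [if_pos (Finset.mem_range.mp ht)]
        have e3 : ∑ t ∈ Finset.range r, sg G (if i + t < i then e (i + t) else e (i + t + m)) =
            ∑ t ∈ Finset.range r, sg G (e (i + m + t)) := by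
          apply Finset.sum_congr rfl
          intro t _
          rw [if_neg (by omega)]
          congr 2
          ring
        rw [e2, e3]
        ring
      rw [e1]
      have e4 : i + m + r = m + (i + r) := by ring
      rw [e4]
      exact h3
    · push Not at hex
      have hinj : ∀ i < n, ∀ j < n, v i = v j → i = j := by
        intro i hi j hj hv
        rcases lt_trichotomy i j with h | h | h
        · exact absurd hv (hex i j h (by omega) (by omega))
        · exact h
        · exact absurd hv.symm (hex j i h (by omega) (by omega))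
      rcases Nat.lt_or_ge n 2 with hn | hn
      · rcases Nat.eq_zero_or_pos n with h0 | h0
        · subst h0
          exact ⟨by simp, by simp⟩
        · have h1 : n = 1 := by omega
          subst h1
          exfalso
          have := hinc 0 (by omega)
          apply hl (e 0)
          rw [this]
          simp only [zero_add]
          rw [hcl]
          exact Sym2.mk_isDiag_iff.mpr rfl
      · by_cases he : ∀ i < n, ∀ j < n, e i = e j → i = j
        · exact cyc_PP hc hk ⟨hn, hcl, hinc, hinj, he⟩
        · push Not at he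
          obtain ⟨i, hi, j, hj, hij, hne⟩ := he
          -- then n = 2
          have hn2 : n = 2 ∧ e 0 = e 1 := by
            have key : ∀ i j, i < j → j < n → e i = e j → n = 2 ∧ e 0 = e 1 := by
              intro i j h hj hij
              have h1 := hinc i (by omega)
              have h2 := hinc j hj
              rw [hij, h2, Sym2.eq_iff] at h1
              rcases h1 with ⟨h1, -⟩ | ⟨h1, h3⟩
              · exact absurd h1.symm (hex i j h (by omega) (by omega))
              · have hji : j = i + 1 := by
                  by_contra hcon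
                  exact hex (i + 1) j (by omega) (by omega) (by omega) h1.symm
                have : i = 0 ∧ j + 1 = n := by
                  by_contra hcon
                  exact hex i (j + 1) (by omega) (by omega) (by omega) h3.symm
                obtain ⟨rfl, h4⟩ := this
                subst hji
                exact ⟨by omega, hij⟩
            rcases lt_or_gt_of_ne hne with h | h
            · exact key i j h hj hij
            · exact key j i h hi hij.symm
          obtain ⟨rfl, he01⟩ := hn2
          rw [Finset.sum_range_succ, Finset.sum_range_one, ← he01]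
          refine ⟨⟨1 - k * sg G (e 0), by push_cast; ring⟩, fun hx => ?_⟩
          exact absurd ⟨sg G (e 0), rfl⟩ (Int.not_even_iff_odd.mpr hx)

/-- the weighted relation of a signed graph -/
def WOfG (G : SG V E) : V → V → ℤ → ℕ → Prop := fun a b x l =>
  l = 1 ∧ ∃ e, G.ends e = s(a, b) ∧ Even (x - sg G e)

theorem wOfG_wgr {G : SG V E} (hl : G.Loopless) : WGr (WOfG G) := by
  refine ⟨?_, ?_, ?_⟩
  · rintro a b x l ⟨h, e, he, hx⟩
    refine ⟨h, e, by rw [he, Sym2.eq_swap], ?_⟩
    obtain ⟨r, hr⟩ := hx
    exact ⟨-r - sg G e, by linear_combination -hr⟩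
  · rintro a b x l ⟨h, e, he, hx⟩
    refine ⟨h, e, he, ?_⟩
    obtain ⟨r, hr⟩ := hx
    exact ⟨r + 1, by linear_combination hr⟩
  · rintro a b x l ⟨h, e, he, hx⟩ hab
    apply hl e
    rw [he, hab]
    exact Sym2.mk_isDiag_iff.mpr rfl

theorem wk_fun [Nonempty E] {G : SG V E} {S : Finset V} {a b : V} {x : ℤ} {l : ℕ} (h : Wk (WOfG G) S a b x l) :
    ∃ (v : ℕ → V) (e : ℕ → E), v 0 = a ∧ v l = b ∧ (∀ i < l, G.ends (e i) = s(v i, v (i + 1))) ∧
      Even (x - ∑ i ∈ Finset.range l, sg G (e i)) := by
  induction h with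
  | nil a ha => exact ⟨fun _ => a, fun _ => Classical.arbitrary E, rfl, rfl, by simp, by simp⟩
  | @cons a b c x y l m ha hW t ih =>
    obtain ⟨v, e, h0, hm, hinc, hx⟩ := ih
    obtain ⟨rfl, f, hf, hxf⟩ := hW
    refine ⟨fun i => Nat.casesOn i a v, fun i => Nat.casesOn i f e, rfl, ?_, ?_, ?_⟩
    · rw [add_comm 1 m]; exact hm
    · intro i hi
      cases i with
      | zero =>
        show G.ends f = s(a, v 0)
        rw [hf, h0]
      | succ i => exact hinc i (by omega)
    · rw [add_comm 1 m, Finset.sum_range_succ']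
      obtain ⟨r1, hr1⟩ := hx
      obtain ⟨r2, hr2⟩ := hxf
      exact ⟨r1 + r2, by simp only; linear_combination hr1 + hr2⟩

theorem wk_PP {G : SG V E} (hl : G.Loopless) {k : ℕ} (hc : G.Consistent) (hk : G.UnbalancedGirth k) {S : Finset V}
    {a : V} {x : ℤ} {l : ℕ} (h : Wk (WOfG G) S a a x l) : PP k x l := by
  obtain ⟨⟨v', e', h', hb'⟩, hmin⟩ := id hk
  have : Nonempty E := ⟨e' 0⟩
  obtain ⟨v, e, h0, h1, hinc, r, hr⟩ := wk_fun h
  obtain ⟨⟨s, hs⟩, h3⟩ := closed_PP hl hc hk l v e hinc (h1.trans h0.symm)
  refine ⟨⟨s - k * r, by linear_combination hs - k * hr⟩, fun hx => h3 ?_⟩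
  obtain ⟨t, ht⟩ := hx
  exact ⟨t - r, by linarith⟩

theorem neg_of_girth {G : SG V E} (hl : G.Loopless) {k : ℕ} (hc : G.Consistent) (hk : G.UnbalancedGirth k)
    (S : Finset V) : Neg (WOfG G) S k :=
  fun _ _ _ hw hx => (wk_PP hl hc hk hw).2 hx

theorem exists_par {G : SG V E} (hl : G.Loopless) {k : ℕ} (hc : G.Consistent) (hk : G.UnbalancedGirth k)
    (S : Finset V) : ∃ p : V → ℤ, Par k p (WOfG G) S := by
  have hW := wOfG_wgr hl
  let st : Setoid V := ⟨fun a b => a = b ∨ ∃ x l, Wk (WOfG G) S a b x l, by
    refine ⟨fun a => Or.inl rfl, ?_, ?_⟩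
    · rintro a b (h | ⟨x, l, h⟩)
      · exact Or.inl h.symm
      · exact Or.inr ⟨-x, l, h.symm hW.symm⟩
    · rintro a b c (h | ⟨x, l, h⟩) (h' | ⟨y, m, h'⟩)
      · exact Or.inl (h.trans h')
      · subst h; exact Or.inr ⟨y, m, h'⟩
      · subst h'; exact Or.inr ⟨x, l, h⟩
      · exact Or.inr ⟨x + y, l + m, h.trans h'⟩⟩
  have hroot : ∀ a ∈ S, ∃ (x : ℤ) (l : ℕ), Wk (WOfG G) S (Quotient.mk st a).out a x l := by
    intro a ha
    have h : st.r (Quotient.mk st a).out a := Quotient.mk_out (s := st) a
    rcases h with h | h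
    · rw [h]; exact ⟨0, 0, Wk.nil a ha⟩
    · exact h
  choose! X L hXL using hroot
  refine ⟨fun a => (L a : ℤ) - k * X a, ?_⟩
  intro a ha b hb x l hw
  have hs := Wk.single ha hb hw
  have hq : Quotient.mk st a = Quotient.mk st b := Quotient.sound (s := st) (Or.inr ⟨x, l, hs⟩)
  have h1 := hXL a ha
  have h2 := hXL b hb
  rw [← hq] at h2
  have h3 := (wk_PP hl hc hk ((h1.trans hs).trans (h2.symm hW.symm))).1
  obtain ⟨r, hr⟩ := h3
  push_cast at hr
  exact ⟨r - L b, by linear_combination hr⟩

end Pool.Agent.H875
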