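import Pool.Agent.H875.Defs
set_option autoImplicit false

/-! Further definitions: the signed minor (K5, E(K5)) and the pairs joined by negative edges after a switching. -/

namespace Pool.Agent.H875

variable {V E : Type}

/-- The signed adjacency `R` has a (K5, E(K5)) signed minor: for some switching `p` there are five disjoint
nonempty sets, each connected by positive edges, any two of them joined by a negative edge. -/
def HasOddK5 (R : V → V → ZMod 2 → Prop) : Prop :=
  ∃ (p : V → ZMod 2) (B : Fin 5 → Set V), (∀ i, (B i).Nonempty) ∧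
    (∀ i j, i ≠ j → Disjoint (B i) (B j)) ∧
    (∀ i, ∀ a ∈ B i, ∀ b ∈ B i,
      Relation.ReflTransGen (fun c d => c ∈ B i ∧ d ∈ B i ∧ R c d (p c + p d)) a b) ∧
    ∀ i j, i ≠ j → ∃ a ∈ B i, ∃ b ∈ B j, R a b (p a + p b + 1)

/-- `a` and `b` are joined by a negative edge of the signature obtained by switching at `X` -/
def SG.negAdj (G : SG V E) (X : Set V) (a b : V) : Prop :=
  ∃ e, G.ends e = s(a, b) ∧ e ∈ symmDiff G.neg (G.cut X)

end Pool.Agent.H875
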