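import Mathlib
set_option autoImplicit false

/-! Graphs without three disjoint edges and without a triangle and a disjoint edge. -/

open Classical

namespace Pool.Agent.H875

variable {V : Type}

/-- all edges contain one of two vertices -/
def C1 (N : V → V → Prop) : Prop := ∃ c1 c2, ∀ x y, N x y → x = c1 ∨ x = c2 ∨ y = c1 ∨ y = c2

/-- all edges lie on a pentagon -/
def C2 (N : V → V → Prop) : Prop :=
  ∃ a : Fin 5 → V, ∀ x y, N x y → ∃ i, (x = a i ∧ y = a (i + 1)) ∨ (x = a (i + 1) ∧ y = a i)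

/-- the edges are those of a complete graph on four vertices -/
def C3 (N : V → V → Prop) : Prop :=
  ∃ t : Fin 4 → V, (∀ i j, i ≠ j → N (t i) (t j)) ∧ ∀ x y, N x y → ∃ i j, x = t i ∧ y = t j

/-- three disjoint edges -/
def M3 (N : V → V → Prop) : Prop := ∃ a b c d e f : V, [a, b, c, d, e, f].Nodup ∧ N a b ∧ N c d ∧ N e f

/-- a triangle and a disjoint edge -/
def TE (N : V → V → Prop) : Prop := ∃ a b c d e : V, [a, b, c, d, e].Nodup ∧ N a b ∧ N b c ∧ N a c ∧ N d e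

/-- `v` has a neighbour outside -/
def Out (N : V → V → Prop) (a b c d v : V) : Prop := ∃ x, x ≠ a ∧ x ≠ b ∧ x ≠ c ∧ x ≠ d ∧ N v x

section
variable {N : V → V → Prop} (hs : ∀ x y, N x y → N y x) (h3 : ¬ M3 N) (h4 : ¬ TE N)
include hs h3 h4

theorem not_out {a b c d : V} (hab : a ≠ b) (hac : a ≠ c) (had : a ≠ d) (hbc : b ≠ c) (hbd : b ≠ d) (hcd : c ≠ d)
    (h1 : N a b) (h2 : N c d) : ¬ (Out N a b c d a ∧ Out N a b c d b) := by
  rintro ⟨⟨x, x1, x2, x3, x4, hx⟩, ⟨y, y1, y2, y3, y4, hy⟩⟩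
  by_cases hxy : x = y
  · subst hxy
    apply h4
    refine ⟨a, b, x, c, d, ?_, h1, hy, hx, h2⟩
    simp only [List.nodup_cons, List.mem_cons, List.not_mem_nil, or_false, not_or, List.nodup_nil, and_true,
      not_false_eq_true]
    exact ⟨⟨hab, x1.symm, hac, had⟩, ⟨x2.symm, hbc, hbd⟩, ⟨x3, x4⟩, hcd⟩
  · apply h3
    refine ⟨a, x, b, y, c, d, ?_, hx, hy, h2⟩
    simp only [List.nodup_cons, List.mem_cons, List.not_mem_nil, or_false, not_or, List.nodup_nil, and_true,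
      not_false_eq_true]
    exact ⟨⟨x1.symm, hab, y1.symm, hac, had⟩, ⟨x2, hxy, x3, x4⟩, ⟨y2.symm, hbc, hbd⟩, ⟨y3, y4⟩, hcd⟩

theorem case_ac {a b c d : V} (hab : a ≠ b) (hac : a ≠ c) (had : a ≠ d) (hbc : b ≠ c) (hbd : b ≠ d) (hcd : c ≠ d)
    (h1 : N a b) (h2 : N c d) (hir : ∀ x, ¬ N x x)
    (hmeet : ∀ x y, N x y → (x = a ∨ x = b ∨ x = c ∨ x = d) ∨ (y = a ∨ y = b ∨ y = c ∨ y = d))
    (ha : Out N a b c d a) (hc : Out N a b c d c) : C1 N ∨ C2 N := by
  have hb : ¬ Out N a b c d b := fun h => not_out hs h3 h4 hab hac had hbc hbd hcd h1 h2 ⟨ha, h⟩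
  have hd : ¬ Out N a b c d d := by
    intro h
    have : Out N c d a b c ∧ Out N c d a b d := by
      obtain ⟨x, x1, x2, x3, x4, hx⟩ := hc
      obtain ⟨y, y1, y2, y3, y4, hy⟩ := h
      exact ⟨⟨x, x3, x4, x1, x2, hx⟩, ⟨y, y3, y4, y1, y2, hy⟩⟩
    exact not_out hs h3 h4 hcd hac.symm hbc.symm had.symm hbd.symm hab h2 h1 this
  have hbn : ∀ y, N b y → y = a ∨ y = c ∨ y = d := by
    intro y hy
    by_contra hcon
    push Not at hcon
    exact hb ⟨y, hcon.1, fun h => hir b (by rw [h] at hy; exact hy), hcon.2.1, hcon.2.2, hy⟩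
  have hdn : ∀ y, N d y → y = a ∨ y = b ∨ y = c := by
    intro y hy
    by_contra hcon
    push Not at hcon
    exact hd ⟨y, hcon.1, hcon.2.1, hcon.2.2, fun h => hir d (by rw [h] at hy; exact hy), hy⟩
  by_cases hNbd : N b d
  · right
    obtain ⟨x, x1, x2, x3, x4, hx⟩ := ha
    obtain ⟨y, y1, y2, y3, y4, hy⟩ := hc
    have key : ∀ x y, x ≠ a → x ≠ b → x ≠ c → x ≠ d → N a x → y ≠ a → y ≠ b → y ≠ c → y ≠ d → N c y → x = y := by
      intro x y x1 x2 x3 x4 hx y1 y2 y3 y4 hy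
      by_contra hxy
      apply h3
      refine ⟨a, x, b, d, c, y, ?_, hx, hNbd, hy⟩
      simp only [List.nodup_cons, List.mem_cons, List.not_mem_nil, or_false, not_or, List.nodup_nil, and_true,
        not_false_eq_true]
      exact ⟨⟨x1.symm, hab, had, hac, y1.symm⟩, ⟨x2, x4, x3, hxy⟩, ⟨hbd, hbc, y2.symm⟩, ⟨hcd.symm, y4.symm⟩, y3.symm⟩
    have hxy := key x y x1 x2 x3 x4 hx y1 y2 y3 y4 hy
    subst hxy
    have nac : ¬ N a c := by
      intro h
      apply h4
      refine ⟨a, c, x, b, d, ?_, h, hy, hx, hNbd⟩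
      simp only [List.nodup_cons, List.mem_cons, List.not_mem_nil, or_false, not_or, List.nodup_nil, and_true,
        not_false_eq_true]
      exact ⟨⟨hac, x1.symm, hab, had⟩, ⟨x3.symm, hbc.symm, hcd⟩, ⟨x2, x4⟩, hbd⟩
    have nad : ¬ N a d := by
      intro h
      apply h4
      refine ⟨a, b, d, c, x, ?_, h1, hNbd, h, hy⟩
      simp only [List.nodup_cons, List.mem_cons, List.not_mem_nil, or_false, not_or, List.nodup_nil, and_true,
        not_false_eq_true]
      exact ⟨⟨hab, had, hac, x1.symm⟩, ⟨hbd, hbc, x2.symm⟩, ⟨hcd.symm, x4.symm⟩, x3.symm⟩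
    have nbc : ¬ N b c := by
      intro h
      apply h4
      refine ⟨b, c, d, a, x, ?_, h, h2, hNbd, hx⟩
      simp only [List.nodup_cons, List.mem_cons, List.not_mem_nil, or_false, not_or, List.nodup_nil, and_true,
        not_false_eq_true]
      exact ⟨⟨hbc, hbd, hab.symm, x2.symm⟩, ⟨hcd, hac.symm, x3.symm⟩, ⟨had.symm, x4.symm⟩, x1.symm⟩
    refine ⟨![a, b, d, c, x], ?_⟩
    have main : ∀ u v, (u = a ∨ u = b ∨ u = c ∨ u = d) → N u v →
        (u = a ∧ v = b) ∨ (u = b ∧ v = a) ∨ (u = b ∧ v = d) ∨ (u = d ∧ v = b) ∨ (u = d ∧ v = c) ∨ (u = c ∧ v = d) ∨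
        (u = c ∧ v = x) ∨ (u = a ∧ v = x) := by
      intro u v hu hv
      rcases hu with rfl | rfl | rfl | rfl
      · by_cases e1 : v = b
        · exact Or.inl ⟨rfl, e1⟩
        · have e2 : v ≠ u := fun h => hir u (by rw [h] at hv; exact hv)
          have e3 : v ≠ c := fun h => nac (h ▸ hv)
          have e4 : v ≠ d := fun h => nad (h ▸ hv)
          have := key v x e2 e1 e3 e4 hv x1 x2 x3 x4 hy
          exact Or.inr (Or.inr (Or.inr (Or.inr (Or.inr (Or.inr (Or.inr ⟨rfl, this⟩))))))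
      · rcases hbn v hv with h | h | h
        · exact Or.inr (Or.inl ⟨rfl, h⟩)
        · exact absurd (h ▸ hv) nbc
        · exact Or.inr (Or.inr (Or.inl ⟨rfl, h⟩))
      · by_cases e1 : v = d
        · exact Or.inr (Or.inr (Or.inr (Or.inr (Or.inr (Or.inl ⟨rfl, e1⟩)))))
        · have e2 : v ≠ u := fun h => hir u (by rw [h] at hv; exact hv)
          have e3 : v ≠ a := fun h => nac (hs _ _ (h ▸ hv))
          have e4 : v ≠ b := fun h => nbc (hs _ _ (h ▸ hv))
          have := key x v x1 x2 x3 x4 hx e3 e4 e2 e1 hv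
          exact Or.inr (Or.inr (Or.inr (Or.inr (Or.inr (Or.inr (Or.inl ⟨rfl, this.symm⟩))))))
      · rcases hdn v hv with h | h | h
        · exact absurd (hs _ _ (h ▸ hv)) nad
        · exact Or.inr (Or.inr (Or.inr (Or.inl ⟨rfl, h⟩)))
        · exact Or.inr (Or.inr (Or.inr (Or.inr (Or.inl ⟨rfl, h⟩))))
    intro u v huv
    rcases hmeet u v huv with hu | hv
    · rcases main u v hu huv with ⟨rfl, rfl⟩ | ⟨rfl, rfl⟩ | ⟨rfl, rfl⟩ | ⟨rfl, rfl⟩ | ⟨rfl, rfl⟩ | ⟨rfl, rfl⟩ |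
        ⟨rfl, rfl⟩ | ⟨rfl, rfl⟩
      · exact ⟨0, Or.inl ⟨rfl, rfl⟩⟩
      · exact ⟨0, Or.inr ⟨rfl, rfl⟩⟩
      · exact ⟨1, Or.inl ⟨rfl, rfl⟩⟩
      · exact ⟨1, Or.inr ⟨rfl, rfl⟩⟩
      · exact ⟨2, Or.inl ⟨rfl, rfl⟩⟩
      · exact ⟨2, Or.inr ⟨rfl, rfl⟩⟩
      · exact ⟨3, Or.inl ⟨rfl, rfl⟩⟩
      · exact ⟨4, Or.inr ⟨rfl, rfl⟩⟩
    · rcases main v u hv (hs _ _ huv) with ⟨rfl, rfl⟩ | ⟨rfl, rfl⟩ | ⟨rfl, rfl⟩ | ⟨rfl, rfl⟩ | ⟨rfl, rfl⟩ | ⟨rfl, rfl⟩ |
        ⟨rfl, rfl⟩ | ⟨rfl, rfl⟩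
      · exact ⟨0, Or.inr ⟨rfl, rfl⟩⟩
      · exact ⟨0, Or.inl ⟨rfl, rfl⟩⟩
      · exact ⟨1, Or.inr ⟨rfl, rfl⟩⟩
      · exact ⟨1, Or.inl ⟨rfl, rfl⟩⟩
      · exact ⟨2, Or.inr ⟨rfl, rfl⟩⟩
      · exact ⟨2, Or.inl ⟨rfl, rfl⟩⟩
      · exact ⟨3, Or.inr ⟨rfl, rfl⟩⟩
      · exact ⟨4, Or.inl ⟨rfl, rfl⟩⟩
  · left
    refine ⟨a, c, ?_⟩
    have main : ∀ u v, (u = a ∨ u = b ∨ u = c ∨ u = d) → N u v → u = a ∨ u = c ∨ v = a ∨ v = c := by
      intro u v hu hv
      rcases hu with rfl | rfl | rfl | rfl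
      · exact Or.inl rfl
      · rcases hbn v hv with h | h | h
        · exact Or.inr (Or.inr (Or.inl h))
        · exact Or.inr (Or.inr (Or.inr h))
        · exact absurd (h ▸ hv) hNbd
      · exact Or.inr (Or.inl rfl)
      · rcases hdn v hv with h | h | h
        · exact Or.inr (Or.inr (Or.inl h))
        · exact absurd (hs _ _ (h ▸ hv)) hNbd
        · exact Or.inr (Or.inr (Or.inr h))
    intro u v huv
    rcases hmeet u v huv with hu | hv
    · exact main u v hu huv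
    · rcases main v u hv (hs _ _ huv) with h | h | h | h
      · exact Or.inr (Or.inr (Or.inl h))
      · exact Or.inr (Or.inr (Or.inr h))
      · exact Or.inl h
      · exact Or.inr (Or.inl h)

theorem case_a {a b c d : V} (hab : a ≠ b) (hac : a ≠ c) (had : a ≠ d) (hbc : b ≠ c) (hbd : b ≠ d) (hcd : c ≠ d)
    (h1 : N a b) (h2 : N c d) (hir : ∀ x, ¬ N x x)
    (hmeet : ∀ x y, N x y → (x = a ∨ x = b ∨ x = c ∨ x = d) ∨ (y = a ∨ y = b ∨ y = c ∨ y = d))
    (ha : Out N a b c d a) : C1 N ∨ C2 N := by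
  by_cases hc : Out N a b c d c
  · exact case_ac hs h3 h4 hab hac had hbc hbd hcd h1 h2 hir hmeet ha hc
  by_cases hd : Out N a b c d d
  · refine case_ac hs h3 h4 (c := d) (d := c) hab had hac hbd hbc hcd.symm h1 (hs _ _ h2) hir ?_ ?_ ?_
    · intro x y hxy
      rcases hmeet x y hxy with (h | h | h | h) | (h | h | h | h) <;> simp [h]
    · obtain ⟨x, x1, x2, x3, x4, hx⟩ := ha
      exact ⟨x, x1, x2, x4, x3, hx⟩
    · obtain ⟨x, x1, x2, x3, x4, hx⟩ := hd
      exact ⟨x, x1, x2, x4, x3, hx⟩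
  left
  have hb : ¬ Out N a b c d b := fun h => not_out hs h3 h4 hab hac had hbc hbd hcd h1 h2 ⟨ha, h⟩
  have hbn : ∀ y, N b y → y = a ∨ y = c ∨ y = d := by
    intro y hy
    by_contra hcon
    push Not at hcon
    exact hb ⟨y, hcon.1, fun h => hir b (by rw [h] at hy; exact hy), hcon.2.1, hcon.2.2, hy⟩
  have hcn : ∀ y, N c y → y = a ∨ y = b ∨ y = d := by
    intro y hy
    by_contra hcon
    push Not at hcon
    exact hc ⟨y, hcon.1, hcon.2.1, fun h => hir c (by rw [h] at hy; exact hy), hcon.2.2, hy⟩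
  have hdn : ∀ y, N d y → y = a ∨ y = b ∨ y = c := by
    intro y hy
    by_contra hcon
    push Not at hcon
    exact hd ⟨y, hcon.1, hcon.2.1, hcon.2.2, fun h => hir d (by rw [h] at hy; exact hy), hy⟩
  have fin : ∀ r s, (∀ u v, (u = a ∨ u = b ∨ u = c ∨ u = d) → N u v → u = r ∨ u = s ∨ v = r ∨ v = s) → C1 N := by
    intro r s main
    refine ⟨r, s, fun u v huv => ?_⟩
    rcases hmeet u v huv with hu | hv
    · exact main u v hu huv
    · rcases main v u hv (hs _ _ huv) with h | h | h | h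
      · exact Or.inr (Or.inr (Or.inl h))
      · exact Or.inr (Or.inr (Or.inr h))
      · exact Or.inl h
      · exact Or.inr (Or.inl h)
  by_cases hNbd : N b d
  · by_cases hNbc : N b c
    · exfalso
      obtain ⟨x, x1, x2, x3, x4, hx⟩ := ha
      apply h4
      refine ⟨b, c, d, a, x, ?_, hNbc, h2, hNbd, hx⟩
      simp only [List.nodup_cons, List.mem_cons, List.not_mem_nil, or_false, not_or, List.nodup_nil, and_true,
        not_false_eq_true]
      exact ⟨⟨hbc, hbd, hab.symm, x2.symm⟩, ⟨hcd, hac.symm, x3.symm⟩, ⟨had.symm, x4.symm⟩, x1.symm⟩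
    · apply fin a d
      intro u v hu hv
      rcases hu with rfl | rfl | rfl | rfl
      · exact Or.inl rfl
      · rcases hbn v hv with h | h | h
        · exact Or.inr (Or.inr (Or.inl h))
        · exact absurd (h ▸ hv) hNbc
        · exact Or.inr (Or.inr (Or.inr h))
      · rcases hcn v hv with h | h | h
        · exact Or.inr (Or.inr (Or.inl h))
        · exact absurd (hs _ _ (h ▸ hv)) hNbc
        · exact Or.inr (Or.inr (Or.inr h))
      · exact Or.inr (Or.inl rfl)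
  · apply fin a c
    intro u v hu hv
    rcases hu with rfl | rfl | rfl | rfl
    · exact Or.inl rfl
    · rcases hbn v hv with h | h | h
      · exact Or.inr (Or.inr (Or.inl h))
      · exact Or.inr (Or.inr (Or.inr h))
      · exact absurd (h ▸ hv) hNbd
    · exact Or.inr (Or.inl rfl)
    · rcases hdn v hv with h | h | h
      · exact Or.inr (Or.inr (Or.inl h))
      · exact absurd (hs _ _ (h ▸ hv)) hNbd
      · exact Or.inr (Or.inr (Or.inr h))

/-- graphs without three disjoint edges and without a triangle and a disjoint edge -/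
theorem demand [Nonempty V] (hir : ∀ x, ¬ N x x) : C1 N ∨ C2 N ∨ C3 N := by
  by_cases he : ∃ a b, N a b
  swap
  · push Not at he
    obtain ⟨v⟩ := ‹Nonempty V›
    exact Or.inl ⟨v, v, fun x y h => absurd h (he x y)⟩
  obtain ⟨a, b, h1⟩ := he
  have hab : a ≠ b := fun h => hir b (by rw [h] at h1; exact h1)
  by_cases he2 : ∃ c d, N c d ∧ c ≠ a ∧ c ≠ b ∧ d ≠ a ∧ d ≠ b
  swap
  · left
    refine ⟨a, b, fun x y h => ?_⟩
    by_contra hcon
    push Not at hcon
    exact he2 ⟨x, y, h, hcon.1, hcon.2.1, hcon.2.2.1, hcon.2.2.2⟩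
  obtain ⟨c, d, h2, hca, hcb, hda, hdb⟩ := he2
  have hcd : c ≠ d := fun h => hir d (by rw [h] at h2; exact h2)
  have hmeet : ∀ x y, N x y → (x = a ∨ x = b ∨ x = c ∨ x = d) ∨ (y = a ∨ y = b ∨ y = c ∨ y = d) := by
    intro x y hxy
    by_contra hcon
    push Not at hcon
    obtain ⟨⟨x1, x2, x3, x4⟩, y1, y2, y3, y4⟩ := hcon
    have hxy' : x ≠ y := fun h => hir y (by rw [h] at hxy; exact hxy)
    apply h3
    refine ⟨a, b, c, d, x, y, ?_, h1, h2, hxy⟩
    simp only [List.nodup_cons, List.mem_cons, List.not_mem_nil, or_false, not_or, List.nodup_nil, and_true,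
      not_false_eq_true]
    exact ⟨⟨hab, hca.symm, hda.symm, x1.symm, y1.symm⟩, ⟨hcb.symm, hdb.symm, x2.symm, y2.symm⟩,
      ⟨hcd, x3.symm, y3.symm⟩, ⟨x4.symm, y4.symm⟩, hxy'⟩
  by_cases ha : Out N a b c d a
  · rcases case_a hs h3 h4 hab hca.symm hda.symm hcb.symm hdb.symm hcd h1 h2 hir hmeet ha with h | h
    · exact Or.inl h
    · exact Or.inr (Or.inl h)
  by_cases hb : Out N a b c d b
  · rcases case_a hs h3 h4 (a := b) (b := a) hab.symm hcb.symm hdb.symm hca.symm hda.symm hcd (hs _ _ h1) h2 hir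
      (by intro x y hxy
          rcases hmeet x y hxy with (h | h | h | h) | (h | h | h | h) <;> simp [h])
      (by obtain ⟨x, x1, x2, x3, x4, hx⟩ := hb
          exact ⟨x, x2, x1, x3, x4, hx⟩) with h | h
    · exact Or.inl h
    · exact Or.inr (Or.inl h)
  by_cases hc : Out N a b c d c
  · rcases case_a hs h3 h4 (a := c) (b := d) (c := a) (d := b) hcd hca hcb hda hdb hab h2 h1 hir
      (by intro x y hxy
          rcases hmeet x y hxy with (h | h | h | h) | (h | h | h | h) <;> simp [h])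
      (by obtain ⟨x, x1, x2, x3, x4, hx⟩ := hc
          exact ⟨x, x3, x4, x1, x2, hx⟩) with h | h
    · exact Or.inl h
    · exact Or.inr (Or.inl h)
  by_cases hd : Out N a b c d d
  · rcases case_a hs h3 h4 (a := d) (b := c) (c := a) (d := b) hcd.symm hda hdb hca hcb hab (hs _ _ h2) h1 hir
      (by intro x y hxy
          rcases hmeet x y hxy with (h | h | h | h) | (h | h | h | h) <;> simp [h])
      (by obtain ⟨x, x1, x2, x3, x4, hx⟩ := hd
          exact ⟨x, x4, x3, x1, x2, hx⟩) with h | h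
    · exact Or.inl h
    · exact Or.inr (Or.inl h)
  -- all edges are inside the four vertices
  have hin : ∀ x y, N x y → (x = a ∨ x = b ∨ x = c ∨ x = d) ∧ (y = a ∨ y = b ∨ y = c ∨ y = d) := by
    have main : ∀ u v, (u = a ∨ u = b ∨ u = c ∨ u = d) → N u v → (v = a ∨ v = b ∨ v = c ∨ v = d) := by
      intro u v hu hv
      by_contra hcon
      push Not at hcon
      obtain ⟨v1, v2, v3, v4⟩ := hcon
      rcases hu with rfl | rfl | rfl | rfl
      · exact ha ⟨v, v1, v2, v3, v4, hv⟩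
      · exact hb ⟨v, v1, v2, v3, v4, hv⟩
      · exact hc ⟨v, v1, v2, v3, v4, hv⟩
      · exact hd ⟨v, v1, v2, v3, v4, hv⟩
    intro x y hxy
    rcases hmeet x y hxy with h | h
    · exact ⟨h, main x y h hxy⟩
    · exact ⟨main y x h (hs _ _ hxy), h⟩
  -- a missing pair
  have miss : ∀ r s u v, (∀ x, (x = a ∨ x = b ∨ x = c ∨ x = d) → x = r ∨ x = s ∨ x = u ∨ x = v) → ¬ N u v → C1 N := by
    intro r s u v hr huv
    refine ⟨r, s, fun x y hxy => ?_⟩
    by_contra hcon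
    push Not at hcon
    obtain ⟨c1, c2, c3, c4⟩ := hcon
    obtain ⟨i1, i2⟩ := hin x y hxy
    rcases hr x i1 with h | h | h | h
    · exact c1 h
    · exact c2 h
    · rcases hr y i2 with h' | h' | h' | h'
      · exact c3 h'
      · exact c4 h'
      · exact hir u (by rw [h, h'] at hxy; exact hxy)
      · exact huv (by rw [h, h'] at hxy; exact hxy)
    · rcases hr y i2 with h' | h' | h' | h'
      · exact c3 h'
      · exact c4 h'
      · exact huv (by rw [h, h'] at hxy; exact hs _ _ hxy)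
      · exact hir v (by rw [h, h'] at hxy; exact hxy)
  by_cases n1 : N a c
  swap
  · exact Or.inl (miss b d a c (by tauto) n1)
  by_cases n2 : N a d
  swap
  · exact Or.inl (miss b c a d (by tauto) n2)
  by_cases n3 : N b c
  swap
  · exact Or.inl (miss a d b c (by tauto) n3)
  by_cases n4 : N b d
  swap
  · exact Or.inl (miss a c b d (by tauto) n4)
  right; right
  refine ⟨![a, b, c, d], ?_, ?_⟩
  · intro i j hij
    fin_cases i <;> fin_cases j <;> first | exact absurd rfl hij | skip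
    · exact h1
    · exact n1
    · exact n2
    · exact hs _ _ h1
    · exact n3
    · exact n4
    · exact hs _ _ n1
    · exact hs _ _ n3
    · exact h2
    · exact hs _ _ n2
    · exact hs _ _ n4
    · exact hs _ _ h2
  · intro x y hxy
    have key : ∀ x, (x = a ∨ x = b ∨ x = c ∨ x = d) → ∃ i, x = (![a, b, c, d] : Fin 4 → V) i := by
      rintro x (h | h | h | h)
      · exact ⟨0, h⟩
      · exact ⟨1, h⟩
      · exact ⟨2, h⟩
      · exact ⟨3, h⟩
    obtain ⟨i1, i2⟩ := hin x y hxy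
    obtain ⟨i, hi⟩ := key x i1
    obtain ⟨j, hj⟩ := key y i2
    exact ⟨i, j, hi, hj⟩

end

end Pool.Agent.H875
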