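import Pool.Agent.H875.Pent5
set_option autoImplicit false

/-! Supports whose odd edges contain one of two vertices, or lie inside four vertices. -/

open Classical

namespace Pool.Agent.H875
open SgK4

variable {V : Type}

theorem good_star0 (E : V → V → ℤ → Prop) (S : Finset V) {c d : V} (hc : c ∈ S) (hd : d ∈ S)
    (hE : ∀ x ∈ S, ∀ y ∈ S, ∀ z, x ≠ y → E x y z → Odd z → x = c ∨ x = d ∨ y = c ∨ y = d) :
    Good E S := by
  intro k hk p W hW hWE hP hN
  obtain ⟨D, a1, a2, a3, a4, a5, a6, a7, a8⟩ := exact_metric hk hW hP hN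
  have hPM : PM k S D := by
    refine ⟨fun s _ => a1 s, a3, a5, a6, ?_⟩
    intro s hs t ht u hu
    obtain ⟨r1, hr1⟩ := a4 s hs t ht
    obtain ⟨r2, hr2⟩ := a4 t ht u hu
    obtain ⟨r3, hr3⟩ := a4 s hs u hu
    have : ((D s t + D t u + D s u : ℕ) : ℤ) = 2 * (r1 + r2 + r3 + p u - p s) := by
      push_cast; linear_combination hr1 + hr2 + hr3
    rw [Nat.even_iff]
    omega
  obtain ⟨φ, g1, g2, g3⟩ := two_star hPM hc hd
  refine ⟨φ, ?_, ?_⟩
  · intro x hx y hy z l hw
    rcases Int.even_or_odd z with hz | hz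
    · rw [sd_even hz]
      exact (g1 x hx y hy).1.trans (a7 x hx y hy z l hw hz)
    · have h1 := sd_odd hz (φ x) (φ y)
      have h2 := a8 x hx y hy z l hw hz
      have h3 : hammingDist (φ x) (φ y) = D x y := by
        rcases hE x hx y hy z (hW.irr _ _ _ _ hw) (hWE x hx y hy z l hw) hz with rfl | rfl | rfl | rfl
        · exact g2 y hy
        · exact g3 y hy
        · rw [hammingDist_comm, g2 x hx, a3 _ hc _ hx]
        · rw [hammingDist_comm, g3 x hx, a3 _ hd _ hx]
      omega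
  · refine ⟨p c + wt (φ c), fun b hb => ?_⟩
    obtain ⟨r1, hr1⟩ := (g1 b hb c hc).2
    obtain ⟨r2, hr2⟩ := a4 b hb c hc
    obtain ⟨r3, hr3⟩ := hd_parity (φ b) (φ c)
    have hr1' : (hammingDist (φ b) (φ c) : ℤ) + D b c = r1 + r1 := by exact_mod_cast hr1
    refine ⟨r1 - r2 - r3 - p c - wt (φ c), ?_⟩
    linear_combination hr1' - hr2 - hr3

/-- two vertices meeting all odd edges, after a switching -/
theorem good_star (E : V → V → ℤ → Prop) (S : Finset V) (q : V → ℤ) {c d : V} (hc : c ∈ S) (hd : d ∈ S)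
    (hE : ∀ x ∈ S, ∀ y ∈ S, ∀ z, x ≠ y → E x y z → Odd (z - q y + q x) → x = c ∨ x = d ∨ y = c ∨ y = d) :
    Good E S := by
  apply good_switch E S q
  apply good_star0 _ S hc hd
  intro x hx y hy z hxy h1 hz
  apply hE x hx y hy _ hxy h1
  have e : z + q y - q x - q y + q x = z := by ring
  rw [e]; exact hz

theorem Good.anti' {E E' : V → V → ℤ → Prop} {S : Finset V} (h : Good E' S)
    (hE : ∀ a ∈ S, ∀ b ∈ S, ∀ x, E a b x → E' a b x) : Good E S :=
  fun k hk p W hW hWE hP hN => h k hk p W hW (fun a ha b hb x l hw => hE a ha b hb x (hWE a ha b hb x l hw)) hP hN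

/-- reachability outside `T` -/
def Rch (E : V → V → ℤ → Prop) (S T : Finset V) : V → V → Prop :=
  Relation.ReflTransGen fun c d => (c ∈ S ∧ c ∉ T) ∧ (d ∈ S ∧ d ∉ T) ∧ ∃ z, E c d z

/-- all odd edges inside four vertices, and every component outside misses one of them -/
theorem good_k4 (q : V → ℤ) (t : Fin 4 → V) : ∀ (n : ℕ) (E : V → V → ℤ → Prop) (S : Finset V),
    (S \ Finset.univ.image t).card = n → (∀ a b x, E a b x → E b a (-x)) →
    (∀ x ∈ S, ∀ y ∈ S, ∀ z, x ≠ y → E x y z → Odd (z - q y + q x) → x ∈ Finset.univ.image t ∧ y ∈ Finset.univ.image t) →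
    (∀ x ∈ S, x ∉ Finset.univ.image t → ∃ i, ∀ y, Rch E S (Finset.univ.image t) x y → ∀ z, ¬ E y (t i) z) →
    Good E S := by
  intro n
  set T := Finset.univ.image t with hT
  have hTc : T.card ≤ 4 := by
    calc T.card ≤ (Finset.univ : Finset (Fin 4)).card := Finset.card_image_le
      _ = 4 := by simp
  induction n using Nat.strong_induction_on with
  | _ n ih =>
  intro E S hn hsym hodd hcomp
  by_cases hne : (S \ T).Nonempty
  swap
  · rw [Finset.not_nonempty_iff_eq_empty, Finset.sdiff_eq_empty_iff_subset] at hne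
    exact good_card4 E S ((Finset.card_le_card hne).trans hTc)
  obtain ⟨x, hx⟩ := hne
  rw [Finset.mem_sdiff] at hx
  obtain ⟨i0, hi0⟩ := hcomp x hx.1 hx.2
  set C := (S \ T).filter fun y => Rch E S T x y with hC
  have hxC : x ∈ C := by
    rw [hC, Finset.mem_filter, Finset.mem_sdiff]
    exact ⟨hx, Relation.ReflTransGen.refl⟩
  have hCmem : ∀ y, y ∈ C ↔ (y ∈ S ∧ y ∉ T) ∧ Rch E S T x y := by
    intro y; rw [hC, Finset.mem_filter, Finset.mem_sdiff]
  have hti : t i0 ∈ T := by rw [hT]; exact Finset.mem_image_of_mem _ (Finset.mem_univ _)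
  set S1 := S \ C with hS1
  set S2 := C ∪ (S ∩ T.erase (t i0)) with hS2
  have hI : S1 ∩ S2 = S ∩ T.erase (t i0) := by
    ext y
    simp only [hS1, hS2, Finset.mem_inter, Finset.mem_sdiff, Finset.mem_union, Finset.mem_erase]
    constructor
    · rintro ⟨⟨h1, h2⟩, h3 | h3⟩
      · exact absurd h3 h2
      · exact h3
    · rintro ⟨h1, h2, h3⟩
      refine ⟨⟨h1, fun h => ?_⟩, Or.inr ⟨h1, h2, h3⟩⟩
      exact ((hCmem y).mp h).1.2 h3
  have hIc : (S1 ∩ S2).card ≤ 3 := by
    rw [hI]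
    calc (S ∩ T.erase (t i0)).card ≤ (T.erase (t i0)).card := Finset.card_le_card Finset.inter_subset_right
      _ = T.card - 1 := Finset.card_erase_of_mem hti
      _ ≤ 3 := by omega
  have hIT : ∀ y ∈ S1 ∩ S2, y ∈ T := by
    intro y hy
    rw [hI, Finset.mem_inter] at hy
    exact Finset.mem_of_mem_erase hy.2
  have hU : S1 ∪ S2 = S := by
    ext y
    simp only [hS1, hS2, Finset.mem_inter, Finset.mem_sdiff, Finset.mem_union]
    constructor
    · rintro (h | h | h)
      · exact h.1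
      · exact ((hCmem y).mp h).1.1
      · exact h.1
    · intro h
      by_cases hy : y ∈ C
      · exact Or.inr (Or.inl hy)
      · exact Or.inl ⟨h, hy⟩
  have hCedge : ∀ a ∈ C, ∀ b ∈ S, ∀ z, E a b z → b ∈ S2 := by
    intro a ha b hb z hz
    have ha' := (hCmem a).mp ha
    by_cases hbT : b ∈ T
    · have hbi : b ≠ t i0 := by
        rintro rfl
        exact hi0 a ha'.2 z hz
      rw [hS2, Finset.mem_union]
      exact Or.inr (Finset.mem_inter.mpr ⟨hb, Finset.mem_erase.mpr ⟨hbi, hbT⟩⟩)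
    · rw [hS2, Finset.mem_union]
      exact Or.inl ((hCmem b).mpr ⟨⟨hb, hbT⟩, ha'.2.tail ⟨ha'.1, ⟨hb, hbT⟩, z, hz⟩⟩)
  apply good_sum E S S1 S2 hU hIc
  · intro a ha b hb z hz
    by_cases h1 : a ∈ C
    · exact Or.inr ⟨by rw [hS2, Finset.mem_union]; exact Or.inl h1, hCedge a h1 b hb z hz⟩
    · by_cases h2 : b ∈ C
      · exact Or.inr ⟨hCedge b h2 a ha _ (hsym _ _ _ hz), by rw [hS2, Finset.mem_union]; exact Or.inl h2⟩
      · exact Or.inl ⟨Finset.mem_sdiff.mpr ⟨ha, h1⟩, Finset.mem_sdiff.mpr ⟨hb, h2⟩⟩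
  · -- first side
    have hsub : S1 ⊆ S := Finset.sdiff_subset
    have key : Good (AddA E (S1 ∩ S2)) S1 := by
      apply ih (S1 \ T).card _ (AddA E (S1 ∩ S2)) S1 rfl
      · rintro a b z (h | ⟨h1, h2, h3⟩)
        · exact Or.inl (hsym _ _ _ h)
        · exact Or.inr ⟨h2, h1, h3.symm⟩
      · rintro a ha b hb z hab (h | ⟨h1, h2, h3⟩) hz
        · exact hodd a (hsub ha) b (hsub hb) z hab h hz
        · exact ⟨hIT a h1, hIT b h2⟩
      · intro y hy hyT
        obtain ⟨i, hi⟩ := hcomp y (hsub hy) hyT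
        have hR : ∀ w, Rch (AddA E (S1 ∩ S2)) S1 T y w → Rch E S T y w ∧ w ∉ T := by
          intro w hw
          induction hw with
          | refl => exact ⟨Relation.ReflTransGen.refl, hyT⟩
          | @tail b c _ hbc ih2 =>
            obtain ⟨⟨hb1, hb2⟩, ⟨hc1, hc2⟩, z, hz⟩ := hbc
            refine ⟨ih2.1.tail ⟨⟨hsub hb1, hb2⟩, ⟨hsub hc1, hc2⟩, z, ?_⟩, hc2⟩
            rcases hz with hz | ⟨h1, -, -⟩
            · exact hz
            · exact absurd (hIT b h1) hb2
        refine ⟨i, fun w hw z hz => ?_⟩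
        obtain ⟨h1, h2⟩ := hR w hw
        rcases hz with hz | ⟨h3, -, -⟩
        · exact hi w h1 z hz
        · exact h2 (hIT w h3)
      · rw [← hn]
        apply Finset.card_lt_card
        refine ⟨fun y hy => ?_, fun hcon => ?_⟩
        · rw [Finset.mem_sdiff] at hy ⊢
          exact ⟨hsub hy.1, hy.2⟩
        · have := hcon (Finset.mem_sdiff.mpr hx)
          rw [Finset.mem_sdiff, hS1, Finset.mem_sdiff] at this
          exact this.1.2 hxC
    apply key.anti'
    rintro a ha b hb z (h | ⟨h1, h2, h3, -⟩)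
    · exact Or.inl h
    · exact Or.inr ⟨h1, h2, h3⟩
  · -- second side
    have hsub : S2 ⊆ S := by rw [← hU]; exact Finset.subset_union_right
    have hx2 : x ∈ S2 := by rw [hS2, Finset.mem_union]; exact Or.inl hxC
    have hodd2 : ∀ a ∈ S2, ∀ b ∈ S2, ∀ z, a ≠ b → AddA E (S1 ∩ S2) a b z → Odd (z - q b + q a) →
        a ∈ S1 ∩ S2 ∧ b ∈ S1 ∩ S2 := by
      rintro a ha b hb z hab (h | ⟨h1, h2, h3⟩) hz
      · have h4 := hodd a (hsub ha) b (hsub hb) z hab h hz
        have h5 : ∀ y ∈ S2, y ∈ T → y ∈ S1 ∩ S2 := by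
          intro y hy hyT
          rw [hI]
          rw [hS2, Finset.mem_union] at hy
          rcases hy with hy | hy
          · exact absurd hyT ((hCmem y).mp hy).1.2
          · exact hy
        exact ⟨h5 a ha h4.1, h5 b hb h4.2⟩
      · exact ⟨h1, h2⟩
    by_cases hIe : (S1 ∩ S2).Nonempty
    · obtain ⟨a, b, c, habc⟩ := card_le_three_form hIc hIe
      have haI : a ∈ S1 ∩ S2 := by rw [habc]; simp
      have hbI : b ∈ S1 ∩ S2 := by rw [habc]; simp
      apply good_star _ S2 q (Finset.mem_inter.mp haI).2 (Finset.mem_inter.mp hbI).2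
      intro u hu v hv z huv h hz
      have h1 := hodd2 u hu v hv z huv h hz
      rw [habc] at h1
      simp only [Finset.mem_insert, Finset.mem_singleton] at h1
      rcases h1.1 with h2 | h2 | h2
      · exact Or.inl h2
      · exact Or.inr (Or.inl h2)
      · rcases h1.2 with h3 | h3 | h3
        · exact Or.inr (Or.inr (Or.inl h3))
        · exact Or.inr (Or.inr (Or.inr h3))
        · exact absurd (h2.trans h3.symm) huv
    · apply good_star _ S2 q hx2 hx2
      intro u hu v hv z huv h hz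
      exact absurd ⟨u, (hodd2 u hu v hv z huv h hz).1⟩ hIe

end Pool.Agent.H875
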