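import Pool.Agent.H875.Cyc
set_option autoImplicit false

/-! From fitting maps to homomorphisms to signed projective cubes. -/

open Classical

namespace Pool.Agent.H875
open SgK4

variable {V E : Type}

/-- booleans as elements of `ZMod 2` -/
def bz (b : Bool) : ZMod 2 := if b then 1 else 0

theorem sd_one {k : ℕ} {x : ℤ} {u w : Fin k → Bool} (h : sd x u w = 1) : ∃ j, ∀ i, (u i ≠ fl x w i ↔ i = j) := by
  unfold sd hammingDist at h
  rw [Finset.card_eq_one] at h
  obtain ⟨j, hj⟩ := h
  refine ⟨j, fun i => ?_⟩
  have : i ∈ (Finset.univ.filter fun i => u i ≠ fl x w i) ↔ i = j := by rw [hj]; simp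
  simpa using this

theorem spc_edge (m : ℕ) (q : Option (Fin m)) (u w : Fin m → ZMod 2) (h : w = u + gen m q) :
    ∃ r, (SPC m).ends r = s(u, w) ∧ (r ∈ symmDiff (SPC m).neg ((SPC m).cut ∅) ↔ q = none) := by
  refine ⟨⟨(q, s(u, w)), u, by rw [h]⟩, rfl, ?_⟩
  rw [Set.mem_symmDiff]
  constructor
  · rintro (⟨h3, -⟩ | ⟨⟨a, b, -, ha, -⟩, -⟩)
    · exact h3
    · exact absurd ha (Set.notMem_empty _)
  · intro h3
    refine Or.inl ⟨h3, ?_⟩
    rintro ⟨a, b, -, ha, -⟩
    exact ha

theorem hom_of_fit {G : SG V E} {m : ℕ} (φ : V → Fin (m + 1) → Bool)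
    (h : ∀ e a b, G.ends e = s(a, b) → sd (sg G e) (φ a) (φ b) = 1) : G.Hom (SPC m) := by
  set f : V → Fin m → ZMod 2 := fun a i => bz (φ a i.castSucc) + bz (φ a (Fin.last m)) with hf
  set X : Set V := {a | φ a (Fin.last m) = true} with hX
  have hcut : ∀ e a b, G.ends e = s(a, b) → (e ∈ G.cut X ↔ φ a (Fin.last m) ≠ φ b (Fin.last m)) := by
    intro e a b he
    constructor
    · rintro ⟨a', b', he', ha', hb'⟩
      rw [he, Sym2.eq_iff] at he'
      simp only [hX, Set.mem_setOf_eq] at ha' hb'
      rcases he' with ⟨rfl, rfl⟩ | ⟨rfl, rfl⟩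
      · rw [ha']; exact fun h => hb' h.symm
      · rw [ha']; exact hb'
    · intro hne
      by_cases ha : φ a (Fin.last m) = true
      · exact ⟨a, b, he, ha, fun hb => hne (ha.trans hb.symm)⟩
      · refine ⟨b, a, by rw [he, Sym2.eq_swap], ?_, ha⟩
        simp only [hX, Set.mem_setOf_eq]
        by_contra hb
        rw [Bool.not_eq_true] at ha hb
        exact hne (ha.trans hb.symm)
  have key : ∀ e, ∃ q, (SPC m).ends q = (G.ends e).map f ∧
      (e ∈ symmDiff G.neg (G.cut X) ↔ q ∈ symmDiff (SPC m).neg ((SPC m).cut ∅)) := by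
    intro e
    obtain ⟨a, b, he⟩ : ∃ a b, G.ends e = s(a, b) := by
      induction h' : G.ends e with
      | _ a b => exact ⟨a, b, rfl⟩
    have h1 := h e a b he
    obtain ⟨j, hj⟩ := sd_one h1
    have hc := hcut e a b he
    have hcase : (e ∈ G.neg ∧ ∀ i, (φ a i = φ b i ↔ i = j)) ∨ (e ∉ G.neg ∧ ∀ i, (φ a i ≠ φ b i ↔ i = j)) := by
      by_cases hn : e ∈ G.neg
      · left
        refine ⟨hn, fun i => ?_⟩
        have h2 := hj i
        unfold sg at h2
        rw [if_pos hn, fl_odd odd_one] at h2
        rw [← h2]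
        show φ a i = φ b i ↔ φ a i ≠ !(φ b i)
        generalize φ a i = x1
        generalize φ b i = x2
        revert x1 x2
        decide
      · right
        refine ⟨hn, fun i => ?_⟩
        have h2 := hj i
        unfold sg at h2
        rw [if_neg hn, fl_even (x := 0) ⟨0, by ring⟩] at h2
        exact h2
    have hsd : e ∈ symmDiff G.neg (G.cut X) ↔ j = Fin.last m := by
      rw [Set.mem_symmDiff, hc]
      rcases hcase with ⟨hn, h2⟩ | ⟨hn, h2⟩
      · have := h2 (Fin.last m)
        constructor
        · rintro (⟨-, h3⟩ | ⟨-, h3⟩)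
          · exact (this.mp (not_ne_iff.mp h3)).symm
          · exact absurd hn h3
        · intro h3
          exact Or.inl ⟨hn, not_ne_iff.mpr (this.mpr h3.symm)⟩
      · have := h2 (Fin.last m)
        constructor
        · rintro (⟨h3, -⟩ | ⟨h3, -⟩)
          · exact absurd h3 hn
          · exact (this.mp h3).symm
        · intro h3
          exact Or.inr ⟨this.mpr h3.symm, hn⟩
    have hex : ∃ q, f b = f a + gen m q ∧ (j = Fin.last m ↔ q = none) := by
      by_cases hl : j = Fin.last m
      · refine ⟨none, ?_, by simp [hl]⟩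
        funext i
        simp only [hf, Pi.add_apply, gen]
        have hi : ¬ (i.castSucc = j) := by
          rw [hl]; exact (Fin.castSucc_lt_last i).ne
        rcases hcase with ⟨-, h2⟩ | ⟨-, h2⟩
        · have h3 := (not_congr (h2 i.castSucc)).mpr hi
          have h4 := (h2 (Fin.last m)).mpr hl.symm
          rw [h4]
          revert h3
          generalize φ a i.castSucc = x1
          generalize φ b i.castSucc = x2
          generalize φ b (Fin.last m) = x3
          revert x1 x2 x3
          decide
        · have h3 := not_ne_iff.mp ((not_congr (h2 i.castSucc)).mpr hi)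
          have h4 := (h2 (Fin.last m)).mpr hl.symm
          rw [h3]
          revert h4
          generalize φ b i.castSucc = x1
          generalize φ a (Fin.last m) = x2
          generalize φ b (Fin.last m) = x3
          revert x1 x2 x3
          decide
      · obtain ⟨j', rfl⟩ : ∃ j', j = Fin.castSucc j' := ⟨j.castPred hl, by simp⟩
        refine ⟨some j', ?_, by simp [hl]⟩
        funext i
        simp only [hf, Pi.add_apply, gen]
        have hlast : ¬ (Fin.last m = Fin.castSucc j') := fun h => hl h.symm
        by_cases hi : i = j'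
        · subst hi
          rw [Pi.single_eq_same]
          rcases hcase with ⟨-, h2⟩ | ⟨-, h2⟩
          · have h3 := (h2 i.castSucc).mpr rfl
            have h4 := (not_congr (h2 (Fin.last m))).mpr hlast
            rw [h3]
            revert h4
            generalize φ b i.castSucc = x1
            generalize φ a (Fin.last m) = x2
            generalize φ b (Fin.last m) = x3
            revert x1 x2 x3
            decide
          · have h3 := (h2 i.castSucc).mpr rfl
            have h4 := not_ne_iff.mp ((not_congr (h2 (Fin.last m))).mpr hlast)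
            rw [h4]
            revert h3
            generalize φ a i.castSucc = x1
            generalize φ b i.castSucc = x2
            generalize φ b (Fin.last m) = x3
            revert x1 x2 x3
            decide
        · rw [Pi.single_eq_of_ne hi, add_zero]
          have hi' : ¬ (i.castSucc = j'.castSucc) := fun h => hi (Fin.castSucc_injective m h)
          rcases hcase with ⟨-, h2⟩ | ⟨-, h2⟩
          · have h3 := (not_congr (h2 i.castSucc)).mpr hi'
            have h4 := (not_congr (h2 (Fin.last m))).mpr hlast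
            revert h3 h4
            generalize φ a i.castSucc = x1
            generalize φ b i.castSucc = x2
            generalize φ b (Fin.last m) = x3
            generalize φ a (Fin.last m) = x4
            revert x1 x2 x3 x4
            decide
          · have h3 := not_ne_iff.mp ((not_congr (h2 i.castSucc)).mpr hi')
            have h4 := not_ne_iff.mp ((not_congr (h2 (Fin.last m))).mpr hlast)
            rw [h3, h4]
    obtain ⟨q, hq1, hq2⟩ := hex
    obtain ⟨r, hr1, hr2⟩ := spc_edge m q (f a) (f b) hq1
    refine ⟨r, ?_, by rw [hsd, hr2, hq2]⟩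
    rw [hr1, he]; rfl
  choose g hg1 hg2 using key
  exact ⟨X, ∅, f, g, hg1, hg2⟩

/-- good supports give homomorphisms -/
theorem hom_of_good [Fintype V] {G : SG V E} (hl : G.Loopless) {k : ℕ} (hc : G.Consistent) (hk : G.UnbalancedGirth k)
    (hg : Good (toE G.adj) Finset.univ) : G.Hom (SPC (k - 1)) := by
  obtain ⟨⟨v', e', h', hb'⟩, hmin⟩ := id hk
  have hk2 : 2 ≤ k := h'.two_le
  obtain ⟨m, rfl⟩ : ∃ m, k = m + 1 := ⟨k - 1, by omega⟩
  obtain ⟨p, hp⟩ := exists_par hl hc hk Finset.univ
  obtain ⟨φ, hφ, c, hcp⟩ := hg (m + 1) (by omega) p (WOfG G) (wOfG_wgr hl) (by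
    rintro a - b - x l ⟨-, e, he, hx⟩
    refine ⟨e, he, ?_⟩
    unfold sg at hx
    by_cases hn : e ∈ G.neg
    · rw [if_pos hn] at hx
      refine ⟨fun _ => ?_, fun _ => hn⟩
      rw [cast_eq_of_even hx]; simp
    · rw [if_neg hn] at hx
      refine ⟨fun h => absurd h hn, fun h => ?_⟩
      rw [cast_eq_of_even hx] at h
      simp at h) hp (neg_of_girth hl hc hk _)
  rw [Nat.add_sub_cancel]
  apply hom_of_fit φ
  intro e a b he
  have hw : WOfG G a b (sg G e) 1 := ⟨rfl, e, he, by simp⟩
  have h1 := hφ a (Finset.mem_univ _) b (Finset.mem_univ _) _ _ hw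
  obtain ⟨r1, hr1⟩ := sd_parity (sg G e) (φ a) (φ b)
  obtain ⟨r2, hr2⟩ := hcp a (Finset.mem_univ _)
  obtain ⟨r3, hr3⟩ := hcp b (Finset.mem_univ _)
  obtain ⟨r4, hr4⟩ := hp a (Finset.mem_univ _) b (Finset.mem_univ _) _ _ hw
  have h5 : (sd (sg G e) (φ a) (φ b) : ℤ) = 1 + 2 * (r1 + r3 - r2 - r4) := by
    push_cast at hr1 hr4 ⊢
    linear_combination hr1 + hr3 - hr2 - hr4
  omega

end Pool.Agent.H875
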