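import Pool.Agent.H875.Demand
import Pool.Agent.H875.Pent6
import Pool.Agent.H875.Defs2
import Pool.Agent.H875.ToCube
set_option autoImplicit false

/-! Signatures whose graph has no three disjoint edges and no triangle with a disjoint edge. -/

open Classical

namespace Pool.Agent.H875
open SgK4

variable {V E : Type}

/-- indicator -/
noncomputable def ind (X : Set V) : V → ℤ := fun v => if v ∈ X then 1 else 0

theorem mem_cut_iff {G : SG V E} {X : Set V} {e : E} {a b : V} (he : G.ends e = s(a, b)) :
    e ∈ G.cut X ↔ (a ∈ X ∧ b ∉ X) ∨ (a ∉ X ∧ b ∈ X) := by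
  constructor
  · rintro ⟨a', b', he', ha', hb'⟩
    rw [he, Sym2.eq_iff] at he'
    rcases he' with ⟨rfl, rfl⟩ | ⟨rfl, rfl⟩
    · exact Or.inl ⟨ha', hb'⟩
    · exact Or.inr ⟨hb', ha'⟩
  · rintro (⟨h1, h2⟩ | ⟨h1, h2⟩)
    · exact ⟨a, b, he, h1, h2⟩
    · exact ⟨b, a, by rw [he, Sym2.eq_swap], h2, h1⟩

theorem zmod2_one_iff (z : ℤ) : ((z : ℤ) : ZMod 2) = 1 ↔ Odd z := by
  constructor
  · intro h
    by_contra h2
    rw [Int.not_odd_iff_even] at h2
    obtain ⟨r, rfl⟩ := h2
    push_cast at h
    rw [zmod2_add_self] at h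
    exact zero_ne_one h
  · rintro ⟨r, rfl⟩
    push_cast
    have h2 : (2 : ZMod 2) = 0 := rfl
    rw [h2]; ring

/-- the signature after switching -/
theorem mem_symmDiff_iff {G : SG V E} {X : Set V} {e : E} {a b : V} (he : G.ends e = s(a, b)) {z : ℤ}
    (hz : e ∈ G.neg ↔ ((z : ℤ) : ZMod 2) = 1) : e ∈ symmDiff G.neg (G.cut X) ↔ Odd (z - ind X b + ind X a) := by
  rw [Set.mem_symmDiff, hz, mem_cut_iff he, zmod2_one_iff]
  unfold ind
  by_cases ha : a ∈ X <;> by_cases hb : b ∈ X <;> simp only [ha, hb, if_true, if_false] <;>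
    simp [parity_simps]

theorem adj_symm {G : SG V E} {a b : V} {x : ZMod 2} (h : G.adj a b x) : G.adj b a x := by
  obtain ⟨e, he, hx⟩ := h
  exact ⟨e, by rw [he, Sym2.eq_swap], hx⟩

theorem toE_symm {G : SG V E} {a b : V} {x : ℤ} (h : toE G.adj a b x) : toE G.adj b a (-x) := by
  unfold toE at h ⊢
  have : (((-x : ℤ)) : ZMod 2) = ((x : ℤ) : ZMod 2) := cast_eq_of_even ⟨-x, by ring⟩
  rw [this]
  exact adj_symm h

theorem negAdj_of_odd {G : SG V E} {X : Set V} {a b : V} {z : ℤ} (h : toE G.adj a b z)
    (hz : Odd (z - ind X b + ind X a)) : G.negAdj X a b := by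
  obtain ⟨e, he, hx⟩ := h
  exact ⟨e, he, (mem_symmDiff_iff he hx).mpr hz⟩

theorem adj_of_negAdj {G : SG V E} {X : Set V} {a b : V} (h : G.negAdj X a b) :
    G.adj a b (((ind X a : ℤ) : ZMod 2) + ((ind X b : ℤ) : ZMod 2) + 1) := by
  obtain ⟨e, he, hx⟩ := h
  refine ⟨e, he, ?_⟩
  by_cases hn : e ∈ G.neg
  · have h1 : e ∈ G.neg ↔ (((1 : ℤ)) : ZMod 2) = 1 := by simp [hn]
    have h2 := (mem_symmDiff_iff he h1).mp hx
    obtain ⟨r, hr⟩ := h2
    have h3 : ((((1 : ℤ) - ind X b + ind X a : ℤ)) : ZMod 2) = 1 := (zmod2_one_iff _).mpr ⟨r, hr⟩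
    push_cast at h3
    refine ⟨fun _ => ?_, fun _ => hn⟩
    have h4 := zmod2_add_self ((ind X b : ℤ) : ZMod 2)
    linear_combination h3 + h4
  · have h1 : e ∈ G.neg ↔ (((0 : ℤ)) : ZMod 2) = 1 := by simp [hn]
    have h2 := (mem_symmDiff_iff he h1).mp hx
    have h3 : ((((0 : ℤ) - ind X b + ind X a : ℤ)) : ZMod 2) = 1 := (zmod2_one_iff _).mpr h2
    push_cast at h3
    refine ⟨fun h => absurd h hn, fun h => ?_⟩
    exfalso
    have h4 := zmod2_add_self ((ind X b : ℤ) : ZMod 2)
    have h5 : (1 : ZMod 2) = 0 := by linear_combination h - h3 - h4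
    exact one_ne_zero h5

/-- even edges after switching -/
theorem adj_of_even {G : SG V E} {X : Set V} {a b : V} {z : ℤ} (h : toE G.adj a b z)
    (hz : Even (z - ind X b + ind X a)) : G.adj a b (((ind X a : ℤ) : ZMod 2) + ((ind X b : ℤ) : ZMod 2)) := by
  unfold toE at h
  have h1 : (((ind X a + ind X b : ℤ)) : ZMod 2) = ((z : ℤ) : ZMod 2) := by
    apply cast_eq_of_even
    obtain ⟨r, hr⟩ := hz
    exact ⟨ind X a - r, by linear_combination -hr⟩
  push_cast at h1
  rw [h1]; exact h

theorem good_demand [Fintype V] [Nonempty V] {G : SG V E} (hl : G.Loopless) (h5 : ¬ HasOddK5 G.adj) (X : Set V)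
    (hM : ¬ M3 (G.negAdj X)) (hT : ¬ TE (G.negAdj X)) : Good (toE G.adj) Finset.univ := by
  have hs : ∀ x y, G.negAdj X x y → G.negAdj X y x := by
    rintro x y ⟨e, he, h⟩
    exact ⟨e, by rw [he, Sym2.eq_swap], h⟩
  have hir : ∀ x, ¬ G.negAdj X x x := by
    rintro x ⟨e, he, -⟩
    apply hl e
    rw [he]
    exact Sym2.mk_isDiag_iff.mpr rfl
  rcases demand hs hM hT hir with ⟨c, d, h⟩ | ⟨a, h⟩ | ⟨t, h, h'⟩
  · apply good_star _ _ (ind X) (Finset.mem_univ c) (Finset.mem_univ d)
    intro x _ y _ z _ h1 h2
    exact h x y (negAdj_of_odd h1 h2)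
  · apply good_pent _ _ (ind X) a (fun _ => Finset.mem_univ _)
    intro x _ y _ z h1 h2
    exact h x y (negAdj_of_odd h1 h2)
  · apply good_k4 (ind X) t _ _ _ rfl (fun a b x h => toE_symm h)
    · intro x _ y _ z _ h1 h2
      obtain ⟨i, j, rfl, rfl⟩ := h' x y (negAdj_of_odd h1 h2)
      exact ⟨Finset.mem_image_of_mem _ (Finset.mem_univ _), Finset.mem_image_of_mem _ (Finset.mem_univ _)⟩
    · intro x _ hx
      set T := Finset.univ.image t with hTd
      by_contra hcon
      push Not at hcon
      apply h5
      have hmemT : ∀ i, t i ∈ T := fun i => Finset.mem_image_of_mem _ (Finset.mem_univ _)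
      have hout : ∀ u v z, u ∉ T → toE G.adj u v z → Even (z - ind X v + ind X u) := by
        intro u v z hu hz
        by_contra hodd
        rw [Int.not_even_iff_odd] at hodd
        obtain ⟨i, j, rfl, -⟩ := h' u v (negAdj_of_odd hz hodd)
        exact hu (hmemT i)
      set C : Set V := {y | Rch (toE G.adj) Finset.univ T x y} with hC
      have hCT : ∀ y ∈ C, y ∉ T := by
        intro y hy
        have hy' : Rch (toE G.adj) Finset.univ T x y := hy
        rcases Relation.ReflTransGen.cases_tail hy' with h1 | ⟨w, -, -, h2, -⟩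
        · rw [h1]; exact hx
        · exact h2.2
      have htC : ∀ i, t i ∉ C := fun i hi => hCT _ hi (hmemT i)
      have htinj : ∀ i j, i ≠ j → t i ≠ t j := by
        intro i j hij he
        have := h i j hij
        rw [he] at this
        exact hir _ this
      refine ⟨fun v => ((ind X v : ℤ) : ZMod 2) + (if v ∈ C then 1 else 0),
        Fin.cons C (fun i => {t i}), ?_, ?_, ?_, ?_⟩
      · intro i
        refine Fin.cases ?_ (fun i => ?_) i
        · exact ⟨x, Relation.ReflTransGen.refl⟩
        · exact ⟨t i, rfl⟩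
      · intro i j
        refine Fin.cases ?_ (fun i => ?_) i <;> refine Fin.cases ?_ (fun j => ?_) j
        · intro h1; exact absurd rfl h1
        · intro _
          simp only [Fin.cons_zero, Fin.cons_succ, Set.disjoint_singleton_right]
          exact htC j
        · intro _
          simp only [Fin.cons_zero, Fin.cons_succ, Set.disjoint_singleton_left]
          exact htC i
        · intro h1
          simp only [Fin.cons_succ, Set.disjoint_singleton]
          exact htinj i j (fun h2 => h1 (by rw [h2]))
      · intro i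
        refine Fin.cases ?_ (fun i => ?_) i
        · simp only [Fin.cons_zero]
          -- connected
          have step : ∀ c d, (c ∈ Finset.univ ∧ c ∉ T) ∧ (d ∈ Finset.univ ∧ d ∉ T) ∧ (∃ z, toE G.adj c d z) →
              c ∈ C → d ∈ C ∧ G.adj c d (((ind X c : ℤ) : ZMod 2) + (if c ∈ C then 1 else 0) +
                (((ind X d : ℤ) : ZMod 2) + (if d ∈ C then 1 else 0))) := by
            rintro c d ⟨h1, h2, z, h3⟩ hc
            have hd : d ∈ C := Relation.ReflTransGen.tail (hc : Rch _ _ _ _ _) ⟨h1, h2, z, h3⟩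
            refine ⟨hd, ?_⟩
            rw [if_pos hc, if_pos hd]
            have h4 := adj_of_even h3 (hout c d z h1.2 h3)
            have e : ((ind X c : ℤ) : ZMod 2) + 1 + (((ind X d : ℤ) : ZMod 2) + 1) =
                ((ind X c : ℤ) : ZMod 2) + ((ind X d : ℤ) : ZMod 2) := by
              have h6 : (1 : ZMod 2) + 1 = 0 := rfl
              linear_combination h6
            rw [e]; exact h4
          have fromx : ∀ y, y ∈ C → Relation.ReflTransGen (fun c d => c ∈ C ∧ d ∈ C ∧
              G.adj c d (((ind X c : ℤ) : ZMod 2) + (if c ∈ C then 1 else 0) +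
                (((ind X d : ℤ) : ZMod 2) + (if d ∈ C then 1 else 0)))) x y := by
            intro y hy
            have hy' : Rch (toE G.adj) Finset.univ T x y := hy
            clear hy
            induction hy' with
            | refl => exact Relation.ReflTransGen.refl
            | @tail b c h1 h2 ih =>
              have hb : b ∈ C := h1
              have h3 := step b c h2 hb
              exact ih.tail ⟨hb, h3.1, h3.2⟩
          have tox : ∀ y, y ∈ C → Relation.ReflTransGen (fun c d => c ∈ C ∧ d ∈ C ∧
              G.adj c d (((ind X c : ℤ) : ZMod 2) + (if c ∈ C then 1 else 0) +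
                (((ind X d : ℤ) : ZMod 2) + (if d ∈ C then 1 else 0)))) y x := by
            intro y hy
            have h1 := fromx y hy
            clear hy
            induction h1 with
            | refl => exact Relation.ReflTransGen.refl
            | @tail b c _ h2 ih =>
              refine Relation.ReflTransGen.head ⟨h2.2.1, h2.1, ?_⟩ ih
              rw [add_comm]
              exact adj_symm h2.2.2
          intro a ha b hb
          exact (tox a ha).trans (fromx b hb)
        · simp only [Fin.cons_succ, Set.mem_singleton_iff]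
          rintro a rfl b rfl
          exact Relation.ReflTransGen.refl
      · intro i j
        have hCt : ∀ i, ∃ a ∈ C, G.adj a (t i) (((ind X a : ℤ) : ZMod 2) + (if a ∈ C then 1 else 0) +
            (((ind X (t i) : ℤ) : ZMod 2) + (if t i ∈ C then 1 else 0)) + 1) := by
          intro i
          obtain ⟨y, hy, z, hz⟩ := hcon i
          have hy' : y ∈ C := hy
          refine ⟨y, hy', ?_⟩
          rw [if_pos hy', if_neg (htC i)]
          have h4 := adj_of_even hz (hout y (t i) z (hCT y hy') hz)
          have e : ((ind X y : ℤ) : ZMod 2) + 1 + (((ind X (t i) : ℤ) : ZMod 2) + 0) + 1 =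
              ((ind X y : ℤ) : ZMod 2) + ((ind X (t i) : ℤ) : ZMod 2) := by
            have h6 : (1 : ZMod 2) + 1 = 0 := rfl
            linear_combination h6
          rw [e]; exact h4
        refine Fin.cases ?_ (fun i => ?_) i <;> refine Fin.cases ?_ (fun j => ?_) j
        · intro h1; exact absurd rfl h1
        · intro _
          simp only [Fin.cons_zero, Fin.cons_succ, Set.mem_singleton_iff, exists_eq_left]
          exact hCt j
        · intro _
          simp only [Fin.cons_zero, Fin.cons_succ, Set.mem_singleton_iff, exists_eq_left]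
          obtain ⟨a, ha, h1⟩ := hCt i
          refine ⟨a, ha, ?_⟩
          have := adj_symm h1
          rwa [add_comm (((ind X a : ℤ) : ZMod 2) + (if a ∈ C then 1 else 0))] at this
        · intro h1
          simp only [Fin.cons_succ, Set.mem_singleton_iff, exists_eq_left]
          have hij : i ≠ j := fun h2 => h1 (by rw [h2])
          rw [if_neg (htC i), if_neg (htC j), add_zero, add_zero]
          exact adj_of_negAdj (h i j hij)

end Pool.Agent.H875
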