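import Pool.Agent.H875.Good
set_option autoImplicit false

/-! Five vertices without odd K5. -/

open Classical

namespace Pool.Agent.H875
open SgK4

variable {V : Type}

/-- exact metrics compatible with a weighted signed graph -/
structure EM (k : ℕ) (p : V → ℤ) (W : V → V → ℤ → ℕ → Prop) (S : Finset V) (D : V → V → ℕ) : Prop where
  self : ∀ s, D s s = 0
  le : ∀ s ∈ S, ∀ t ∈ S, D s t ≤ k
  symm : ∀ s ∈ S, ∀ t ∈ S, D s t = D t s
  par : ∀ s ∈ S, ∀ t ∈ S, Even ((D s t : ℤ) - (p t - p s))
  tri : ∀ s ∈ S, ∀ t ∈ S, ∀ u ∈ S, D s u ≤ D s t + D t u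
  per : ∀ s ∈ S, ∀ t ∈ S, ∀ u ∈ S, D s t + D t u + D s u ≤ 2 * k
  ev : ∀ s ∈ S, ∀ t ∈ S, ∀ x l, W s t x l → Even x → D s t ≤ l
  od : ∀ s ∈ S, ∀ t ∈ S, ∀ x l, W s t x l → Odd x → k ≤ D s t + l

/-- change one distance -/
noncomputable def upd (D : V → V → ℕ) (x y : V) (d : ℕ) : V → V → ℕ := fun a b =>
  if (a = x ∧ b = y) ∨ (a = y ∧ b = x) then d else D a b

theorem upd_self {D : V → V → ℕ} {x y : V} {d : ℕ} (hxy : x ≠ y) (h : ∀ s, D s s = 0) (s : V) :
    upd D x y d s s = 0 := by
  unfold upd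
  rw [if_neg]
  · exact h s
  · rintro (⟨h1, h2⟩ | ⟨h1, h2⟩)
    · exact hxy (h1.symm.trans h2)
    · exact hxy (h2.symm.trans h1)

theorem upd_left (D : V → V → ℕ) (x y : V) (d : ℕ) : upd D x y d x y = d := if_pos (Or.inl ⟨rfl, rfl⟩)

theorem upd_right (D : V → V → ℕ) (x y : V) (d : ℕ) : upd D x y d y x = d := if_pos (Or.inr ⟨rfl, rfl⟩)

theorem upd_ne (D : V → V → ℕ) {x y : V} (d : ℕ) {a b : V} (h : ¬ ((a = x ∧ b = y) ∨ (a = y ∧ b = x))) :
    upd D x y d a b = D a b := if_neg h

/-- conditions under which a change keeps exactness -/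
theorem EM.upd {k : ℕ} {p : V → ℤ} {W : V → V → ℤ → ℕ → Prop} {S : Finset V} {D : V → V → ℕ} (hW : WGr W)
    (h : EM k p W S D) {x y : V} (hx : x ∈ S) (hy : y ∈ S) (hxy : x ≠ y) {d : ℕ} (hd : d ≤ k)
    (hpar : Even ((d : ℤ) - D x y))
    (h1 : ∀ z ∈ S, z ≠ x → z ≠ y → d ≤ D x z + D y z ∧ D x z ≤ d + D y z ∧ D y z ≤ d + D x z ∧
      d + D x z + D y z ≤ 2 * k)
    (h2 : ∀ l m, W x y l m → Even l → d ≤ m) (h3 : ∀ l m, W x y l m → Odd l → k ≤ d + m) :
    EM k p W S (upd D x y d) := by
  have hs := h.symm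
  refine ⟨upd_self hxy h.self, ?_, ?_, ?_, ?_, ?_, ?_, ?_⟩
  · intro a ha b hb
    unfold H875.upd
    split_ifs
    · exact hd
    · exact h.le a ha b hb
  · intro a ha b hb
    unfold H875.upd
    have : ((b = x ∧ a = y) ∨ (b = y ∧ a = x)) ↔ ((a = x ∧ b = y) ∨ (a = y ∧ b = x)) := by tauto
    simp only [this]
    split_ifs
    · rfl
    · exact h.symm a ha b hb
  · intro a ha b hb
    unfold H875.upd
    split_ifs with hc
    · obtain ⟨r4, hr4⟩ := h.par x hx y hy
      obtain ⟨r5, hr5⟩ := h.par y hy x hx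
      obtain ⟨r6, hr6⟩ := hpar
      rw [hs y hy x hx] at hr5
      rcases hc with ⟨rfl, rfl⟩ | ⟨rfl, rfl⟩
      · exact ⟨r4 + r6, by linarith⟩
      · exact ⟨r5 + r6, by linarith⟩
    · exact h.par a ha b hb
  · -- triangle
    have A : ∀ z ∈ S, H875.upd D x y d x y ≤ H875.upd D x y d x z + H875.upd D x y d z y := by
      intro z hz
      by_cases hzx : z = x
      · subst hzx; rw [upd_self hxy h.self]; omega
      by_cases hzy : z = y
      · subst hzy; rw [upd_self hxy h.self]; omega
      rw [upd_left, upd_ne D d (a := x) (b := z) (by tauto), upd_ne D d (a := z) (b := y) (by tauto)]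
      have := (h1 z hz hzx hzy).1
      rw [hs z hz y hy]
      omega
    have B : ∀ z ∈ S, z ≠ x → z ≠ y → H875.upd D x y d x z ≤ H875.upd D x y d x y + H875.upd D x y d y z := by
      intro z hz hzx hzy
      rw [upd_left, upd_ne D d (a := x) (b := z) (by tauto), upd_ne D d (a := y) (b := z) (by tauto)]
      exact (h1 z hz hzx hzy).2.1
    have C : ∀ z ∈ S, z ≠ x → z ≠ y → H875.upd D x y d y z ≤ H875.upd D x y d y x + H875.upd D x y d x z := by
      intro z hz hzx hzy
      rw [upd_right, upd_ne D d (a := x) (b := z) (by tauto), upd_ne D d (a := y) (b := z) (by tauto)]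
      exact (h1 z hz hzx hzy).2.2.1
    have sy : ∀ a ∈ S, ∀ b ∈ S, H875.upd D x y d a b = H875.upd D x y d b a := by
      intro a ha b hb
      unfold H875.upd
      have : ((b = x ∧ a = y) ∨ (b = y ∧ a = x)) ↔ ((a = x ∧ b = y) ∨ (a = y ∧ b = x)) := by tauto
      simp only [this]
      split_ifs
      · rfl
      · exact h.symm a ha b hb
    intro a ha b hb c hc
    by_cases h12 : (a = x ∧ b = y) ∨ (a = y ∧ b = x)
    · rcases h12 with ⟨rfl, rfl⟩ | ⟨rfl, rfl⟩
      · by_cases hca : c = a
        · subst hca; rw [upd_self hxy h.self]; omega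
        by_cases hcb : c = b
        · subst hcb; omega
        exact B c hc hca hcb
      · by_cases hca : c = a
        · subst hca; rw [upd_self hxy h.self]; omega
        by_cases hcb : c = b
        · subst hcb; omega
        exact C c hc hcb hca
    by_cases h23 : (b = x ∧ c = y) ∨ (b = y ∧ c = x)
    · rcases h23 with ⟨rfl, rfl⟩ | ⟨rfl, rfl⟩
      · by_cases hab : a = b
        · subst hab; rw [upd_self hxy h.self]; omega
        by_cases hac : a = c
        · subst hac; rw [upd_self hxy h.self]; omega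
        have := C a ha hab hac
        rw [sy a ha c hc, sy a ha b hb, sy b hb c hc]
        omega
      · by_cases hab : a = b
        · subst hab; rw [upd_self hxy h.self]; omega
        by_cases hac : a = c
        · subst hac; rw [upd_self hxy h.self]; omega
        have := B a ha hac hab
        rw [sy a ha c hc, sy a ha b hb, sy b hb c hc]
        omega
    by_cases h13 : (a = x ∧ c = y) ∨ (a = y ∧ c = x)
    · rcases h13 with ⟨rfl, rfl⟩ | ⟨rfl, rfl⟩
      · exact A b hb
      · have := A b hb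
        rw [sy a ha c hc, sy a ha b hb, sy b hb c hc]
        omega
    rw [upd_ne D d h12, upd_ne D d h23, upd_ne D d h13]
    exact h.tri a ha b hb c hc
  · -- perimeter
    have A : ∀ z ∈ S, H875.upd D x y d x y + H875.upd D x y d x z + H875.upd D x y d y z ≤ 2 * k := by
      intro z hz
      by_cases hzx : z = x
      · subst hzx; rw [upd_self hxy h.self, upd_left, upd_right]; omega
      by_cases hzy : z = y
      · subst hzy; rw [upd_self hxy h.self, upd_left]; omega
      rw [upd_left, upd_ne D d (a := x) (b := z) (by tauto), upd_ne D d (a := y) (b := z) (by tauto)]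
      exact (h1 z hz hzx hzy).2.2.2
    have sy : ∀ a ∈ S, ∀ b ∈ S, H875.upd D x y d a b = H875.upd D x y d b a := by
      intro a ha b hb
      unfold H875.upd
      have : ((b = x ∧ a = y) ∨ (b = y ∧ a = x)) ↔ ((a = x ∧ b = y) ∨ (a = y ∧ b = x)) := by tauto
      simp only [this]
      split_ifs
      · rfl
      · exact h.symm a ha b hb
    intro a ha b hb c hc
    by_cases h12 : (a = x ∧ b = y) ∨ (a = y ∧ b = x)
    · rcases h12 with ⟨rfl, rfl⟩ | ⟨rfl, rfl⟩
      · have := A c hc; omega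
      · have := A c hc
        rw [sy a ha b hb]; omega
    by_cases h23 : (b = x ∧ c = y) ∨ (b = y ∧ c = x)
    · rcases h23 with ⟨rfl, rfl⟩ | ⟨rfl, rfl⟩
      · have := A a ha
        rw [sy a ha b hb, sy a ha c hc]; omega
      · have := A a ha
        rw [sy a ha b hb, sy a ha c hc, sy b hb c hc]; omega
    by_cases h13 : (a = x ∧ c = y) ∨ (a = y ∧ c = x)
    · rcases h13 with ⟨rfl, rfl⟩ | ⟨rfl, rfl⟩
      · have := A b hb
        rw [sy b hb c hc]; omega
      · have := A b hb
        rw [sy a ha c hc, sy b hb c hc]; omega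
    rw [upd_ne D d h12, upd_ne D d h23, upd_ne D d h13]
    exact h.per a ha b hb c hc
  · intro a ha b hb l m hw hl
    unfold H875.upd
    split_ifs with hc
    · rcases hc with ⟨rfl, rfl⟩ | ⟨rfl, rfl⟩
      · exact h2 l m hw hl
      · exact h2 (-l) m (hW.symm _ _ _ _ hw) hl.neg
    · exact h.ev a ha b hb l m hw hl
  · intro a ha b hb l m hw hl
    unfold H875.upd
    split_ifs with hc
    · rcases hc with ⟨rfl, rfl⟩ | ⟨rfl, rfl⟩
      · exact h3 l m hw hl
      · exact h3 (-l) m (hW.symm _ _ _ _ hw) hl.neg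
    · exact h.od a ha b hb l m hw hl

/-- summand of the potential -/
noncomputable def pot (k : ℕ) (W : V → V → ℤ → ℕ → Prop) (D : V → V → ℕ) (a b : V) : ℕ :=
  (if Sup W a b 1 then 0 else D a b) + (if Sup W a b 0 then 0 else k - D a b)

theorem sup_par {W : V → V → ℤ → ℕ → Prop} (hW : WGr W) {a b : V} {x y : ℤ} (h : Sup W a b x) (hxy : Even (y - x)) :
    Sup W a b y := by
  have hs := hW.sup
  obtain ⟨r, hr⟩ := hxy
  have hp : ∀ n : ℕ, ∀ x, Sup W a b x → Sup W a b (x + 2 * n) := by
    intro n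
    induction n with
    | zero => intro x h; simpa using h
    | succ n ih =>
      intro x h
      have := hs.par _ _ _ (ih x h)
      push_cast
      convert this using 1
      ring
  have hn : ∀ n : ℕ, ∀ x, Sup W a b x → Sup W a b (x - 2 * n) := by
    intro n x h
    have h1 := hs.symm _ _ _ h
    have hp' : ∀ n : ℕ, ∀ x, Sup W b a x → Sup W b a (x + 2 * n) := by
      intro n
      induction n with
      | zero => intro x h; simpa using h
      | succ n ih =>
        intro x h
        have := hs.par _ _ _ (ih x h)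
        push_cast
        convert this using 1
        ring
    have h2 := hs.symm _ _ _ (hp' n _ h1)
    convert h2 using 1
    ring
  rcases le_total 0 r with hr0 | hr0
  · obtain ⟨n, rfl⟩ := Int.eq_ofNat_of_zero_le hr0
    have := hp n x h
    convert this using 1
    push_cast at hr ⊢
    linarith
  · obtain ⟨n, hn'⟩ := Int.eq_ofNat_of_zero_le (neg_nonneg.mpr hr0)
    have := hn n x h
    convert this using 1
    have : (n : ℤ) = -r := by rw [hn']
    rw [this]
    linarith

/-- an extremal exact metric: every single pair has a witness -/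
theorem extremal {k : ℕ} (hk : 0 < k) {p : V → ℤ} {W : V → V → ℤ → ℕ → Prop} {S : Finset V} (hW : WGr W)
    (hP : Par k p W S) (hN : Neg W S k) (h3 : 3 ≤ S.card) :
    ∃ D, EM k p W S D ∧
      (∀ x ∈ S, ∀ y ∈ S, x ≠ y → ¬ Sup W x y 1 → Sup W x y 0 →
        ∃ z ∈ S, z ≠ x ∧ z ≠ y ∧ ((D x z : ℤ) = D x y + D y z ∨ (D y z : ℤ) = D x y + D x z)) ∧
      (∀ x ∈ S, ∀ y ∈ S, x ≠ y → ¬ Sup W x y 0 → Sup W x y 1 →
        ∃ z ∈ S, z ≠ x ∧ z ≠ y ∧ ((D x y : ℤ) = D x z + D y z ∨ (D x y : ℤ) + D x z + D y z = 2 * k)) := by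
  obtain ⟨D0, a1, a2, a3, a4, a5, a6, a7, a8⟩ := exact_metric hk hW hP hN
  have hex : ∃ n, ∃ D, EM k p W S D ∧ ∑ a ∈ S, ∑ b ∈ S, pot k W D a b = n :=
    ⟨_, D0, ⟨a1, a2, a3, a4, a5, a6, a7, a8⟩, rfl⟩
  obtain ⟨D, hD, hDn⟩ := Nat.find_spec hex
  have hmin : ∀ D', EM k p W S D' → ∑ a ∈ S, ∑ b ∈ S, pot k W D a b ≤ ∑ a ∈ S, ∑ b ∈ S, pot k W D' a b := by
    intro D' hD'
    rw [hDn]
    exact Nat.find_min' hex ⟨D', hD', rfl⟩
  have hsup := hW.sup
  -- a change that decreases the potential at the pair is impossible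
  have hno : ∀ x ∈ S, ∀ y ∈ S, x ≠ y → ∀ d, EM k p W S (upd D x y d) →
      pot k W (upd D x y d) x y < pot k W D x y → False := by
    intro x hx y hy hxy d hEM hlt
    have hle : ∀ a ∈ S, ∀ b ∈ S, pot k W (upd D x y d) a b ≤ pot k W D a b := by
      intro a ha b hb
      by_cases hc : (a = x ∧ b = y) ∨ (a = y ∧ b = x)
      · rcases hc with ⟨rfl, rfl⟩ | ⟨rfl, rfl⟩
        · exact hlt.le
        · have e1 : pot k W (upd D b a d) a b = pot k W (upd D b a d) b a := by
            unfold pot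
            rw [upd_left, upd_right]
            have h1 : Sup W a b 1 ↔ Sup W b a 1 :=
              ⟨fun h => sup_par hW (hsup.symm _ _ _ h) ⟨1, by ring⟩, fun h => sup_par hW (hsup.symm _ _ _ h) ⟨1, by ring⟩⟩
            have h0 : Sup W a b 0 ↔ Sup W b a 0 :=
              ⟨fun h => by simpa using hsup.symm _ _ _ h, fun h => by simpa using hsup.symm _ _ _ h⟩
            simp only [h1, h0]
          have e2 : pot k W D a b = pot k W D b a := by
            unfold pot
            rw [hD.symm a ha b hb]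
            have h1 : Sup W a b 1 ↔ Sup W b a 1 :=
              ⟨fun h => sup_par hW (hsup.symm _ _ _ h) ⟨1, by ring⟩, fun h => sup_par hW (hsup.symm _ _ _ h) ⟨1, by ring⟩⟩
            have h0 : Sup W a b 0 ↔ Sup W b a 0 :=
              ⟨fun h => by simpa using hsup.symm _ _ _ h, fun h => by simpa using hsup.symm _ _ _ h⟩
            simp only [h1, h0]
          rw [e1, e2]
          exact hlt.le
      · unfold pot
        rw [upd_ne D d hc]
    have h1 := hmin _ hEM
    have h2 : ∑ a ∈ S, ∑ b ∈ S, pot k W (upd D x y d) a b < ∑ a ∈ S, ∑ b ∈ S, pot k W D a b := by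
      apply Finset.sum_lt_sum
      · intro a ha
        exact Finset.sum_le_sum fun b hb => hle a ha b hb
      · exact ⟨x, hx, Finset.sum_lt_sum (fun b hb => hle x hx b hb) ⟨y, hy, hlt⟩⟩
    omega
  have hz3 : ∀ x ∈ S, ∀ y ∈ S, ∃ z ∈ S, z ≠ x ∧ z ≠ y := by
    intro x hx y hy
    by_contra hcon
    push Not at hcon
    have : S ⊆ {x, y} := by
      intro z hz
      by_cases hzx : z = x
      · simp [hzx]
      · simp [hcon z hz hzx]
    have := Finset.card_le_card this
    have := Finset.card_le_two (a := x) (b := y)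
    omega
  refine ⟨D, hD, ?_, ?_⟩
  · intro x hx y hy hxy hodd hev
    by_contra hcon
    push Not at hcon
    have hfar : ∀ z ∈ S, z ≠ x → z ≠ y → D x z + 2 ≤ D x y + D y z ∧ D y z + 2 ≤ D x y + D x z := by
      intro z hz hzx hzy
      have h1 := hcon z hz hzx hzy
      have h2 := hD.tri x hx y hy z hz
      have h3 := hD.tri y hy x hx z hz
      rw [hD.symm y hy x hx] at h3
      obtain ⟨r1, hr1⟩ := hD.par x hx y hy
      obtain ⟨r2, hr2⟩ := hD.par x hx z hz
      obtain ⟨r3, hr3⟩ := hD.par y hy z hz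
      constructor <;> omega
    have h2 : 2 ≤ D x y := by
      obtain ⟨z, hz, hzx, hzy⟩ := hz3 x hx y hy
      have := hfar z hz hzx hzy
      omega
    refine hno x hx y hy hxy (D x y - 2) (hD.upd hW hx hy hxy ?_ ?_ ?_ ?_ ?_) ?_
    · have := hD.le x hx y hy; omega
    · exact ⟨-1, by omega⟩
    · intro z hz hzx hzy
      have h4 := hfar z hz hzx hzy
      have h5 := hD.tri x hx z hz y hy
      have h6 := hD.per x hx y hy z hz
      rw [hD.symm z hz y hy] at h5
      omega
    · intro l m hw hl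
      have := hD.ev x hx y hy l m hw hl
      omega
    · intro l m hw hl
      exfalso
      obtain ⟨r, hr⟩ := hl
      exact hodd (sup_par hW ⟨m, hw⟩ ⟨-r, by linarith⟩)
    · unfold pot
      rw [upd_left, if_neg hodd, if_pos hev, if_neg hodd, if_pos hev]
      omega
  · intro x hx y hy hxy hev hodd
    by_contra hcon
    push Not at hcon
    have hfar : ∀ z ∈ S, z ≠ x → z ≠ y → D x y + 2 ≤ D x z + D y z ∧ D x y + D x z + D y z + 2 ≤ 2 * k := by
      intro z hz hzx hzy
      have h1 := hcon z hz hzx hzy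
      have h2 := hD.tri x hx z hz y hy
      rw [hD.symm z hz y hy] at h2
      have h3 := hD.per x hx y hy z hz
      obtain ⟨r1, hr1⟩ := hD.par x hx y hy
      obtain ⟨r2, hr2⟩ := hD.par x hx z hz
      obtain ⟨r3, hr3⟩ := hD.par y hy z hz
      constructor <;> omega
    have h2 : D x y + 2 ≤ k := by
      obtain ⟨z, hz, hzx, hzy⟩ := hz3 x hx y hy
      have := hfar z hz hzx hzy
      omega
    refine hno x hx y hy hxy (D x y + 2) (hD.upd hW hx hy hxy h2 ?_ ?_ ?_ ?_) ?_
    · exact ⟨1, by push_cast; ring⟩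
    · intro z hz hzx hzy
      have h4 := hfar z hz hzx hzy
      have h5 := hD.tri x hx y hy z hz
      have h6 := hD.tri y hy x hx z hz
      rw [hD.symm y hy x hx] at h6
      omega
    · intro l m hw hl
      exfalso
      obtain ⟨r, hr⟩ := hl
      exact hev (sup_par hW ⟨m, hw⟩ ⟨-r, by linarith⟩)
    · intro l m hw hl
      have := hD.od x hx y hy l m hw hl
      omega
    · unfold pot
      rw [upd_left, if_neg hev, if_pos hodd, if_neg hev, if_pos hodd]
      have := hD.le x hx y hy
      omega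

end Pool.Agent.H875
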