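import Pool.Agent.H875.Five
import Pool.Agent.H875.Four
set_option autoImplicit false

/-! Embedding five points. -/

open Classical

namespace Pool.Agent.H875
open SgK4

variable {V : Type}

/-- sum of three intervals -/
theorem ival3 (l1 l2 l3 h1 h2 h3 g : ℕ) (a1 : l1 ≤ h1) (a2 : l2 ≤ h2) (a3 : l3 ≤ h3) (hl : l1 + l2 + l3 ≤ g)
    (hh : g ≤ h1 + h2 + h3) : ∃ o1 o2 o3, l1 ≤ o1 ∧ o1 ≤ h1 ∧ l2 ≤ o2 ∧ o2 ≤ h2 ∧ l3 ≤ o3 ∧ o3 ≤ h3 ∧
      o1 + o2 + o3 = g := by
  refine ⟨min h1 (g - l2 - l3), min h2 (g - l3 - min h1 (g - l2 - l3)), ?_, ?_, ?_, ?_, ?_, ?_, ?_, ?_⟩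
  · exact g - min h1 (g - l2 - l3) - min h2 (g - l3 - min h1 (g - l2 - l3))
  all_goals omega

/-- sets in three regions of sizes `n1, n2, n3`, with given sizes and overlaps -/
theorem realize5 (k n1 n2 n3 a1 a2 a3 b1 b2 b3 o1 o2 o3 : ℕ) (hn : n1 + n2 + n3 = k)
    (ha1 : a1 ≤ n1) (ha2 : a2 ≤ n2) (ha3 : a3 ≤ n3) (hb1 : b1 ≤ n1) (hb2 : b2 ≤ n2) (hb3 : b3 ≤ n3)
    (l1 : a1 + b1 ≤ n1 + o1) (l2 : a2 + b2 ≤ n2 + o2) (l3 : a3 + b3 ≤ n3 + o3)
    (u1 : o1 ≤ a1) (v1 : o1 ≤ b1) (u2 : o2 ≤ a2) (v2 : o2 ≤ b2) (u3 : o3 ≤ a3) (v3 : o3 ≤ b3) :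
    ∃ Y Z A B : Fin k → Bool, wt Y = n1 ∧ wt Z = n1 + n2 ∧ wt A = a1 + a2 + a3 ∧ wt B = b1 + b2 + b3 ∧
      hammingDist Y Z = n2 ∧ hammingDist Y A = (n1 - a1) + a2 + a3 ∧ hammingDist Y B = (n1 - b1) + b2 + b3 ∧
      hammingDist Z A = (n1 - a1) + (n2 - a2) + a3 ∧ hammingDist Z B = (n1 - b1) + (n2 - b2) + b3 ∧
      hammingDist A B = (a1 + b1 - 2 * o1) + (a2 + b2 - 2 * o2) + (a3 + b3 - 2 * o3) := by
  obtain ⟨f, hf⟩ := exists_coloring (κ := Fin 3 × Bool × Bool)
    (fun c => match c with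
      | (0, true, true) => o1
      | (0, true, false) => a1 - o1
      | (0, false, true) => b1 - o1
      | (0, false, false) => n1 + o1 - a1 - b1
      | (1, true, true) => o2
      | (1, true, false) => a2 - o2
      | (1, false, true) => b2 - o2
      | (1, false, false) => n2 + o2 - a2 - b2
      | (2, true, true) => o3
      | (2, true, false) => a3 - o3
      | (2, false, true) => b3 - o3
      | (2, false, false) => n3 + o3 - a3 - b3) k (by
      simp only [Fintype.sum_prod_type, Fintype.sum_bool, Fin.sum_univ_three]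
      omega)
  refine ⟨fun i => decide ((f i).1 = 0), fun i => decide ((f i).1 ≠ 2), fun i => (f i).2.1, fun i => (f i).2.2,
    ?_, ?_, ?_, ?_, ?_, ?_, ?_, ?_, ?_, ?_⟩
  · have := hf (fun c => decide (c.1 = 0) ≠ false)
    simp only [Fintype.sum_prod_type, Fintype.sum_bool, Fin.sum_univ_three] at this
    unfold wt hammingDist zr
    simp at this ⊢
    rw [this]; omega
  · have := hf (fun c => decide (c.1 ≠ 2) ≠ false)
    simp only [Fintype.sum_prod_type, Fintype.sum_bool, Fin.sum_univ_three] at this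
    unfold wt hammingDist zr
    simp at this ⊢
    rw [this]; omega
  · have := hf (fun c => c.2.1 ≠ false)
    simp only [Fintype.sum_prod_type, Fintype.sum_bool, Fin.sum_univ_three] at this
    unfold wt hammingDist zr
    simp at this ⊢
    rw [this]; omega
  · have := hf (fun c => c.2.2 ≠ false)
    simp only [Fintype.sum_prod_type, Fintype.sum_bool, Fin.sum_univ_three] at this
    unfold wt hammingDist zr
    simp at this ⊢
    rw [this]; omega
  · have := hf (fun c => decide (c.1 = 0) ≠ decide (c.1 ≠ 2))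
    simp only [Fintype.sum_prod_type, Fintype.sum_bool, Fin.sum_univ_three] at this
    unfold hammingDist
    simp at this ⊢
    rw [this]; omega
  · have := hf (fun c => decide (c.1 = 0) ≠ c.2.1)
    simp only [Fintype.sum_prod_type, Fintype.sum_bool, Fin.sum_univ_three] at this
    unfold hammingDist
    simp at this ⊢
    rw [this]; omega
  · have := hf (fun c => decide (c.1 = 0) ≠ c.2.2)
    simp only [Fintype.sum_prod_type, Fintype.sum_bool, Fin.sum_univ_three] at this
    unfold hammingDist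
    simp at this ⊢
    rw [this]; omega
  · have := hf (fun c => decide (c.1 ≠ 2) ≠ c.2.1)
    simp only [Fintype.sum_prod_type, Fintype.sum_bool, Fin.sum_univ_three] at this
    unfold hammingDist
    simp at this ⊢
    rw [this]; omega
  · have := hf (fun c => decide (c.1 ≠ 2) ≠ c.2.2)
    simp only [Fintype.sum_prod_type, Fintype.sum_bool, Fin.sum_univ_three] at this
    unfold hammingDist
    simp at this ⊢
    rw [this]; omega
  · have := hf (fun c => c.2.1 ≠ c.2.2)
    simp only [Fintype.sum_prod_type, Fintype.sum_bool, Fin.sum_univ_three] at this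
    unfold hammingDist
    simp at this ⊢
    rw [this]; omega

end Pool.Agent.H875
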