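import Pool.Agent.H875.Five2
set_option autoImplicit false

/-! Five vertices without odd K5: conclusion. -/

open Classical

namespace Pool.Agent.H875
open SgK4

variable {V : Type}

theorem half_ex {u v w : ℕ} (h : Even (u + v + w)) (h1 : w ≤ u + v) : ∃ a, 2 * a + w = u + v := by
  obtain ⟨r, hr⟩ := h; exact ⟨r - w, by omega⟩

theorem lo3 {A1 N1 A2 N2 A3 N3 g : ℕ} (h1 : A1 ≤ N1 + g) (h2 : A2 ≤ N2 + g) (h3 : A3 ≤ N3 + g)
    (h12 : A1 + A2 ≤ N1 + N2 + g) (h13 : A1 + A3 ≤ N1 + N3 + g) (h23 : A2 + A3 ≤ N2 + N3 + g)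
    (h123 : A1 + A2 + A3 ≤ N1 + N2 + N3 + g) : (A1 - N1) + (A2 - N2) + (A3 - N3) ≤ g := by
  omega

theorem hi3 {a1 b1 a2 b2 a3 b3 g : ℕ} (h1 : g ≤ a1 + a2 + a3) (h2 : g ≤ a1 + a2 + b3) (h3 : g ≤ a1 + b2 + a3)
    (h4 : g ≤ a1 + b2 + b3) (h5 : g ≤ b1 + a2 + a3) (h6 : g ≤ b1 + a2 + b3) (h7 : g ≤ b1 + b2 + a3)
    (h8 : g ≤ b1 + b2 + b3) : g ≤ min a1 b1 + min a2 b2 + min a3 b3 := by
  omega

theorem lohi {a b n : ℕ} (h1 : a ≤ n) (h2 : b ≤ n) : a + b - n ≤ min a b := by omega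

theorem outer {k xy yz xa xb ya yb za zb ab a1 a2 a3 b1 b2 b3 o1 o2 o3 n3 g : ℕ}
    (ha1 : 2 * a1 + ya = xa + xy) (ha2 : 2 * a2 + za = yz + ya) (ha3 : a1 + a2 + a3 = xa)
    (hb1 : 2 * b1 + yb = xb + xy) (hb2 : 2 * b2 + zb = yz + yb) (hb3 : b1 + b2 + b3 = xb)
    (hg : 2 * g + ab = xa + xb) (c7 : o1 + o2 + o3 = g)
    (m1 : a1 ≤ xy) (m2 : a2 ≤ yz) (m3 : b1 ≤ xy) (m4 : b2 ≤ yz)
    (u1 : o1 ≤ a1) (v1 : o1 ≤ b1) (u2 : o2 ≤ a2) (v2 : o2 ≤ b2) (u3 : o3 ≤ a3) (v3 : o3 ≤ b3) :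
    (xy - a1) + a2 + a3 = ya ∧ (xy - b1) + b2 + b3 = yb ∧ (xy - a1) + (yz - a2) + a3 = za ∧
      (xy - b1) + (yz - b2) + b3 = zb ∧
      (a1 + b1 - 2 * o1) + (a2 + b2 - 2 * o2) + (a3 + b3 - 2 * o3) = ab := by
  refine ⟨?_, ?_, ?_, ?_, ?_⟩
  · clear hb1 hb2 hb3 hg c7 m3 m4 u1 v1 u2 v2 u3 v3; omega
  · clear ha1 ha2 ha3 hg c7 m1 m2 u1 v1 u2 v2 u3 v3; omega
  · clear hb1 hb2 hb3 hg c7 m3 m4 u1 v1 u2 v2 u3 v3; omega
  · clear ha1 ha2 ha3 hg c7 m1 m2 u1 v1 u2 v2 u3 v3; omega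
  · clear ha1 ha2 hb1 hb2 m1 m2 m3 m4; omega

theorem embed5 (k xy yz xa xb ya yb za zb ab : ℕ)
    (e1 : Even (xa + xy + ya)) (e2 : Even (yz + ya + za)) (e3 : Even (xb + xy + yb)) (e4 : Even (yz + yb + zb))
    (e5 : Even (xa + xb + ab))
    (t1 : xa ≤ xy + ya) (t2 : ya ≤ xy + xa) (t3 : xy ≤ xa + ya)
    (t4 : xb ≤ xy + yb) (t5 : yb ≤ xy + xb) (t6 : xy ≤ xb + yb)
    (t7 : ya ≤ yz + za) (t8 : za ≤ yz + ya) (t9 : yz ≤ ya + za)
    (t10 : yb ≤ yz + zb) (t11 : zb ≤ yz + yb) (t12 : yz ≤ yb + zb)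
    (t13 : xa ≤ xy + yz + za) (t14 : za ≤ xy + yz + xa) (t15 : xy + yz ≤ xa + za)
    (t16 : xb ≤ xy + yz + zb) (t17 : zb ≤ xy + yz + xb) (t18 : xy + yz ≤ xb + zb)
    (s1 : ab ≤ xa + xb) (s2 : xa ≤ xb + ab) (s3 : xb ≤ xa + ab)
    (s4 : ab ≤ ya + yb) (s5 : ya ≤ yb + ab) (s6 : yb ≤ ya + ab)
    (s7 : ab ≤ za + zb) (s8 : za ≤ zb + ab) (s9 : zb ≤ za + ab)
    (r0 : xy + yz ≤ k) (r1 : xy + yz + xa + za ≤ 2 * k) (r2 : xy + yz + xb + zb ≤ 2 * k)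
    (r3 : xa + xb + ab ≤ 2 * k) (r4 : ya + yb + ab ≤ 2 * k) (r5 : za + zb + ab ≤ 2 * k)
    (q1 : ya + zb + xb ≤ xa + za + yb + ab) (q2 : yb + za + xa ≤ xb + zb + ya + ab)
    (q3 : ya + yb + ab ≤ xa + xb + za + zb) (q4 : xa + xb + za + zb + ab ≤ 2 * k + ya + yb) :
    ∃ Y Z A B : Fin k → Bool, wt Y = xy ∧ wt Z = xy + yz ∧ wt A = xa ∧ wt B = xb ∧
      hammingDist Y Z = yz ∧ hammingDist Y A = ya ∧ hammingDist Y B = yb ∧
      hammingDist Z A = za ∧ hammingDist Z B = zb ∧ hammingDist A B = ab := by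
  obtain ⟨a1, ha1⟩ := half_ex e1 (by linarith)
  obtain ⟨a2, ha2⟩ := half_ex e2 (by linarith)
  obtain ⟨a3, ha3⟩ : ∃ a3, a1 + a2 + a3 = xa :=
    ⟨xa - (a1 + a2), by rw [Nat.add_sub_cancel']; linarith⟩
  obtain ⟨b1, hb1⟩ := half_ex e3 (by linarith)
  obtain ⟨b2, hb2⟩ := half_ex e4 (by linarith)
  obtain ⟨b3, hb3⟩ : ∃ b3, b1 + b2 + b3 = xb :=
    ⟨xb - (b1 + b2), by rw [Nat.add_sub_cancel']; linarith⟩
  obtain ⟨g, hg⟩ := half_ex e5 (by linarith)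
  obtain ⟨n3, hn3⟩ : ∃ n3, xy + yz + n3 = k := ⟨k - (xy + yz), by rw [Nat.add_sub_cancel']; exact r0⟩
  have m1 : a1 ≤ xy := by linarith
  have m2 : a2 ≤ yz := by linarith
  have m3 : a3 ≤ n3 := by linarith
  have m4 : b1 ≤ xy := by linarith
  have m5 : b2 ≤ yz := by linarith
  have m6 : b3 ≤ n3 := by linarith
  obtain ⟨o1, o2, o3, c1, c2, c3, c4, c5, c6, c7⟩ := ival3 (a1 + b1 - xy) (a2 + b2 - yz) (a3 + b3 - n3)
    (min a1 b1) (min a2 b2) (min a3 b3) g (lohi m1 m4) (lohi m2 m5) (lohi m3 m6)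
    (lo3 (by linarith) (by linarith) (by linarith) (by linarith) (by linarith) (by linarith) (by linarith))
    (hi3 (by linarith) (by linarith) (by linarith) (by linarith) (by linarith) (by linarith) (by linarith)
      (by linarith))
  obtain ⟨u1, v1⟩ := le_min_iff.mp c2
  obtain ⟨u2, v2⟩ := le_min_iff.mp c4
  obtain ⟨u3, v3⟩ := le_min_iff.mp c6
  obtain ⟨Y, Z, A, B, f1, f2, f3, f4, f5, f6, f7, f8, f9, f10⟩ := realize5 k xy yz n3 a1 a2 a3 b1 b2 b3 o1 o2 o3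
    hn3 m1 m2 m3 m4 m5 m6 (Nat.sub_le_iff_le_add'.mp c1) (Nat.sub_le_iff_le_add'.mp c3) (Nat.sub_le_iff_le_add'.mp c5)
    u1 v1 u2 v2 u3 v3
  obtain ⟨g1, g2, g3, g4, g5⟩ := outer (k := k) (n3 := n3) ha1 ha2 ha3 hb1 hb2 hb3 hg c7 m1 m2 m4 m5 u1 v1 u2 v2 u3 v3
  exact ⟨Y, Z, A, B, f1, f2, f3.trans ha3, f4.trans hb3, f5, f6.trans g1, f7.trans g2, f8.trans g3, f9.trans g4,
    f10.trans g5⟩

theorem sum_five {M : Type*} [AddCommMonoid M] {x y z a b : V} (h1 : x ≠ y) (h2 : x ≠ z) (h3 : x ≠ a) (h4 : x ≠ b)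
    (h5 : y ≠ z) (h6 : y ≠ a) (h7 : y ≠ b) (h8 : z ≠ a) (h9 : z ≠ b) (h10 : a ≠ b) (F : V → M) :
    ∑ u ∈ ({x, y, z, a, b} : Finset V), F u = F x + (F y + (F z + (F a + F b))) := by
  rw [Finset.sum_insert (by simp [h1, h2, h3, h4]), Finset.sum_insert (by simp [h5, h6, h7]),
    Finset.sum_insert (by simp [h8, h9]), Finset.sum_insert (by simp [h10]), Finset.sum_singleton]

/-- the switched distance -/
noncomputable def Nq (k : ℕ) (D : V → V → ℕ) (q : V → ℤ) (u v : V) : ℤ :=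
  if Even (q v - q u) then (D u v : ℤ) else (k : ℤ) - D u v

theorem Nq_symm {k : ℕ} {p : V → ℤ} {W : V → V → ℤ → ℕ → Prop} {S : Finset V} {D : V → V → ℕ} (h : EM k p W S D)
    (q : V → ℤ) {u v : V} (hu : u ∈ S) (hv : v ∈ S) : Nq k D q u v = Nq k D q v u := by
  unfold Nq
  have e : Even (q v - q u) ↔ Even (q u - q v) := by
    rw [← even_neg]; congr! 1; ring
  simp only [e, h.symm u hu v hv]

theorem Nq_self {k : ℕ} {p : V → ℤ} {W : V → V → ℤ → ℕ → Prop} {S : Finset V} {D : V → V → ℕ} (h : EM k p W S D)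
    (q : V → ℤ) (u : V) : Nq k D q u u = 0 := by
  unfold Nq
  rw [if_pos (by simp), h.self]; rfl

theorem Nq_per {k : ℕ} {p : V → ℤ} {W : V → V → ℤ → ℕ → Prop} {S : Finset V} {D : V → V → ℕ} (h : EM k p W S D)
    (q : V → ℤ) {u v t : V} (hu : u ∈ S) (hv : v ∈ S) (ht : t ∈ S) :
    Nq k D q u v + Nq k D q v t + Nq k D q u t ≤ 2 * k := by
  have h1 := h.per u hu v hv t ht
  have h2 := h.tri u hu v hv t ht
  have h3 := h.tri u hu t ht v hv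
  have h4 := h.tri v hv u hu t ht
  rw [h.symm v hv u hu] at h4
  rw [h.symm t ht v hv] at h3
  unfold Nq
  by_cases c1 : Even (q v - q u) <;> by_cases c2 : Even (q t - q v)
  · have c3 : Even (q t - q u) := by
      have := c1.add c2
      rwa [show q v - q u + (q t - q v) = q t - q u by ring] at this
    rw [if_pos c1, if_pos c2, if_pos c3]; omega
  · have c3 : ¬ Even (q t - q u) := by
      intro c
      apply c2
      have := c.sub c1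
      rwa [show q t - q u - (q v - q u) = q t - q v by ring] at this
    rw [if_pos c1, if_neg c2, if_neg c3]; omega
  · have c3 : ¬ Even (q t - q u) := by
      intro c
      apply c1
      have := c.sub c2
      rwa [show q t - q u - (q t - q v) = q v - q u by ring] at this
    rw [if_neg c1, if_pos c2, if_neg c3]; omega
  · have c3 : Even (q t - q u) := by
      rw [Int.not_even_iff_odd] at c1 c2
      have := c1.add_odd c2
      rwa [show q v - q u + (q t - q v) = q t - q u by ring] at this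
    rw [if_neg c1, if_neg c2, if_pos c3]; omega

/-- two more points -/
theorem two_more {S : Finset V} (h5 : S.card = 5) {x y z : V} (hx : x ∈ S) (hy : y ∈ S) (hz : z ∈ S) (hxy : x ≠ y)
    (hxz : x ≠ z) (hyz : y ≠ z) : ∃ a b, a ∈ S ∧ b ∈ S ∧ x ≠ a ∧ x ≠ b ∧ y ≠ a ∧ y ≠ b ∧ z ≠ a ∧ z ≠ b ∧ a ≠ b ∧
      S = {x, y, z, a, b} := by
  have h2 : (((S.erase x).erase y).erase z).card = 2 := by
    rw [Finset.card_erase_of_mem, Finset.card_erase_of_mem, Finset.card_erase_of_mem hx, h5]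
    · exact Finset.mem_erase.mpr ⟨hxy.symm, hy⟩
    · exact Finset.mem_erase.mpr ⟨hyz.symm, Finset.mem_erase.mpr ⟨hxz.symm, hz⟩⟩
  obtain ⟨a, b, hab, hS⟩ := Finset.card_eq_two.mp h2
  have ha : a ∈ ((S.erase x).erase y).erase z := by rw [hS]; simp
  have hb : b ∈ ((S.erase x).erase y).erase z := by rw [hS]; simp
  simp only [Finset.mem_erase] at ha hb
  refine ⟨a, b, ha.2.2.2, hb.2.2.2, ha.2.2.1.symm, hb.2.2.1.symm, ha.2.1.symm, hb.2.1.symm, ha.1.symm, hb.1.symm, hab, ?_⟩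
  rw [← Finset.insert_erase hx, ← Finset.insert_erase (Finset.mem_erase.mpr ⟨hxy.symm, hy⟩),
    ← Finset.insert_erase (Finset.mem_erase.mpr ⟨hyz.symm, Finset.mem_erase.mpr ⟨hxz.symm, hz⟩⟩), hS]

/-- the sum of all distances is at most `6 k` if there is a betweenness relation -/
theorem T5 {k : ℕ} {p : V → ℤ} {W : V → V → ℤ → ℕ → Prop} {S : Finset V} {D : V → V → ℕ} (h : EM k p W S D)
    (h5 : S.card = 5) (q : V → ℤ) {x y z : V} (hx : x ∈ S) (hy : y ∈ S) (hz : z ∈ S) (hxy : x ≠ y)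
    (hxz : x ≠ z) (hyz : y ≠ z) (hb : Nq k D q x z = Nq k D q x y + Nq k D q y z) :
    ∑ u ∈ S, ∑ v ∈ S, Nq k D q u v ≤ 12 * k := by
  obtain ⟨a, b, ha, hb', n1, n2, n3, n4, n5, n6, n7, hS⟩ := two_more h5 hx hy hz hxy hxz hyz
  have e1 := Nq_per h q hx hz ha
  have e2 := Nq_per h q hx hz hb'
  have e3 := Nq_per h q hy ha hb'
  have s1 := Nq_symm h q hx hy
  have s2 := Nq_symm h q hx hz
  have s3 := Nq_symm h q hx ha
  have s4 := Nq_symm h q hx hb'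
  have s5 := Nq_symm h q hy hz
  have s6 := Nq_symm h q hy ha
  have s7 := Nq_symm h q hy hb'
  have s8 := Nq_symm h q hz ha
  have s9 := Nq_symm h q hz hb'
  have s10 := Nq_symm h q ha hb'
  rw [hS]
  simp only [sum_five hxy hxz n1 n2 hyz n3 n4 n5 n6 n7, Nq_self h]
  linarith

theorem good_card4 (E : V → V → ℤ → Prop) (S : Finset V) (h : S.card ≤ 4) : Good E S := by
  by_cases hne : S.Nonempty
  · obtain ⟨v, hv⟩ := hne
    apply good_apex E S v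
    rintro ⟨B, p, h1, h2, h3, h4⟩
    have hc : (S.erase v).card ≤ 3 := by rw [Finset.card_erase_of_mem hv]; omega
    have hsub : Finset.univ.biUnion B ⊆ S.erase v := by
      intro t ht
      rw [Finset.mem_biUnion] at ht
      obtain ⟨i, -, hi⟩ := ht
      exact h1 i hi
    have h5 : (Finset.univ.biUnion B).card = ∑ i, (B i).card :=
      Finset.card_biUnion fun i _ j _ hij => h2 i j hij
    have h6 : ∀ i, 1 ≤ (B i).card := fun i => Finset.card_pos.mpr (h3 i).1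
    have h7 : (4 : ℕ) ≤ ∑ i, (B i).card := by
      calc (4 : ℕ) = ∑ _i : Fin 4, 1 := by simp
        _ ≤ _ := Finset.sum_le_sum fun i _ => h6 i
    have := Finset.card_le_card hsub
    omega
  · rw [Finset.not_nonempty_iff_eq_empty] at hne
    subst hne
    intro k _ p W _ _ _ _
    exact ⟨fun _ => zr, by intro a ha; simp at ha, 0, by intro a ha; simp at ha⟩

end Pool.Agent.H875
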