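import Pool.Agent.H875.Five3
set_option autoImplicit false

/-! Good supports on five vertices. -/

open Classical

namespace Pool.Agent.H875
open SgK4

variable {V : Type}

theorem bet_of_extremal {k : ℕ} {W : V → V → ℤ → ℕ → Prop} {S : Finset V} {D : V → V → ℕ} {p : V → ℤ} (hW : WGr W)
    (hD : EM k p W S D)
    (h1 : ∀ x ∈ S, ∀ y ∈ S, x ≠ y → ¬ Sup W x y 1 → Sup W x y 0 →
        ∃ z ∈ S, z ≠ x ∧ z ≠ y ∧ ((D x z : ℤ) = D x y + D y z ∨ (D y z : ℤ) = D x y + D x z))
    (h2 : ∀ x ∈ S, ∀ y ∈ S, x ≠ y → ¬ Sup W x y 0 → Sup W x y 1 →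
        ∃ z ∈ S, z ≠ x ∧ z ≠ y ∧ ((D x y : ℤ) = D x z + D y z ∨ (D x y : ℤ) + D x z + D y z = 2 * k))
    (hall : ∀ x ∈ S, ∀ y ∈ S, x ≠ y → Sup W x y 0 ∨ Sup W x y 1) (q : V → ℤ) {c d : V} (hc : c ∈ S) (hd : d ∈ S)
    (hcd : c ≠ d) (hno : ¬ Sup W c d (q d - q c + 1)) :
    ∃ w ∈ S, w ≠ c ∧ w ≠ d ∧ (Nq k D q c w = Nq k D q c d + Nq k D q d w ∨
      Nq k D q d w = Nq k D q d c + Nq k D q c w) := by
  by_cases hq : Even (q d - q c)
  · have hn1 : ¬ Sup W c d 1 := by
      intro h
      apply hno
      exact sup_par hW h (by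
        have : q d - q c + 1 - 1 = q d - q c := by ring
        rw [this]; exact hq)
    have hs0 : Sup W c d 0 := (hall c hc d hd hcd).resolve_right hn1
    obtain ⟨w, hw, hwc, hwd, hww⟩ := h1 c hc d hd hcd hn1 hs0
    refine ⟨w, hw, hwc, hwd, ?_⟩
    rw [Nq_symm hD q hd hc]
    unfold Nq
    rw [if_pos hq]
    by_cases h3 : Even (q w - q c)
    · have h4 : Even (q w - q d) := by
        have := h3.sub hq
        rwa [show q w - q c - (q d - q c) = q w - q d by ring] at this
      rw [if_pos h3, if_pos h4]
      rcases hww with h | h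
      · left; exact h
      · right; exact h
    · have h4 : ¬ Even (q w - q d) := by
        intro h
        apply h3
        have := h.add hq
        rwa [show q w - q d + (q d - q c) = q w - q c by ring] at this
      rw [if_neg h3, if_neg h4]
      rcases hww with h | h
      · right; linarith
      · left; linarith
  · have hn0 : ¬ Sup W c d 0 := by
      intro h
      apply hno
      rw [Int.not_even_iff_odd] at hq
      exact sup_par hW h (by
        have : q d - q c + 1 - 0 = q d - q c + 1 := by ring
        rw [this]; exact hq.add_odd odd_one)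
    have hs1 : Sup W c d 1 := (hall c hc d hd hcd).resolve_left hn0
    obtain ⟨w, hw, hwc, hwd, hww⟩ := h2 c hc d hd hcd hn0 hs1
    refine ⟨w, hw, hwc, hwd, ?_⟩
    rw [Nq_symm hD q hd hc]
    unfold Nq
    rw [if_neg hq]
    rw [Int.not_even_iff_odd] at hq
    by_cases h3 : Even (q w - q c)
    · have h4 : ¬ Even (q w - q d) := by
        intro h
        have h5 : Even (q d - q c) := by
          have := h3.sub h
          rwa [show q w - q c - (q w - q d) = q d - q c by ring] at this
        exact (Int.not_even_iff_odd.mpr hq) h5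
      rw [if_pos h3, if_neg h4]
      rcases hww with h | h
      · right; linarith
      · left; linarith
    · have h4 : Even (q w - q d) := by
        rw [Int.not_even_iff_odd] at h3
        have := h3.sub_odd hq
        rwa [show q w - q c - (q d - q c) = q w - q d by ring] at this
      rw [if_neg h3, if_pos h4]
      rcases hww with h | h
      · left; linarith
      · right; linarith

theorem even3 {k : ℕ} {p : V → ℤ} {W : V → V → ℤ → ℕ → Prop} {S : Finset V} {D : V → V → ℕ} (h : EM k p W S D)
    {u v t : V} (hu : u ∈ S) (hv : v ∈ S) (ht : t ∈ S) : Even (D u v + D v t + D u t) := by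
  obtain ⟨r1, h1⟩ := h.par u hu v hv
  obtain ⟨r2, h2⟩ := h.par v hv t ht
  obtain ⟨r3, h3⟩ := h.par u hu t ht
  have : Even ((D u v + D v t + D u t : ℕ) : ℤ) := ⟨r1 + r2 + r3 + (p t - p u), by push_cast; linarith⟩
  exact_mod_cast this

set_option maxHeartbeats 8000000 in
theorem good5 (E : V → V → ℤ → Prop) (S : Finset V) (h5 : S.card = 5)
    (hE : ¬ ∃ q : V → ℤ, ∀ a ∈ S, ∀ b ∈ S, a ≠ b → E a b (q b - q a + 1)) : Good E S := by
  intro k hk p W hW hWE hP hN
  by_cases hall : ∀ x ∈ S, ∀ y ∈ S, x ≠ y → Sup W x y 0 ∨ Sup W x y 1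
  swap
  · push Not at hall
    obtain ⟨x, hx, y, hy, hxy, hn0, hn1⟩ := hall
    have hno : ∀ l, ¬ Sup W x y l := by
      intro l hl
      rcases Int.even_or_odd l with h | h
      · exact hn0 (sup_par hW hl (by simpa using h.neg))
      · exact hn1 (sup_par hW hl (by obtain ⟨r, hr⟩ := h; exact ⟨-r, by linarith⟩))
    have hno' : ∀ l, ¬ Sup W y x l := fun l hl => hno _ (hW.sup.symm _ _ _ hl)
    have hU : S.erase y ∪ S.erase x = S := by
      ext t; simp only [Finset.mem_union, Finset.mem_erase]
      constructor
      · rintro (h | h)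
        · exact h.2
        · exact h.2
      · intro h
        by_cases ht : t = y
        · right; exact ⟨by rw [ht]; exact hxy.symm, h⟩
        · left; exact ⟨ht, h⟩
    have hI : (S.erase y ∩ S.erase x).card ≤ 3 := by
      have : S.erase y ∩ S.erase x = (S.erase y).erase x := by
        ext t; simp only [Finset.mem_inter, Finset.mem_erase]; tauto
      rw [this, Finset.card_erase_of_mem (Finset.mem_erase.mpr ⟨hxy, hx⟩), Finset.card_erase_of_mem hy, h5]
    have hg : Good (Sup W) S := by
      apply good_sum _ _ (S.erase y) (S.erase x) hU hI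
      · intro a ha b hb l hab
        by_cases hay : a = y
        · have hbx : b ≠ x := fun h => hno' l (by rw [← hay, ← h]; exact hab)
          right
          exact ⟨Finset.mem_erase.mpr ⟨by rw [hay]; exact hxy.symm, ha⟩, Finset.mem_erase.mpr ⟨hbx, hb⟩⟩
        · by_cases hby : b = y
          · have hax : a ≠ x := fun h => hno l (by rw [← hby, ← h]; exact hab)
            right
            exact ⟨Finset.mem_erase.mpr ⟨hax, ha⟩, Finset.mem_erase.mpr ⟨by rw [hby]; exact hxy.symm, hb⟩⟩
          · left
            exact ⟨Finset.mem_erase.mpr ⟨hay, ha⟩, Finset.mem_erase.mpr ⟨hby, hb⟩⟩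
      · exact good_card4 _ _ (by rw [Finset.card_erase_of_mem hy]; omega)
      · exact good_card4 _ _ (by rw [Finset.card_erase_of_mem hx]; omega)
    exact hg k hk p W hW (fun a _ b _ x l h => ⟨l, h⟩) hP hN
  -- all pairs are adjacent
  obtain ⟨D, hD, w1, w2⟩ := extremal hk hW hP hN (by omega)
  have hex : ∀ q : V → ℤ, ∃ c ∈ S, ∃ d ∈ S, c ≠ d ∧ ¬ Sup W c d (q d - q c + 1) := by
    intro q
    by_contra hcon
    push Not at hcon
    exact hE ⟨q, fun a ha b hb hab => by
      obtain ⟨l, hl⟩ := hcon a ha b hb hab
      exact hWE a ha b hb _ l hl⟩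
  have hT : ∀ q : V → ℤ, ∑ u ∈ S, ∑ v ∈ S, Nq k D q u v ≤ 12 * k := by
    intro q
    obtain ⟨c, hc, d, hd, hcd, hno⟩ := hex q
    obtain ⟨w, hw, hwc, hwd, hww⟩ := bet_of_extremal hW hD w1 w2 hall q hc hd hcd hno
    rcases hww with h | h
    · exact T5 hD h5 q hc hd hw hcd hwc.symm hwd.symm h
    · exact T5 hD h5 q hd hc hw hcd.symm hwd.symm hwc.symm h
  obtain ⟨x, y, z, hx, hy, hz, hxy, hxz, hyz, hbet⟩ : ∃ x y z, x ∈ S ∧ y ∈ S ∧ z ∈ S ∧ x ≠ y ∧ x ≠ z ∧ y ≠ z ∧
      D x z = D x y + D y z := by
    obtain ⟨c, hc, d, hd, hcd, hno⟩ := hex (fun _ => 0)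
    obtain ⟨w, hw, hwc, hwd, hww⟩ := bet_of_extremal hW hD w1 w2 hall (fun _ => 0) hc hd hcd hno
    have hN0 : ∀ u v, Nq k D (fun _ => 0) u v = D u v := by
      intro u v; unfold Nq; rw [if_pos (by simp)]
    simp only [hN0] at hww
    rcases hww with h | h
    · exact ⟨c, d, w, hc, hd, hw, hcd, hwc.symm, hwd.symm, by exact_mod_cast h⟩
    · exact ⟨d, c, w, hd, hc, hw, hcd.symm, hwd.symm, hwc.symm, by exact_mod_cast h⟩
  obtain ⟨a, b, ha, hb, n1, n2, n3, n4, n5, n6, n7, hS⟩ := two_more h5 hx hy hz hxy hxz hyz
  have hy' := hxy.symm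
  have hz' := hxz.symm
  have hz'' := hyz.symm
  have n1' := n1.symm
  have n2' := n2.symm
  have n3' := n3.symm
  have n4' := n4.symm
  have n5' := n5.symm
  have n6' := n6.symm
  have n7' := n7.symm
  have syx := hD.symm y hy x hx
  have szx := hD.symm z hz x hx
  have szy := hD.symm z hz y hy
  have sax := hD.symm a ha x hx
  have say := hD.symm a ha y hy
  have saz := hD.symm a ha z hz
  have sbx := hD.symm b hb x hx
  have sby := hD.symm b hb y hy
  have sbz := hD.symm b hb z hz
  have sba := hD.symm b hb a ha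
  -- the four pentagonal inequalities
  have hpent : ∀ q : V → ℤ, Nq k D q x y + Nq k D q x z + Nq k D q x a + Nq k D q x b + Nq k D q y z + Nq k D q y a +
      Nq k D q y b + Nq k D q z a + Nq k D q z b + Nq k D q a b ≤ 6 * k := by
    intro q
    have h := hT q
    rw [hS] at h
    simp only [sum_five hxy hxz n1 n2 hyz n3 n4 n5 n6 n7, Nq_self hD] at h
    have s1 := Nq_symm hD q hx hy
    have s2 := Nq_symm hD q hx hz
    have s3 := Nq_symm hD q hx ha
    have s4 := Nq_symm hD q hx hb
    have s5 := Nq_symm hD q hy hz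
    have s6 := Nq_symm hD q hy ha
    have s7 := Nq_symm hD q hy hb
    have s8 := Nq_symm hD q hz ha
    have s9 := Nq_symm hD q hz hb
    have s10 := Nq_symm hD q ha hb
    linarith
  have p1 := hpent (fun u => if u = a ∨ u = y then 1 else 0)
  have p2 := hpent (fun u => if u = b ∨ u = y then 1 else 0)
  have p3 := hpent (fun u => if u = x ∨ u = z then 1 else 0)
  have p4 := hpent (fun u => if u = y then 1 else 0)
  unfold Nq at p1 p2 p3 p4
  simp [hxy, hxz, hyz, n1, n2, n3, n4, n5, n6, n7, hy', hz', hz'', n1', n2', n3', n4', n5', n6', n7'] at p1 p2 p3 p4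
  have hbz : (D x z : ℤ) = D x y + D y z := by exact_mod_cast hbet
  obtain ⟨Y, Z, A, B, f1, f2, f3, f4, f5, f6, f7, f8, f9, f10⟩ := embed5 k (D x y) (D y z) (D x a) (D x b) (D y a)
    (D y b) (D z a) (D z b) (D a b)
    (by have := even3 hD hy hx ha; rw [syx] at this; rwa [add_comm (D x y) (D x a)] at this)
    (by have := even3 hD hy hz ha; rw [add_right_comm] at this; exact this)
    (by have := even3 hD hy hx hb; rw [syx] at this; rwa [add_comm (D x y) (D x b)] at this)
    (by have := even3 hD hy hz hb; rw [add_right_comm] at this; exact this)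
    (by have := even3 hD hx ha hb; rw [add_right_comm] at this; exact this)
    (hD.tri x hx y hy a ha) (by have := hD.tri y hy x hx a ha; rwa [syx] at this)
    (by have := hD.tri x hx a ha y hy; rwa [say] at this)
    (hD.tri x hx y hy b hb) (by have := hD.tri y hy x hx b hb; rwa [syx] at this)
    (by have := hD.tri x hx b hb y hy; rwa [sby] at this)
    (hD.tri y hy z hz a ha) (by have := hD.tri z hz y hy a ha; rwa [szy] at this)
    (by have := hD.tri y hy a ha z hz; rwa [saz] at this)
    (hD.tri y hy z hz b hb) (by have := hD.tri z hz y hy b hb; rwa [szy] at this)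
    (by have := hD.tri y hy b hb z hz; rwa [sbz] at this)
    (by have := hD.tri x hx z hz a ha; rwa [hbet] at this)
    (by have := hD.tri z hz x hx a ha; rwa [szx, hbet] at this)
    (by have := hD.tri x hx a ha z hz; rwa [saz, hbet] at this)
    (by have := hD.tri x hx z hz b hb; rwa [hbet] at this)
    (by have := hD.tri z hz x hx b hb; rwa [szx, hbet] at this)
    (by have := hD.tri x hx b hb z hz; rwa [sbz, hbet] at this)
    (by have := hD.tri a ha x hx b hb; rwa [sax] at this)
    (by have := hD.tri x hx b hb a ha; rwa [sba] at this)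
    (hD.tri x hx a ha b hb)
    (by have := hD.tri a ha y hy b hb; rwa [say] at this)
    (by have := hD.tri y hy b hb a ha; rwa [sba] at this)
    (hD.tri y hy a ha b hb)
    (by have := hD.tri a ha z hz b hb; rwa [saz] at this)
    (by have := hD.tri z hz b hb a ha; rwa [sba] at this)
    (hD.tri z hz a ha b hb)
    (by rw [← hbet]; exact hD.le x hx z hz)
    (by rw [← hbet]; have := hD.per x hx z hz a ha; linarith)
    (by rw [← hbet]; have := hD.per x hx z hz b hb; linarith)
    (by have := hD.per x hx a ha b hb; linarith)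
    (by have := hD.per y hy a ha b hb; linarith)
    (by have := hD.per z hz a ha b hb; linarith)
    (by zify; linarith) (by zify; linarith) (by zify; linarith) (by zify; linarith)
  let φ : V → Fin k → Bool := fun u => if u = x then zr else if u = y then Y else if u = z then Z else
    if u = a then A else B
  have φx : φ x = zr := if_pos rfl
  have φy : φ y = Y := by simp only [φ, if_neg hy', if_pos]
  have φz : φ z = Z := by simp only [φ, if_neg hz', if_neg hz'', if_pos]
  have φa : φ a = A := by simp only [φ, if_neg n1', if_neg n3', if_neg n5', if_pos]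
  have φb : φ b = B := by simp only [φ, if_neg n2', if_neg n4', if_neg n6', if_neg n7']
  unfold wt at f1 f2 f3 f4
  have hdist : ∀ u ∈ S, ∀ v ∈ S, hammingDist (φ u) (φ v) = D u v := by
    have self : ∀ u, hammingDist (φ u) (φ u) = D u u := by
      intro u; rw [hammingDist_self, hD.self]
    have exy : hammingDist (φ x) (φ y) = D x y := by rw [φx, φy, hammingDist_comm]; exact f1
    have exz : hammingDist (φ x) (φ z) = D x z := by rw [φx, φz, hammingDist_comm, hbet]; exact f2
    have exa : hammingDist (φ x) (φ a) = D x a := by rw [φx, φa, hammingDist_comm]; exact f3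
    have exb : hammingDist (φ x) (φ b) = D x b := by rw [φx, φb, hammingDist_comm]; exact f4
    have eyz : hammingDist (φ y) (φ z) = D y z := by rw [φy, φz]; exact f5
    have eya : hammingDist (φ y) (φ a) = D y a := by rw [φy, φa]; exact f6
    have eyb : hammingDist (φ y) (φ b) = D y b := by rw [φy, φb]; exact f7
    have eza : hammingDist (φ z) (φ a) = D z a := by rw [φz, φa]; exact f8
    have ezb : hammingDist (φ z) (φ b) = D z b := by rw [φz, φb]; exact f9
    have eab : hammingDist (φ a) (φ b) = D a b := by rw [φa, φb]; exact f10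
    intro u hu v hv
    rw [hS] at hu hv
    simp only [Finset.mem_insert, Finset.mem_singleton] at hu hv
    rcases hu with rfl | rfl | rfl | rfl | rfl <;> rcases hv with rfl | rfl | rfl | rfl | rfl
    all_goals first
      | exact self _
      | assumption
      | (rw [hammingDist_comm]; first
          | rw [syx]; assumption
          | rw [szx]; assumption
          | rw [szy]; assumption
          | rw [sax]; assumption
          | rw [say]; assumption
          | rw [saz]; assumption
          | rw [sbx]; assumption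
          | rw [sby]; assumption
          | rw [sbz]; assumption
          | rw [sba]; assumption)
  refine ⟨φ, ?_, -p x, ?_⟩
  · intro u hu v hv l m hw
    rcases Int.even_or_odd l with hl | hl
    · rw [sd_even hl, hdist u hu v hv]
      exact hD.ev u hu v hv l m hw hl
    · have h1 := sd_odd hl (φ u) (φ v)
      rw [hdist u hu v hv] at h1
      have h2 := hD.od u hu v hv l m hw hl
      omega
  · intro u hu
    have h1 : wt (φ u) = D x u := by
      unfold wt
      rw [← φx, hammingDist_comm]
      exact hdist x hx u hu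
    rw [h1]
    obtain ⟨r, hr⟩ := hD.par x hx u hu
    exact ⟨r, by linear_combination hr⟩

end Pool.Agent.H875
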