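import Pool.Agent.H875.Rigid2
set_option autoImplicit false

/-! Gluing along rigid sets, and the final step. -/

open Classical

namespace Pool.Agent.H875
open SgK4

variable {V E : Type}

theorem wk_of_walk {G : SG V E} {S : Set V} {S' : Finset V} (hS : ∀ a ∈ S, a ∈ S') {a b : V} {x : ZMod 2} {n : ℕ}
    (h : Walk G.adj S a b x n) : ∃ X : ℤ, (X : ZMod 2) = x ∧ Wk (WOfG G) S' a b X n := by
  induction h with
  | nil a ha => exact ⟨0, by simp, Wk.nil a (hS a ha)⟩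
  | @cons a b c x y n ha h t ih =>
    obtain ⟨Y, hY, hw⟩ := ih
    obtain ⟨e, he, hx⟩ := h
    refine ⟨sg G e + Y, ?_, ?_⟩
    · push_cast
      rw [hY]
      congr 1
      unfold sg
      by_cases hn : e ∈ G.neg
      · rw [if_pos hn, hx.mp hn]; simp
      · rw [if_neg hn]
        have hx1 : x ≠ 1 := fun h => hn (hx.mpr h)
        have h0 : ∀ z : ZMod 2, z ≠ 1 → z = 0 := by decide
        rw [h0 x hx1]; simp
    · rw [add_comm n 1]
      exact Wk.cons (hS a ha) ⟨rfl, e, he, by simp⟩ hw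

theorem odd_of_cast {X : ℤ} (h : (X : ZMod 2) = 1) : Odd X := by
  rcases Int.even_or_odd X with hX | hX
  · exfalso
    have : (X : ZMod 2) = ((0 : ℤ) : ZMod 2) := cast_eq_of_even (by simpa using hX)
    rw [this] at h
    simp at h
  · exact hX

theorem sup_adj {G : SG V E} {a b : V} {x : ℤ} {l : ℕ} (h : WOfG G a b x l) : toE G.adj a b x := by
  obtain ⟨-, e, he, hx⟩ := h
  refine ⟨e, he, ?_⟩
  unfold sg at hx
  by_cases hn : e ∈ G.neg
  · rw [if_pos hn] at hx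
    refine ⟨fun _ => ?_, fun _ => hn⟩
    rw [cast_eq_of_even hx]; simp
  · rw [if_neg hn] at hx
    refine ⟨fun h => absurd h hn, fun h => ?_⟩
    rw [cast_eq_of_even hx] at h
    simp at h

theorem glued_fit [Fintype V] {G : SG V E} (hl : G.Loopless) {k : ℕ} (hc : G.Consistent) (hk : G.UnbalancedGirth k)
    {p : V → ℤ} (hp : Par k p (WOfG G) Finset.univ) {S : Set V} (hS : Glued G.adj k S) :
    ∃ φ : V → Fin k → Bool, Fit φ (WOfG G) S.toFinset ∧ ∃ c : ℤ, ∀ a ∈ S.toFinset, Even ((wt (φ a) : ℤ) - p a - c) := by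
  have hk0 : 0 < k := by
    obtain ⟨⟨v', e', h', hb'⟩, -⟩ := hk
    have := h'.two_le
    omega
  induction hS with
  | base S h =>
    exact cls_good h k hk0 p (WOfG G) (wOfG_wgr hl) (fun a _ b _ x l hw => sup_adj hw)
      (hp.mono (Finset.subset_univ _) fun _ _ _ _ _ _ h => h) (neg_of_girth hl hc hk _)
  | glue S₁ S₂ hne hr hsep h1 h2 ih1 ih2 =>
    obtain ⟨φ1, f1, c1, hc1⟩ := ih1
    obtain ⟨φ2, f2, c2, hc2⟩ := ih2
    have hT1 : (S₁ ∩ S₂).toFinset ⊆ S₁.toFinset := by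
      intro t ht; rw [Set.mem_toFinset] at ht ⊢; exact ht.1
    have hT2 : (S₁ ∩ S₂).toFinset ⊆ S₂.toFinset := by
      intro t ht; rw [Set.mem_toFinset] at ht ⊢; exact ht.2
    obtain ⟨α, hα, hαT⟩ := rigid_set (W := WOfG G) (T := (S₁ ∩ S₂).toFinset) (fun _ _ _ _ h => h.1)
      (f1.mono hT1 fun _ _ _ _ _ _ h => h) (f2.mono hT2 fun _ _ _ _ _ _ h => h)
      (by obtain ⟨t, ht⟩ := hne; exact ⟨t, Set.mem_toFinset.mpr ht⟩) (by
        intro a ha b hb
        rw [Set.mem_toFinset] at ha hb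
        obtain ⟨x, m, n, w1, w2, hmn⟩ := hr a ha b hb
        obtain ⟨X, hX, hw1⟩ := wk_of_walk (fun a ha => Set.mem_toFinset.mpr ha) w1
        obtain ⟨Y, hY, hw2⟩ := wk_of_walk (fun a ha => Set.mem_toFinset.mpr ha) w2
        refine ⟨X, Y, m, n, hw1, hw2, odd_of_cast ?_, hmn⟩
        push_cast
        rw [hX, hY]
        have := zmod2_add_self x
        linear_combination this)
    rw [Set.toFinset_union]
    obtain ⟨t0, ht0⟩ := hne
    refine ⟨fun t => if t ∈ S₁.toFinset then φ1 t else α (φ2 t), ?_, c1, ?_⟩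
    · refine fit_union (wOfG_wgr hl) rfl ?_ f1 (f2.isom hα) ?_
      · intro s hs t ht hs' ht' x l hw
        rw [Set.mem_toFinset] at hs ht hs' ht'
        rcases hsep s (Or.inl hs) t (Or.inr ht) _ (sup_adj hw) with ⟨-, h⟩ | ⟨h, -⟩
        · exact ht' h
        · exact hs' h
      · intro t ht1 ht2
        rw [Set.mem_toFinset] at ht1 ht2
        exact hαT t (Set.mem_toFinset.mpr ⟨ht1, ht2⟩)
    · intro t ht
      by_cases ht1 : t ∈ S₁.toFinset
      · simp only [if_pos ht1]; exact hc1 t ht1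
      · simp only [if_neg ht1]
        have ht2 : t ∈ S₂.toFinset := (Finset.mem_union.mp ht).resolve_left ht1
        have ht0' : t0 ∈ (S₁ ∩ S₂).toFinset := Set.mem_toFinset.mpr ht0
        have h3 := hα 0 (φ2 t) (φ2 t0)
        rw [hαT t0 ht0', sd_zero, sd_zero] at h3
        obtain ⟨r1, hr1⟩ := hd_parity (α (φ2 t)) (φ1 t0)
        obtain ⟨r2, hr2⟩ := hd_parity (φ2 t) (φ2 t0)
        obtain ⟨r3, hr3⟩ := hc1 t0 (hT1 ht0')
        obtain ⟨r4, hr4⟩ := hc2 t0 (hT2 ht0')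
        obtain ⟨r5, hr5⟩ := hc2 t ht2
        rw [h3] at hr1
        exact ⟨r2 - r1 - r3 + r4 + r5 + c2 - c1, by linear_combination hr2 - hr1 - hr3 + hr4 + hr5⟩

theorem hom_of_glued [Fintype V] {G : SG V E} (hl : G.Loopless) {k : ℕ} (hc : G.Consistent) (hk : G.UnbalancedGirth k)
    (hg : Glued G.adj k Set.univ) : G.Hom (SPC (k - 1)) := by
  obtain ⟨⟨v', e', h', hb'⟩, hmin⟩ := id hk
  have hk2 : 2 ≤ k := h'.two_le
  obtain ⟨m, rfl⟩ : ∃ m, k = m + 1 := ⟨k - 1, by omega⟩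
  obtain ⟨p, hp⟩ := exists_par hl hc hk Finset.univ
  obtain ⟨φ, hφ, c, hcp⟩ := glued_fit hl hc hk hp hg
  have hmem : ∀ (i : Fintype (Set.univ : Set V)) (a : V), a ∈ @Set.toFinset V Set.univ i := fun i a => by simp
  rw [Nat.add_sub_cancel]
  apply hom_of_fit φ
  intro e a b he
  have hw : WOfG G a b (sg G e) 1 := ⟨rfl, e, he, by simp⟩
  have h1 := hφ a (hmem _ a) b (hmem _ b) _ _ hw
  obtain ⟨r1, hr1⟩ := sd_parity (sg G e) (φ a) (φ b)
  obtain ⟨r2, hr2⟩ := hcp a (hmem _ a)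
  obtain ⟨r3, hr3⟩ := hcp b (hmem _ b)
  obtain ⟨r4, hr4⟩ := hp a (Finset.mem_univ _) b (Finset.mem_univ _) _ _ hw
  have h5 : (sd (sg G e) (φ a) (φ b) : ℤ) = 1 + 2 * (r1 + r3 - r2 - r4) := by
    push_cast at hr1 hr4 ⊢
    linear_combination hr1 + hr3 - hr2 - hr4
  omega

end Pool.Agent.H875
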