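import Pool.Agent.H875.MainM
set_option autoImplicit false

/-! Good supports: closure under apex extension and sums of order at most three. -/

open Classical

namespace Pool.Agent.H875
open SgK4

variable {V : Type}

/-- a support `E` on `S` is good if every consistent weighted signed graph with this support and unbalanced
girth at least `k` has a fitting map to the hypercube -/
def Good (E : V → V → ℤ → Prop) (S : Finset V) : Prop :=
  ∀ (k : ℕ), 0 < k → ∀ (p : V → ℤ) (W : V → V → ℤ → ℕ → Prop), WGr W →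
    (∀ a ∈ S, ∀ b ∈ S, ∀ x l, W a b x l → E a b x) → Par k p W S → Neg W S k →
    ∃ φ : V → Fin k → Bool, Fit φ W S ∧ ∃ c : ℤ, ∀ a ∈ S, Even ((wt (φ a) : ℤ) - p a - c)

theorem oddK4_mono_on {E E' : V → V → ℤ → Prop} {S : Finset V} (h : OddK4 E S)
    (hEE : ∀ a ∈ S, ∀ b ∈ S, ∀ x, E a b x → E' a b x) : OddK4 E' S := by
  obtain ⟨B, p, h1, h2, h3, h4⟩ := h
  refine ⟨B, p, h1, h2, fun i => (h3 i).mono fun a ha b hb hab => hEE a (h1 i ha) b (h1 i hb) _ hab, ?_⟩
  intro i j hij
  obtain ⟨a, ha, b, hb, hab⟩ := h4 i j hij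
  exact ⟨a, ha, b, hb, hEE a (h1 i ha) b (h1 j hb) _ hab⟩

theorem good_apex_mem (E : V → V → ℤ → Prop) (S : Finset V) (v : V) (hv : v ∈ S) (hK : ¬ OddK4 E (S.erase v)) :
    Good E S := by
  intro k hk p W hW hWE hP hN
  -- fix the distances from `v`
  obtain ⟨W', e1, e2, e3, e4, e5, e6⟩ := fix_list hk (S := S) (((S.erase v).toList).map fun a => (v, a)) hW hP hN (by
    intro q hq
    rw [List.mem_map] at hq
    obtain ⟨a, ha, rfl⟩ := hq
    rw [Finset.mem_toList, Finset.mem_erase] at ha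
    exact ⟨hv, ha.2, ha.1.symm⟩)
  have hex : ∀ a ∈ S.erase v, ∃ d, Ex k W' v a d := by
    intro a ha
    exact e6 (v, a) (by rw [List.mem_map]; exact ⟨a, by rw [Finset.mem_toList]; exact ha, rfl⟩)
  let g : V → ℕ := fun a => if h : ∃ d, Ex k W' v a d then h.choose else 0
  have hg : ∀ a ∈ S.erase v, Ex k W' v a (g a) := by
    intro a ha
    have h := hex a ha
    simp only [g, dif_pos h]
    exact h.choose_spec
  have hsub : S.erase v ⊆ S := Finset.erase_subset _ _
  -- walks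
  have hw : ∀ a ∈ S.erase v, ∀ x l, Wk W' S v a x l → (Even x → g a ≤ l) ∧ (Odd x → k ≤ g a + l) := by
    intro a ha x l hw
    have h1 := (hg a ha).symm e3
    refine ⟨fun hx => ?_, fun hx => ?_⟩
    · have h2 := e5 v _ _ (hw.trans (Wk.single hw.right_mem hw.left_mem (h1.2.2 1 odd_one))) (hx.add_odd odd_one)
      have := h1.1
      omega
    · have h2 := e5 v _ _ (hw.trans (Wk.single hw.right_mem hw.left_mem (h1.2.1 0 ⟨0, by ring⟩))) (by rwa [add_zero])
      omega
  have hv0 : ∀ a ∈ S.erase v, Wk W' S v a 0 (g a) := fun a ha =>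
    Wk.single hv (hsub ha) ((hg a ha).2.1 0 ⟨0, by ring⟩)
  have hv1 : ∀ a ∈ S.erase v, Wk W' S v a 1 (k - g a) := fun a ha =>
    Wk.single hv (hsub ha) ((hg a ha).2.2 1 odd_one)
  have hH : Ht k (fun a => p a - p v) g W (S.erase v) := by
    refine ⟨fun a ha => (hg a ha).1, ?_, ?_, ?_⟩
    · intro a ha
      have := e4.wk (hv0 a ha)
      simpa using this
    · intro a ha b hb x l h hx
      have h1 := (hw b hb _ _ ((hv0 a ha).trans (Wk.single (hsub ha) (hsub hb) (e1 _ _ _ _ h)))).1 (by simpa using hx)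
      have h2 := (hw a ha _ _ ((hv0 b hb).trans (Wk.single (hsub hb) (hsub ha) (e1 _ _ _ _ (hW.symm _ _ _ _ h))))).1
        (by simpa using hx.neg)
      rw [abs_le]
      constructor <;> omega
    · intro a ha b hb x l h hx
      have h1 := (hw b hb _ _ ((hv0 a ha).trans (Wk.single (hsub ha) (hsub hb) (e1 _ _ _ _ h)))).2 (by simpa using hx)
      have h2 := (hw b hb _ _ ((hv1 a ha).trans (Wk.single (hsub ha) (hsub hb) (e1 _ _ _ _ h)))).1
        (odd_one.add_odd hx)
      have h3 := (hg a ha).1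
      rw [abs_le]
      constructor <;> omega
  obtain ⟨φ, hφw, hφ⟩ := mainM hk (p := fun a => p a - p v) (g := g) (S.erase v) W hW
    (fun h => hK (oddK4_mono_on h (by
      rintro a ha b hb x ⟨l, h⟩
      exact hWE a (hsub ha) b (hsub hb) x l h)))
    (by
      intro a ha b hb x l h
      obtain ⟨r, hr⟩ := hP a (hsub ha) b (hsub hb) x l h
      exact ⟨r, by linear_combination hr⟩)
    (hN.subset hsub) hH
  -- extend to `v` by the origin
  have hva : ∀ a ∈ S.erase v, ∀ x l, W v a x l → sd x zr (φ a) ≤ l := by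
    intro a ha x l h
    have h1 := hw a ha x l (Wk.single hv (hsub ha) (e1 _ _ _ _ h))
    rcases Int.even_or_odd x with hx | hx
    · rw [sd_even hx, hammingDist_comm]
      have := h1.1 hx
      have h2 := hφw a ha
      unfold wt at h2
      rw [h2]; exact this
    · have h3 := sd_odd hx (zr : Fin k → Bool) (φ a)
      rw [hammingDist_comm] at h3
      have h2 := hφw a ha
      unfold wt at h2
      rw [h2] at h3
      have := h1.2 hx
      omega
  refine ⟨fun a => if a = v then zr else φ a, ?_, -p v, ?_⟩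
  swap
  · intro a ha
    by_cases hav : a = v
    · simp only [if_pos hav]
      have hwz : wt (zr : Fin k → Bool) = 0 := by unfold wt; exact hammingDist_self _
      rw [hwz, hav]; simp
    · simp only [if_neg hav]
      have ha' : a ∈ S.erase v := Finset.mem_erase.mpr ⟨hav, ha⟩
      rw [hφw a ha']
      obtain ⟨r, hr⟩ := hH.par a ha'
      exact ⟨r, by linear_combination hr⟩
  intro a ha b hb x l h
  by_cases hav : a = v
  · by_cases hbv : b = v
    · rw [hav, hbv] at h
      exact absurd rfl (hW.irr _ _ _ _ h)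
    · simp only [if_pos hav, if_neg hbv]
      rw [hav] at h
      exact hva b (Finset.mem_erase.mpr ⟨hbv, hb⟩) x l h
  · by_cases hbv : b = v
    · simp only [if_neg hav, if_pos hbv]
      rw [hbv] at h
      have := hva a (Finset.mem_erase.mpr ⟨hav, ha⟩) (-x) l (hW.symm _ _ _ _ h)
      rwa [sd_symm] at this
    · simp only [if_neg hav, if_neg hbv]
      exact hφ a (Finset.mem_erase.mpr ⟨hav, ha⟩) b (Finset.mem_erase.mpr ⟨hbv, hb⟩) x l h

theorem oddK4_subset' {E : V → V → ℤ → Prop} {S S' : Finset V} (h : OddK4 E S') (hS : S' ⊆ S) : OddK4 E S :=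
  h.subset hS

/-- one vertex whose deletion destroys all odd `K4` minors -/
theorem good_apex (E : V → V → ℤ → Prop) (S : Finset V) (v : V) (hK : ¬ OddK4 E (S.erase v)) : Good E S := by
  by_cases hv : v ∈ S
  · exact good_apex_mem E S v hv hK
  · rw [Finset.erase_eq_of_notMem hv] at hK
    by_cases hne : S.Nonempty
    · obtain ⟨a, ha⟩ := hne
      exact good_apex_mem E S a ha (fun h => hK (h.subset (Finset.erase_subset _ _)))
    · rw [Finset.not_nonempty_iff_eq_empty] at hne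
      subst hne
      intro k _ p W _ _ _ _
      exact ⟨fun _ => zr, by intro a ha; simp at ha, 0, by intro a ha; simp at ha⟩

/-- signed walks of a support -/
inductive EW (E : V → V → ℤ → Prop) (S : Finset V) : V → V → ℤ → Prop
  | nil (a : V) (ha : a ∈ S) : EW E S a a 0
  | cons {a b c : V} {x y : ℤ} (ha : a ∈ S) (h : E a b x) (t : EW E S b c y) : EW E S a c (x + y)

/-- add the connections through `S2` between the vertices of `T` -/
def AddW (E : V → V → ℤ → Prop) (S2 T : Finset V) : V → V → ℤ → Prop := fun a b x =>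
  E a b x ∨ (a ∈ T ∧ b ∈ T ∧ a ≠ b ∧ ∃ y, Even (y - x) ∧ EW E S2 a b y)

/-- add all edges between the vertices of `T` -/
def AddA (E : V → V → ℤ → Prop) (T : Finset V) : V → V → ℤ → Prop := fun a b x =>
  E a b x ∨ (a ∈ T ∧ b ∈ T ∧ a ≠ b)

/-- add to `W` the walks through `S2` between vertices of `T` -/
def ExtT (W : V → V → ℤ → ℕ → Prop) (S2 T : Finset V) : V → V → ℤ → ℕ → Prop := fun a b x l =>
  W a b x l ∨ (a ∈ T ∧ b ∈ T ∧ a ≠ b ∧ ∃ y, Even (y - x) ∧ Wk W S2 a b y l)

theorem extT_wgr {W : V → V → ℤ → ℕ → Prop} (hW : WGr W) (S2 T : Finset V) : WGr (ExtT W S2 T) := by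
  refine ⟨?_, ?_, ?_⟩
  · rintro s t x l (h | ⟨h1, h2, h3, y, hy, hw⟩)
    · exact Or.inl (hW.symm _ _ _ _ h)
    · refine Or.inr ⟨h2, h1, h3.symm, -y, ?_, Wk.symm hW.symm hw⟩
      have e : -y - -x = -(y - x) := by ring
      rw [e]; exact hy.neg
  · rintro s t x l (h | ⟨h1, h2, h3, y, hy, hw⟩)
    · exact Or.inl (hW.par _ _ _ _ h)
    · refine Or.inr ⟨h1, h2, h3, y, ?_, hw⟩
      have e : y - (x + 2) = (y - x) - 2 := by ring
      rw [e]; exact hy.sub even_two
  · rintro s t x l (h | ⟨h1, h2, h3, -⟩)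
    · exact hW.irr _ _ _ _ h
    · exact h3

theorem extT_walk {W : V → V → ℤ → ℕ → Prop} {S S1 S2 T : Finset V} (h1S : S1 ⊆ S) (h2S : S2 ⊆ S)
    {s t : V} {x : ℤ} {l : ℕ} (h : Wk (ExtT W S2 T) S1 s t x l) : ∃ y, Even (y - x) ∧ Wk W S s t y l := by
  induction h with
  | nil s hs => exact ⟨0, by simp, Wk.nil s (h1S hs)⟩
  | @cons s u t x y l m hs h tl ih =>
    obtain ⟨z, hz, hw⟩ := ih
    have hu : u ∈ S := h1S tl.left_mem
    rcases h with h | ⟨-, -, -, y', hy', hw'⟩
    · refine ⟨x + z, ?_, (Wk.single (h1S hs) hu h).trans hw⟩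
      have e : x + z - (x + y) = z - y := by ring
      rw [e]; exact hz
    · refine ⟨y' + z, ?_, (Wk.mono h2S (fun _ _ _ _ _ _ h => h) hw').trans hw⟩
      have e : y' + z - (x + y) = (y' - x) + (z - y) := by ring
      rw [e]; exact hy'.add hz

theorem wk_ew {W : V → V → ℤ → ℕ → Prop} {E : V → V → ℤ → Prop} {S : Finset V}
    (hWE : ∀ a ∈ S, ∀ b ∈ S, ∀ x l, W a b x l → E a b x) {a b : V} {x : ℤ} {l : ℕ} (h : Wk W S a b x l) :
    EW E S a b x := by
  induction h with
  | nil a ha => exact EW.nil a ha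
  | @cons a b c x y l m ha h t ih => exact EW.cons ha (hWE a ha b t.left_mem x l h) ih

/-- sums of order at most three -/
theorem good_sum (E : V → V → ℤ → Prop) (S S1 S2 : Finset V) (hS : S1 ∪ S2 = S) (hT : (S1 ∩ S2).card ≤ 3)
    (hsep : ∀ a ∈ S, ∀ b ∈ S, ∀ x, E a b x → (a ∈ S1 ∧ b ∈ S1) ∨ (a ∈ S2 ∧ b ∈ S2))
    (h1 : Good (AddW E S2 (S1 ∩ S2)) S1) (h2 : Good (AddA E (S1 ∩ S2)) S2) : Good E S := by
  intro k hk p W hW hWE hP hN
  set T := S1 ∩ S2 with hTdef
  have h1S : S1 ⊆ S := by rw [← hS]; exact Finset.subset_union_left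
  have h2S : S2 ⊆ S := by rw [← hS]; exact Finset.subset_union_right
  have hT1 : ∀ t ∈ T, t ∈ S1 := fun t ht => (Finset.mem_inter.mp ht).1
  have hT2 : ∀ t ∈ T, t ∈ S2 := fun t ht => (Finset.mem_inter.mp ht).2
  -- stage 1
  obtain ⟨φ1, f1, f1c⟩ := h1 k hk p (ExtT W S2 T) (extT_wgr hW S2 T) (by
      rintro a ha b hb x l (h | ⟨h3, h4, h5, y, hy, hw⟩)
      · exact Or.inl (hWE a (h1S ha) b (h1S hb) x l h)
      · exact Or.inr ⟨h3, h4, h5, y, hy, wk_ew (fun a ha b hb => hWE a (h2S ha) b (h2S hb)) hw⟩)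
    (by
      rintro s hs t ht x l (h | ⟨-, -, -, y, ⟨r, hr⟩, hw⟩)
      · exact hP s (h1S hs) t (h1S ht) x l h
      · obtain ⟨m, hm⟩ := (hP.mono h2S fun _ _ _ _ _ _ h => h).wk hw
        have : y = x + r + r := by omega
        exact ⟨m + k * r, by rw [this] at hm; linear_combination hm⟩)
    (by
      intro s x l h hx
      obtain ⟨y, hy, hw⟩ := extT_walk h1S h2S h
      refine hN s y l hw ?_
      have e : y = (y - x) + x := by ring
      rw [e]; exact hy.add_odd hx)
  -- stage 2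
  have hN2 : Neg W S2 k := hN.subset h2S
  have hC : ∀ s ∈ T, ∀ t ∈ T, ∀ x l, Wk W S2 s t x l → sd x (φ1 s) (φ1 t) ≤ l := by
    intro s hs t ht x l hw
    by_cases hst : s = t
    · subst hst; exact closed_ok hN2 _ x l hw
    · exact f1 s (hT1 s hs) t (hT1 t ht) x l (Or.inr ⟨hs, ht, hst, x, by simp, hw⟩)
  -- parity of the images
  obtain ⟨c1, hc1⟩ := f1c
  have hP2 : Par k p (RT W T φ1) S2 := by
    apply rt_par (hP.mono h2S fun _ _ _ _ _ _ h => h)
    intro s hs t ht
    obtain ⟨r1, hr1⟩ := hc1 s (hT1 s hs)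
    obtain ⟨r2, hr2⟩ := hc1 t (hT1 t ht)
    exact ⟨r2 - r1, by linear_combination hr2 - hr1⟩
  obtain ⟨φ2, f2, c2, hc2⟩ := h2 k hk p (RT W T φ1) (rt_wgr hW _ _) (by
      rintro a ha b hb x l (h | ⟨h3, h4, h5, -⟩)
      · exact Or.inl (hWE a (h2S ha) b (h2S hb) x l h)
      · exact Or.inr ⟨h3, h4, h5⟩) hP2 (rt_neg hC hN2)
  have hdist : ∀ s ∈ T, ∀ t ∈ T, hammingDist (φ1 s) (φ1 t) = hammingDist (φ2 s) (φ2 t) := fun s hs t ht =>
    (rt_exact f2 (hT2 s hs) (hT2 t ht) hs ht).symm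
  -- alignment
  obtain ⟨α, hα, hαT, hαc⟩ : ∃ α : (Fin k → Bool) → (Fin k → Bool), Isom α ∧ (∀ t ∈ T, α (φ2 t) = φ1 t) ∧
      ∀ u, Even ((wt (α u) : ℤ) - wt u - (c1 - c2)) := by
    by_cases hne : T.Nonempty
    · obtain ⟨a, b, c, habc⟩ := card_le_three_form hT hne
      have haT : a ∈ T := by rw [habc]; simp
      have hbT : b ∈ T := by rw [habc]; simp
      have hcT : c ∈ T := by rw [habc]; simp
      obtain ⟨α, hα, e1, e2, e3⟩ := align3 (φ1 a) (φ1 b) (φ1 c) (φ2 a) (φ2 b) (φ2 c) (hdist a haT b hbT)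
        (hdist a haT c hcT) (hdist b hbT c hcT)
      refine ⟨α, hα, ?_, ?_⟩
      · intro t ht
        rw [habc] at ht
        simp only [Finset.mem_insert, Finset.mem_singleton] at ht
        rcases ht with rfl | rfl | rfl
        · exact e1
        · exact e2
        · exact e3
      · intro u
        have h3 := hα 0 u (φ2 a)
        rw [e1, sd_zero, sd_zero] at h3
        obtain ⟨r1, hr1⟩ := hd_parity (α u) (φ1 a)
        obtain ⟨r2, hr2⟩ := hd_parity u (φ2 a)
        obtain ⟨r3, hr3⟩ := hc1 a (hT1 a haT)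
        obtain ⟨r4, hr4⟩ := hc2 a (hT2 a haT)
        rw [h3] at hr1
        exact ⟨r2 - r1 - r3 + r4 + (c2 - c1), by linear_combination hr2 - hr1 - hr3 + hr4⟩
    · have hTe : ∀ t, t ∉ T := fun t ht => hne ⟨t, ht⟩
      by_cases hpar : Even (c1 - c2)
      · exact ⟨fun u => u, fun _ _ _ => rfl, fun t ht => absurd ht (hTe t), fun u => by
          obtain ⟨r, hr⟩ := hpar
          exact ⟨-r, by rw [hr]; ring⟩⟩
      · rw [Int.not_even_iff_odd] at hpar
        obtain ⟨r, hr⟩ := hpar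
        have hw1 : wt (ones k 1) = 1 := wt_ones hk
        refine ⟨fun u i => xor (ones k 1 i) (u i), isom_of_hd fun u v => hd_xor _ u v, fun t ht => absurd ht (hTe t), ?_⟩
        intro u
        have h3 := hd_xor (ones k 1) u zr
        have h4 : (fun i => xor (ones k 1 i) ((zr : Fin k → Bool) i)) = ones k 1 := by
          funext i; simp [zr]
        rw [h4] at h3
        obtain ⟨r1, hr1⟩ := hd_parity (fun i => xor (ones k 1 i) (u i)) (ones k 1)
        rw [h3, hw1] at hr1
        have h5 : hammingDist u zr = wt u := rfl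
        rw [h5] at hr1
        refine ⟨-r1 - 1 - r, ?_⟩
        rw [hr]
        push_cast at hr1
        linear_combination -hr1
  refine ⟨fun t => if t ∈ S1 then φ1 t else α (φ2 t), ?_, c1, ?_⟩
  · refine fit_union hW hS ?_ (f1.mono subset_rfl fun _ _ _ _ _ _ h => Or.inl h)
      ((f2.mono subset_rfl fun _ _ _ _ _ _ h => Or.inl h).isom hα) ?_
    · intro s hs t ht hs' ht' x l hw
      rcases hsep s (h1S hs) t (h2S ht) x (hWE s (h1S hs) t (h2S ht) x l hw) with ⟨-, h⟩ | ⟨h, -⟩
      · exact ht' h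
      · exact hs' h
    · intro t ht1 ht2
      exact hαT t (Finset.mem_inter.mpr ⟨ht1, ht2⟩)
  · intro t ht
    by_cases ht1 : t ∈ S1
    · simp only [if_pos ht1]; exact hc1 t ht1
    · simp only [if_neg ht1]
      have ht2 : t ∈ S2 := by
        rw [← hS] at ht; exact (Finset.mem_union.mp ht).resolve_left ht1
      obtain ⟨r1, hr1⟩ := hαc (φ2 t)
      obtain ⟨r2, hr2⟩ := hc2 t ht2
      exact ⟨r1 + r2, by linear_combination hr1 + hr2⟩

end Pool.Agent.H875
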