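import Pool.Agent.H875.Cube
set_option autoImplicit false

/-! Cyclic intervals in the hypercube. -/

namespace Pool.Agent.H875

variable {k : ℕ}

/-- number of lattice points below `h` in the class of `i` -/
def FF (k : ℕ) (h i : ℤ) : ℤ := (h - 1 - i) / k

/-- the cyclic interval `[lo, hi)` -/
noncomputable def Iv (k : ℕ) (lo hi : ℤ) : Fin k → Bool := fun i => decide (Odd (FF k hi i - FF k lo i))

theorem FF_add (hk : 0 < k) (h i m : ℤ) : FF k (h + k * m) i = FF k h i + m := by
  unfold FF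
  have : h + k * m - 1 - i = (h - 1 - i) + m * (k : ℤ) := by ring
  rw [this, Int.add_mul_ediv_right _ _ (by exact_mod_cast hk.ne')]

theorem Iv_shift (hk : 0 < k) (lo hi m : ℤ) : Iv k (lo + k * m) (hi + k * m) = Iv k lo hi := by
  funext i
  unfold Iv
  rw [FF_add hk, FF_add hk]
  have : FF k hi i + m - (FF k lo i + m) = FF k hi i - FF k lo i := by ring
  rw [this]

theorem Iv_self (lo : ℤ) : Iv k lo lo = zr := by
  funext i; unfold Iv zr; simp

/-- complement -/
theorem Iv_compl (hk : 0 < k) (lo hi : ℤ) : Iv k hi (lo + k) = fl 1 (Iv k lo hi) := by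
  rw [fl_odd odd_one]
  funext i
  unfold Iv
  have h := FF_add hk lo i 1
  rw [mul_one] at h
  rw [h]
  have : FF k lo ↑↑i + 1 - FF k hi ↑↑i = -(FF k hi ↑↑i - FF k lo ↑↑i) + 1 := by ring
  rw [this]
  by_cases ho : Odd (FF k hi ↑↑i - FF k lo ↑↑i)
  · have h1 : ¬ Odd (-(FF k hi ↑↑i - FF k lo ↑↑i) + 1) := by
      rw [Int.not_odd_iff_even]
      exact (ho.neg).add_odd odd_one
    simp only [ho, h1, decide_true, decide_false, Bool.not_true]
  · have h1 : Odd (-(FF k hi ↑↑i - FF k lo ↑↑i) + 1) := by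
      rw [Int.not_odd_iff_even] at ho
      exact (ho.neg).add_odd odd_one
    simp only [ho, h1, decide_true, decide_false, Bool.not_false]

theorem FF_succ_ne (hk : 0 < k) (h : ℤ) (i : ℤ) (hne : FF k (h + 1) i ≠ FF k h i) : (k : ℤ) ∣ h - i := by
  by_contra hd
  apply hne
  unfold FF
  have hk' : (0 : ℤ) < k := by exact_mod_cast hk
  have e1 : h + 1 - 1 - i = (h - 1 - i) + 1 := by ring
  rw [e1]
  set z := h - 1 - i with hz
  have hd' : ¬ (k : ℤ) ∣ z + 1 := by
    intro hh; apply hd; have : h - i = z + 1 := by rw [hz]; ring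
    rw [this]; exact hh
  have h1 := Int.emod_nonneg z hk'.ne'
  have h2 := Int.emod_lt_of_pos z hk'
  have h3 := Int.mul_ediv_add_emod z k
  have h4 : z % k ≠ k - 1 := by
    intro hh
    apply hd'
    exact ⟨z / k + 1, by rw [mul_add, mul_one]; linarith⟩
  have h5 : (z + 1) / (k : ℤ) = z / k ∧ (z + 1) % (k : ℤ) = z % k + 1 := by
    rw [Int.ediv_emod_unique hk']
    refine ⟨by linarith, by omega, by omega⟩
  exact h5.1

/-- moving one end by one changes at most one coordinate -/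
theorem card_class (hk : 0 < k) (h : ℤ) (P : Fin k → Prop) [DecidablePred P] (hP : ∀ i, P i → (k : ℤ) ∣ h - (i : ℤ)) :
    (Finset.univ.filter P).card ≤ 1 := by
  rw [Finset.card_le_one]
  intro a ha b hb
  have h1 := hP a (Finset.mem_filter.mp ha).2
  have h2 := hP b (Finset.mem_filter.mp hb).2
  have h3 : (k : ℤ) ∣ (b : ℤ) - a := by
    have := dvd_sub h1 h2
    have e : h - (a : ℤ) - (h - (b : ℤ)) = (b : ℤ) - a := by ring
    rwa [e] at this
  have ha' : ((a : ℕ) : ℤ) < k := by exact_mod_cast a.2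
  have hb' : ((b : ℕ) : ℤ) < k := by exact_mod_cast b.2
  have h4 : (b : ℤ) - a = 0 := by
    apply Int.eq_zero_of_abs_lt_dvd h3
    rw [abs_lt]
    constructor <;> omega
  apply Fin.ext
  omega

theorem hd_hi_succ (hk : 0 < k) (lo hi : ℤ) : hammingDist (Iv k lo hi) (Iv k lo (hi + 1)) ≤ 1 := by
  unfold hammingDist
  apply card_class hk hi
  intro i hi'
  apply FF_succ_ne hk
  intro h
  apply hi'
  unfold Iv
  rw [h]

theorem hd_lo_succ (hk : 0 < k) (lo hi : ℤ) : hammingDist (Iv k lo hi) (Iv k (lo + 1) hi) ≤ 1 := by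
  unfold hammingDist
  apply card_class hk lo
  intro i hi'
  apply FF_succ_ne hk
  intro h
  apply hi'
  unfold Iv
  rw [h]

theorem hd_hi_nat (hk : 0 < k) (lo hi : ℤ) (n : ℕ) : hammingDist (Iv k lo hi) (Iv k lo (hi + n)) ≤ n := by
  induction n with
  | zero => simp
  | succ n ih =>
    have h1 := hd_hi_succ hk lo (hi + n)
    have h2 := hammingDist_triangle (Iv k lo hi) (Iv k lo (hi + n)) (Iv k lo (hi + n + 1))
    have e : hi + ((n + 1 : ℕ) : ℤ) = hi + n + 1 := by push_cast; ring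
    rw [e]; omega

theorem hd_lo_nat (hk : 0 < k) (lo hi : ℤ) (n : ℕ) : hammingDist (Iv k lo hi) (Iv k (lo + n) hi) ≤ n := by
  induction n with
  | zero => simp
  | succ n ih =>
    have h1 := hd_lo_succ hk (lo + n) hi
    have h2 := hammingDist_triangle (Iv k lo hi) (Iv k (lo + n) hi) (Iv k (lo + n + 1) hi)
    have e : lo + ((n + 1 : ℕ) : ℤ) = lo + n + 1 := by push_cast; ring
    rw [e]; omega

theorem hd_Iv (hk : 0 < k) (lo hi lo' hi' : ℤ) :
    (hammingDist (Iv k lo hi) (Iv k lo' hi') : ℤ) ≤ |lo' - lo| + |hi' - hi| := by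
  have h1 : (hammingDist (Iv k lo hi) (Iv k lo hi') : ℤ) ≤ |hi' - hi| := by
    rcases le_total hi hi' with h | h
    · obtain ⟨n, hn⟩ := Int.eq_ofNat_of_zero_le (sub_nonneg.mpr h)
      have := hd_hi_nat hk lo hi n
      have e : hi' = hi + n := by omega
      rw [e]
      have e2 : hi + (n : ℤ) - hi = n := by ring
      rw [e2, abs_of_nonneg (Int.natCast_nonneg n)]
      exact_mod_cast this
    · obtain ⟨n, hn⟩ := Int.eq_ofNat_of_zero_le (sub_nonneg.mpr h)
      have := hd_hi_nat hk lo hi' n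
      have e : hi = hi' + n := by omega
      rw [e]
      have e2 : hi' - (hi' + (n : ℤ)) = -n := by ring
      rw [e2, abs_neg, abs_of_nonneg (Int.natCast_nonneg n), hammingDist_comm]
      exact_mod_cast this
  have h2 : (hammingDist (Iv k lo hi') (Iv k lo' hi') : ℤ) ≤ |lo' - lo| := by
    rcases le_total lo lo' with h | h
    · obtain ⟨n, hn⟩ := Int.eq_ofNat_of_zero_le (sub_nonneg.mpr h)
      have := hd_lo_nat hk lo hi' n
      have e : lo' = lo + n := by omega
      rw [e]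
      have e2 : lo + (n : ℤ) - lo = n := by ring
      rw [e2, abs_of_nonneg (Int.natCast_nonneg n)]
      exact_mod_cast this
    · obtain ⟨n, hn⟩ := Int.eq_ofNat_of_zero_le (sub_nonneg.mpr h)
      have := hd_lo_nat hk lo' hi' n
      have e : lo = lo' + n := by omega
      rw [e]
      have e2 : lo' - (lo' + (n : ℤ)) = -n := by ring
      rw [e2, abs_neg, abs_of_nonneg (Int.natCast_nonneg n), hammingDist_comm]
      exact_mod_cast this
  have h3 := hammingDist_triangle (Iv k lo hi) (Iv k lo hi') (Iv k lo' hi')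
  have h3' : (hammingDist (Iv k lo hi) (Iv k lo' hi') : ℤ) ≤
      hammingDist (Iv k lo hi) (Iv k lo hi') + hammingDist (Iv k lo hi') (Iv k lo' hi') := by exact_mod_cast h3
  linarith

/-- weight of a cyclic interval -/
theorem wt_Iv (hk : 0 < k) (lo : ℤ) (g : ℕ) (hg : g ≤ k) : wt (Iv k lo (lo + g)) = g := by
  have h1 : wt (Iv k lo (lo + g)) ≤ g := by
    have := hd_hi_nat hk lo lo g
    rw [Iv_self, hammingDist_comm] at this
    exact this
  have h2 : hammingDist (Iv k lo (lo + g)) (fun i => !((zr : Fin k → Bool) i)) ≤ k - g := by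
    have e : (fun i => !((zr : Fin k → Bool) i)) = Iv k lo (lo + g + ((k - g : ℕ) : ℤ)) := by
      have e1 : lo + g + ((k - g : ℕ) : ℤ) = lo + k := by
        push_cast [hg]; ring
      rw [e1, Iv_compl hk, Iv_self, fl_odd odd_one]
    rw [e]
    exact hd_hi_nat hk lo (lo + g) (k - g)
  have h3 := hd_add_compl (Iv k lo (lo + g)) zr
  unfold wt at h1 ⊢
  omega

/-- the position `(f, g)` on the sphere -/
noncomputable def Ps (k : ℕ) (f : ℤ) (g : ℤ) : Fin k → Bool := Iv k ((f - g) / 2) ((f + g) / 2)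

theorem Ps_dist (hk : 0 < k) {f g f' g' l : ℤ} (h1 : Even (f - g)) (h2 : Even (f' - g')) (hf : |f' - f| ≤ l)
    (hg : |g' - g| ≤ l) : (hammingDist (Ps k f g) (Ps k f' g') : ℤ) ≤ l := by
  unfold Ps
  have h := hd_Iv hk ((f - g) / 2) ((f + g) / 2) ((f' - g') / 2) ((f' + g') / 2)
  refine h.trans ?_
  obtain ⟨a, ha⟩ := h1
  obtain ⟨b, hb⟩ := h2
  have e1 : (f - g) / 2 = a := by omega
  have e2 : (f + g) / 2 = a + g := by omega
  have e3 : (f' - g') / 2 = b := by omega
  have e4 : (f' + g') / 2 = b + g' := by omega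
  rw [e1, e2, e3, e4]
  rw [abs_le] at hf hg
  rcases abs_cases (b - a) with ⟨h5, _⟩ | ⟨h5, _⟩ <;> rcases abs_cases (b + g' - (a + g)) with ⟨h6, _⟩ | ⟨h6, _⟩ <;>
    rw [h5, h6] <;> omega

theorem Ps_shift (hk : 0 < k) (f g m : ℤ) : Ps k (f + 2 * k * m) g = Ps k f g := by
  unfold Ps
  have e1 : (f + 2 * k * m - g) / 2 = (f - g) / 2 + k * m := by
    have : f + 2 * k * m - g = (f - g) + (k * m) * 2 := by ring
    rw [this, Int.add_mul_ediv_right _ _ (by norm_num)]
  have e2 : (f + 2 * k * m + g) / 2 = (f + g) / 2 + k * m := by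
    have : f + 2 * k * m + g = (f + g) + (k * m) * 2 := by ring
    rw [this, Int.add_mul_ediv_right _ _ (by norm_num)]
  rw [e1, e2, Iv_shift hk]

theorem Ps_compl (hk : 0 < k) (f g : ℤ) (h : Even (f - g)) : Ps k (f + k) (k - g) = fl 1 (Ps k f g) := by
  unfold Ps
  rw [← Iv_compl hk]
  obtain ⟨a, ha⟩ := h
  congr 1
  · congr 1; ring
  · have e1 : (f + k + (k - g)) / 2 = a + k := by omega
    have e2 : (f - g) / 2 = a := by omega
    rw [e1, e2]

theorem Ps_wt (hk : 0 < k) (f : ℤ) (g : ℕ) (hg : g ≤ k) (h : Even (f - g)) : wt (Ps k f g) = g := by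
  unfold Ps
  obtain ⟨a, ha⟩ := h
  have e1 : (f - g) / 2 = a := by omega
  have e2 : (f + g) / 2 = a + g := by omega
  rw [e1, e2, wt_Iv hk a g hg]

/-- main estimate: signed distance of positions -/
theorem Ps_sd (hk : 0 < k) {f f' : ℤ} {g g' : ℕ} {x : ℤ} {l : ℕ} (h1 : Even (f - g)) (h2 : Even (f' - g'))
    (hf : ∃ m : ℤ, |f' - f + k * x + 2 * k * m| ≤ l) (hge : Even x → |(g : ℤ) - g'| ≤ l)
    (hgo : Odd x → |(g : ℤ) + g' - k| ≤ l) : sd x (Ps k f g) (Ps k f' g') ≤ l := by
  obtain ⟨m, hm⟩ := hf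
  rcases Int.even_or_odd x with hx | hx
  · rw [sd_even hx]
    obtain ⟨r, hr⟩ := hx
    rw [← Ps_shift hk f' g' (r + m)]
    have := Ps_dist hk (k := k) (f := f) (g := g) (f' := f' + 2 * k * (r + m)) (g' := g') (l := l) h1
      (by obtain ⟨b, hb⟩ := h2; exact ⟨b + k * (r + m), by linear_combination hb⟩)
      (by
        have e : f' + 2 * k * (r + m) - f = f' - f + k * x + 2 * k * m := by rw [hr]; ring
        rw [e]; exact hm)
      (by rw [abs_sub_comm]; exact hge ⟨r, hr⟩)
    exact_mod_cast this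
  · unfold sd
    rw [fl_congr (x := 1) (y := x) (by obtain ⟨r, hr⟩ := hx; exact ⟨r, by rw [hr]; ring⟩), ← Ps_compl hk f' g' h2]
    obtain ⟨r, hr⟩ := hx
    rw [← Ps_shift hk (f' + k) _ (r + m)]
    have := Ps_dist hk (k := k) (f := f) (g := g) (f' := f' + k + 2 * k * (r + m)) (g' := k - g') (l := l) h1
      (by obtain ⟨b, hb⟩ := h2; exact ⟨b + g' + k * (r + m), by linear_combination hb⟩)
      (by
        have e : f' + k + 2 * k * (r + m) - f = f' - f + k * x + 2 * k * m := by rw [hr]; ring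
        rw [e]; exact hm)
      (by
        have e : (k : ℤ) - g' - g = -((g : ℤ) + g' - k) := by ring
        rw [e, abs_neg]; exact hgo ⟨r, hr⟩)
    exact_mod_cast this

end Pool.Agent.H875
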