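import Pool.Agent.H875.Root
import Pool.Agent.H875.Ival
set_option autoImplicit false

/-! Windings of circumference `2k` from integer lifts, and the map to cyclic intervals. -/

open Classical

namespace Pool.Agent.H875
open SgK4

variable {V : Type} {k : ℕ}

/-- a simple cycle satisfies the inequality -/
theorem cycleK (W : V → V → ℤ → ℕ → Prop) (S : Finset V) (T : V → V → ℤ → Prop)
    (hL : Lift (Sup W) S T) (h3 : Neg W S k) (j : ℕ) (p : ℕ → V) (x : ℕ → ℤ) (l : ℕ → ℕ)
    (hp : ∀ i ≤ j, p i ∈ S) (hinj : ∀ i ≤ j, ∀ k ≤ j, p i = p k → i = k)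
    (he : ∀ i < j, T (p i) (p (i + 1)) (x i) ∧ W (p i) (p (i + 1)) (x i) (l i))
    (x0 : ℤ) (l0 : ℕ) (hT : T (p j) (p 0) x0) (hW0 : W (p j) (p 0) x0 l0) :
    (k : ℤ) * (x0 + ∑ i ∈ Finset.range j, x i) ≤ ((l0 + ∑ i ∈ Finset.range j, l i : ℕ) : ℤ) := by
  set h : V → ℤ := fun v => if hv : ∃ i, i ≤ j ∧ p i = v then ∑ k ∈ Finset.range hv.choose, x k else 0 with hh
  have hval : ∀ i ≤ j, h (p i) = ∑ k ∈ Finset.range i, x k := by
    intro i hi
    have hv : ∃ i', i' ≤ j ∧ p i' = p i := ⟨i, hi, rfl⟩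
    simp only [hh, dif_pos hv]
    have := hinj _ hv.choose_spec.1 i hi hv.choose_spec.2
    rw [this]
  have hconn : ∀ i ≤ j, Conn (Fl T h) ((Finset.range (i + 1)).image p) := by
    intro i
    induction i with
    | zero =>
      intro _
      have : (Finset.range (0 + 1)).image p = {p 0} := by simp
      rw [this]
      exact Conn.single _ _
    | succ i ih =>
      intro hi
      have h1 := ih (by omega)
      rw [Finset.range_add_one, Finset.image_insert]
      refine Conn.insert (fun _ _ h => Fl.symm hL.symm h) h1 (a := p i)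
        (Finset.mem_image_of_mem _ (Finset.mem_range.2 (by omega))) ?_
      unfold Fl
      rw [hval (i + 1) hi, hval i (by omega), Finset.sum_range_succ]
      have := (he i (by omega)).1
      convert this using 1
      ring
  have hX : (Finset.range (j + 1)).image p ⊆ S := by
    intro v hv
    obtain ⟨i, hi, rfl⟩ := Finset.mem_image.1 hv
    exact hp i (by have := Finset.mem_range.1 hi; omega)
  have hdev := hL.dev _ hX h (hconn j le_rfl) (p j) (Finset.mem_image_of_mem _ (Finset.mem_range.2 (by omega)))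
    (p 0) (Finset.mem_image_of_mem _ (Finset.mem_range.2 (by omega))) x0 hT
  rw [hval 0 (by omega), hval j le_rfl, Finset.range_zero, Finset.sum_empty] at hdev
  have hle : x0 + ∑ i ∈ Finset.range j, x i ≤ 1 := by
    have := (abs_le.1 hdev).2
    linarith
  have hnn : (0 : ℤ) ≤ ((l0 + ∑ i ∈ Finset.range j, l i : ℕ) : ℤ) := Int.natCast_nonneg _
  have hk0 : (0 : ℤ) ≤ k := Int.natCast_nonneg _
  rcases lt_or_eq_of_le hle with h1 | h1
  · have h2 : x0 + ∑ i ∈ Finset.range j, x i ≤ 0 := by omega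
    have := mul_nonpos_of_nonneg_of_nonpos hk0 h2
    linarith
  · have h4 := Wk.cons (hp j le_rfl) hW0 (mkWk17 W S j p x l hp (fun i hi => (he i hi).2))
    have h5 := h3 _ _ _ h4 (by rw [h1]; exact odd_one)
    rw [h1, mul_one]
    exact_mod_cast h5

/-- loop erasure -/
theorem loopK (W : V → V → ℤ → ℕ → Prop) (S : Finset V) (T : V → V → ℤ → Prop)
    (hL : Lift (Sup W) S T) (h3 : Neg W S k) {a b : V} {X : ℤ} {L : ℕ}
    (h : Wk (fun a b x l => T a b x ∧ W a b x l) S a b X L) :
    ∃ (m : ℕ) (p : ℕ → V) (x : ℕ → ℤ) (l : ℕ → ℕ), p 0 = a ∧ p m = b ∧ (∀ i ≤ m, p i ∈ S) ∧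
      (∀ i ≤ m, ∀ k ≤ m, p i = p k → i = k) ∧
      (∀ i < m, T (p i) (p (i + 1)) (x i) ∧ W (p i) (p (i + 1)) (x i) (l i)) ∧
      (k : ℤ) * X + ((∑ i ∈ Finset.range m, l i : ℕ) : ℤ) ≤ k * (∑ i ∈ Finset.range m, x i) + (L : ℤ) := by
  induction h with
  | nil a ha =>
    refine ⟨0, fun _ => a, fun _ => 0, fun _ => 0, rfl, rfl, fun _ _ => ha, ?_, ?_, ?_⟩
    · intro i hi k hk _; omega
    · intro i hi; omega
    · simp
  | @cons a b c x0 y l0 M ha hab t ih =>
    obtain ⟨m, p, x, l, hp0, hpm, hpS, hinj, he, hsum⟩ := ih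
    by_cases hex : ∃ j, j ≤ m ∧ p j = a
    · obtain ⟨j, hj, hja⟩ := hex
      have hcyc := cycleK W S T hL h3 j p x l (fun i hi => hpS i (by omega))
        (fun i hi k hk => hinj i (by omega) k (by omega)) (fun i hi => he i (by omega)) x0 l0
        (by rw [hja, hp0]; exact hab.1) (by rw [hja, hp0]; exact hab.2)
      obtain ⟨r, rfl⟩ : ∃ r, m = j + r := ⟨m - j, by omega⟩
      refine ⟨r, fun i => p (j + i), fun i => x (j + i), fun i => l (j + i), hja, hpm,
        fun i hi => hpS _ (by omega), ?_, ?_, ?_⟩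
      · intro i hi k hk hik
        have := hinj (j + i) (by omega) (j + k) (by omega) hik
        omega
      · intro i hi
        exact he (j + i) (by omega)
      · rw [Finset.sum_range_add, Finset.sum_range_add] at hsum
        push_cast at hsum hcyc ⊢
        linarith
    · have hne : ∀ i ≤ m, p i ≠ a := fun i hi h' => hex ⟨i, hi, h'⟩
      refine ⟨m + 1, fun i => Nat.casesOn i a p, fun i => Nat.casesOn i x0 x,
        fun i => Nat.casesOn i l0 l, rfl, hpm, ?_, ?_, ?_, ?_⟩
      · intro i hi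
        cases i with
        | zero => exact ha
        | succ i => exact hpS i (by omega)
      · intro i hi k hk hik
        cases i with
        | zero =>
          cases k with
          | zero => rfl
          | succ k => exact absurd hik.symm (hne k (by omega))
        | succ i =>
          cases k with
          | zero => exact absurd hik (hne i (by omega))
          | succ k =>
            have := hinj i (by omega) k (by omega) hik
            omega
      · intro i hi
        cases i with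
        | zero =>
          show T a (p 0) x0 ∧ W a (p 0) x0 l0
          rw [hp0]
          exact hab
        | succ i => exact he i (by omega)
      · rw [Finset.sum_range_succ', Finset.sum_range_succ']
        show (k : ℤ) * (x0 + y) + ((∑ i ∈ Finset.range m, l i + l0 : ℕ) : ℤ) ≤
          k * (∑ i ∈ Finset.range m, x i + x0) + ((l0 + M : ℕ) : ℤ)
        push_cast at hsum ⊢
        linarith

/-- closed walks along lifted edges: `k x ≤ l` -/
theorem closedK (W : V → V → ℤ → ℕ → Prop) (S : Finset V) (T : V → V → ℤ → Prop)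
    (hL : Lift (Sup W) S T) (h3 : Neg W S k) :
    ∀ a x l, Wk (fun a b x l => T a b x ∧ W a b x l) S a a x l → (k : ℤ) * x ≤ (l : ℤ) := by
  intro a X L h
  obtain ⟨m, p, x, l, hp0, hpm, hpS, hinj, he, hsum⟩ := loopK W S T hL h3 h
  have hm : 0 = m := hinj 0 (by omega) m le_rfl (hp0.trans hpm.symm)
  subst hm
  simpa using hsum

/-- lifts give windings -/
theorem wind_of_liftK (W : V → V → ℤ → ℕ → Prop) (hW : WGr W) (S : Finset V) (T : V → V → ℤ → Prop)
    (hL : Lift (Sup W) S T) (h3 : Neg W S k) :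
    ∃ f : V → ℤ, ∀ a ∈ S, ∀ b ∈ S, ∀ x l, W a b x l → ∃ m : ℤ, |f b - f a + k * x + 2 * k * m| ≤ (l : ℤ) := by
  let A : V → V → ℤ → Prop := fun a b c => ∃ (x : ℤ) (l : ℕ), T a b x ∧ W a b x l ∧ c = (l : ℤ) - k * x
  have hM : ∀ a b : V, ∃ M : ℤ, ∀ x, T a b x → x ≤ M := by
    intro a b
    by_cases h : ∃ y, T a b y
    · obtain ⟨y, hy⟩ := h
      refine ⟨y + 1, fun x hx => ?_⟩
      have h1 := Lift.label_unique hW.sup hL hx hy
      rw [abs_le] at h1
      linarith [h1.2]
    · exact ⟨0, fun x hx => absurd ⟨x, hx⟩ h⟩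
  choose M hM using hM
  have hk0 : (0 : ℤ) ≤ k := Int.natCast_nonneg _
  have hb : ∃ B : ℤ, ∀ a ∈ S, ∀ b ∈ S, ∀ c, A a b c → -B ≤ c := by
    refine ⟨∑ p ∈ S ×ˢ S, |k * M p.1 p.2|, ?_⟩
    rintro a ha b hb c ⟨x, l, hT, _, rfl⟩
    have h1 := hM a b x hT
    have h2 : |k * M a b| ≤ ∑ p ∈ S ×ˢ S, |k * M p.1 p.2| :=
      Finset.single_le_sum (f := fun p : V × V => |k * M p.1 p.2|) (fun p _ => abs_nonneg _)
        (Finset.mk_mem_product ha hb)
    have h3' := le_abs_self (k * M a b)
    have h4 : (0 : ℤ) ≤ (l : ℤ) := Int.natCast_nonneg l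
    have h5 := mul_le_mul_of_nonneg_left h1 hk0
    linarith
  have hconv : ∀ a b c, CW A S a b c → ∃ (x : ℤ) (l : ℕ),
      Wk (fun a b x l => T a b x ∧ W a b x l) S a b x l ∧ c = (l : ℤ) - k * x := by
    intro a b c h
    induction h with
    | nil a ha => exact ⟨0, 0, Wk.nil a ha, by simp⟩
    | cons ha h t ih =>
      obtain ⟨x, l, hT, hWx, rfl⟩ := h
      obtain ⟨y, m, hwk, rfl⟩ := ih
      refine ⟨x + y, l + m, Wk.cons ha ⟨hT, hWx⟩ hwk, ?_⟩
      push_cast
      ring
  obtain ⟨f, hf⟩ := potential A S hb (by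
    intro a c h
    obtain ⟨x, l, hwk, rfl⟩ := hconv a a c h
    have := closedK W S T hL h3 a x l hwk
    linarith)
  refine ⟨f, ?_⟩
  intro a ha b hb x l hWx
  obtain ⟨y, hT, r, hr⟩ := hL.ex a ha b hb x ⟨l, hWx⟩
  have hWy : W a b y l := hW.evn hWx ⟨r, hr⟩
  have h1 := hf a ha b hb ((l : ℤ) - k * y) ⟨y, l, hT, hWy, rfl⟩
  have h2 := hf b hb a ha ((l : ℤ) - k * (-y)) ⟨-y, l, hL.symm _ _ _ hT, hW.symm _ _ _ _ hWy, rfl⟩
  have hy : y = x + 2 * r := by omega
  subst hy
  refine ⟨r, ?_⟩
  rw [abs_le]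
  constructor <;> linarith

/-- windings of the right parity -/
theorem wind_parity {p : V → ℤ} (W : V → V → ℤ → ℕ → Prop) (S : Finset V) (hP : Par k p W S)
    {f : V → ℤ} (hf : ∀ a ∈ S, ∀ b ∈ S, ∀ x l, W a b x l → ∃ m : ℤ, |f b - f a + k * x + 2 * k * m| ≤ (l : ℤ)) :
    ∃ f' : V → ℤ, (∀ a, Even (f' a - p a)) ∧
      ∀ a ∈ S, ∀ b ∈ S, ∀ x l, W a b x l → ∃ m : ℤ, |f' b - f' a + k * x + 2 * k * m| ≤ (l : ℤ) := by
  classical
  refine ⟨fun a => if Even (f a - p a) then f a else f a + 1, ?_, ?_⟩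
  · intro a
    by_cases h : Even (f a - p a)
    · simp only [if_pos h]; exact h
    · simp only [if_neg h]
      rw [Int.not_even_iff_odd] at h
      have : f a + 1 - p a = (f a - p a) + 1 := by ring
      rw [this]; exact h.add_odd odd_one
  · intro a ha b hb x l h
    obtain ⟨m, hm⟩ := hf a ha b hb x l h
    refine ⟨m, ?_⟩
    have hp := hP a ha b hb x l h
    obtain ⟨q, hq⟩ := hp
    rw [abs_le] at hm ⊢
    by_cases h1 : Even (f a - p a) <;> by_cases h2 : Even (f b - p b)
    · simp only [if_pos h1, if_pos h2]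
      exact hm
    · simp only [if_pos h1, if_neg h2]
      rw [Int.not_even_iff_odd] at h2
      obtain ⟨r1, hr1⟩ := h1
      obtain ⟨r2, hr2⟩ := h2
      have e : f b - f a + k * x + 2 * k * m = l + 2 * (r2 - r1 - q + k * m) + 1 := by
        linear_combination hr2 - hr1 - hq
      generalize f b - f a + k * x + 2 * k * m = Z at *
      have e2 : f b + 1 - f a + k * x + 2 * k * m = l + 2 * (r2 - r1 - q + k * m) + 2 := by
        linear_combination hr2 - hr1 - hq
      rw [e2]
      generalize (r2 - r1 - q + k * m : ℤ) = Y at *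
      omega
    · simp only [if_neg h1, if_pos h2]
      rw [Int.not_even_iff_odd] at h1
      obtain ⟨r1, hr1⟩ := h1
      obtain ⟨r2, hr2⟩ := h2
      have e : f b - f a + k * x + 2 * k * m = l + 2 * (r2 - r1 - q + k * m) - 1 := by
        linear_combination hr2 - hr1 - hq
      generalize f b - f a + k * x + 2 * k * m = Z at *
      have e2 : f b - (f a + 1) + k * x + 2 * k * m = l + 2 * (r2 - r1 - q + k * m) - 2 := by
        linear_combination hr2 - hr1 - hq
      rw [e2]
      generalize (r2 - r1 - q + k * m : ℤ) = Y at *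
      omega
    · simp only [if_neg h1, if_neg h2]
      have e : f b + 1 - (f a + 1) + k * x + 2 * k * m = f b - f a + k * x + 2 * k * m := by ring
      rw [e]; exact hm

end Pool.Agent.H875
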