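import Pool.Agent.H875.Base
import Pool.Agent.H875.Wind
set_option autoImplicit false

/-! Maps with prescribed weights for signed graphs without an odd K4. -/

open Classical

namespace Pool.Agent.H875
open SgK4

variable {V : Type} {k : ℕ}

/-- deleting one vertex from an odd `K4` model leaves an unbalanced triangle model -/
theorem not_oddK4_of_bal (E : V → V → ℤ → Prop) (S : Finset V) (a : V) (hb : Bal E (S.erase a)) : ¬ OddK4 E S := by
  rintro ⟨B, h, hBS, hdis, hconn, hodd⟩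
  obtain ⟨h0, hb0⟩ := hb
  -- three indices whose branch sets avoid `a`
  obtain ⟨i, j, l, hij, hil, hjl, hi, hj, hl⟩ : ∃ i j l : Fin 4, i ≠ j ∧ i ≠ l ∧ j ≠ l ∧ a ∉ B i ∧ a ∉ B j ∧ a ∉ B l := by
    by_cases hex : ∃ m, a ∈ B m
    · obtain ⟨m, hm⟩ := hex
      have hne : ∀ n, n ≠ m → a ∉ B n := fun n hn h => Finset.disjoint_left.mp (hdis n m hn) h hm
      fin_cases m
      · exact ⟨1, 2, 3, by decide, by decide, by decide, hne 1 (by decide), hne 2 (by decide), hne 3 (by decide)⟩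
      · exact ⟨0, 2, 3, by decide, by decide, by decide, hne 0 (by decide), hne 2 (by decide), hne 3 (by decide)⟩
      · exact ⟨0, 1, 3, by decide, by decide, by decide, hne 0 (by decide), hne 1 (by decide), hne 3 (by decide)⟩
      · exact ⟨0, 1, 2, by decide, by decide, by decide, hne 0 (by decide), hne 1 (by decide), hne 2 (by decide)⟩
    · push Not at hex
      exact ⟨0, 1, 2, by decide, by decide, by decide, hex 0, hex 1, hex 2⟩
  have hsub : ∀ m, a ∉ B m → ∀ t ∈ B m, t ∈ S.erase a := fun m hm t ht =>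
    Finset.mem_erase.mpr ⟨fun h => hm (h ▸ ht), hBS m ht⟩
  -- the parity of `h - h0` is constant on each of them
  have hcst : ∀ m, a ∉ B m → ∃ c : ℤ, ∀ t ∈ B m, Even (h t - h0 t - c) := by
    intro m hm
    obtain ⟨t0, ht0⟩ := (hconn m).1
    refine ⟨h t0 - h0 t0, ?_⟩
    by_contra hcon
    push Not at hcon
    obtain ⟨t1, ht1, hodd1⟩ := hcon
    set J := (B m).filter fun t => Even (h t - h0 t - (h t0 - h0 t0)) with hJ
    have hJne : J ≠ B m := by
      intro he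
      have : t1 ∈ J := he ▸ ht1
      exact hodd1 (Finset.mem_filter.mp this).2
    obtain ⟨x, hx, y, hy, hyJ, hxy⟩ := (hconn m).2 J (Finset.filter_subset _ _)
      ⟨t0, Finset.mem_filter.mpr ⟨ht0, by simp⟩⟩ hJne
    apply hyJ
    rw [hJ, Finset.mem_filter] at hx ⊢
    refine ⟨hy, ?_⟩
    have h1 := hb0 x (hsub m hm x hx.1) y (hsub m hm y hy) _ hxy
    obtain ⟨r1, hr1⟩ := h1
    obtain ⟨r2, hr2⟩ := hx.2
    exact ⟨r1 + r2, by linarith⟩
  have hopp : ∀ m n, m ≠ n → a ∉ B m → a ∉ B n → ∀ c d : ℤ, (∀ t ∈ B m, Even (h t - h0 t - c)) →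
      (∀ t ∈ B n, Even (h t - h0 t - d)) → Odd (c - d) := by
    intro m n hmn hm hn c d hc hd
    obtain ⟨s, hs, t, ht, hst⟩ := hodd m n hmn
    have h1 := hb0 s (hsub m hm s hs) t (hsub n hn t ht) _ hst
    obtain ⟨r1, hr1⟩ := h1
    obtain ⟨r2, hr2⟩ := hc s hs
    obtain ⟨r3, hr3⟩ := hd t ht
    refine ⟨-r1 - r2 + r3 + (h t - h0 t - d) - (r3 + r3) + (c - d) - (c - d), ?_⟩
    linarith
  obtain ⟨c1, hc1⟩ := hcst i hi
  obtain ⟨c2, hc2⟩ := hcst j hj
  obtain ⟨c3, hc3⟩ := hcst l hl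
  have o1 := hopp i j hij hi hj c1 c2 hc1 hc2
  have o2 := hopp i l hil hi hl c1 c3 hc1 hc3
  have o3 := hopp j l hjl hj hl c2 c3 hc2 hc3
  obtain ⟨q1, hq1⟩ := o1
  obtain ⟨q2, hq2⟩ := o2
  obtain ⟨q3, hq3⟩ := o3
  omega

/-- gluing fitting maps on two sets without edges across -/
theorem fit_union {W : V → V → ℤ → ℕ → Prop} (hW : WGr W) {S S1 S2 : Finset V} (hS : S1 ∪ S2 = S)
    (hsep : ∀ s ∈ S1, ∀ t ∈ S2, s ∉ S2 → t ∉ S1 → ∀ x l, ¬ W s t x l) {φ1 φ2 : V → Fin k → Bool} (h1 : Fit φ1 W S1)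
    (h2 : Fit φ2 W S2) (hag : ∀ t, t ∈ S1 → t ∈ S2 → φ2 t = φ1 t) :
    Fit (fun t => if t ∈ S1 then φ1 t else φ2 t) W S := by
  have hval : ∀ t ∈ S2, (if t ∈ S1 then φ1 t else φ2 t) = φ2 t := by
    intro t ht
    by_cases ht1 : t ∈ S1
    · rw [if_pos ht1]; exact (hag t ht1 ht).symm
    · rw [if_neg ht1]
  intro s hs t ht x l hw
  rw [← hS] at hs ht
  by_cases hb1 : s ∈ S1 ∧ t ∈ S1
  · simp only [if_pos hb1.1, if_pos hb1.2]; exact h1 s hb1.1 t hb1.2 x l hw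
  by_cases hb2 : s ∈ S2 ∧ t ∈ S2
  · simp only [hval s hb2.1, hval t hb2.2]; exact h2 s hb2.1 t hb2.2 x l hw
  exfalso
  rcases Finset.mem_union.mp hs with hs1 | hs2
  · have ht1 : t ∉ S1 := fun h => hb1 ⟨hs1, h⟩
    have ht2 : t ∈ S2 := (Finset.mem_union.mp ht).resolve_left ht1
    have hs2 : s ∉ S2 := fun h => hb2 ⟨h, ht2⟩
    exact hsep s hs1 t ht2 hs2 ht1 x l hw
  · by_cases hs1 : s ∈ S1
    · have ht1 : t ∉ S1 := fun h => hb1 ⟨hs1, h⟩
      have ht2 : t ∈ S2 := (Finset.mem_union.mp ht).resolve_left ht1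
      exact hb2 ⟨hs2, ht2⟩
    · have ht2 : t ∉ S2 := fun h => hb2 ⟨hs2, h⟩
      have ht1 : t ∈ S1 := (Finset.mem_union.mp ht).resolve_right ht2
      exact hsep t ht1 s hs2 ht2 hs1 (-x) l (hW.symm _ _ _ _ hw)

theorem Fit.isom {φ : V → Fin k → Bool} {W : V → V → ℤ → ℕ → Prop} {S : Finset V} (h : Fit φ W S)
    {α : (Fin k → Bool) → (Fin k → Bool)} (hα : Isom α) : Fit (fun t => α (φ t)) W S := by
  intro a ha b hb x l hw
  rw [hα]
  exact h a ha b hb x l hw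

/-- the conclusion of the weighted theorem -/
def Sol (k : ℕ) (g : V → ℕ) (W : V → V → ℤ → ℕ → Prop) (S : Finset V) : Prop :=
  ∃ φ : V → Fin k → Bool, (∀ a ∈ S, wt (φ a) = g a) ∧ Fit φ W S

/-- gluing at two (possibly equal) vertices -/
theorem sol_glue {g : V → ℕ} {W : V → V → ℤ → ℕ → Prop} (hW : WGr W) {S S1 S2 : Finset V} {a b : V}
    (hS : S1 ∪ S2 = S) (hI : ∀ t, t ∈ S1 → t ∈ S2 → t = a ∨ t = b)
    (hsep : ∀ s ∈ S1, ∀ t ∈ S2, s ∉ S2 → t ∉ S1 → ∀ x l, ¬ W s t x l)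
    {φ1 φ2 : V → Fin k → Bool} (h1 : Fit φ1 W S1) (h2 : Fit φ2 W S2) (w1 : ∀ a ∈ S1, wt (φ1 a) = g a)
    (w2 : ∀ a ∈ S2, wt (φ2 a) = g a) (ha1 : a ∈ S1) (hb1 : b ∈ S1) (ha2 : a ∈ S2) (hb2 : b ∈ S2)
    (hd : hammingDist (φ1 a) (φ1 b) = hammingDist (φ2 a) (φ2 b)) : Sol k g W S := by
  obtain ⟨α, hα, e1, e2, e3⟩ := align3 (φ1 a) (φ1 b) zr (φ2 a) (φ2 b) zr hd
    (by have := w1 a ha1; have h' := w2 a ha2; unfold wt at this h'; rw [this, h'])
    (by have := w1 b hb1; have h' := w2 b hb2; unfold wt at this h'; rw [this, h'])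
  refine ⟨fun t => if t ∈ S1 then φ1 t else α (φ2 t), ?_, ?_⟩
  · intro t ht
    by_cases ht1 : t ∈ S1
    · simp only [if_pos ht1]; exact w1 t ht1
    · simp only [if_neg ht1]
      have ht2 : t ∈ S2 := by
        rw [← hS] at ht; exact (Finset.mem_union.mp ht).resolve_left ht1
      have := hα 0 (φ2 t) zr
      rw [e3, sd_zero, sd_zero] at this
      unfold wt
      rw [this]; exact w2 t ht2
  · refine fit_union hW hS hsep h1 (h2.isom hα) ?_
    intro t ht1 ht2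
    rcases hI t ht1 ht2 with rfl | rfl
    · exact e1
    · exact e2

def MHyp (V : Type) (k : ℕ) (p : V → ℤ) (g : V → ℕ) (n : ℕ) : Prop :=
  ∀ m < n, ∀ (S : Finset V) (W : V → V → ℤ → ℕ → Prop), S.card = m → WGr W → ¬ OddK4 (Sup W) S →
    Par k p W S → Neg W S k → Ht k p g W S → Sol k g W S

theorem ext_wgr {W : V → V → ℤ → ℕ → Prop} (hW : WGr W) (S2 : Finset V) {a b : V} (hab : a ≠ b) :
    WGr (Ext W S2 a b) := by
  refine ⟨?_, ?_, ?_⟩
  · rintro s t x l (h | ⟨h, y, hy, hw⟩)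
    · exact Or.inl (hW.symm _ _ _ _ h)
    · refine Or.inr ⟨h.swap, -y, ?_, Wk.symm hW.symm hw⟩
      have e : -y - -x = -(y - x) := by ring
      rw [e]; exact hy.neg
  · rintro s t x l (h | ⟨h, y, hy, hw⟩)
    · exact Or.inl (hW.par _ _ _ _ h)
    · refine Or.inr ⟨h, y, ?_, hw⟩
      have e : y - (x + 2) = (y - x) - 2 := by ring
      rw [e]; exact hy.sub even_two
  · rintro s t x l (h | ⟨h, -⟩)
    · exact hW.irr _ _ _ _ h
    · rcases h with ⟨h1, h2⟩ | ⟨h1, h2⟩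
      · rw [h1, h2]; exact hab
      · rw [h1, h2]; exact hab.symm

theorem ext_walk {W : V → V → ℤ → ℕ → Prop} {S S1 S2 : Finset V} {a b : V} (h1S : S1 ⊆ S) (h2S : S2 ⊆ S)
    {s t : V} {x : ℤ} {l : ℕ} (h : Wk (Ext W S2 a b) S1 s t x l) : ∃ y, Even (y - x) ∧ Wk W S s t y l := by
  induction h with
  | nil s hs => exact ⟨0, by simp, Wk.nil s (h1S hs)⟩
  | @cons s u t x y l m hs h tl ih =>
    obtain ⟨z, hz, hw⟩ := ih
    have hu : u ∈ S := h1S tl.left_mem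
    rcases h with h | ⟨-, y', hy', hw'⟩
    · refine ⟨x + z, ?_, (Wk.single (h1S hs) hu h).trans hw⟩
      have e : x + z - (x + y) = z - y := by ring
      rw [e]; exact hz
    · refine ⟨y' + z, ?_, (Wk.mono h2S (fun _ _ _ _ _ _ h => h) hw').trans hw⟩
      have e : y' + z - (x + y) = (y' - x) + (z - y) := by ring
      rw [e]; exact hy'.add hz

/-- gluing along a 2-separation -/
theorem glueM {p : V → ℤ} {g : V → ℕ} (n : ℕ) (ih : MHyp V k p g n) (S S1 S2 : Finset V)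
    (W : V → V → ℤ → ℕ → Prop) (a b : V)
    (hW : WGr W) (hK : ¬ OddK4 (Sup W) S) (hP : Par k p W S) (hN : Neg W S k) (hH : Ht k p g W S) (hab : a ≠ b)
    (hS : S1 ∪ S2 = S) (hI : ∀ t, t ∈ S1 → t ∈ S2 → t = a ∨ t = b)
    (ha1 : a ∈ S1) (ha2 : a ∈ S2) (hb1 : b ∈ S1) (hb2 : b ∈ S2) (hc1 : S1.card < n) (hc2 : S2.card < n)
    (hsep : ∀ s ∈ S1, ∀ t ∈ S2, s ∉ S2 → t ∉ S1 → ∀ x l, ¬ W s t x l)
    (hconn : ∀ s ∈ S, Conn (Adj (Sup W)) (S.erase s)) (h1ne : ∃ t ∈ S1, t ≠ a ∧ t ≠ b)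
    (h2ne : ∃ t ∈ S2, t ≠ a ∧ t ≠ b)
    (hbal : Bal (Sup W) S2 ∨ (¬ Bal (Sup W) S1 ∧ ¬ Bal (Sup W) S2)) : Sol k g W S := by
  have hE : SGr (Sup W) := hW.sup
  have hRs : ∀ x y, Adj (Sup W) x y → Adj (Sup W) y x := fun x y h => Adj.symm hE.symm h
  have h1S : S1 ⊆ S := by rw [← hS]; exact Finset.subset_union_left
  have h2S : S2 ⊆ S := by rw [← hS]; exact Finset.subset_union_right
  have hI' : ∀ t, t ∈ S2 → t ∈ S1 → t = a ∨ t = b := fun t h1 h2 => hI t h2 h1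
  have hS' : S2 ∪ S1 = S := by rw [Finset.union_comm]; exact hS
  have hsepR : ∀ s ∈ S1, ∀ t ∈ S2, s ∉ S2 → t ∉ S1 → ¬ Adj (Sup W) s t := by
    rintro s hs t ht h1 h2 ⟨x, l, h⟩; exact hsep s hs t ht h1 h2 x l h
  have hsepR' : ∀ s ∈ S2, ∀ t ∈ S1, s ∉ S1 → t ∉ S2 → ¬ Adj (Sup W) s t := by
    intro s hs t ht h1 h2 h; exact hsepR t ht s hs h2 h1 (hRs _ _ h)
  obtain ⟨H1, c1b, n1b, c1⟩ := side_facts hRs hS hI ha1 hb1 hab ha2 hb2 hsepR hconn h1ne h2ne
  obtain ⟨H2, c2b, n2b, c2⟩ := side_facts hRs hS' hI' ha2 hb2 hab ha1 hb1 hsepR' hconn h2ne h1ne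
  -- stage 1
  have hK1 : ¬ OddK4 (Sup (Ext W S2 a b)) S1 := by
    rcases hbal with hb2' | ⟨-, hub2⟩
    · exact fun h => hK (ok4_ext_bal W hW S S1 S2 a b hab hS hI ha1 ha2 hb1 hb2 hb2' c2b n2b h)
    · obtain ⟨Y2, Z2, g2, aY2, bZ2, d2, u2, cY2, cZ2, e20, e21⟩ :=
        digon_model (Sup W) hE S2 a b ha2 hb2 hab H2 hub2
      exact fun h => hK (ok4_dig (Sup W) (Sup (Ext W S2 a b)) hE S S1 S2 a b hab hS hI ha1 hb1 Y2 Z2 g2 aY2 bZ2 d2 u2
        cY2 cZ2 e20 e21 (by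
          rintro s hs t ht x ⟨l, h | ⟨h, _⟩⟩
          · exact Or.inl ⟨l, h⟩
          · exact Or.inr h) h)
  have hP1 : Par k p (Ext W S2 a b) S1 := by
    rintro s hs t ht x l (h | ⟨-, y, ⟨r, hr⟩, hw⟩)
    · exact hP s (h1S hs) t (h1S ht) x l h
    · obtain ⟨m, hm⟩ := (hP.mono h2S fun _ _ _ _ _ _ h => h).wk hw
      have : y = x + r + r := by omega
      exact ⟨m + k * r, by rw [this] at hm; linear_combination hm⟩
  have hN1 : Neg (Ext W S2 a b) S1 k := by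
    intro s x l h hx
    obtain ⟨y, hy, hw⟩ := ext_walk h1S h2S h
    refine hN s y l hw ?_
    have e : y = (y - x) + x := by ring
    rw [e]; exact hy.add_odd hx
  have hH1 : Ht k p g (Ext W S2 a b) S1 := by
    refine ⟨fun s hs => hH.le s (h1S hs), fun s hs => hH.par s (h1S hs), ?_, ?_⟩
    · rintro s hs t ht x l (h | ⟨-, y, hy, hw⟩) hx
      · exact hH.ev s (h1S hs) t (h1S ht) x l h hx
      · refine ((hH.mono h2S fun _ _ _ _ _ _ h => h).wk hw).1 ?_
        have e : y = (y - x) + x := by ring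
        rw [e]; exact hy.add hx
    · rintro s hs t ht x l (h | ⟨-, y, hy, hw⟩) hx
      · exact hH.od s (h1S hs) t (h1S ht) x l h hx
      · refine ((hH.mono h2S fun _ _ _ _ _ _ h => h).wk hw).2 ?_
        have e : y = (y - x) + x := by ring
        rw [e]; exact hy.add_odd hx
  obtain ⟨φ1, w1, f1⟩ := ih S1.card hc1 S1 (Ext W S2 a b) rfl (ext_wgr hW S2 hab) hK1 hP1 hN1 hH1
  -- stage 2
  have hN2' : Neg W S2 k := hN.subset h2S
  have habW : ∀ x l, Wk W S2 a b x l → sd x (φ1 a) (φ1 b) ≤ l := by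
    intro x l hw
    exact f1 a ha1 b hb1 x l (Or.inr ⟨Or.inl ⟨rfl, rfl⟩, x, by simp, hw⟩)
  have hC : ∀ s ∈ ({a, b} : Finset V), ∀ t ∈ ({a, b} : Finset V), ∀ x l, Wk W S2 s t x l →
      sd x (φ1 s) (φ1 t) ≤ l := by
    intro s hs t ht x l hw
    simp only [Finset.mem_insert, Finset.mem_singleton] at hs ht
    rcases hs with rfl | rfl <;> rcases ht with rfl | rfl
    · exact closed_ok hN2' _ x l hw
    · exact habW x l hw
    · have := habW (-x) l (hw.symm hW.symm)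
      rwa [sd_symm] at this
    · exact closed_ok hN2' _ x l hw
  have hsubT : ∀ t ∈ ({a, b} : Finset V), t ∈ S1 ∧ t ∈ S2 := by
    intro t ht
    simp only [Finset.mem_insert, Finset.mem_singleton] at ht
    rcases ht with rfl | rfl
    · exact ⟨ha1, ha2⟩
    · exact ⟨hb1, hb2⟩
  have hK2 : ¬ OddK4 (Sup (RT W {a, b} φ1)) S2 := by
    rcases hbal with ⟨h0, hb2'⟩ | ⟨hub1, -⟩
    · apply not_oddK4_of_bal _ _ a
      refine ⟨h0, ?_⟩
      rintro s hs t ht x ⟨l, h | ⟨h1, h2, h3, -⟩⟩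
      · exact hb2' s (Finset.mem_erase.mp hs).2 t (Finset.mem_erase.mp ht).2 x ⟨l, h⟩
      · exfalso
        simp only [Finset.mem_insert, Finset.mem_singleton] at h1 h2
        rw [Finset.mem_erase] at hs ht
        rcases h1 with h1 | h1
        · exact hs.1 h1
        · rcases h2 with h2 | h2
          · exact ht.1 h2
          · exact h3 (h1.trans h2.symm)
    · obtain ⟨Y1, Z1, g1, aY1, bZ1, d1, u1, cY1, cZ1, e10, e11⟩ :=
        digon_model (Sup W) hE S1 a b ha1 hb1 hab H1 hub1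
      exact fun h => hK (ok4_dig (Sup W) (Sup (RT W {a, b} φ1)) hE S S2 S1 a b hab hS' hI' ha2 hb2 Y1 Z1 g1 aY1 bZ1
        d1 u1 cY1 cZ1 e10 e11 (by
          rintro s hs t ht x ⟨l, h | ⟨h1, h2, h3, -⟩⟩
          · exact Or.inl ⟨l, h⟩
          · simp only [Finset.mem_insert, Finset.mem_singleton] at h1 h2
            rcases h1 with h1 | h1 <;> rcases h2 with h2 | h2
            · exact absurd (h1.trans h2.symm) h3
            · exact Or.inr (Or.inl ⟨h1, h2⟩)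
            · exact Or.inr (Or.inr ⟨h1, h2⟩)
            · exact absurd (h1.trans h2.symm) h3) h)
  have hP2 : Par k p (RT W {a, b} φ1) S2 := by
    apply rt_par (hP.mono h2S fun _ _ _ _ _ _ h => h)
    intro s hs t ht
    rw [w1 s (hsubT s hs).1, w1 t (hsubT t ht).1]
    obtain ⟨r1, hr1⟩ := hH.par s (h1S (hsubT s hs).1)
    obtain ⟨r2, hr2⟩ := hH.par t (h1S (hsubT t ht).1)
    exact ⟨r2 - r1, by linear_combination hr2 - hr1⟩
  have hH2 : Ht k p g (RT W {a, b} φ1) S2 := by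
    refine ⟨fun s hs => hH.le s (h2S hs), fun s hs => hH.par s (h2S hs), ?_, ?_⟩
    · rintro s hs t ht x l (h | ⟨h1, h2, h3, h4⟩) hx
      · exact hH.ev s (h2S hs) t (h2S ht) x l h hx
      · rw [← w1 s (hsubT s h1).1, ← w1 t (hsubT t h2).1, h4]
        exact wt_even hx _ _
    · rintro s hs t ht x l (h | ⟨h1, h2, h3, h4⟩) hx
      · exact hH.od s (h2S hs) t (h2S ht) x l h hx
      · rw [← w1 s (hsubT s h1).1, ← w1 t (hsubT t h2).1, h4]
        exact wt_odd hx _ _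
  obtain ⟨φ2, w2, f2⟩ := ih S2.card hc2 S2 (RT W {a, b} φ1) rfl (rt_wgr hW _ _) hK2 hP2 (rt_neg hC hN2') hH2
  refine sol_glue hW hS hI hsep (φ1 := φ1) (φ2 := φ2) (f1.mono subset_rfl fun _ _ _ _ _ _ h => Or.inl h)
    (f2.mono subset_rfl fun _ _ _ _ _ _ h => Or.inl h) w1 w2 ha1 hb1 ha2 hb2 ?_
  exact (rt_exact f2 ha2 hb2 (by simp) (by simp)).symm

theorem mainM_aux (hk : 0 < k) {p : V → ℤ} {g : V → ℕ} (n : ℕ) : MHyp V k p g n → ∀ (S : Finset V)
    (W : V → V → ℤ → ℕ → Prop), S.card = n → WGr W → ¬ OddK4 (Sup W) S →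
    Par k p W S → Neg W S k → Ht k p g W S → Sol k g W S := by
  intro ih S W hn hW hK hP hN hH
  by_cases hcard : S.card ≤ 3
  · exact baseM hk hcard hW hP hN hH
  have hE : SGr (Sup W) := hW.sup
  have hRs : ∀ x y, Adj (Sup W) x y → Adj (Sup W) y x := fun x y h => Adj.symm hE.symm h
  by_cases hcut : ∃ s ∈ S, ¬ Conn (Adj (Sup W)) (S.erase s)
  · obtain ⟨s, hs, hncon⟩ := hcut
    have hne : (S.erase s).Nonempty := by
      rw [← Finset.card_pos, Finset.card_erase_of_mem hs]; omega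
    obtain ⟨J, hJ, hJne, hJn, hJc⟩ : ∃ J ⊆ S.erase s, J.Nonempty ∧ J ≠ S.erase s ∧
        ∀ a ∈ J, ∀ b ∈ S.erase s, b ∉ J → ¬ Adj (Sup W) a b := by
      by_contra hcon
      push Not at hcon
      exact hncon ⟨hne, fun J h1 h2 h3 => by
        obtain ⟨a, ha, b, hb, hb', hab⟩ := hcon J h1 h2 h3
        exact ⟨a, ha, b, hb, hb', hab⟩⟩
    have hsJ : s ∉ J := fun h => (Finset.mem_erase.mp (hJ h)).1 rfl
    obtain ⟨w, hw, hwJ⟩ : ∃ w ∈ S.erase s, w ∉ J := by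
      by_contra hcon; push Not at hcon
      exact hJn (Finset.Subset.antisymm hJ hcon)
    obtain ⟨j, hj⟩ := hJne
    have hJS : J ⊆ S := hJ.trans (Finset.erase_subset _ _)
    have hS1 : insert s J ⊆ S := Finset.insert_subset hs hJS
    have hS2 : S \ J ⊆ S := Finset.sdiff_subset
    have hU : insert s J ∪ (S \ J) = S := by
      ext t; simp only [Finset.mem_union, Finset.mem_insert, Finset.mem_sdiff]
      constructor
      · rintro ((rfl | h) | ⟨h, _⟩)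
        · exact hs
        · exact hJS h
        · exact h
      · intro h; by_cases ht : t ∈ J
        · exact Or.inl (Or.inr ht)
        · exact Or.inr ⟨h, ht⟩
    have hcd1 : (insert s J).card < n := by
      rw [← hn]; apply Finset.card_lt_card
      refine ⟨hS1, fun h => ?_⟩
      have hm := h (Finset.mem_erase.mp hw).2
      rcases Finset.mem_insert.mp hm with h' | h'
      · exact (Finset.mem_erase.mp hw).1 h'
      · exact hwJ h'
    have hcd2 : (S \ J).card < n := by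
      rw [← hn]; apply Finset.card_lt_card
      refine ⟨hS2, fun h => ?_⟩
      exact (Finset.mem_sdiff.mp (h (hJS hj))).2 hj
    obtain ⟨φ1, w1, f1⟩ := ih _ hcd1 (insert s J) W rfl hW (fun h => hK (h.subset hS1))
      (hP.mono hS1 fun _ _ _ _ _ _ h => h) (hN.subset hS1) (hH.mono hS1 fun _ _ _ _ _ _ h => h)
    obtain ⟨φ2, w2, f2⟩ := ih _ hcd2 (S \ J) W rfl hW (fun h => hK (h.subset hS2))
      (hP.mono hS2 fun _ _ _ _ _ _ h => h) (hN.subset hS2) (hH.mono hS2 fun _ _ _ _ _ _ h => h)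
    have hs1 : s ∈ insert s J := Finset.mem_insert_self _ _
    have hs2 : s ∈ S \ J := Finset.mem_sdiff.mpr ⟨hs, hsJ⟩
    refine sol_glue hW hU (a := s) (b := s) ?_ ?_ f1 f2 w1 w2 hs1 hs1 hs2 hs2
      (by rw [hammingDist_self, hammingDist_self])
    · intro t ht1 ht2
      rcases Finset.mem_insert.mp ht1 with rfl | h
      · exact Or.inl rfl
      · exact absurd h (Finset.mem_sdiff.mp ht2).2
    · intro a ha b hb ha' hb' x l hw
      rcases Finset.mem_insert.mp ha with rfl | haJ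
      · exact ha' (Finset.mem_sdiff.mpr ⟨hs, hsJ⟩)
      · have hbs : b ≠ s := fun h => hb' (h ▸ Finset.mem_insert_self _ _)
        exact hJc a haJ b (Finset.mem_erase.mpr ⟨hbs, (Finset.mem_sdiff.mp hb).1⟩) (Finset.mem_sdiff.mp hb).2 ⟨x, l, hw⟩
  push Not at hcut
  by_cases hcon2 : ∀ s ∈ S, ∀ t ∈ S, Conn (Adj (Sup W)) ((S.erase s).erase t)
  · obtain ⟨T, hT⟩ := lift_exists S.card S (Sup W) rfl hE hcon2 (by omega) hK (by intro h; omega)
    obtain ⟨f0, hf0⟩ := wind_of_liftK W hW S T hT hN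
    obtain ⟨f, hfp, hf⟩ := wind_parity W S hP hf0
    have hev : ∀ a ∈ S, Even (f a - g a) := by
      intro a ha
      obtain ⟨r1, hr1⟩ := hfp a
      obtain ⟨r2, hr2⟩ := hH.par a ha
      exact ⟨r1 - r2, by linear_combination hr1 - hr2⟩
    refine ⟨fun a => Ps k (f a) (g a), fun a ha => Ps_wt hk (f a) (g a) (hH.le a ha) (hev a ha), ?_⟩
    intro a ha b hb x l hw
    exact Ps_sd hk (hev a ha) (hev b hb) (hf a ha b hb x l hw) (hH.ev a ha b hb x l hw) (hH.od a ha b hb x l hw)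
  push Not at hcon2
  obtain ⟨a, haS, b, hbS, hncon⟩ := hcon2
  have hab : a ≠ b := by
    rintro rfl
    apply hncon
    rw [Finset.erase_eq_of_notMem (Finset.notMem_erase a S)]
    exact hcut a haS
  have hne : ((S.erase a).erase b).Nonempty := by
    rw [← Finset.card_pos, Finset.card_erase_of_mem (Finset.mem_erase.mpr ⟨hab.symm, hbS⟩), Finset.card_erase_of_mem haS]
    omega
  obtain ⟨J, hJ, hJne, hJn, hJc⟩ : ∃ J ⊆ (S.erase a).erase b, J.Nonempty ∧ J ≠ (S.erase a).erase b ∧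
      ∀ s ∈ J, ∀ t ∈ (S.erase a).erase b, t ∉ J → ¬ Adj (Sup W) s t := by
    by_contra hcon
    push Not at hcon
    exact hncon ⟨hne, fun J h1 h2 h3 => by
      obtain ⟨a, ha, b, hb, hb', hab⟩ := hcon J h1 h2 h3
      exact ⟨a, ha, b, hb, hb', hab⟩⟩
  have haJ : a ∉ J := fun h => by have := hJ h; simp at this
  have hbJ : b ∉ J := fun h => by have := hJ h; simp at this
  obtain ⟨w, hw, hwJ⟩ : ∃ w ∈ (S.erase a).erase b, w ∉ J := by
    by_contra hcon; push Not at hcon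
    exact hJn (Finset.Subset.antisymm hJ hcon)
  obtain ⟨j, hj⟩ := hJne
  have hJS : J ⊆ S := hJ.trans ((Finset.erase_subset _ _).trans (Finset.erase_subset _ _))
  set S1 : Finset V := insert a (insert b J) with hS1def
  set S2 : Finset V := S \ J with hS2def
  have hS1 : S1 ⊆ S := Finset.insert_subset haS (Finset.insert_subset hbS hJS)
  have hS2 : S2 ⊆ S := Finset.sdiff_subset
  simp only [Finset.mem_erase] at hw
  obtain ⟨hwb, hwa, hwS⟩ := hw
  have hw2 : w ∈ S2 := Finset.mem_sdiff.mpr ⟨hwS, hwJ⟩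
  have hj1 : j ∈ S1 := by simp [hS1def, hj]
  have hja : j ≠ a := fun h => haJ (h ▸ hj)
  have hjb : j ≠ b := fun h => hbJ (h ▸ hj)
  have hU : S1 ∪ S2 = S := by
    ext t; simp only [hS1def, hS2def, Finset.mem_union, Finset.mem_insert, Finset.mem_sdiff]
    constructor
    · rintro ((rfl | rfl | h) | ⟨h, _⟩)
      · exact haS
      · exact hbS
      · exact hJS h
      · exact h
    · intro h; by_cases ht : t ∈ J
      · exact Or.inl (Or.inr (Or.inr ht))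
      · exact Or.inr ⟨h, ht⟩
  have hI : ∀ t, t ∈ S1 → t ∈ S2 → t = a ∨ t = b := by
    intro t h1 h2
    simp only [hS1def, Finset.mem_insert] at h1
    rcases h1 with h | h | h
    · exact Or.inl h
    · exact Or.inr h
    · exact absurd h (Finset.mem_sdiff.mp h2).2
  have ha1 : a ∈ S1 := by simp [hS1def]
  have hb1 : b ∈ S1 := by simp [hS1def]
  have ha2 : a ∈ S2 := Finset.mem_sdiff.mpr ⟨haS, haJ⟩
  have hb2 : b ∈ S2 := Finset.mem_sdiff.mpr ⟨hbS, hbJ⟩
  have hcd1 : S1.card < n := by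
    rw [← hn]; apply Finset.card_lt_card
    refine ⟨hS1, fun h => ?_⟩
    have hm := h hwS
    simp only [hS1def, Finset.mem_insert] at hm
    rcases hm with h' | h' | h'
    · exact hwa h'
    · exact hwb h'
    · exact hwJ h'
  have hcd2 : S2.card < n := by
    rw [← hn]; apply Finset.card_lt_card
    refine ⟨hS2, fun h => ?_⟩
    exact (Finset.mem_sdiff.mp (h (hJS hj))).2 hj
  have hsep : ∀ s ∈ S1, ∀ t ∈ S2, s ∉ S2 → t ∉ S1 → ∀ x l, ¬ W s t x l := by
    intro s hs t ht hs' ht' x l hw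
    have hsJ : s ∈ J := by
      simp only [hS1def, Finset.mem_insert] at hs
      rcases hs with rfl | rfl | h
      · exact absurd ha2 hs'
      · exact absurd hb2 hs'
      · exact h
    simp only [hS1def, Finset.mem_insert, not_or] at ht'
    exact hJc s hsJ t (Finset.mem_erase.mpr ⟨ht'.2.1, Finset.mem_erase.mpr ⟨ht'.1, (Finset.mem_sdiff.mp ht).1⟩⟩) ht'.2.2
      ⟨x, l, hw⟩
  have hsep' : ∀ s ∈ S2, ∀ t ∈ S1, s ∉ S1 → t ∉ S2 → ∀ x l, ¬ W s t x l := by
    intro s hs t ht h1 h2 x l hw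
    exact hsep t ht s hs h2 h1 (-x) l (hW.symm _ _ _ _ hw)
  have hU' : S2 ∪ S1 = S := by rw [Finset.union_comm]; exact hU
  have hI' : ∀ t, t ∈ S2 → t ∈ S1 → t = a ∨ t = b := fun t h1 h2 => hI t h2 h1
  have h1ne : ∃ t ∈ S1, t ≠ a ∧ t ≠ b := ⟨j, hj1, hja, hjb⟩
  have h2ne : ∃ t ∈ S2, t ≠ a ∧ t ≠ b := ⟨w, hw2, hwa, hwb⟩
  by_cases hbal1 : Bal (Sup W) S1
  · exact glueM n ih S S2 S1 W a b hW hK hP hN hH hab hU' hI' ha2 ha1 hb2 hb1 hcd2 hcd1 hsep' hcut h2ne h1ne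
      (Or.inl hbal1)
  · by_cases hbal2 : Bal (Sup W) S2
    · exact glueM n ih S S1 S2 W a b hW hK hP hN hH hab hU hI ha1 ha2 hb1 hb2 hcd1 hcd2 hsep hcut h1ne h2ne
        (Or.inl hbal2)
    · exact glueM n ih S S1 S2 W a b hW hK hP hN hH hab hU hI ha1 ha2 hb1 hb2 hcd1 hcd2 hsep hcut h1ne h2ne
        (Or.inr ⟨hbal1, hbal2⟩)

/-- the weighted theorem: prescribed weights, no odd K4 -/
theorem mainM (hk : 0 < k) {p : V → ℤ} {g : V → ℕ} (S : Finset V) (W : V → V → ℤ → ℕ → Prop) (hW : WGr W)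
    (hK : ¬ OddK4 (Sup W) S) (hP : Par k p W S) (hN : Neg W S k) (hH : Ht k p g W S) : Sol k g W S := by
  have key : ∀ n : ℕ, MHyp V k p g n := by
    intro n
    induction n with
    | zero => intro m hm; exact absurd hm (Nat.not_lt_zero m)
    | succ n ih =>
      intro m hm S W hS
      rcases Nat.lt_succ_iff_lt_or_eq.mp hm with h | h
      · exact ih m h S W hS
      · subst h; exact mainM_aux hk m ih S W hS
  exact key (S.card + 1) S.card (Nat.lt_succ_self _) S W rfl hW hK hP hN hH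

end Pool.Agent.H875
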