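import Pool.Agent.H875.Four
set_option autoImplicit false

/-! Even metrics with bounded perimeters and maps to the hypercube: boxes, two stars, the disc. -/

open Classical

namespace Pool.Agent.H875

variable {V : Type}

/-- even metric with perimeters at most `2k` -/
structure PM (k : ℕ) (S : Finset V) (D : V → V → ℕ) : Prop where
  self : ∀ s ∈ S, D s s = 0
  symm : ∀ s ∈ S, ∀ t ∈ S, D s t = D t s
  tri : ∀ s ∈ S, ∀ t ∈ S, ∀ u ∈ S, D s u ≤ D s t + D t u
  per : ∀ s ∈ S, ∀ t ∈ S, ∀ u ∈ S, D s t + D t u + D s u ≤ 2 * k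
  ev : ∀ s ∈ S, ∀ t ∈ S, ∀ u ∈ S, Even (D s t + D t u + D s u)

theorem card_thr (n s t : ℕ) (hs : s ≤ n) (ht : t ≤ n) :
    (Finset.univ.filter fun x : Fin n => decide ((x : ℕ) < s) ≠ decide ((x : ℕ) < t)).card =
      (s - t) + (t - s) := by
  have h : (Finset.univ.filter fun x : Fin n => decide ((x : ℕ) < s) ≠ decide ((x : ℕ) < t)).card =
      (Finset.Ico (min s t) (max s t)).card := by
    apply Finset.card_bij (fun (x : Fin n) _ => (x : ℕ))
    · intro x hx
      rw [Finset.mem_filter] at hx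
      rw [Finset.mem_Ico]
      have h2 := hx.2
      by_cases h3 : (x : ℕ) < s <;> by_cases h4 : (x : ℕ) < t <;> simp [h3, h4] at h2 <;> omega
    · intro x _ y _ hxy
      exact Fin.ext hxy
    · intro y hy
      rw [Finset.mem_Ico] at hy
      refine ⟨⟨y, by omega⟩, ?_, rfl⟩
      rw [Finset.mem_filter]
      refine ⟨Finset.mem_univ _, ?_⟩
      by_cases h3 : y < s <;> by_cases h4 : y < t <;> simp [h3, h4] <;> omega
  rw [h, Nat.card_Ico]
  omega

/-- boxes with the `l1` distance embed into the hypercube -/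
theorem box_embed {ι : Type} [Fintype ι] [DecidableEq ι] (n : ι → ℕ) (k : ℕ) (h : ∑ j, n j ≤ k) :
    ∃ ψ : (ι → ℕ) → (Fin k → Bool), ∀ s t, (∀ j, s j ≤ n j) → (∀ j, t j ≤ n j) →
      hammingDist (ψ s) (ψ t) = ∑ j, ((s j - t j) + (t j - s j)) := by
  obtain ⟨f, hf⟩ := exists_coloring (κ := Option (Σ j : ι, Fin (n j)))
    (fun c => match c with
      | some _ => 1
      | none => k - ∑ j, n j) k (by
      rw [Fintype.sum_option]
      simp only [Finset.sum_const, Finset.card_univ, Fintype.card_sigma, Fintype.card_fin, smul_eq_mul, mul_one]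
      omega)
  let ψ' : (ι → ℕ) → Option (Σ j : ι, Fin (n j)) → Bool := fun s c => match c with
    | some c => decide ((c.2 : ℕ) < s c.1)
    | none => false
  refine ⟨fun s i => ψ' s (f i), fun s t hs ht => ?_⟩
  unfold hammingDist
  rw [hf (fun c => ψ' s c ≠ ψ' t c), Fintype.sum_option]
  have h0 : (if ψ' s none ≠ ψ' t none then k - ∑ j, n j else 0) = 0 := if_neg (by simp [ψ'])
  rw [h0, zero_add, Fintype.sum_sigma]
  apply Finset.sum_congr rfl
  intro j _
  rw [← card_thr (n j) (s j) (t j) (hs j) (ht j), Finset.card_filter]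

/-- all distances from two centres are preserved -/
theorem two_star {k : ℕ} {S : Finset V} {D : V → V → ℕ} (h : PM k S D) {c d : V} (hc : c ∈ S) (hd : d ∈ S) :
    ∃ φ : V → Fin k → Bool, (∀ x ∈ S, ∀ y ∈ S, hammingDist (φ x) (φ y) ≤ D x y ∧
      Even (hammingDist (φ x) (φ y) + D x y)) ∧
      (∀ x ∈ S, hammingDist (φ c) (φ x) = D c x) ∧ ∀ x ∈ S, hammingDist (φ d) (φ x) = D d x := by
  have hsum : ∑ j, (![D c d, k - D c d] : Fin 2 → ℕ) j ≤ k := by
    rw [Fin.sum_univ_two]
    have := h.per c hc d hd d hd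
    rw [h.self d hd] at this
    simp only [Matrix.cons_val_zero, Matrix.cons_val_one]
    omega
  obtain ⟨ψ, hψ⟩ := box_embed (![D c d, k - D c d] : Fin 2 → ℕ) k hsum
  let s : V → Fin 2 → ℕ := fun x => ![(D c x + D c d - D d x) / 2, (D c x + D d x - D c d) / 2]
  have hfac : ∀ x ∈ S, ∃ u v, s x = ![u, v] ∧ 2 * u + D d x = D c x + D c d ∧ 2 * v + D c d = D c x + D d x ∧
      u ≤ D c d ∧ v ≤ k - D c d := by
    intro x hx
    obtain ⟨r, hr⟩ := h.ev c hc d hd x hx
    have h1 := h.tri c hc d hd x hx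
    have h2 := h.tri c hc x hx d hd
    have h3 := h.tri d hd c hc x hx
    rw [h.symm x hx d hd] at h2
    rw [h.symm d hd c hc] at h3
    have h4 := h.per c hc d hd x hx
    refine ⟨_, _, rfl, ?_, ?_, ?_, ?_⟩ <;> omega
  have hle : ∀ x ∈ S, ∀ j, s x j ≤ (![D c d, k - D c d] : Fin 2 → ℕ) j := by
    intro x hx j
    obtain ⟨u, v, e, -, -, h3, h4⟩ := hfac x hx
    rw [e]
    fin_cases j
    · exact h3
    · exact h4
  have hhd : ∀ x ∈ S, ∀ y ∈ S, hammingDist (ψ (s x)) (ψ (s y)) =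
      (s x 0 - s y 0 + (s y 0 - s x 0)) + (s x 1 - s y 1 + (s y 1 - s x 1)) := by
    intro x hx y hy
    rw [hψ _ _ (hle x hx) (hle y hy), Fin.sum_univ_two]
  refine ⟨fun x => ψ (s x), ?_, ?_, ?_⟩
  · intro x hx y hy
    simp only [hhd x hx y hy]
    obtain ⟨u, v, e, h1, h2, -, -⟩ := hfac x hx
    obtain ⟨u', v', e', h1', h2', -, -⟩ := hfac y hy
    rw [e, e']
    simp only [Matrix.cons_val_zero, Matrix.cons_val_one]
    have t1 := h.tri c hc x hx y hy
    have t2 := h.tri c hc y hy x hx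
    have t3 := h.tri d hd x hx y hy
    have t4 := h.tri d hd y hy x hx
    rw [h.symm y hy x hx] at t2 t4
    obtain ⟨r, hr⟩ := h.ev c hc x hx y hy
    constructor
    · omega
    · rw [Nat.even_iff]; omega
  · intro x hx
    simp only [hhd c hc x hx]
    obtain ⟨u, v, e, h1, h2, -, -⟩ := hfac x hx
    obtain ⟨u', v', e', h1', h2', -, -⟩ := hfac c hc
    rw [e, e']
    simp only [Matrix.cons_val_zero, Matrix.cons_val_one]
    rw [h.self c hc] at h1' h2'
    rw [h.symm d hd c hc] at h1' h2'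
    omega
  · intro x hx
    simp only [hhd d hd x hx]
    obtain ⟨u, v, e, h1, h2, h3, -⟩ := hfac x hx
    obtain ⟨u', v', e', h1', h2', -, -⟩ := hfac d hd
    rw [e, e']
    simp only [Matrix.cons_val_zero, Matrix.cons_val_one]
    rw [h.self d hd] at h1' h2'
    omega

end Pool.Agent.H875
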