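import Pool.Agent.H875.Pent1
set_option autoImplicit false

/-! Five quadrants around a point. -/

open Classical

namespace Pool.Agent.H875

variable {V : Type}

theorem disc_alt (e0 e1 e2 e3 e4 f0 f1 f2 f3 f4 h0 h1 h2 h3 h4 s0 s1 s2 s3 s4 t0 t1 t2 t3 t4 : ℕ)
    (a0 : 2 * s0 + e0 = f0 + f1) (a1 : 2 * s1 + e1 = f1 + f2) (a2 : 2 * s2 + e2 = f2 + f3)
    (a3 : 2 * s3 + e3 = f3 + f4) (a4 : 2 * s4 + e4 = f4 + f0)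
    (b0 : 2 * t0 + e0 = h0 + h1) (b1 : 2 * t1 + e1 = h1 + h2) (b2 : 2 * t2 + e2 = h2 + h3)
    (b3 : 2 * t3 + e3 = h3 + h4) (b4 : 2 * t4 + e4 = h4 + h0) :
    f0 + (t0 + t2 + t4) + (s1 + s3) = h0 + (s0 + s2 + s4) + (t1 + t3) := by omega

theorem disc_ge (f0 h0 s0 s1 s2 s3 s4 t0 t1 t2 t3 t4 : ℕ)
    (h : f0 + (t0 + t2 + t4) + (s1 + s3) = h0 + (s0 + s2 + s4) + (t1 + t3)) :
    h0 ≤ f0 + ((s0 - t0 + (t0 - s0)) + (s1 - t1 + (t1 - s1)) + (s2 - t2 + (t2 - s2)) + (s3 - t3 + (t3 - s3)) +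
      (s4 - t4 + (t4 - s4))) := by omega

theorem disc_le (e0 e1 e2 e3 e4 f0 f1 f2 f3 f4 h0 h1 h2 h3 h4 s0 s1 s2 s3 s4 t0 t1 t2 t3 t4 d : ℕ)
    (a0 : 2 * s0 + e0 = f0 + f1) (a1 : 2 * s1 + e1 = f1 + f2) (a2 : 2 * s2 + e2 = f2 + f3)
    (a3 : 2 * s3 + e3 = f3 + f4) (a4 : 2 * s4 + e4 = f4 + f0)
    (b0 : 2 * t0 + e0 = h0 + h1) (b1 : 2 * t1 + e1 = h1 + h2) (b2 : 2 * t2 + e2 = h2 + h3)
    (b3 : 2 * t3 + e3 = h3 + h4) (b4 : 2 * t4 + e4 = h4 + h0)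
    (u0 : f0 ≤ h0 + d) (u1 : f1 ≤ h1 + d) (u2 : f2 ≤ h2 + d) (u3 : f3 ≤ h3 + d) (u4 : f4 ≤ h4 + d)
    (v0 : h0 ≤ f0 + d) (v1 : h1 ≤ f1 + d) (v2 : h2 ≤ f2 + d) (v3 : h3 ≤ f3 + d) (v4 : h4 ≤ f4 + d)
    (hx : (s0 = 0 ∧ s1 = 0 ∧ s3 = 0) ∨ (s1 = 0 ∧ s2 = 0 ∧ s4 = 0) ∨ (s2 = 0 ∧ s3 = 0 ∧ s0 = 0) ∨
      (s3 = 0 ∧ s4 = 0 ∧ s1 = 0) ∨ (s4 = 0 ∧ s0 = 0 ∧ s2 = 0))
    (hy : (t0 = 0 ∧ t1 = 0 ∧ t3 = 0) ∨ (t1 = 0 ∧ t2 = 0 ∧ t4 = 0) ∨ (t2 = 0 ∧ t3 = 0 ∧ t0 = 0) ∨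
      (t3 = 0 ∧ t4 = 0 ∧ t1 = 0) ∨ (t4 = 0 ∧ t0 = 0 ∧ t2 = 0)) :
    (s0 - t0 + (t0 - s0)) + (s1 - t1 + (t1 - s1)) + (s2 - t2 + (t2 - s2)) + (s3 - t3 + (t3 - s3)) +
      (s4 - t4 + (t4 - s4)) ≤ d := by
  -- the five alternating sums
  have w0 : s0 + s2 + s4 + t1 + t3 ≤ t0 + t2 + t4 + s1 + s3 + d := by omega
  have w1 : s1 + s3 + s0 + t2 + t4 ≤ t1 + t3 + t0 + s2 + s4 + d := by omega
  have w2 : s2 + s4 + s1 + t3 + t0 ≤ t2 + t4 + t1 + s3 + s0 + d := by omega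
  have w3 : s3 + s0 + s2 + t4 + t1 ≤ t3 + t0 + t2 + s4 + s1 + d := by omega
  have w4 : s4 + s1 + s3 + t0 + t2 ≤ t4 + t1 + t3 + s0 + s2 + d := by omega
  have z0 : t0 + t2 + t4 + s1 + s3 ≤ s0 + s2 + s4 + t1 + t3 + d := by omega
  have z1 : t1 + t3 + t0 + s2 + s4 ≤ s1 + s3 + s0 + t2 + t4 + d := by omega
  have z2 : t2 + t4 + t1 + s3 + s0 ≤ s2 + s4 + s1 + t3 + t0 + d := by omega
  have z3 : t3 + t0 + t2 + s4 + s1 ≤ s3 + s0 + s2 + t4 + t1 + d := by omega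
  have z4 : t4 + t1 + t3 + s0 + s2 ≤ s4 + s1 + s3 + t0 + t2 + d := by omega
  clear a0 a1 a2 a3 a4 b0 b1 b2 b3 b4 u0 u1 u2 u3 u4 v0 v1 v2 v3 v4
  rcases hx with ⟨rfl, rfl, rfl⟩ | ⟨rfl, rfl, rfl⟩ | ⟨rfl, rfl, rfl⟩ | ⟨rfl, rfl, rfl⟩ | ⟨rfl, rfl, rfl⟩ <;>
  rcases hy with ⟨rfl, rfl, rfl⟩ | ⟨rfl, rfl, rfl⟩ | ⟨rfl, rfl, rfl⟩ | ⟨rfl, rfl, rfl⟩ | ⟨rfl, rfl, rfl⟩ <;>
  simp only [Nat.zero_sub, Nat.sub_zero, add_zero, zero_add] at * <;> omega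

theorem cells (s0 s1 s2 s3 s4 : ℕ) (c0 : s0 = 0 ∨ s4 = 0) (c1 : s1 = 0 ∨ s0 = 0) (c2 : s2 = 0 ∨ s1 = 0)
    (c3 : s3 = 0 ∨ s2 = 0) (c4 : s4 = 0 ∨ s3 = 0) :
    (s0 = 0 ∧ s1 = 0 ∧ s3 = 0) ∨ (s1 = 0 ∧ s2 = 0 ∧ s4 = 0) ∨ (s2 = 0 ∧ s3 = 0 ∧ s0 = 0) ∨
      (s3 = 0 ∧ s4 = 0 ∧ s1 = 0) ∨ (s4 = 0 ∧ s0 = 0 ∧ s2 = 0) := by omega

theorem disc {k : ℕ} {S : Finset V} {D : V → V → ℕ} (h : PM k S D) (a : Fin 5 → V) (ha : ∀ i, a i ∈ S)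
    (hall : ∀ m, D (a (m + 2)) (a m) + D (a m) (a (m + 3)) = D (a (m + 2)) (a (m + 3)))
    (hcov : ∀ x ∈ S, ∀ m, D x (a m) + D x (a (m + 1)) = D (a m) (a (m + 1)) ∨
      D x (a (m + 4)) + D x (a m) = D (a (m + 4)) (a m)) :
    ∃ φ : V → Fin k → Bool, (∀ x ∈ S, ∀ y ∈ S, hammingDist (φ x) (φ y) ≤ D x y ∧
      Even (hammingDist (φ x) (φ y) + D x y)) ∧
      ∀ i, hammingDist (φ (a i)) (φ (a (i + 1))) = D (a i) (a (i + 1)) := by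
  let s : V → Fin 5 → ℕ := fun x j => (D x (a j) + D x (a (j + 1)) - D (a j) (a (j + 1))) / 2
  have hs : ∀ x ∈ S, ∀ j, 2 * s x j + D (a j) (a (j + 1)) = D x (a j) + D x (a (j + 1)) := by
    intro x hx j
    have h1 := h.tri (a j) (ha _) x hx (a (j + 1)) (ha _)
    rw [h.symm (a j) (ha _) x hx] at h1
    obtain ⟨r, hr⟩ := h.ev x hx (a j) (ha _) (a (j + 1)) (ha _)
    simp only [s]
    omega
  have hm5 : ∀ j : Fin 5, j + 4 + 1 = j := by decide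
  -- box
  have hle : ∀ x ∈ S, ∀ j, s x j ≤ s (a (j + 4)) j := by
    intro x hx j
    have h1 := hs x hx j
    have h2 := hs (a (j + 4)) (ha _) j
    rcases hcov x hx j with h3 | h3
    · omega
    · have h4 := h.tri x hx (a (j + 4)) (ha _) (a (j + 1)) (ha _)
      omega
  have hsum : ∑ j, s (a (j + 4)) j ≤ k := by
    rw [Fin.sum_univ_five]
    have e0 := hs (a 4) (ha _) 0
    have e1 := hs (a 0) (ha _) 1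
    have e2 := hs (a 1) (ha _) 2
    have e3 := hs (a 2) (ha _) 3
    have e4 := hs (a 3) (ha _) 4
    have i0 : D (a 2) (a 0) + D (a 0) (a 3) = D (a 2) (a 3) := hall 0
    have i1 : D (a 3) (a 1) + D (a 1) (a 4) = D (a 3) (a 4) := hall 1
    have i2 : D (a 4) (a 2) + D (a 2) (a 0) = D (a 4) (a 0) := hall 2
    have i3 : D (a 0) (a 3) + D (a 3) (a 1) = D (a 0) (a 1) := hall 3
    have i4 : D (a 1) (a 4) + D (a 4) (a 2) = D (a 1) (a 2) := hall 4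
    have p := h.per (a 0) (ha _) (a 1) (ha _) (a 2) (ha _)
    have s1 := h.symm (a 4) (ha _) (a 0) (ha _)
    have s2 := h.symm (a 4) (ha _) (a 1) (ha _)
    have s3 := h.symm (a 0) (ha _) (a 2) (ha _)
    have s4 := h.symm (a 1) (ha _) (a 3) (ha _)
    have s5 := h.symm (a 2) (ha _) (a 4) (ha _)
    have s6 := h.symm (a 3) (ha _) (a 0) (ha _)
    have q0 : s (a (0 + 4)) 0 = s (a 4) 0 := rfl
    have q1 : s (a (1 + 4)) 1 = s (a 0) 1 := rfl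
    have q2 : s (a (2 + 4)) 2 = s (a 1) 2 := rfl
    have q3 : s (a (3 + 4)) 3 = s (a 2) 3 := rfl
    have q4 : s (a (4 + 4)) 4 = s (a 3) 4 := rfl
    rw [q0, q1, q2, q3, q4]
    have r0 : (0 : Fin 5) + 1 = 1 := rfl
    have r1 : (1 : Fin 5) + 1 = 2 := rfl
    have r2 : (2 : Fin 5) + 1 = 3 := rfl
    have r3 : (3 : Fin 5) + 1 = 4 := rfl
    have r4 : (4 : Fin 5) + 1 = 0 := rfl
    rw [r0] at e0
    rw [r1] at e1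
    rw [r2] at e2
    rw [r3] at e3
    rw [r4] at e4
    linarith
  obtain ⟨ψ, hψ⟩ := box_embed (fun j => s (a (j + 4)) j) k hsum
  have hhd : ∀ x ∈ S, ∀ y ∈ S, hammingDist (ψ (s x)) (ψ (s y)) =
      (s x 0 - s y 0 + (s y 0 - s x 0)) + (s x 1 - s y 1 + (s y 1 - s x 1)) +
      (s x 2 - s y 2 + (s y 2 - s x 2)) + (s x 3 - s y 3 + (s y 3 - s x 3)) +
      (s x 4 - s y 4 + (s y 4 - s x 4)) := by
    intro x hx y hy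
    rw [hψ _ _ (hle x hx) (hle y hy), Fin.sum_univ_five]
  -- explicit form
  have E : ∀ x ∈ S, 2 * s x 0 + D (a 0) (a 1) = D x (a 0) + D x (a 1) ∧
      2 * s x 1 + D (a 1) (a 2) = D x (a 1) + D x (a 2) ∧ 2 * s x 2 + D (a 2) (a 3) = D x (a 2) + D x (a 3) ∧
      2 * s x 3 + D (a 3) (a 4) = D x (a 3) + D x (a 4) ∧ 2 * s x 4 + D (a 4) (a 0) = D x (a 4) + D x (a 0) :=
    fun x hx => ⟨hs x hx 0, hs x hx 1, hs x hx 2, hs x hx 3, hs x hx 4⟩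
  have C : ∀ x ∈ S, (s x 0 = 0 ∧ s x 1 = 0 ∧ s x 3 = 0) ∨ (s x 1 = 0 ∧ s x 2 = 0 ∧ s x 4 = 0) ∨
      (s x 2 = 0 ∧ s x 3 = 0 ∧ s x 0 = 0) ∨ (s x 3 = 0 ∧ s x 4 = 0 ∧ s x 1 = 0) ∨
      (s x 4 = 0 ∧ s x 0 = 0 ∧ s x 2 = 0) := by
    intro x hx
    have hz : ∀ m, s x m = 0 ∨ s x (m + 4) = 0 := by
      intro m
      rcases hcov x hx m with h1 | h1
      · left
        have := hs x hx m
        omega
      · right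
        have := hs x hx (m + 4)
        rw [hm5] at this
        omega
    exact cells _ _ _ _ _ (hz 0) (hz 1) (hz 2) (hz 3) (hz 4)
  have L : ∀ x ∈ S, ∀ y ∈ S, ∀ i, D x (a i) ≤ D y (a i) + D x y ∧ D y (a i) ≤ D x (a i) + D x y := by
    intro x hx y hy i
    have h1 := h.tri x hx y hy (a i) (ha _)
    have h2 := h.tri y hy x hx (a i) (ha _)
    rw [h.symm y hy x hx] at h2
    constructor <;> omega
  refine ⟨fun x => ψ (s x), ?_, ?_⟩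
  · intro x hx y hy
    simp only [hhd x hx y hy]
    obtain ⟨a0, a1, a2, a3, a4⟩ := E x hx
    obtain ⟨b0, b1, b2, b3, b4⟩ := E y hy
    have l := L x hx y hy
    constructor
    · exact disc_le _ _ _ _ _ _ _ _ _ _ _ _ _ _ _ _ _ _ _ _ _ _ _ _ _ _ a0 a1 a2 a3 a4 b0 b1 b2 b3 b4
        (l 0).1 (l 1).1 (l 2).1 (l 3).1 (l 4).1 (l 0).2 (l 1).2 (l 2).2 (l 3).2 (l 4).2 (C x hx) (C y hy)
    · obtain ⟨r0, hr0⟩ := h.ev x hx y hy (a 0) (ha _)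
      have alt := disc_alt _ _ _ _ _ _ _ _ _ _ _ _ _ _ _ _ _ _ _ _ _ _ _ _ _ a0 a1 a2 a3 a4 b0 b1 b2 b3 b4
      have key : ∀ p q : ℕ, ∃ m, p - q + (q - p) + 2 * m = p + q := fun p q => ⟨min p q, by omega⟩
      obtain ⟨m0, hm0⟩ := key (s x 0) (s y 0)
      obtain ⟨m1, hm1⟩ := key (s x 1) (s y 1)
      obtain ⟨m2, hm2⟩ := key (s x 2) (s y 2)
      obtain ⟨m3, hm3⟩ := key (s x 3) (s y 3)
      obtain ⟨m4, hm4⟩ := key (s x 4) (s y 4)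
      generalize s x 0 - s y 0 + (s y 0 - s x 0) = z0 at hm0 ⊢
      generalize s x 1 - s y 1 + (s y 1 - s x 1) = z1 at hm1 ⊢
      generalize s x 2 - s y 2 + (s y 2 - s x 2) = z2 at hm2 ⊢
      generalize s x 3 - s y 3 + (s y 3 - s x 3) = z3 at hm3 ⊢
      generalize s x 4 - s y 4 + (s y 4 - s x 4) = z4 at hm4 ⊢
      clear a0 a1 a2 a3 a4 b0 b1 b2 b3 b4 l
      rw [Nat.even_iff]
      omega
  · intro i
    have hup : ∀ x ∈ S, ∀ y ∈ S, ∀ m, D y (a m) ≤ D x (a m) + hammingDist (ψ (s x)) (ψ (s y)) := by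
      intro x hx y hy m
      rw [hhd x hx y hy]
      obtain ⟨a0, a1, a2, a3, a4⟩ := E x hx
      obtain ⟨b0, b1, b2, b3, b4⟩ := E y hy
      have n0 := disc_ge _ _ _ _ _ _ _ _ _ _ _ _
        (disc_alt _ _ _ _ _ _ _ _ _ _ _ _ _ _ _ _ _ _ _ _ _ _ _ _ _ a0 a1 a2 a3 a4 b0 b1 b2 b3 b4)
      have n1 := disc_ge _ _ _ _ _ _ _ _ _ _ _ _
        (disc_alt _ _ _ _ _ _ _ _ _ _ _ _ _ _ _ _ _ _ _ _ _ _ _ _ _ a1 a2 a3 a4 a0 b1 b2 b3 b4 b0)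
      have n2 := disc_ge _ _ _ _ _ _ _ _ _ _ _ _
        (disc_alt _ _ _ _ _ _ _ _ _ _ _ _ _ _ _ _ _ _ _ _ _ _ _ _ _ a2 a3 a4 a0 a1 b2 b3 b4 b0 b1)
      have n3 := disc_ge _ _ _ _ _ _ _ _ _ _ _ _
        (disc_alt _ _ _ _ _ _ _ _ _ _ _ _ _ _ _ _ _ _ _ _ _ _ _ _ _ a3 a4 a0 a1 a2 b3 b4 b0 b1 b2)
      have n4 := disc_ge _ _ _ _ _ _ _ _ _ _ _ _
        (disc_alt _ _ _ _ _ _ _ _ _ _ _ _ _ _ _ _ _ _ _ _ _ _ _ _ _ a4 a0 a1 a2 a3 b4 b0 b1 b2 b3)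
      clear a0 a1 a2 a3 a4 b0 b1 b2 b3 b4
      fin_cases m
      · show D y (a 0) ≤ D x (a 0) + _
        linarith only [n0]
      · show D y (a 1) ≤ D x (a 1) + _
        linarith only [n1]
      · show D y (a 2) ≤ D x (a 2) + _
        linarith only [n2]
      · show D y (a 3) ≤ D x (a 3) + _
        linarith only [n3]
      · show D y (a 4) ≤ D x (a 4) + _
        linarith only [n4]
    apply le_antisymm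
    · simp only [hhd (a i) (ha _) (a (i + 1)) (ha _)]
      obtain ⟨a0, a1, a2, a3, a4⟩ := E (a i) (ha _)
      obtain ⟨b0, b1, b2, b3, b4⟩ := E (a (i + 1)) (ha _)
      have l := L (a i) (ha _) (a (i + 1)) (ha _)
      exact disc_le _ _ _ _ _ _ _ _ _ _ _ _ _ _ _ _ _ _ _ _ _ _ _ _ _ _ a0 a1 a2 a3 a4 b0 b1 b2 b3 b4
        (l 0).1 (l 1).1 (l 2).1 (l 3).1 (l 4).1 (l 0).2 (l 1).2 (l 2).2 (l 3).2 (l 4).2
        (C _ (ha _)) (C _ (ha _))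
    · have h1 := hup (a i) (ha _) (a (i + 1)) (ha _) i
      rw [h.self _ (ha _), zero_add, h.symm _ (ha _) _ (ha _)] at h1
      exact h1

end Pool.Agent.H875
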