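import Pool.Agent.H875.Pent2
set_option autoImplicit false

/-! Reductions of even metrics: shortening a pair, moving a point. -/

open Classical

namespace Pool.Agent.H875

variable {V : Type}

/-- shortening of a pair -/
def sh (D : V → V → ℕ) (x y : V) (r : ℕ) : V → V → ℕ := fun u v =>
  min (D u v) (min (D u x + r + D y v) (D u y + r + D x v))

theorem sh_le (D : V → V → ℕ) (x y : V) (r : ℕ) (u v : V) : sh D x y r u v ≤ D u v := min_le_left _ _

theorem sh_pm {k : ℕ} {S : Finset V} {D : V → V → ℕ} (h : PM k S D) {x y : V} (hx : x ∈ S) (hy : y ∈ S)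
    (r : ℕ) (hr : D x y = r + 2) : PM k S (sh D x y r) := by
  refine ⟨?_, ?_, ?_, ?_, ?_⟩
  · intro s hs
    have := sh_le D x y r s s
    rw [h.self s hs] at this
    omega
  · intro s hs t ht
    unfold sh
    rw [h.symm s hs t ht, h.symm s hs x hx, h.symm y hy t ht, h.symm s hs y hy, h.symm x hx t ht]
    have e1 : D x s + r + D t y = D t y + r + D x s := by ring
    have e2 : D y s + r + D t x = D t x + r + D y s := by ring
    rw [e1, e2]
    rw [min_comm (D t y + r + D x s) (D t x + r + D y s)]
  · intro s hs t ht u hu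
    have t1 := h.tri s hs t ht u hu
    have t2 := h.tri s hs t ht x hx
    have t3 := h.tri s hs t ht y hy
    have t4 := h.tri x hx t ht u hu
    have t5 := h.tri y hy t ht u hu
    have t6 := h.tri s hs x hx u hu
    have t7 := h.tri s hs y hy u hu
    have key : ∀ w, (w ≤ D s u ∧ w ≤ D s x + r + D y u ∧ w ≤ D s y + r + D x u) →
        ∀ p, (p = D s t ∨ p = D s x + r + D y t ∨ p = D s y + r + D x t) →
        ∀ q, (q = D t u ∨ q = D t x + r + D y u ∨ q = D t y + r + D x u) → w ≤ p + q := by
      rintro w ⟨w1, w2, w3⟩ p (rfl | rfl | rfl) q (rfl | rfl | rfl)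
      · omega
      · clear t1 t3 t4 t5 t6 t7; omega
      · clear t1 t2 t4 t5 t6 t7; omega
      · clear t1 t2 t3 t4 t6 t7; omega
      · clear t1 t2 t3 t4 t5 t6 t7; omega
      · clear t1 t2 t3 t4 t5 t7; omega
      · clear t1 t2 t3 t5 t6 t7; omega
      · clear t1 t2 t3 t4 t5 t6; omega
      · clear t1 t2 t3 t4 t5 t6 t7; omega
    have hm : ∀ p q r : ℕ, min p (min q r) = p ∨ min p (min q r) = q ∨ min p (min q r) = r := by
      intro p q r; omega
    refine key _ ⟨?_, ?_, ?_⟩ _ (hm _ _ _) _ (hm _ _ _)
    · exact min_le_left _ _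
    · exact (min_le_right _ _).trans (min_le_left _ _)
    · exact (min_le_right _ _).trans (min_le_right _ _)
  · intro s hs t ht u hu
    have := h.per s hs t ht u hu
    have h1 := sh_le D x y r s t
    have h2 := sh_le D x y r t u
    have h3 := sh_le D x y r s u
    omega
  · have hp : ∀ u ∈ S, ∀ v ∈ S, Even (sh D x y r u v + D u v) := by
      intro u hu v hv
      have hm : ∀ p q r : ℕ, min p (min q r) = p ∨ min p (min q r) = q ∨ min p (min q r) = r := by
        intro p q r; omega
      obtain ⟨a1, ha1⟩ := h.ev u hu x hx y hy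
      obtain ⟨a2, ha2⟩ := h.ev u hu y hy v hv
      obtain ⟨a3, ha3⟩ := h.ev u hu x hx v hv
      unfold sh
      rcases hm (D u v) (D u x + r + D y v) (D u y + r + D x v) with h1 | h1 | h1
      · rw [h1]; exact ⟨_, rfl⟩
      · rw [h1, Nat.even_iff]; omega
      · rw [h1, Nat.even_iff]; omega
    intro s hs t ht u hu
    obtain ⟨a1, ha1⟩ := hp s hs t ht
    obtain ⟨a2, ha2⟩ := hp t ht u hu
    obtain ⟨a3, ha3⟩ := hp s hs u hu
    obtain ⟨a4, ha4⟩ := h.ev s hs t ht u hu
    rw [Nat.even_iff]; omega

theorem sh_par {k : ℕ} {S : Finset V} {D : V → V → ℕ} (h : PM k S D) {x y : V} (hx : x ∈ S) (hy : y ∈ S)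
    (r : ℕ) (hr : D x y = r + 2) (u : V) (hu : u ∈ S) (v : V) (hv : v ∈ S) : Even (sh D x y r u v + D u v) := by
  have hm : ∀ p q r : ℕ, min p (min q r) = p ∨ min p (min q r) = q ∨ min p (min q r) = r := by
    intro p q r; omega
  obtain ⟨a1, ha1⟩ := h.ev u hu x hx y hy
  obtain ⟨a2, ha2⟩ := h.ev u hu y hy v hv
  obtain ⟨a3, ha3⟩ := h.ev u hu x hx v hv
  unfold sh
  rcases hm (D u v) (D u x + r + D y v) (D u y + r + D x v) with h1 | h1 | h1
  · rw [h1]; exact ⟨_, rfl⟩
  · rw [h1, Nat.even_iff]; omega
  · rw [h1, Nat.even_iff]; omega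

/-- moving a point by one -/
noncomputable def mv (D : V → V → ℕ) (m : V) : V → V → ℕ := fun u v =>
  if (u = m ∧ v ≠ m) ∨ (u ≠ m ∧ v = m) then D u v - 1 else D u v

theorem mv_pm {k : ℕ} {S : Finset V} {D : V → V → ℕ} (h : PM k S D) {m : V} (hm : m ∈ S)
    (hh : ∀ y ∈ S, y ≠ m → ∀ z ∈ S, z ≠ m → D y z + 2 ≤ D y m + D m z) : PM k S (mv D m) := by
  have h1 : ∀ y ∈ S, y ≠ m → 1 ≤ D y m := by
    intro y hy hym
    have := hh y hy hym y hy hym
    rw [h.self y hy, h.symm m hm y hy] at this
    omega
  have c1 : ∀ v, v ≠ m → mv D m m v = D m v - 1 := by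
    intro v hv; unfold mv; rw [if_pos (Or.inl ⟨rfl, hv⟩)]
  have c2 : ∀ u, u ≠ m → mv D m u m = D u m - 1 := by
    intro v hv; unfold mv; rw [if_pos (Or.inr ⟨hv, rfl⟩)]
  have c3 : ∀ u v, u ≠ m → v ≠ m → mv D m u v = D u v := by
    intro u v hu hv
    unfold mv
    rw [if_neg]
    rintro (⟨h1, -⟩ | ⟨-, h1⟩)
    · exact hu h1
    · exact hv h1
  have c4 : mv D m m m = D m m := by
    unfold mv
    rw [if_neg]
    rintro (⟨-, h1⟩ | ⟨h1, -⟩)
    · exact h1 rfl
    · exact h1 rfl
  refine ⟨?_, ?_, ?_, ?_, ?_⟩
  · intro s hs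
    by_cases hsm : s = m
    · subst hsm; rw [c4]; exact h.self _ hs
    · rw [c3 s s hsm hsm]; exact h.self _ hs
  · intro s hs t ht
    by_cases hsm : s = m
    · by_cases htm : t = m
      · subst hsm; subst htm; rfl
      · subst hsm; rw [c1 t htm, c2 t htm, h.symm s hs t ht]
    · by_cases htm : t = m
      · subst htm; rw [c1 s hsm, c2 s hsm, h.symm s hs t ht]
      · rw [c3 s t hsm htm, c3 t s htm hsm, h.symm s hs t ht]
  · intro s hs t ht u hu
    by_cases hsm : s = m
    · by_cases htm : t = m
      · rw [hsm, htm, c4, h.self m hm]; omega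
      · by_cases hum : u = m
        · rw [hsm, hum, c4, h.self m hm]; omega
        · rw [hsm, c1 u hum, c1 t htm, c3 t u htm hum]
          have := h.tri m hm t ht u hu
          have := h1 t ht htm
          rw [h.symm t ht m hm] at this
          omega
    · by_cases htm : t = m
      · by_cases hum : u = m
        · rw [htm, hum, c4, h.self m hm]; omega
        · rw [htm, c2 s hsm, c1 u hum, c3 s u hsm hum]
          have := hh s hs hsm u hu hum
          have := h1 s hs hsm
          have h2 := h1 u hu hum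
          rw [h.symm u hu m hm] at h2
          omega
      · by_cases hum : u = m
        · rw [hum, c2 s hsm, c2 t htm, c3 s t hsm htm]
          have := h.tri s hs t ht m hm
          have := h1 t ht htm
          omega
        · rw [c3 s t hsm htm, c3 t u htm hum, c3 s u hsm hum]
          exact h.tri s hs t ht u hu
  · intro s hs t ht u hu
    have hle : ∀ a b, mv D m a b ≤ D a b := by
      intro a b; unfold mv; split_ifs <;> omega
    have := h.per s hs t ht u hu
    have := hle s t
    have := hle t u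
    have := hle s u
    omega
  · intro s hs t ht u hu
    have hev := h.ev s hs t ht u hu
    by_cases hsm : s = m
    · by_cases htm : t = m
      · by_cases hum : u = m
        · rw [hsm, htm, hum, c4, h.self m hm]; simp
        · rw [hsm, htm, c4, c1 u hum, h.self m hm]; exact ⟨D m u - 1, by omega⟩
      · by_cases hum : u = m
        · rw [hsm, hum, c4, c1 t htm, c2 t htm, h.self m hm, h.symm m hm t ht]
          exact ⟨D t m - 1, by omega⟩
        · rw [hsm] at hev
          rw [hsm, c1 t htm, c1 u hum, c3 t u htm hum]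
          have h2 := h1 t ht htm
          have h3 := h1 u hu hum
          rw [h.symm t ht m hm] at h2
          rw [h.symm u hu m hm] at h3
          rw [Nat.even_iff] at hev ⊢
          omega
    · by_cases htm : t = m
      · by_cases hum : u = m
        · rw [htm, hum, c4, c2 s hsm, h.self m hm]; exact ⟨D s m - 1, by omega⟩
        · rw [htm] at hev
          rw [htm, c2 s hsm, c1 u hum, c3 s u hsm hum]
          have h2 := h1 s hs hsm
          have h3 := h1 u hu hum
          rw [h.symm u hu m hm] at h3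
          rw [Nat.even_iff] at hev ⊢
          omega
      · by_cases hum : u = m
        · rw [hum] at hev
          rw [hum, c2 s hsm, c2 t htm, c3 s t hsm htm]
          have h2 := h1 s hs hsm
          have h3 := h1 t ht htm
          rw [Nat.even_iff] at hev ⊢
          omega
        · rw [c3 s t hsm htm, c3 t u htm hum, c3 s u hsm hum]
          exact hev

end Pool.Agent.H875
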