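import Pool.Agent.H875.Pent3
set_option autoImplicit false

/-! Even metrics with perimeters at most `2k` map to the hypercube so that the distances of a pentagon are kept. -/

open Classical

namespace Pool.Agent.H875

variable {V : Type}

/-- `x` and `y` lie on a geodesic from `a j` to `a (j+1)` -/
def Tt (D : V → V → ℕ) (a : Fin 5 → V) (x y : V) (j : Fin 5) : Prop :=
  D (a j) x + D x y + D y (a (j + 1)) = D (a j) (a (j + 1)) ∨
  D (a j) y + D y x + D x (a (j + 1)) = D (a j) (a (j + 1))

/-- conclusion of the theorem -/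
def Nice (k : ℕ) (S : Finset V) (D : V → V → ℕ) (a : Fin 5 → V) : Prop :=
  ∃ φ : V → Fin k → Bool, (∀ x ∈ S, ∀ y ∈ S, hammingDist (φ x) (φ y) ≤ D x y ∧
      Even (hammingDist (φ x) (φ y) + D x y)) ∧
      ∀ i, hammingDist (φ (a i)) (φ (a (i + 1))) = D (a i) (a (i + 1))

theorem f5 : ∀ i : Fin 5, i + 1 + 1 = i + 2 ∧ i + 4 + 1 = i ∧ i + 2 + 1 = i + 3 ∧ i + 3 + 1 = i + 4 ∧
      i + 1 ≠ i ∧ i + 2 ≠ i ∧ i + 3 ≠ i ∧ i + 4 ≠ i ∧ i ≠ i + 1 := by decide

theorem f5a : ∀ i : Fin 5, i + 3 ≠ i + 4 ∧ i + 2 + 2 = i + 4 ∧ i + 2 + 3 = i ∧ i + 3 + 2 = i ∧ i + 3 + 3 = i + 1 ∧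
    i + 1 + 4 = i := by decide

theorem f5b : ∀ m i : Fin 5, m ≠ i → m = i + 1 ∨ m = i + 2 ∨ m = i + 3 ∨ m = i + 4 := by decide

theorem f5c : ∀ j m : Fin 5, j = m ∨ j = m + 1 ∨ j = m + 2 ∨ j = m + 3 ∨ j = m + 4 := by decide

/-- a degenerate pentagon -/
theorem nice_degenerate {k : ℕ} {S : Finset V} {D : V → V → ℕ} (h : PM k S D) {a : Fin 5 → V} (ha : ∀ i, a i ∈ S)
    {i j : Fin 5} (hij : j ≠ i) (ht : Tt D a (a i) (a (i + 1)) j) : Nice k S D a := by
  obtain ⟨φ, h1, h2, h3⟩ := two_star h (ha (i + 2)) (ha (i + 4))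
  have hsy : ∀ x ∈ S, ∀ y ∈ S, hammingDist (φ x) (φ y) = D x y → hammingDist (φ y) (φ x) = D y x := by
    intro x hx y hy hxy
    rw [hammingDist_comm, hxy, h.symm x hx y hy]
  have hne : ∀ m, m ≠ i → hammingDist (φ (a m)) (φ (a (m + 1))) = D (a m) (a (m + 1)) := by
    intro m hm
    have hc : m = i + 1 ∨ m = i + 2 ∨ m = i + 3 ∨ m = i + 4 := f5b m i hm
    have e1 : i + 1 + 1 = i + 2 := (f5 i).1
    have e2 : i + 3 + 1 = i + 4 := (f5 i).2.2.2.1
    rcases hc with rfl | rfl | rfl | rfl
    · rw [e1]; exact hsy _ (ha _) _ (ha _) (h2 _ (ha _))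
    · exact h2 _ (ha _)
    · rw [e2]; exact hsy _ (ha _) _ (ha _) (h3 _ (ha _))
    · exact h3 _ (ha _)
  refine ⟨φ, h1, fun m => ?_⟩
  by_cases hm : m = i
  · subst hm
    have hj := hne j hij
    have key : ∀ x ∈ S, ∀ y ∈ S, D (a j) x + D x y + D y (a (j + 1)) = D (a j) (a (j + 1)) →
        hammingDist (φ x) (φ y) = D x y := by
      intro x hx y hy hxy
      have t1 := hammingDist_triangle (φ (a j)) (φ x) (φ (a (j + 1)))
      have t2 := hammingDist_triangle (φ x) (φ y) (φ (a (j + 1)))
      have l1 := (h1 (a j) (ha _) x hx).1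
      have l2 := (h1 x hx y hy).1
      have l3 := (h1 y hy (a (j + 1)) (ha _)).1
      omega
    rcases ht with ht | ht
    · exact key _ (ha _) _ (ha _) ht
    · exact hsy _ (ha _) _ (ha _) (key _ (ha _) _ (ha _) ht)
  · exact hne m hm

/-- being on a geodesic is inherited -/
theorem between {k : ℕ} {S : Finset V} {D : V → V → ℕ} (h : PM k S D) {p q x y z : V} (hp : p ∈ S) (hq : q ∈ S)
    (hx : x ∈ S) (hy : y ∈ S) (hz : z ∈ S) (h1 : D p x + D x y + D y q = D p q) (h2 : D x z + D z y = D x y) :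
    D p x + D x z + D z q = D p q ∧ D p z + D z y + D y q = D p q := by
  have t1 := h.tri z hz y hy q hq
  have t2 := h.tri p hp z hz q hq
  have t3 := h.tri p hp x hx z hz
  constructor <;> omega

theorem nice_main (k : ℕ) (a : Fin 5 → V) : ∀ (n : ℕ) (S : Finset V) (D : V → V → ℕ),
    S.card + ∑ x ∈ S, ∑ y ∈ S, D x y = n → PM k S D → (∀ i, a i ∈ S) → Nice k S D a := by
  intro n
  induction n using Nat.strong_induction_on with
  | _ n ih =>
  intro S D hn h ha
  -- degenerate pentagons
  by_cases hdeg : ∃ i j : Fin 5, j ≠ i ∧ Tt D a (a i) (a (i + 1)) j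
  · obtain ⟨i, j, hij, ht⟩ := hdeg
    exact nice_degenerate h ha hij ht
  push Not at hdeg
  have ix : ∀ i : Fin 5, i + 1 + 1 = i + 2 ∧ i + 4 + 1 = i ∧ i + 2 + 1 = i + 3 ∧ i + 3 + 1 = i + 4 ∧
      i + 1 ≠ i ∧ i + 2 ≠ i ∧ i + 3 ≠ i ∧ i + 4 ≠ i ∧ i ≠ i + 1 := by decide
  -- the five points are at positive distance
  have hd1 : ∀ i, 1 ≤ D (a i) (a (i + 1)) := by
    intro i
    by_contra hcon
    refine hdeg i (i + 1) (ix i).2.2.2.2.1 (Or.inl ?_)
    have e1 : D (a i) (a (i + 1)) = 0 := by omega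
    rw [e1, h.symm (a (i + 1)) (ha _) (a i) (ha _), e1]; simp
  have hd2 : ∀ i, 1 ≤ D (a i) (a (i + 2)) := by
    intro i
    by_contra hcon
    refine hdeg (i + 1) i (ix i).2.2.2.2.2.2.2.2 (Or.inr ?_)
    have e1 : D (a i) (a (i + 2)) = 0 := by omega
    rw [(ix i).1, e1, h.self _ (ha (i + 1))]
    have t1 := h.tri (a i) (ha _) (a (i + 2)) (ha _) (a (i + 1)) (ha _)
    have t2 := h.tri (a (i + 2)) (ha _) (a i) (ha _) (a (i + 1)) (ha _)
    rw [h.symm (a (i + 2)) (ha _) (a i) (ha _)] at t2
    omega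
  have hinj : ∀ i j, i ≠ j → 1 ≤ D (a i) (a j) := by
    intro i j hij
    have hc : j = i + 1 ∨ j = i + 2 ∨ i = j + 2 ∨ i = j + 1 := by revert i j; decide
    rcases hc with rfl | rfl | rfl | rfl
    · exact hd1 _
    · exact hd2 _
    · rw [h.symm _ (ha _) _ (ha _)]; exact hd2 _
    · rw [h.symm _ (ha _) _ (ha _)]; exact hd1 _
  -- identification
  by_cases hid : ∃ x ∈ S, ∃ y ∈ S, x ≠ y ∧ D x y = 0
  · have hid' : ∃ x ∈ S, ∃ y ∈ S, x ≠ y ∧ D x y = 0 ∧ ∀ i, a i ≠ y := by
      obtain ⟨x, hx, y, hy, hxy, hd⟩ := hid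
      by_cases h1 : ∀ i, a i ≠ y
      · exact ⟨x, hx, y, hy, hxy, hd, h1⟩
      · push Not at h1
        obtain ⟨i, hi⟩ := h1
        refine ⟨y, hy, x, hx, hxy.symm, by rw [h.symm y hy x hx]; exact hd, fun j hj => ?_⟩
        by_cases hij : j = i
        · subst hij; exact hxy (hj.symm.trans hi)
        · have := hinj j i hij
          rw [hj, hi] at this
          omega
    obtain ⟨x, hx, y, hy, hxy, hd, hay⟩ := hid'
    have hsub : S.erase y ⊆ S := Finset.erase_subset _ _
    have hPM : PM k (S.erase y) D :=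
      ⟨fun s hs => h.self s (hsub hs), fun s hs t ht => h.symm s (hsub hs) t (hsub ht),
        fun s hs t ht u hu => h.tri s (hsub hs) t (hsub ht) u (hsub hu),
        fun s hs t ht u hu => h.per s (hsub hs) t (hsub ht) u (hsub hu),
        fun s hs t ht u hu => h.ev s (hsub hs) t (hsub ht) u (hsub hu)⟩
    have hlt : (S.erase y).card + ∑ x ∈ S.erase y, ∑ z ∈ S.erase y, D x z < n := by
      rw [← hn]
      have h1 : (S.erase y).card < S.card := Finset.card_erase_lt_of_mem hy
      have h2 : ∑ x ∈ S.erase y, ∑ z ∈ S.erase y, D x z ≤ ∑ x ∈ S, ∑ z ∈ S, D x z := by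
        refine (Finset.sum_le_sum fun u _ => Finset.sum_le_sum_of_subset hsub).trans
          (Finset.sum_le_sum_of_subset hsub)
      omega
    obtain ⟨φ, g1, g2⟩ := ih _ hlt (S.erase y) D rfl hPM (fun i => Finset.mem_erase.mpr ⟨hay i, ha i⟩)
    have hxe : x ∈ S.erase y := Finset.mem_erase.mpr ⟨hxy, hx⟩
    have hDe : ∀ z ∈ S, D y z = D x z := by
      intro z hz
      have t1 := h.tri y hy x hx z hz
      have t2 := h.tri x hx y hy z hz
      rw [h.symm y hy x hx] at t1
      omega
    let π : V → V := fun z => if z = y then x else z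
    have hπ : ∀ z ∈ S, π z ∈ S.erase y := by
      intro z hz
      by_cases hzy : z = y
      · simp only [π, if_pos hzy]; exact hxe
      · simp only [π, if_neg hzy]; exact Finset.mem_erase.mpr ⟨hzy, hz⟩
    have hDπ : ∀ z ∈ S, ∀ w ∈ S, D (π z) (π w) = D z w := by
      have h1 : ∀ z ∈ S, ∀ w ∈ S, D (π z) w = D z w := by
        intro z hz w hw
        by_cases hzy : z = y
        · simp only [π, if_pos hzy]; rw [hzy, hDe w hw]
        · simp only [π, if_neg hzy]
      intro z hz w hw
      rw [h1 z hz _ (hsub (hπ w hw)), h.symm z hz _ (hsub (hπ w hw)), h1 w hw z hz, h.symm w hw z hz]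
    refine ⟨fun z => φ (π z), ?_, ?_⟩
    · intro z hz w hw
      have := g1 (π z) (hπ z hz) (π w) (hπ w hw)
      rw [hDπ z hz w hw] at this
      exact this
    · intro i
      have e : ∀ i, π (a i) = a i := fun i => by simp only [π, if_neg (hay i)]
      simp only [e]
      exact g2 i
  push Not at hid
  have hpos : ∀ x ∈ S, ∀ y ∈ S, x ≠ y → 1 ≤ D x y := fun x hx y hy hxy => Nat.one_le_iff_ne_zero.mpr (hid x hx y hy hxy)
  -- shortening
  by_cases hsh : ∃ x ∈ S, ∃ y ∈ S, 2 ≤ D x y ∧ ∀ j, ¬ Tt D a x y j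
  · obtain ⟨x, hx, y, hy, hxy, hnt⟩ := hsh
    obtain ⟨r, hr⟩ : ∃ r, D x y = r + 2 := ⟨D x y - 2, by omega⟩
    have hPM := sh_pm h hx hy r hr
    have hD : ∀ i, sh D x y r (a i) (a (i + 1)) = D (a i) (a (i + 1)) := by
      intro i
      have h1 := hnt i
      unfold Tt at h1
      push Not at h1
      have t1 := h.tri (a i) (ha _) x hx (a (i + 1)) (ha _)
      have t2 := h.tri x hx y hy (a (i + 1)) (ha _)
      have t3 := h.tri (a i) (ha _) y hy (a (i + 1)) (ha _)
      have t4 := h.tri y hy x hx (a (i + 1)) (ha _)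
      obtain ⟨b1, hb1⟩ := h.ev (a i) (ha _) x hx y hy
      obtain ⟨b2, hb2⟩ := h.ev (a i) (ha _) y hy (a (i + 1)) (ha _)
      obtain ⟨b3, hb3⟩ := h.ev (a i) (ha _) x hx (a (i + 1)) (ha _)
      have hyx := h.symm y hy x hx
      have hle := sh_le D x y r (a i) (a (i + 1))
      obtain ⟨h2, h3⟩ := h1
      apply le_antisymm hle
      unfold sh
      refine le_min le_rfl (le_min ?_ ?_)
      · clear h3 t3 t4 hle
        omega
      · clear h2 t1 t2 hle
        omega
    have hlt : S.card + ∑ u ∈ S, ∑ v ∈ S, sh D x y r u v < n := by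
      rw [← hn]
      apply Nat.add_lt_add_left
      apply Finset.sum_lt_sum
      · intro u _
        exact Finset.sum_le_sum fun v _ => sh_le D x y r u v
      · refine ⟨x, hx, Finset.sum_lt_sum (fun v _ => sh_le D x y r x v) ⟨y, hy, ?_⟩⟩
        have : sh D x y r x y ≤ D x x + r + D y y := (min_le_right _ _).trans (min_le_left _ _)
        rw [h.self x hx, h.self y hy] at this
        omega
    obtain ⟨φ, g1, g2⟩ := ih _ hlt S (sh D x y r) rfl hPM ha
    refine ⟨φ, fun u hu v hv => ⟨(g1 u hu v hv).1.trans (sh_le _ _ _ _ _ _), ?_⟩, fun i => (g2 i).trans (hD i)⟩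
    obtain ⟨b1, hb1⟩ := (g1 u hu v hv).2
    obtain ⟨b2, hb2⟩ := sh_par h hx hy r hr u hu v hv
    rw [Nat.even_iff]; omega
  push Not at hsh
  -- moving a point
  by_cases hmv : ∃ m, ∀ y ∈ S, y ≠ a m → ∀ z ∈ S, z ≠ a m → D y z + 2 ≤ D y (a m) + D (a m) z
  · obtain ⟨m, hm⟩ := hmv
    have hPM := mv_pm h (ha m) hm
    have hc1 : ∀ v, v ≠ a m → mv D (a m) (a m) v = D (a m) v - 1 := by
      intro v hv; unfold mv; rw [if_pos (Or.inl ⟨rfl, hv⟩)]
    have hc2 : ∀ u, u ≠ a m → mv D (a m) u (a m) = D u (a m) - 1 := by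
      intro v hv; unfold mv; rw [if_pos (Or.inr ⟨hv, rfl⟩)]
    have hc3 : ∀ u v, u ≠ a m → v ≠ a m → mv D (a m) u v = D u v := by
      intro u v hu hv
      unfold mv
      rw [if_neg]
      rintro (⟨h1, -⟩ | ⟨-, h1⟩)
      · exact hu h1
      · exact hv h1
    have hmle : ∀ u v, mv D (a m) u v ≤ D u v := by
      intro u v; unfold mv; split_ifs <;> omega
    have hne : ∀ i, i ≠ m → a i ≠ a m := by
      intro i him he
      have := hinj i m him
      rw [he, h.self _ (ha m)] at this
      omega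
    have hlt : S.card + ∑ u ∈ S, ∑ v ∈ S, mv D (a m) u v < n := by
      rw [← hn]
      apply Nat.add_lt_add_left
      apply Finset.sum_lt_sum
      · intro u _
        exact Finset.sum_le_sum fun v _ => hmle u v
      · refine ⟨a m, ha m, Finset.sum_lt_sum (fun v _ => hmle _ v) ⟨a (m + 1), ha _, ?_⟩⟩
        rw [hc1 _ (hne _ (ix m).2.2.2.2.1)]
        have := hd1 m
        omega
    obtain ⟨φ, g1, g2⟩ := ih _ hlt S (mv D (a m)) rfl hPM ha
    -- a free coordinate
    have e1 : mv D (a m) (a m) (a (m + 1)) + 1 = D (a m) (a (m + 1)) := by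
      rw [hc1 _ (hne _ (ix m).2.2.2.2.1)]
      have := hd1 m
      omega
    have e2 : mv D (a m) (a (m + 4)) (a m) + 1 = D (a (m + 4)) (a m) := by
      rw [hc2 _ (hne _ (ix m).2.2.2.2.2.2.2.1)]
      have := hd1 (m + 4)
      rw [(ix m).2.1] at this
      omega
    have g2a := g2 m
    have g2b := g2 (m + 4)
    rw [(ix m).2.1] at g2b
    have g1a := (g1 (a (m + 4)) (ha _) (a (m + 1)) (ha _)).1.trans (hmle _ _)
    have hper := h.per (a (m + 4)) (ha _) (a m) (ha _) (a (m + 1)) (ha _)
    have hco : ∃ c : Fin k, φ (a (m + 4)) c = φ (a m) c ∧ φ (a (m + 1)) c = φ (a m) c := by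
      by_contra hcon
      push Not at hcon
      have hcount : 2 * k ≤ hammingDist (φ (a (m + 4))) (φ (a m)) + hammingDist (φ (a m)) (φ (a (m + 1))) +
          hammingDist (φ (a (m + 4))) (φ (a (m + 1))) := by
        unfold hammingDist
        rw [Finset.card_filter, Finset.card_filter, Finset.card_filter, ← Finset.sum_add_distrib,
          ← Finset.sum_add_distrib]
        have : 2 * k = ∑ _c : Fin k, 2 := by simp [mul_comm]
        rw [this]
        apply Finset.sum_le_sum
        intro c _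
        have h1 := hcon c
        generalize φ (a (m + 4)) c = p at h1 ⊢
        generalize φ (a m) c = q at h1 ⊢
        generalize φ (a (m + 1)) c = r at h1 ⊢
        cases p <;> cases q <;> cases r <;> simp at h1 ⊢
      omega
    obtain ⟨c, hc1', hc2'⟩ := hco
    let φ' : V → Fin k → Bool := fun z => if z = a m then Function.update (φ (a m)) c (!(φ (a m) c)) else φ z
    have hup : ∀ w : Fin k → Bool, hammingDist (Function.update (φ (a m)) c (!(φ (a m) c))) w ≤
        hammingDist (φ (a m)) w + 1 ∧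
        Even (hammingDist (Function.update (φ (a m)) c (!(φ (a m) c))) w + hammingDist (φ (a m)) w + 1) ∧
        (w c = φ (a m) c → hammingDist (Function.update (φ (a m)) c (!(φ (a m) c))) w =
          hammingDist (φ (a m)) w + 1) := by
      intro w
      have hsplit : ∀ u : Fin k → Bool, hammingDist u w =
          (if u c ≠ w c then 1 else 0) + ∑ i ∈ Finset.univ.erase c, if u i ≠ w i then 1 else 0 := by
        intro u
        unfold hammingDist
        rw [Finset.card_filter, ← Finset.add_sum_erase _ _ (Finset.mem_univ c)]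
      have hrest : ∑ i ∈ Finset.univ.erase c, (if Function.update (φ (a m)) c (!(φ (a m) c)) i ≠ w i then 1 else 0) =
          ∑ i ∈ Finset.univ.erase c, if φ (a m) i ≠ w i then 1 else 0 := by
        apply Finset.sum_congr rfl
        intro i hi
        rw [Finset.mem_erase] at hi
        rw [Function.update_of_ne hi.1]
      rw [hsplit, hsplit (φ (a m)), hrest, Function.update_self]
      generalize ∑ i ∈ Finset.univ.erase c, (if φ (a m) i ≠ w i then 1 else 0) = R
      cases h1 : φ (a m) c <;> cases h2 : w c <;> simp <;> (try rw [Nat.even_iff]) <;> omega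
    have hφm : φ' (a m) = Function.update (φ (a m)) c (!(φ (a m) c)) := if_pos rfl
    have hφn : ∀ z, z ≠ a m → φ' z = φ z := fun z hz => if_neg hz
    refine ⟨φ', ?_, ?_⟩
    · have hone : ∀ y ∈ S, y ≠ a m → hammingDist (φ' (a m)) (φ' y) ≤ D (a m) y ∧
          Even (hammingDist (φ' (a m)) (φ' y) + D (a m) y) := by
        intro y hy hya
        rw [hφm, hφn y hya]
        obtain ⟨b1, hb1⟩ := (hup (φ y)).2.1
        have b2 := (hup (φ y)).1
        obtain ⟨b3, b4, hb4⟩ := g1 (a m) (ha m) y hy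
        rw [hc1 y hya] at b3 hb4
        have b5 := hpos (a m) (ha m) y hy hya.symm
        constructor
        · omega
        · rw [Nat.even_iff]; omega
      intro x hx y hy
      by_cases hxa : x = a m
      · by_cases hya : y = a m
        · rw [hxa, hya, hammingDist_self, h.self _ (ha m)]; simp
        · rw [hxa]; exact hone y hy hya
      · by_cases hya : y = a m
        · rw [hya, hammingDist_comm, h.symm x hx _ (ha m)]; exact hone x hx hxa
        · rw [hφn x hxa, hφn y hya]
          have := g1 x hx y hy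
          rw [hc3 x y hxa hya] at this
          exact this
    · intro i
      by_cases hi : i = m
      · rw [hi, hφm, hφn _ (hne _ (ix m).2.2.2.2.1), (hup _).2.2 hc2', g2a, e1]
      · by_cases hi' : i = m + 4
        · rw [hi', (ix m).2.1, hφm, hφn _ (hne _ (ix m).2.2.2.2.2.2.2.1), hammingDist_comm, (hup _).2.2 hc1',
            hammingDist_comm, g2b, e2]
        · have h3 : i + 1 ≠ m := by
            intro h3
            apply hi'
            rw [← h3, (f5a i).2.2.2.2.2]
          rw [hφn _ (hne _ hi), hφn _ (hne _ h3), g2 i, hc3 _ _ (hne _ hi) (hne _ h3)]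
  push Not at hmv
  -- all pairs are tight
  have htight : ∀ x ∈ S, ∀ y ∈ S, x ≠ y → ∃ j, Tt D a x y j := by
    intro x hx y hy hxy
    by_contra hcon
    have h1 : D x y = 1 := by
      by_contra h2
      have := hpos x hx y hy hxy
      exact hcon (hsh x hx y hy (by omega))
    push Not at hcon
    -- a third point
    obtain ⟨z, hz, hzx, hzy⟩ : ∃ z ∈ S, z ≠ x ∧ z ≠ y := by
      by_contra h3
      push Not at h3
      have hm3 : ∀ i, a i = x ∨ a i = y := by
        intro i
        by_cases h4 : a i = x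
        · exact Or.inl h4
        · exact Or.inr (h3 _ (ha i) h4)
      have hne2 : ∀ i j, i ≠ j → a i ≠ a j := by
        intro i j hij he
        have := hinj i j hij
        rw [he, h.self _ (ha j)] at this
        omega
      rcases hm3 0 with h0 | h0 <;> rcases hm3 1 with h1 | h1 <;> rcases hm3 2 with h2 | h2
      · exact hne2 0 1 (by decide) (h0.trans h1.symm)
      · exact hne2 0 1 (by decide) (h0.trans h1.symm)
      · exact hne2 0 2 (by decide) (h0.trans h2.symm)
      · exact hne2 1 2 (by decide) (h1.trans h2.symm)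
      · exact hne2 1 2 (by decide) (h1.trans h2.symm)
      · exact hne2 0 2 (by decide) (h0.trans h2.symm)
      · exact hne2 0 1 (by decide) (h0.trans h1.symm)
      · exact hne2 0 1 (by decide) (h0.trans h1.symm)
    have hxz := hpos x hx z hz hzx.symm
    have hyz := hpos y hy z hz hzy.symm
    -- `y` is not between `x` and `z`, `x` is not between `y` and `z`
    have b1 : ∀ u ∈ S, ∀ v ∈ S, u ≠ z → D u v = 1 → (∀ j, ¬ Tt D a u v j) → 2 ≤ D u z → D u v + D v z ≠ D u z := by
      intro u hu v hv huz huv hno h2 he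
      obtain ⟨j, hj⟩ := hsh u hu z hz h2
      rcases hj with hj | hj
      · have := (between h (ha j) (ha (j + 1)) hu hz hv hj he).1
        exact hno j (Or.inl this)
      · have he' : D z v + D v u = D z u := by
          rw [h.symm z hz v hv, h.symm v hv u hu, h.symm z hz u hu]; omega
        have := (between h (ha j) (ha (j + 1)) hz hu hv hj he').2
        exact hno j (Or.inr this)
    have hno' : ∀ j, ¬ Tt D a y x j := fun j hj => hcon j (hj.symm)
    have h1' : D y x = 1 := by rw [h.symm y hy x hx]; exact h1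
    obtain ⟨c1, hc1⟩ := h.ev x hx y hy z hz
    have t1 := h.tri x hx y hy z hz
    have t2 := h.tri y hy x hx z hz
    have k1 := b1 x hx y hy hzx.symm h1 hcon
    have k2 := b1 y hy x hx hzy.symm h1' hno'
    by_cases h5 : 2 ≤ D x z
    · have := k1 h5
      by_cases h6 : 2 ≤ D y z
      · have := k2 h6
        omega
      · omega
    · by_cases h6 : 2 ≤ D y z
      · have := k2 h6
        omega
      · omega
  -- opposite points
  have hall : ∀ m, D (a (m + 2)) (a m) + D (a m) (a (m + 3)) = D (a (m + 2)) (a (m + 3)) := by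
    intro m
    obtain ⟨y, hy, hym, z, hz, hzm, hyz⟩ := hmv m
    have hbet : D y (a m) + D (a m) z = D y z := by
      have t1 := h.tri y hy (a m) (ha m) z hz
      obtain ⟨b1, hb1⟩ := h.ev y hy (a m) (ha m) z hz
      omega
    have h1 := hpos y hy (a m) (ha m) hym
    have h2 := hpos (a m) (ha m) z hz hzm.symm
    have hyz' : y ≠ z := by
      rintro rfl
      rw [h.self y hy] at hbet
      omega
    -- `a m` is between `a j` and `a (j+1)`, different from both
    have hj : ∃ j, D (a j) (a m) + D (a m) (a (j + 1)) = D (a j) (a (j + 1)) ∧ 1 ≤ D (a j) (a m) ∧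
        1 ≤ D (a m) (a (j + 1)) := by
      obtain ⟨j, hj | hj⟩ := htight y hy z hz hyz'
      · refine ⟨j, ?_⟩
        have t1 := h.tri (a j) (ha _) y hy (a m) (ha m)
        have t2 := h.tri (a m) (ha m) z hz (a (j + 1)) (ha _)
        have t3 := h.tri (a j) (ha _) (a m) (ha m) (a (j + 1)) (ha _)
        have t4 := h.tri (a j) (ha _) (a m) (ha m) z hz
        have t5 := h.tri (a j) (ha _) z hz (a (j + 1)) (ha _)
        have t6 := h.tri y hy (a m) (ha m) (a (j + 1)) (ha _)
        have t7 := h.tri (a j) (ha _) y hy (a (j + 1)) (ha _)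
        refine ⟨by omega, by omega, by omega⟩
      · refine ⟨j, ?_⟩
        have e1 := h.symm z hz y hy
        have e2 := h.symm z hz (a m) (ha m)
        have e3 := h.symm (a m) (ha m) y hy
        have t1 := h.tri (a j) (ha _) z hz (a m) (ha m)
        have t2 := h.tri (a m) (ha m) y hy (a (j + 1)) (ha _)
        have t3 := h.tri (a j) (ha _) (a m) (ha m) (a (j + 1)) (ha _)
        have t4 := h.tri (a j) (ha _) (a m) (ha m) y hy
        have t5 := h.tri (a j) (ha _) y hy (a (j + 1)) (ha _)
        have t6 := h.tri z hz (a m) (ha m) (a (j + 1)) (ha _)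
        have t7 := h.tri (a j) (ha _) z hz (a (j + 1)) (ha _)
        refine ⟨by omega, by omega, by omega⟩
    obtain ⟨j, hj1, hj2, hj3⟩ := hj
    have hc : j = m ∨ j = m + 1 ∨ j = m + 2 ∨ j = m + 3 ∨ j = m + 4 := f5c j m
    rcases hc with rfl | rfl | rfl | rfl | rfl
    · rw [h.self _ (ha _)] at hj2; omega
    · exfalso
      refine hdeg m (m + 1) (ix m).2.2.2.2.1 (Or.inr ?_)
      rw [h.self _ (ha _), zero_add]
      exact hj1
    · rw [(ix m).2.2.1] at hj1
      exact hj1
    · exfalso
      rw [(ix m).2.2.2.1] at hj1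
      have hne : m + 3 ≠ m + 4 := (f5a m).1
      refine hdeg (m + 4) (m + 3) hne (Or.inr ?_)
      rw [(ix m).2.1, (ix m).2.2.2.1, h.self _ (ha _), add_zero]
      exact hj1
    · rw [(ix m).2.1, h.self _ (ha _)] at hj3; omega
  -- covering
  apply disc h a ha hall
  intro x hx m
  by_cases hxm : x = a m
  · left
    rw [hxm, h.self _ (ha _), zero_add]
  · obtain ⟨j, hj⟩ := htight x hx (a m) (ha m) hxm
    have hc : j = m ∨ j = m + 1 ∨ j = m + 2 ∨ j = m + 3 ∨ j = m + 4 := f5c j m
    unfold Tt at hj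
    have s0 := h.symm x hx (a m) (ha m)
    rcases hc with rfl | rfl | rfl | rfl | rfl
    · left
      rcases hj with hj | hj
      · have h1 := hpos x hx (a j) (ha j) hxm
        omega
      · rw [h.self _ (ha _)] at hj
        omega
    · exfalso
      rw [(ix m).1] at hj
      refine hdeg m (m + 1) (ix m).2.2.2.2.1 (Or.inr ?_)
      rw [h.self _ (ha _), (ix m).1, zero_add]
      rcases hj with hj | hj
      · have t1 := h.tri (a (m + 1)) (ha _) x hx (a m) (ha _)
        have t2 := h.tri (a (m + 1)) (ha _) (a m) (ha _) (a (m + 2)) (ha _)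
        omega
      · have t1 := h.tri (a m) (ha _) x hx (a (m + 2)) (ha _)
        have t2 := h.tri (a (m + 1)) (ha _) (a m) (ha _) (a (m + 2)) (ha _)
        omega
    · rw [(ix m).2.2.1] at hj
      have hm := hall m
      rcases hj with hj | hj
      · -- `x` between `a (m+2)` and `a m`
        right
        have h2 : D (a (m + 2)) x + D x (a m) = D (a (m + 2)) (a m) := by
          have t1 := h.tri (a (m + 2)) (ha _) x hx (a m) (ha _)
          omega
        have h3 := hall (m + 2)
        have e1 : m + 2 + 2 = m + 4 := (f5a m).2.1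
        have e2 : m + 2 + 3 = m := (f5a m).2.2.1
        rw [e1, e2] at h3
        have t1 := h.tri x hx (a (m + 2)) (ha _) (a (m + 4)) (ha _)
        have s1 := h.symm x hx (a (m + 2)) (ha _)
        have s2 := h.symm (a (m + 4)) (ha _) (a (m + 2)) (ha _)
        have t2 := h.tri (a (m + 4)) (ha _) x hx (a m) (ha _)
        have s3 := h.symm (a (m + 4)) (ha _) x hx
        omega
      · -- `x` between `a m` and `a (m+3)`
        left
        have h2 : D (a m) x + D x (a (m + 3)) = D (a m) (a (m + 3)) := by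
          have t1 := h.tri (a m) (ha _) x hx (a (m + 3)) (ha _)
          omega
        have h3 := hall (m + 3)
        have e1 : m + 3 + 2 = m := (f5a m).2.2.2.1
        have e2 : m + 3 + 3 = m + 1 := (f5a m).2.2.2.2.1
        rw [e1, e2] at h3
        have t1 := h.tri x hx (a (m + 3)) (ha _) (a (m + 1)) (ha _)
        have t2 := h.tri (a m) (ha _) x hx (a (m + 1)) (ha _)
        omega
    · exfalso
      rw [(ix m).2.2.2.1] at hj
      have hne : m + 3 ≠ m + 4 := (f5a m).1
      refine hdeg (m + 4) (m + 3) hne (Or.inr ?_)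
      rw [(ix m).2.1, (ix m).2.2.2.1, h.self _ (ha _), add_zero]
      rcases hj with hj | hj
      · have t1 := h.tri (a (m + 3)) (ha _) x hx (a m) (ha _)
        have t2 := h.tri (a (m + 3)) (ha _) (a m) (ha _) (a (m + 4)) (ha _)
        omega
      · have t1 := h.tri (a m) (ha _) x hx (a (m + 4)) (ha _)
        have t2 := h.tri (a (m + 3)) (ha _) (a m) (ha _) (a (m + 4)) (ha _)
        omega
    · right
      rw [(ix m).2.1] at hj
      have s1 := h.symm x hx (a (m + 4)) (ha _)
      rcases hj with hj | hj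
      · have h1 := h.self (a m) (ha _)
        omega
      · have h1 := hpos x hx (a m) (ha m) hxm
        omega

end Pool.Agent.H875
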