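import Pool.Agent.H875.Pent4
import Pool.Agent.H875.Five4
set_option autoImplicit false

/-! Supports whose odd edges, after a switching, are contained in a pentagon. -/

open Classical

namespace Pool.Agent.H875
open SgK4

variable {V : Type}

theorem good_pent0 (E : V → V → ℤ → Prop) (S : Finset V) (a : Fin 5 → V) (ha : ∀ i, a i ∈ S)
    (hE : ∀ x ∈ S, ∀ y ∈ S, ∀ z, E x y z → Odd z → ∃ i, (x = a i ∧ y = a (i + 1)) ∨ (x = a (i + 1) ∧ y = a i)) :
    Good E S := by
  intro k hk p W hW hWE hP hN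
  obtain ⟨D, a1, a2, a3, a4, a5, a6, a7, a8⟩ := exact_metric hk hW hP hN
  have hPM : PM k S D := by
    refine ⟨fun s _ => a1 s, a3, a5, a6, ?_⟩
    intro s hs t ht u hu
    obtain ⟨r1, hr1⟩ := a4 s hs t ht
    obtain ⟨r2, hr2⟩ := a4 t ht u hu
    obtain ⟨r3, hr3⟩ := a4 s hs u hu
    have : ((D s t + D t u + D s u : ℕ) : ℤ) = 2 * (r1 + r2 + r3 + p u - p s) := by
      push_cast; linear_combination hr1 + hr2 + hr3
    rw [Nat.even_iff]
    omega
  obtain ⟨φ, g1, g2⟩ := nice_main k a _ S D rfl hPM ha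
  refine ⟨φ, ?_, ?_⟩
  · intro x hx y hy z l hw
    rcases Int.even_or_odd z with hz | hz
    · rw [sd_even hz]
      exact (g1 x hx y hy).1.trans (a7 x hx y hy z l hw hz)
    · have h1 := sd_odd hz (φ x) (φ y)
      have h2 := a8 x hx y hy z l hw hz
      have h3 : hammingDist (φ x) (φ y) = D x y := by
        obtain ⟨i, ⟨rfl, rfl⟩ | ⟨rfl, rfl⟩⟩ := hE x hx y hy z (hWE x hx y hy z l hw) hz
        · exact g2 i
        · rw [hammingDist_comm, g2 i, a3 _ (ha _) _ (ha _)]
      omega
  · refine ⟨p (a 0) + wt (φ (a 0)), fun b hb => ?_⟩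
    obtain ⟨r1, hr1⟩ := (g1 b hb (a 0) (ha 0)).2
    obtain ⟨r2, hr2⟩ := a4 b hb (a 0) (ha 0)
    obtain ⟨r3, hr3⟩ := hd_parity (φ b) (φ (a 0))
    have hr1' : (hammingDist (φ b) (φ (a 0)) : ℤ) + D b (a 0) = r1 + r1 := by exact_mod_cast hr1
    refine ⟨r1 - r2 - r3 - p (a 0) - wt (φ (a 0)), ?_⟩
    linear_combination hr1' - hr2 - hr3

/-- switching of a weighted signed graph -/
def swW (W : V → V → ℤ → ℕ → Prop) (q : V → ℤ) : V → V → ℤ → ℕ → Prop := fun a b x l => W a b (x + q b - q a) l

/-- goodness is invariant under switching -/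
theorem good_switch (E : V → V → ℤ → Prop) (S : Finset V) (q : V → ℤ)
    (h : Good (fun a b x => E a b (x + q b - q a)) S) : Good E S := by
  intro k hk p W hW hWE hP hN
  have hWs : WGr (swW W q) := by
    refine ⟨?_, ?_, ?_⟩
    · intro a b x l h1
      have := hW.symm _ _ _ _ h1
      unfold swW
      have e : -x + q a - q b = -(x + q b - q a) := by ring
      rw [e]; exact this
    · intro a b x l h1
      have := hW.par _ _ _ _ h1
      unfold swW
      have e : x + 2 + q b - q a = x + q b - q a + 2 := by ring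
      rw [e]; exact this
    · intro a b x l h1
      exact hW.irr _ _ _ _ h1
  have hwalk : ∀ a b x l, Wk (swW W q) S a b x l → Wk W S a b (x + q b - q a) l := by
    intro a b x l h1
    induction h1 with
    | nil a ha =>
      have e : (0 : ℤ) + q a - q a = 0 := by ring
      rw [e]; exact Wk.nil a ha
    | @cons a b c x y l m ha hw t ih =>
      have e : x + y + q c - q a = (x + q b - q a) + (y + q c - q b) := by ring
      rw [e]; exact Wk.cons ha hw ih
  obtain ⟨φ, f1, c, f2⟩ := h k hk (fun a => p a + k * q a) (swW W q) hWs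
    (fun a ha b hb x l hw => hWE a ha b hb _ l hw)
    (by
      intro a ha b hb x l hw
      obtain ⟨r, hr⟩ := hP a ha b hb _ l hw
      exact ⟨r, by linear_combination hr⟩)
    (by
      intro a x l h1 hx
      have := hwalk _ _ _ _ h1
      have e : x + q a - q a = x := by ring
      rw [e] at this
      exact hN a x l this hx)
  refine ⟨fun a => fl (q a) (φ a), ?_, c, ?_⟩
  · intro a ha b hb x l hw
    have h1 := f1 a ha b hb (x + q a - q b) l (by
      unfold swW
      have e : x + q a - q b + q b - q a = x := by ring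
      rw [e]; exact hw)
    unfold sd at h1 ⊢
    have h2 : hammingDist (fl (q a) (φ a)) (fl x (fl (q b) (φ b))) =
        hammingDist (φ a) (fl (x + q a - q b) (φ b)) := by
      rw [← fl_add]
      rw [← hd_fl (-(q a)) (fl (q a) (φ a)), ← fl_add, ← fl_add, fl_even (x := -(q a) + q a) ⟨0, by ring⟩]
      congr 1
      exact fl_congr ⟨q b - q a, by ring⟩ _
    rw [h2]; exact h1
  · intro a ha
    obtain ⟨r, hr⟩ := f2 a ha
    have h1 : ∃ s : ℤ, (wt (fl (q a) (φ a)) : ℤ) = wt (φ a) + k * q a + 2 * s := by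
      rcases Int.even_or_odd (q a) with hq | hq
      · rw [fl_even hq]
        obtain ⟨t, ht⟩ := hq
        exact ⟨-(k * t), by rw [ht]; ring⟩
      · rw [fl_odd hq]
        obtain ⟨t, ht⟩ := hq
        have h2 := hd_add_compl zr (φ a)
        unfold wt
        rw [hammingDist_comm zr (φ a), hammingDist_comm zr (fun i => !(φ a i))] at h2
        have h3 : (hammingDist (φ a) zr : ℤ) + hammingDist (fun i => !(φ a i)) zr = k := by exact_mod_cast h2
        exact ⟨-(k * t) - hammingDist (φ a) zr, by rw [ht]; linear_combination h3⟩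
    obtain ⟨s, hs⟩ := h1
    refine ⟨r + s + k * q a, ?_⟩
    show (wt (fl (q a) (φ a)) : ℤ) - p a - c = _
    rw [hs]
    linear_combination hr

theorem good_pent (E : V → V → ℤ → Prop) (S : Finset V) (q : V → ℤ) (a : Fin 5 → V) (ha : ∀ i, a i ∈ S)
    (hE : ∀ x ∈ S, ∀ y ∈ S, ∀ z, E x y z → Odd (z - q y + q x) →
      ∃ i, (x = a i ∧ y = a (i + 1)) ∨ (x = a (i + 1) ∧ y = a i)) : Good E S := by
  apply good_switch E S q
  apply good_pent0 _ S a ha
  intro x hx y hy z h1 hz
  apply hE x hx y hy _ h1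
  have e : z + q y - q x - q y + q x = z := by ring
  rw [e]; exact hz

end Pool.Agent.H875
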