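import Pool.Agent.H875.ToCube
set_option autoImplicit false

/-! Shortest unbalanced cycles are rigid: any two fitting maps of such a cycle differ by an isometry. -/

open Classical

namespace Pool.Agent.H875
open SgK4

variable {V : Type} {k : ℕ}

theorem fl_inj {x : ℤ} {u v : Fin k → Bool} (h : fl x u = fl x v) : u = v := by
  have h2 : hammingDist (fl x u) (fl x v) = 0 := by rw [h]; exact hammingDist_self _
  rw [hd_fl] at h2
  exact hammingDist_eq_zero.mp h2

/-- the steps at which the coordinates flip along a closed geodesic -/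
theorem flips (Y : ℕ → Fin k → Bool) (h1 : ∀ i < k, hammingDist (Y i) (Y (i + 1)) ≤ 1)
    (h0 : ∀ j, Y 0 j ≠ Y k j) :
    ∃ τ : Fin k → Fin k, Function.Bijective τ ∧ ∀ j, ∀ i ≤ k, xor (Y 0 j) (Y i j) = decide ((τ j : ℕ) < i) := by
  have hex : ∀ j : Fin k, ∃ i : Fin k, Y i j ≠ Y (i + 1) j := by
    intro j
    by_contra hcon
    push Not at hcon
    have : ∀ i ≤ k, Y i j = Y 0 j := by
      intro i
      induction i with
      | zero => intro _; rfl
      | succ i ih =>
        intro hi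
        have h2 := hcon ⟨i, by omega⟩
        simp only at h2
        rw [← h2]
        exact ih (by omega)
    exact h0 j (this k le_rfl).symm
  choose τ hτ using hex
  have huniq : ∀ i < k, ∀ j j', Y i j ≠ Y (i + 1) j → Y i j' ≠ Y (i + 1) j' → j = j' := by
    intro i hi j j' hj hj'
    have h2 := h1 i hi
    unfold hammingDist at h2
    rw [Finset.card_le_one] at h2
    exact h2 j (by simpa using hj) j' (by simpa using hj')
  have hinj : Function.Injective τ := by
    intro j j' hjj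
    have h2 := hτ j
    rw [hjj] at h2
    exact huniq (τ j') (τ j').2 j j' h2 (hτ j')
  have hbij : Function.Bijective τ := Finite.injective_iff_bijective.mp hinj
  refine ⟨τ, hbij, ?_⟩
  have honly : ∀ j, ∀ i < k, (Y i j ≠ Y (i + 1) j ↔ i = τ j) := by
    intro j i hi
    constructor
    · intro h
      obtain ⟨j0, hj0⟩ := hbij.2 ⟨i, hi⟩
      have h3 := hτ j0
      rw [hj0] at h3
      have h4 := huniq i hi j j0 h h3
      rw [h4, hj0]
    · intro h
      rw [h]
      exact hτ j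
  intro j i
  induction i with
  | zero => intro _; simp
  | succ i ih =>
    intro hi
    have h2 := ih (by omega)
    have h3 := honly j i (by omega)
    by_cases hiτ : i = τ j
    · have h4 := h3.mpr hiτ
      have h5 : decide ((τ j : ℕ) < i) = false := by rw [decide_eq_false_iff_not]; omega
      have h6 : decide ((τ j : ℕ) < i + 1) = true := by rw [decide_eq_true_iff]; omega
      rw [h5] at h2
      rw [h6]
      revert h2 h4
      cases Y 0 j <;> cases Y i j <;> cases Y (i + 1) j <;> simp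
    · have h4 := not_ne_iff.mp ((not_congr h3).mpr hiτ)
      rw [← h4, h2]
      congr 1
      apply propext
      constructor
      · intro h; omega
      · intro h
        rcases Nat.lt_succ_iff_lt_or_eq.mp h with h | h
        · exact h
        · exact absurd h.symm hiτ

/-- alignment of two closed geodesics -/
theorem align_cycle (Y1 Y2 : ℕ → Fin k → Bool) (h1 : ∀ i < k, hammingDist (Y1 i) (Y1 (i + 1)) ≤ 1)
    (h2 : ∀ i < k, hammingDist (Y2 i) (Y2 (i + 1)) ≤ 1) (h01 : ∀ j, Y1 0 j ≠ Y1 k j) (h02 : ∀ j, Y2 0 j ≠ Y2 k j) :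
    ∃ α : (Fin k → Bool) → (Fin k → Bool), Isom α ∧ ∀ i ≤ k, α (Y2 i) = Y1 i := by
  obtain ⟨τ1, b1, e1⟩ := flips Y1 h1 h01
  obtain ⟨τ2, b2, e2⟩ := flips Y2 h2 h02
  let σ : Equiv.Perm (Fin k) := (Equiv.ofBijective τ1 b1).trans (Equiv.ofBijective τ2 b2).symm
  have hσ : ∀ j, τ2 (σ j) = τ1 j := by
    intro j
    show τ2 ((Equiv.ofBijective τ2 b2).symm (τ1 j)) = τ1 j
    exact (Equiv.ofBijective τ2 b2).apply_symm_apply (τ1 j)
  refine ⟨fun w j => xor (Y1 0 j) (xor (Y2 0 (σ j)) (w (σ j))), ?_, ?_⟩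
  · apply isom_of_hd
    intro u v
    rw [hd_xor (Y1 0) (fun j => xor (Y2 0 (σ j)) (u (σ j))) (fun j => xor (Y2 0 (σ j)) (v (σ j)))]
    rw [hd_perm σ (fun j => xor (Y2 0 j) (u j)) (fun j => xor (Y2 0 j) (v j)), hd_xor]
  · intro i hi
    funext j
    simp only
    rw [e2 (σ j) i hi, hσ, ← e1 j i hi]
    simp

/-- two maps fitting a shortest unbalanced closed walk differ by an isometry on it -/
theorem rigid_cycle (φ1 φ2 : V → Fin k → Bool) (v : ℕ → V) (x : ℕ → ℤ) (hcl : v k = v 0)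
    (hodd : Odd (∑ i ∈ Finset.range k, x i)) (h1 : ∀ i < k, sd (x i) (φ1 (v i)) (φ1 (v (i + 1))) ≤ 1)
    (h2 : ∀ i < k, sd (x i) (φ2 (v i)) (φ2 (v (i + 1))) ≤ 1) :
    ∃ α : (Fin k → Bool) → (Fin k → Bool), Isom α ∧ ∀ i ≤ k, α (φ2 (v i)) = φ1 (v i) := by
  have key : ∀ φ : V → Fin k → Bool, (∀ i < k, sd (x i) (φ (v i)) (φ (v (i + 1))) ≤ 1) →
      (∀ i < k, hammingDist (fl (∑ t ∈ Finset.range i, x t) (φ (v i)))
        (fl (∑ t ∈ Finset.range (i + 1), x t) (φ (v (i + 1)))) ≤ 1) ∧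
      ∀ j, fl (∑ t ∈ Finset.range 0, x t) (φ (v 0)) j ≠ fl (∑ t ∈ Finset.range k, x t) (φ (v k)) j := by
    intro φ h
    constructor
    · intro i hi
      rw [Finset.sum_range_succ, fl_add, hd_fl]
      exact h i hi
    · intro j
      rw [Finset.sum_range_zero, fl_even (x := 0) ⟨0, by ring⟩, fl_odd hodd, hcl]
      simp
  obtain ⟨a1, b1⟩ := key φ1 h1
  obtain ⟨a2, b2⟩ := key φ2 h2
  obtain ⟨α, hα, he⟩ := align_cycle (fun i => fl (∑ t ∈ Finset.range i, x t) (φ1 (v i)))
    (fun i => fl (∑ t ∈ Finset.range i, x t) (φ2 (v i))) a1 a2 b1 b2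
  refine ⟨α, hα, fun i hi => ?_⟩
  have h3 := he i hi
  have h4 := hα (∑ t ∈ Finset.range i, x t) (fl (∑ t ∈ Finset.range i, x t) (φ2 (v i))) (φ2 (v i))
  unfold sd at h4
  rw [h3, hammingDist_self] at h4
  have h5 := hammingDist_eq_zero.mp h4
  exact (fl_inj h5).symm

end Pool.Agent.H875
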