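import Pool.Agent.H875.Rigid
set_option autoImplicit false

/-! Rigid sets. -/

open Classical

namespace Pool.Agent.H875
open SgK4

variable {V : Type} {k : ℕ}

theorem hd_step {u w z : Fin k → Bool} {j : Fin k} (h : ∀ i, i ≠ j → u i = w i) (hj : u j ≠ w j) (hz : z j = u j) :
    hammingDist z w = hammingDist z u + 1 := by
  unfold hammingDist
  have e : (Finset.univ.filter fun i => z i ≠ w i) = insert j (Finset.univ.filter fun i => z i ≠ u i) := by
    ext i
    simp only [Finset.mem_filter, Finset.mem_univ, true_and, Finset.mem_insert]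
    by_cases hi : i = j
    · subst hi
      simp only [true_or, iff_true]
      rw [hz]; exact hj
    · rw [h i hi]; simp [hi]
  rw [e, Finset.card_insert_of_notMem]
  simp [hz]

/-- a point is determined by its distances to a closed geodesic -/
theorem determined (Y : ℕ → Fin k → Bool) (h1 : ∀ i < k, hammingDist (Y i) (Y (i + 1)) ≤ 1)
    (h0 : ∀ j, Y 0 j ≠ Y k j) {z z' : Fin k → Bool} (h : ∀ i ≤ k, hammingDist z (Y i) = hammingDist z' (Y i)) :
    z = z' := by
  obtain ⟨τ, -, hτ⟩ := flips Y h1 h0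
  funext j
  have hi : ((τ j : ℕ)) < k := (τ j).2
  have hne : Y (τ j) j ≠ Y (τ j + 1) j := by
    have e1 := hτ j (τ j) hi.le
    have e2 := hτ j (τ j + 1) hi
    rw [decide_eq_false (lt_irrefl _)] at e1
    rw [decide_eq_true (Nat.lt_succ_self _)] at e2
    revert e1 e2
    cases Y 0 j <;> cases Y (τ j) j <;> cases Y (τ j + 1) j <;> simp
  have hoth : ∀ i, i ≠ j → Y (τ j) i = Y (τ j + 1) i := by
    intro i hij
    by_contra hcon
    have h2 := h1 (τ j) hi
    unfold hammingDist at h2
    rw [Finset.card_le_one] at h2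
    exact hij (h2 i (by simpa using hcon) j (by simpa using hne))
  have a1 := h (τ j) hi.le
  have a2 := h (τ j + 1) hi
  have hoth' : ∀ i, i ≠ j → Y (τ j + 1) i = Y (τ j) i := fun i hij => (hoth i hij).symm
  by_cases hz : z j = Y (τ j) j
  · have b1 := hd_step hoth hne hz
    by_cases hz' : z' j = Y (τ j) j
    · rw [hz, hz']
    · exfalso
      have hz'' : z' j = Y (τ j + 1) j := by
        revert hz' hne
        cases z' j <;> cases Y (τ j) j <;> cases Y (τ j + 1) j <;> simp
      have b2 := hd_step hoth' hne.symm hz''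
      omega
  · have hz1 : z j = Y (τ j + 1) j := by
      revert hz hne
      cases z j <;> cases Y (τ j) j <;> cases Y (τ j + 1) j <;> simp
    have b1 := hd_step hoth' hne.symm hz1
    by_cases hz' : z' j = Y (τ j) j
    · exfalso
      have b2 := hd_step hoth hne hz'
      omega
    · have hz'' : z' j = Y (τ j + 1) j := by
        revert hz' hne
        cases z' j <;> cases Y (τ j) j <;> cases Y (τ j + 1) j <;> simp
      rw [hz1, hz'']

/-- two fitting maps agree, up to an isometry, on a set in which any two vertices lie on a common unbalanced closed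
walk of length `k` -/
theorem rigid_set {W : V → V → ℤ → ℕ → Prop} {T : Finset V} (hW1 : ∀ a b x l, W a b x l → l = 1)
    {φ1 φ2 : V → Fin k → Bool} (h1 : Fit φ1 W T) (h2 : Fit φ2 W T) (hne : T.Nonempty)
    (hr : ∀ a ∈ T, ∀ b ∈ T, ∃ x y m n, Wk W T a b x m ∧ Wk W T b a y n ∧ Odd (x + y) ∧ m + n = k) :
    ∃ α : (Fin k → Bool) → (Fin k → Bool), Isom α ∧ ∀ t ∈ T, α (φ2 t) = φ1 t := by
  -- equal distances
  have hd : ∀ a ∈ T, ∀ b ∈ T, hammingDist (φ1 a) (φ1 b) = hammingDist (φ2 a) (φ2 b) := by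
    intro a ha b hb
    obtain ⟨x, y, m, n, w1, w2, hxy, hmn⟩ := hr a ha b hb
    have key : ∀ φ : V → Fin k → Bool, Fit φ W T → sd x (φ a) (φ b) = m := by
      intro φ hφ
      have c1 := hφ.wk w1
      have c2 := hφ.wk w2
      have c3 := sd_trans x y (φ a) (φ b) (φ a)
      rw [sd_self_odd hxy] at c3
      omega
    have c1 := key φ1 h1
    have c2 := key φ2 h2
    rcases Int.even_or_odd x with hx | hx
    · rw [sd_even hx] at c1 c2
      omega
    · have d1 := sd_odd hx (φ1 a) (φ1 b)
      have d2 := sd_odd hx (φ2 a) (φ2 b)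
      omega
  -- a closed walk as a function
  have hfun : ∀ {a b : V} {x : ℤ} {l : ℕ}, Wk W T a b x l → ∃ (v : ℕ → V) (s : ℕ → ℤ), v 0 = a ∧ v l = b ∧
      (∀ i < l, v i ∈ T ∧ W (v i) (v (i + 1)) (s i) 1) ∧ x = ∑ i ∈ Finset.range l, s i := by
    intro a b x l h
    induction h with
    | nil a ha => exact ⟨fun _ => a, fun _ => 0, rfl, rfl, by simp, by simp⟩
    | @cons a b c x y l m ha hW t ih =>
      obtain ⟨v, s, h0, hm, hinc, hx⟩ := ih
      have hl := hW1 _ _ _ _ hW
      subst hl
      refine ⟨fun i => Nat.casesOn i a v, fun i => Nat.casesOn i x s, rfl, ?_, ?_, ?_⟩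
      · rw [add_comm 1 m]; exact hm
      · intro i hi
        cases i with
        | zero =>
          refine ⟨ha, ?_⟩
          show W a (v 0) x 1
          rw [h0]; exact hW
        | succ i => exact hinc i (by omega)
      · rw [add_comm 1 m, Finset.sum_range_succ', hx]
        show x + ∑ i ∈ Finset.range m, s i = ∑ i ∈ Finset.range m, s i + x
        ring
  obtain ⟨a, ha⟩ := hne
  obtain ⟨x, y, m, n, w1, w2, hxy, hmn⟩ := hr a ha a ha
  obtain ⟨v, s, hv0, hvk, hinc, hsum⟩ := hfun (w1.trans w2)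
  rw [hmn] at hvk hinc hsum
  have hvT : ∀ i ≤ k, v i ∈ T := by
    intro i hi
    rcases Nat.lt_or_ge i k with h | h
    · exact (hinc i h).1
    · have : i = k := le_antisymm hi h
      rw [this, hvk]; exact ha
  have s1 : ∀ φ : V → Fin k → Bool, Fit φ W T → ∀ i < k, sd (s i) (φ (v i)) (φ (v (i + 1))) ≤ 1 := by
    intro φ hφ i hi
    exact hφ _ (hvT i hi.le) _ (hvT (i + 1) hi) _ _ (hinc i hi).2
  obtain ⟨α, hα, hαv⟩ := rigid_cycle φ1 φ2 v s (hvk.trans hv0.symm) (by rw [← hsum]; exact hxy) (s1 φ1 h1) (s1 φ2 h2)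
  refine ⟨α, hα, ?_⟩
  intro t ht
  -- the unrolled walk
  apply determined (fun i => fl (∑ r ∈ Finset.range i, s r) (φ1 (v i)))
  · intro i hi
    rw [Finset.sum_range_succ, fl_add, hd_fl]
    exact s1 φ1 h1 i hi
  · intro j
    rw [Finset.sum_range_zero, fl_even (x := 0) ⟨0, by ring⟩, ← hsum, fl_odd hxy, hvk, hv0]
    simp
  · intro i hi
    have e1 := hα (∑ r ∈ Finset.range i, s r) (φ2 t) (φ2 (v i))
    rw [hαv i hi] at e1
    show sd (∑ r ∈ Finset.range i, s r) (α (φ2 t)) (φ1 (v i)) = sd (∑ r ∈ Finset.range i, s r) (φ1 t) (φ1 (v i))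
    rw [e1]
    have e2 := hd t ht (v i) (hvT i hi)
    rcases Int.even_or_odd (∑ r ∈ Finset.range i, s r) with hx | hx
    · rw [sd_even hx, sd_even hx, e2]
    · have d1 := sd_odd hx (φ1 t) (φ1 (v i))
      have d2 := sd_odd hx (φ2 t) (φ2 (v i))
      omega

end Pool.Agent.H875
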