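import Pool.Agent.SgK4.Main
import Pool.Agent.H875.Cube
set_option autoImplicit false

/-! Weighted signed graphs: parity, rooting at a set of terminals, fixing distances. -/

namespace Pool.Agent.H875
open SgK4

variable {V : Type} {k : ℕ}

/-- parity consistency (length against potential and sign) -/
def Par (k : ℕ) (p : V → ℤ) (W : V → V → ℤ → ℕ → Prop) (S : Finset V) : Prop :=
  ∀ a ∈ S, ∀ b ∈ S, ∀ x l, W a b x l → Even ((l : ℤ) - (p b - p a) - k * x)

/-- `φ` satisfies all constraints -/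
def Fit (φ : V → Fin k → Bool) (W : V → V → ℤ → ℕ → Prop) (S : Finset V) : Prop :=
  ∀ a ∈ S, ∀ b ∈ S, ∀ x l, W a b x l → sd x (φ a) (φ b) ≤ l

theorem Par.wk {p : V → ℤ} {W : V → V → ℤ → ℕ → Prop} {S : Finset V} (h : Par k p W S) {a b : V} {x : ℤ} {l : ℕ}
    (hw : Wk W S a b x l) : Even ((l : ℤ) - (p b - p a) - k * x) := by
  induction hw with
  | nil a ha => simp
  | @cons a b c x y l m ha hW t ih =>
    have h1 := h a ha b t.left_mem x l hW
    obtain ⟨r, hr⟩ := h1.add ih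
    exact ⟨r, by push_cast; linear_combination hr⟩

theorem Fit.wk {φ : V → Fin k → Bool} {W : V → V → ℤ → ℕ → Prop} {S : Finset V} (h : Fit φ W S) {a b : V} {x : ℤ}
    {l : ℕ} (hw : Wk W S a b x l) : sd x (φ a) (φ b) ≤ l := by
  induction hw with
  | nil a ha => rw [sd_self_even (x := 0) ⟨0, by ring⟩]
  | @cons a b c x y l m ha hW t ih =>
    have h1 := h a ha b t.left_mem x l hW
    have h2 := sd_trans x y (φ a) (φ b) (φ c)
    omega

theorem Fit.mono {φ : V → Fin k → Bool} {W W' : V → V → ℤ → ℕ → Prop} {S S' : Finset V} (h : Fit φ W S)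
    (hS : S' ⊆ S) (hW : ∀ a ∈ S', ∀ b ∈ S', ∀ x l, W' a b x l → W a b x l) : Fit φ W' S' :=
  fun a ha b hb x l h' => h a (hS ha) b (hS hb) x l (hW a ha b hb x l h')

theorem Par.mono {p : V → ℤ} {W W' : V → V → ℤ → ℕ → Prop} {S S' : Finset V} (h : Par k p W S)
    (hS : S' ⊆ S) (hW : ∀ a ∈ S', ∀ b ∈ S', ∀ x l, W' a b x l → W a b x l) : Par k p W' S' :=
  fun a ha b hb x l h' => h a (hS ha) b (hS hb) x l (hW a ha b hb x l h')

/-- add exact distances between the terminals `T` -/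
def RT (W : V → V → ℤ → ℕ → Prop) (T : Finset V) (φ : V → Fin k → Bool) : V → V → ℤ → ℕ → Prop :=
  fun a b x l => W a b x l ∨ (a ∈ T ∧ b ∈ T ∧ a ≠ b ∧ l = sd x (φ a) (φ b))

theorem rt_wgr {W : V → V → ℤ → ℕ → Prop} (hW : WGr W) (T : Finset V) (φ : V → Fin k → Bool) : WGr (RT W T φ) := by
  refine ⟨?_, ?_, ?_⟩
  · rintro a b x l (h | ⟨h1, h2, h3, h4⟩)
    · exact Or.inl (hW.symm _ _ _ _ h)
    · exact Or.inr ⟨h2, h1, h3.symm, by rw [h4, sd_symm]⟩
  · rintro a b x l (h | ⟨h1, h2, h3, h4⟩)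
    · exact Or.inl (hW.par _ _ _ _ h)
    · exact Or.inr ⟨h1, h2, h3, by rw [h4]; exact (sd_congr ⟨1, by ring⟩ _ _).symm⟩
  · rintro a b x l (h | ⟨h1, h2, h3, h4⟩)
    · exact hW.irr _ _ _ _ h
    · exact h3

theorem rt_par {p : V → ℤ} {W : V → V → ℤ → ℕ → Prop} {S : Finset V} (hP : Par k p W S) (T : Finset V)
    (φ : V → Fin k → Bool) (hT : ∀ a ∈ T, ∀ b ∈ T, Even (((wt (φ b) : ℤ) - wt (φ a)) - (p b - p a))) :
    Par k p (RT W T φ) S := by
  rintro a ha b hb x l (h | ⟨h1, h2, h3, rfl⟩)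
  · exact hP a ha b hb x l h
  · obtain ⟨r, hr⟩ := (sd_parity x (φ a) (φ b)).add (hT a h1 b h2)
    exact ⟨r, by linear_combination hr⟩

theorem rt_decomp {W : V → V → ℤ → ℕ → Prop} {S T : Finset V} {φ : V → Fin k → Bool}
    (hC : ∀ a ∈ T, ∀ b ∈ T, ∀ x l, Wk W S a b x l → sd x (φ a) (φ b) ≤ l)
    {s t : V} {x : ℤ} {l : ℕ} (h : Wk (RT W T φ) S s t x l) :
    Wk W S s t x l ∨ ∃ (u v : V) (x1 x2 x3 : ℤ) (l1 l2 l3 : ℕ), u ∈ T ∧ v ∈ T ∧
      Wk W S s u x1 l1 ∧ sd x2 (φ u) (φ v) ≤ l2 ∧ Wk W S v t x3 l3 ∧ x = x1 + x2 + x3 ∧ l = l1 + l2 + l3 := by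
  induction h with
  | nil s hs => left; exact Wk.nil s hs
  | @cons s u' t y y' m m' hs h hw ih =>
    rcases h with h | ⟨hsT, huT, hne, hl⟩
    · rcases ih with ih | ⟨u, v, x1, x2, x3, l1, l2, l3, hu, hv, w1, c, w3, ex, el⟩
      · left; exact Wk.cons hs h ih
      · right
        exact ⟨u, v, y + x1, x2, x3, m + l1, l2, l3, hu, hv, Wk.cons hs h w1, c, w3,
          by rw [ex]; ring, by rw [el]; ring⟩
    · right
      rcases ih with ih | ⟨u, v, x1, x2, x3, l1, l2, l3, hu, hv, w1, c, w3, ex, el⟩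
      · exact ⟨s, u', 0, y, y', 0, m, m', hsT, huT, Wk.nil s hs, by rw [hl], ih, by ring, by ring⟩
      · have hc2 := hC _ huT _ hu _ _ w1
        refine ⟨s, v, 0, y + x1 + x2, x3, 0, m + l1 + l2, l3, hsT, hv, Wk.nil s hs, ?_, w3,
          by rw [ex]; ring, by rw [el]; ring⟩
        have h1 := sd_trans y x1 (φ s) (φ u') (φ u)
        have h2 := sd_trans (y + x1) x2 (φ s) (φ u) (φ v)
        omega

/-- rooting keeps the unbalanced girth -/
theorem rt_neg {W : V → V → ℤ → ℕ → Prop} {S T : Finset V} {φ : V → Fin k → Bool}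
    (hC : ∀ a ∈ T, ∀ b ∈ T, ∀ x l, Wk W S a b x l → sd x (φ a) (φ b) ≤ l)
    (hN : Neg W S k) : Neg (RT W T φ) S k := by
  intro s x l hw hx
  rcases rt_decomp hC hw with h | ⟨u, v, x1, x2, x3, l1, l2, l3, hu, hv, w1, c, w3, ex, el⟩
  · exact hN s x l h hx
  · have h1 := hC _ hv _ hu _ _ (w3.trans w1)
    have h2 := sd_trans x2 (x3 + x1) (φ u) (φ v) (φ u)
    have h3 : sd (x2 + (x3 + x1)) (φ u) (φ u) = k := by
      apply sd_self_odd
      have : x2 + (x3 + x1) = x := by rw [ex]; ring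
      rw [this]; exact hx
    omega

/-- the terminals condition for closed walks is automatic -/
theorem closed_ok {W : V → V → ℤ → ℕ → Prop} {S : Finset V} {φ : V → Fin k → Bool} (hN : Neg W S k) (a : V) (x : ℤ)
    (l : ℕ) (hw : Wk W S a a x l) : sd x (φ a) (φ a) ≤ l := by
  rcases Int.even_or_odd x with hx | hx
  · rw [sd_self_even hx]; exact Nat.zero_le _
  · rw [sd_self_odd hx]; exact hN a x l hw hx

/-- a vector of weight `d` -/
def ones (k d : ℕ) : Fin k → Bool := fun i => decide ((i : ℕ) < d)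

theorem wt_ones {d : ℕ} (hd : d ≤ k) : wt (ones k d) = d := by
  unfold wt hammingDist zr ones
  have : (Finset.univ.filter fun i : Fin k => (decide ((i : ℕ) < d)) ≠ false) =
      Finset.univ.filter fun i : Fin k => (i : ℕ) < d := by
    ext i; simp
  rw [this, Fin.card_filter_val_lt]
  omega

/-- exactness of a pair -/
def Ex (k : ℕ) (W : V → V → ℤ → ℕ → Prop) (a b : V) (d : ℕ) : Prop :=
  d ≤ k ∧ (∀ x, Even x → W a b x d) ∧ (∀ x, Odd x → W a b x (k - d))

theorem Ex.symm {W : V → V → ℤ → ℕ → Prop} (hW : WGr W) {a b : V} {d : ℕ} (h : Ex k W a b d) : Ex k W b a d := by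
  refine ⟨h.1, fun x hx => ?_, fun x hx => ?_⟩
  · have := hW.symm _ _ _ _ (h.2.1 (-x) hx.neg)
    rwa [neg_neg] at this
  · have := hW.symm _ _ _ _ (h.2.2 (-x) hx.neg)
    rwa [neg_neg] at this

/-- one distance can be fixed -/
theorem fix_one (hk : 0 < k) {p : V → ℤ} {W : V → V → ℤ → ℕ → Prop} {S : Finset V} (hW : WGr W) (hP : Par k p W S)
    (hN : Neg W S k) {s t : V} (hs : s ∈ S) (ht : t ∈ S) (hst : s ≠ t) :
    ∃ W' : V → V → ℤ → ℕ → Prop, (∀ a b x l, W a b x l → W' a b x l) ∧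
      (∀ a b x l, W' a b x l → W a b x l ∨ (a = s ∧ b = t) ∨ (a = t ∧ b = s)) ∧
      WGr W' ∧ Par k p W' S ∧ Neg W' S k ∧ ∃ d, Ex k W' s t d := by
  classical
  -- the choice of the distance
  obtain ⟨d, hdk, hdp, hd0, hd1⟩ : ∃ d : ℕ, d ≤ k ∧ Even ((d : ℤ) - (p t - p s)) ∧
      (∀ x l, Even x → Wk W S s t x l → d ≤ l) ∧ (∀ x l, Odd x → Wk W S s t x l → k ≤ d + l) := by
    by_cases hex : ∃ l : ℕ, l ≤ k ∧ ∃ x, Even x ∧ Wk W S s t x l
    · have hmin := Nat.find_spec hex
      set d := Nat.find hex with hd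
      obtain ⟨hdk, x0, hx0, hw0⟩ := hmin
      refine ⟨d, hdk, ?_, ?_, ?_⟩
      · have := hP.wk hw0
        obtain ⟨r, hr⟩ := hx0
        obtain ⟨m, hm⟩ := this
        refine ⟨m + k * r, ?_⟩
        rw [hr] at hm
        linear_combination hm
      · intro x l hx hw
        by_contra hlt
        push Not at hlt
        exact Nat.find_min hex hlt ⟨by omega, x, hx, hw⟩
      · intro x l hx hw
        have hw2 := hw0.trans (hw.symm hW.symm)
        have := hN s _ _ hw2 (hx0.add_odd hx.neg)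
        exact this
    · push Not at hex
      by_cases hpar : Even ((k : ℤ) - (p t - p s))
      · refine ⟨k, le_rfl, hpar, ?_, fun x l _ _ => by omega⟩
        intro x l hx hw
        by_contra hlt
        exact hex l (by omega) x hx hw
      · refine ⟨k - 1, by omega, ?_, ?_, ?_⟩
        · rw [Int.not_even_iff_odd] at hpar
          obtain ⟨r, hr⟩ := hpar
          exact ⟨r, by omega⟩
        · intro x l hx hw
          by_contra hlt
          exact hex l (by omega) x hx hw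
        · intro x l hx hw
          have h1 := hP.wk hw
          have h2 : l ≠ 0 := by
            rintro rfl
            apply hpar
            obtain ⟨r, hr⟩ := hx
            obtain ⟨m, hm⟩ := h1
            refine ⟨m + k * (r + 1), ?_⟩
            rw [hr] at hm
            push_cast at hm
            linear_combination hm
          omega
  let φ : V → Fin k → Bool := fun v => if v = s then zr else ones k d
  have hφs : φ s = zr := by simp [φ]
  have hφt : φ t = ones k d := by simp [φ, hst.symm]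
  have hwz : wt (zr : Fin k → Bool) = 0 := by unfold wt; exact hammingDist_self _
  have hde : ∀ x, Even x → sd x (φ s) (φ t) = d := by
    intro x hx
    rw [hφs, hφt, sd_even hx, hammingDist_comm]
    exact wt_ones hdk
  have hdo : ∀ x, Odd x → sd x (φ s) (φ t) = k - d := by
    intro x hx
    have := sd_odd hx (φ s) (φ t)
    have h2 := hde 0 ⟨0, by ring⟩
    rw [sd_zero] at h2
    omega
  have hst' : ∀ x l, Wk W S s t x l → sd x (φ s) (φ t) ≤ l := by
    intro x l hw
    rcases Int.even_or_odd x with hx | hx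
    · rw [hde x hx]; exact hd0 x l hx hw
    · rw [hdo x hx]; have := hd1 x l hx hw; omega
  have hC : ∀ a ∈ ({s, t} : Finset V), ∀ b ∈ ({s, t} : Finset V), ∀ x l, Wk W S a b x l →
      sd x (φ a) (φ b) ≤ l := by
    intro a ha b hb x l hw
    simp only [Finset.mem_insert, Finset.mem_singleton] at ha hb
    rcases ha with rfl | rfl <;> rcases hb with rfl | rfl
    · exact closed_ok hN _ x l hw
    · exact hst' x l hw
    · have := hst' (-x) l (hw.symm hW.symm)
      rwa [sd_symm] at this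
    · exact closed_ok hN _ x l hw
  refine ⟨RT W {s, t} φ, fun a b x l h => Or.inl h, ?_, rt_wgr hW _ _, ?_, rt_neg hC hN, d, hdk, ?_, ?_⟩
  · rintro a b x l (h | ⟨h1, h2, h3, h4⟩)
    · exact Or.inl h
    · simp only [Finset.mem_insert, Finset.mem_singleton] at h1 h2
      rcases h1 with rfl | rfl <;> rcases h2 with rfl | rfl
      · exact absurd rfl h3
      · exact Or.inr (Or.inl ⟨rfl, rfl⟩)
      · exact Or.inr (Or.inr ⟨rfl, rfl⟩)
      · exact absurd rfl h3
  · apply rt_par hP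
    intro a ha b hb
    simp only [Finset.mem_insert, Finset.mem_singleton] at ha hb
    rcases ha with rfl | rfl <;> rcases hb with rfl | rfl
    · simp
    · rw [hφs, hφt, hwz, wt_ones hdk]; simpa using hdp
    · rw [hφs, hφt, hwz, wt_ones hdk]
      obtain ⟨m, hm⟩ := hdp
      exact ⟨-m, by push_cast; linear_combination -hm⟩
    · simp
  · intro x hx
    exact Or.inr ⟨by simp, by simp, hst, (hde x hx).symm⟩
  · intro x hx
    exact Or.inr ⟨by simp, by simp, hst, (hdo x hx).symm⟩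

/-- a list of distances can be fixed -/
theorem fix_list (hk : 0 < k) {p : V → ℤ} {S : Finset V} (L : List (V × V)) :
    ∀ {W : V → V → ℤ → ℕ → Prop}, WGr W → Par k p W S → Neg W S k →
    (∀ q ∈ L, q.1 ∈ S ∧ q.2 ∈ S ∧ q.1 ≠ q.2) →
    ∃ W' : V → V → ℤ → ℕ → Prop, (∀ a b x l, W a b x l → W' a b x l) ∧
      (∀ a b x l, W' a b x l → W a b x l ∨ (a, b) ∈ L ∨ (b, a) ∈ L) ∧
      WGr W' ∧ Par k p W' S ∧ Neg W' S k ∧ ∀ q ∈ L, ∃ d, Ex k W' q.1 q.2 d := by
  induction L with
  | nil =>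
    intro W hW hP hN _
    exact ⟨W, fun _ _ _ _ h => h, fun _ _ _ _ h => Or.inl h, hW, hP, hN, by simp⟩
  | cons q L ih =>
    intro W hW hP hN hL
    obtain ⟨h1, h2, h3⟩ := hL q (by simp)
    obtain ⟨W1, e1, e2, e3, e4, e5, d, e6⟩ := fix_one hk hW hP hN h1 h2 h3
    obtain ⟨W2, f1, f2, f3, f4, f5, f6⟩ := ih e3 e4 e5 (fun q' hq' => hL q' (by simp [hq']))
    refine ⟨W2, fun a b x l h => f1 _ _ _ _ (e1 _ _ _ _ h), ?_, f3, f4, f5, ?_⟩
    · intro a b x l h
      rcases f2 a b x l h with h | h | h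
      · rcases e2 a b x l h with h | ⟨rfl, rfl⟩ | ⟨rfl, rfl⟩
        · exact Or.inl h
        · right; left; simp
        · right; right; simp
      · right; left; simp [h]
      · right; right; simp [h]
    · intro q' hq'
      rcases List.mem_cons.mp hq' with rfl | hq'
      · exact ⟨d, e6.1, fun x hx => f1 _ _ _ _ (e6.2.1 x hx), fun x hx => f1 _ _ _ _ (e6.2.2 x hx)⟩
      · exact f6 q' hq'

/-- for a fitting map, exact pairs have the exact distance -/
theorem Fit.exact {φ : V → Fin k → Bool} {W : V → V → ℤ → ℕ → Prop} {S : Finset V} (h : Fit φ W S) {a b : V}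
    (ha : a ∈ S) (hb : b ∈ S) {d : ℕ} (hE : Ex k W a b d) : hammingDist (φ a) (φ b) = d := by
  have h1 := h a ha b hb 0 d (hE.2.1 0 ⟨0, by ring⟩)
  have h2 := h a ha b hb 1 (k - d) (hE.2.2 1 odd_one)
  rw [sd_zero] at h1
  have h3 := sd_odd odd_one (φ a) (φ b)
  have := hE.1
  omega

/-- in a rooted graph the exact distances are those of the root -/
theorem rt_exact {φ ψ : V → Fin k → Bool} {W : V → V → ℤ → ℕ → Prop} {S T : Finset V} (h : Fit ψ (RT W T φ) S)
    {a b : V} (ha : a ∈ S) (hb : b ∈ S) (haT : a ∈ T) (hbT : b ∈ T) :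
    hammingDist (ψ a) (ψ b) = hammingDist (φ a) (φ b) := by
  by_cases hab : a = b
  · subst hab; rw [hammingDist_self, hammingDist_self]
  · have h1 := h a ha b hb 0 _ (Or.inr ⟨haT, hbT, hab, rfl⟩)
    have h2 := h a ha b hb 1 _ (Or.inr ⟨haT, hbT, hab, rfl⟩)
    rw [sd_zero, sd_zero] at h1
    have h3 := sd_odd odd_one (ψ a) (ψ b)
    have h4 := sd_odd odd_one (φ a) (φ b)
    omega

end Pool.Agent.H875
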